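import Mathlib
import Pool.Agent.Lib.MP_fbbbeb_an.Pub

/-! Polar coordinates, integration by parts on the sphere, invariance of the sphere integral. -/

set_option autoImplicit false

noncomputable section

namespace Pool.Agent.Lib.MP_fbbbeb_an.Sph

open Pool.Agent.Lib.MP_fbbbeb_an.Pub MeasureTheory Set Filter Metric
open scoped ContDiff Topology RealInnerProductSpace

/-- surface measure -/
abbrev sg : Measure (sphere (0 : E) 1) := (volume : Measure E).toSphere

theorem sph_def (f : E → ℝ) : sph f = ∫ y : sphere (0 : E) 1, f y ∂sg := rfl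

theorem sp_ne (y : sphere (0 : E) 1) : (y : E) ≠ 0 := ne_zero_of_mem_unit_sphere y

theorem sp_norm (y : sphere (0 : E) 1) : ‖(y : E)‖ = 1 := norm_eq_of_mem_sphere y

theorem sph_congr {f g : E → ℝ} (h : ∀ y : E, ‖y‖ = 1 → f y = g y) : sph f = sph g := by
  unfold sph
  congr 1
  funext y
  exact h y (sp_norm y)

theorem cont_sp {F : Type*} [TopologicalSpace F] {f : E → F} (hf : ContinuousOn f {0}ᶜ) :
    Continuous fun y : sphere (0 : E) 1 => f y :=
  hf.comp_continuous continuous_subtype_val fun y => sp_ne y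

theorem int_sp {f : E → ℝ} (hf : ContinuousOn f {0}ᶜ) :
    Integrable (fun y : sphere (0 : E) 1 => f y) sg :=
  (cont_sp hf).integrable_of_hasCompactSupport (HasCompactSupport.of_compactSpace _)

theorem sph_add {f g : E → ℝ} (hf : ContinuousOn f {0}ᶜ) (hg : ContinuousOn g {0}ᶜ) :
    sph (fun y => f y + g y) = sph f + sph g := integral_add (int_sp hf) (int_sp hg)

theorem sph_sub {f g : E → ℝ} (hf : ContinuousOn f {0}ᶜ) (hg : ContinuousOn g {0}ᶜ) :
    sph (fun y => f y - g y) = sph f - sph g := integral_sub (int_sp hf) (int_sp hg)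

theorem sph_const_mul (c : ℝ) (f : E → ℝ) : sph (fun y => c * f y) = c * sph f :=
  integral_const_mul c _

theorem sph_neg (f : E → ℝ) : sph (fun y => -f y) = -sph f := integral_neg _

theorem sph_sum {ι : Type*} (s : Finset ι) {f : ι → E → ℝ} (hf : ∀ i ∈ s, ContinuousOn (f i) {0}ᶜ) :
    sph (fun y => ∑ i ∈ s, f i y) = ∑ i ∈ s, sph (f i) :=
  integral_finsetSum s fun i hi => int_sp (hf i hi)

theorem sph_mono {f g : E → ℝ} (hf : ContinuousOn f {0}ᶜ) (hg : ContinuousOn g {0}ᶜ)
    (h : ∀ y : E, ‖y‖ = 1 → f y ≤ g y) : sph f ≤ sph g :=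
  integral_mono (int_sp hf) (int_sp hg) fun y => h y (sp_norm y)

theorem sph_nonneg {f : E → ℝ} (h : ∀ y : E, ‖y‖ = 1 → 0 ≤ f y) : 0 ≤ sph f :=
  integral_nonneg fun y => h y (sp_norm y)

/-- polar coordinates -/
theorem polar {f : E → ℝ} (hf : Integrable f) :
    ∫ x, f x = sph fun y => ∫ r in Ioi (0 : ℝ), r ^ 2 * f (r • y) := by
  have hm := (volume : Measure E).measurePreserving_homeomorphUnitSphereProd
  have hd : Module.finrank ℝ E - 1 = 2 := by simp
  rw [hd] at hm
  let g : sphere (0 : E) 1 × Ioi (0 : ℝ) → ℝ := fun q => f ((q.2 : ℝ) • (q.1 : E))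
  have hg : ∀ x : ({0}ᶜ : Set E), g (homeomorphUnitSphereProd E x) = f x := by
    intro x
    have hx : ‖(x : E)‖ ≠ 0 := norm_ne_zero_iff.2 x.2
    simp [g, smul_smul, hx]
  have e1 : ∫ x, f x = ∫ x : ({0}ᶜ : Set E), f x ∂((volume : Measure E).comap (↑)) := by
    rw [integral_subtype_comap (measurableSet_singleton _).compl f, restrict_compl_singleton]
  have hi : Integrable g (sg.prod (Measure.volumeIoiPow 2)) := by
    rw [← hm.integrable_comp_emb (Homeomorph.measurableEmbedding _)]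
    have : g ∘ (homeomorphUnitSphereProd E) = f ∘ Subtype.val := funext hg
    rw [this, ← integrableOn_iff_comap_subtypeVal (measurableSet_singleton _).compl]
    exact hf.integrableOn
  rw [e1, ← funext hg, hm.integral_comp (Homeomorph.measurableEmbedding _) g, integral_prod g hi]
  unfold sph
  congr 1
  funext y
  simp only [Measure.volumeIoiPow, ENNReal.ofReal, g]
  rw [integral_withDensity_eq_integral_smul,
    integral_subtype_comap measurableSet_Ioi fun a : ℝ => Real.toNNReal (a ^ 2) • f (a • (y : E)),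
    setIntegral_congr_fun measurableSet_Ioi fun x hx => ?_]
  · rw [NNReal.smul_def, Real.coe_toNNReal _ (pow_nonneg hx.out.le _), smul_eq_mul]
  · exact (measurable_subtype_coe.pow_const _).real_toNNReal

/-- the radial cut-off, supported in `[1, 3]` -/
def bp : ContDiffBump (2 : ℝ) := ⟨1 / 2, 1, by norm_num, by norm_num⟩

def ch (s : ℝ) : ℝ := bp s

theorem ch_smooth : ContDiff ℝ ∞ ch := bp.contDiff

theorem ch_zero {s : ℝ} (h : s ≤ 1 ∨ 3 ≤ s) : ch s = 0 := by
  apply bp.zero_of_le_dist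
  show (1 : ℝ) ≤ dist s 2
  rw [Real.dist_eq]
  rcases h with h | h
  · rw [abs_of_nonpos (by linarith)]; linarith
  · rw [abs_of_nonneg (by linarith)]; linarith

theorem ch_nonneg (s : ℝ) : 0 ≤ ch s := bp.nonneg

theorem ch_two : ch 2 = 1 := bp.one_of_mem_closedBall (by simp [bp])

theorem dch_zero {s : ℝ} (h : s < 1 ∨ 3 < s) : deriv ch s = 0 := by
  have : ch =ᶠ[𝓝 s] fun _ => 0 := by
    rcases h with h | h
    · filter_upwards [Iio_mem_nhds h] with x hx using ch_zero (Or.inl (le_of_lt hx))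
    · filter_upwards [Ioi_mem_nhds h] with x hx using ch_zero (Or.inr (le_of_lt hx))
  rw [this.deriv_eq]; simp

theorem dch_cont : Continuous (deriv ch) := ch_smooth.continuous_deriv (by simp)

theorem ch_has (s : ℝ) : HasDerivAt ch (deriv ch s) s :=
  (ch_smooth.differentiable (by simp) s).hasDerivAt

theorem int_rad {ψ : ℝ → ℝ} (hc : Continuous ψ) (h0 : ∀ s, s < 1 ∨ 3 < s → ψ s = 0) (k : ℤ) :
    IntegrableOn (fun r : ℝ => ψ (r ^ 2) * r ^ k) (Ioi 0) := by
  have h1 : IntegrableOn (fun r : ℝ => ψ (r ^ 2) * r ^ k) (Icc 1 2) := by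
    apply ContinuousOn.integrableOn_Icc
    refine (hc.comp (continuous_pow 2)).continuousOn.mul (continuousOn_id.zpow₀ k fun r hr => ?_)
    left
    have := hr.1
    simp only [id]; linarith
  refine h1.of_forall_sdiff_eq_zero measurableSet_Ioi fun r hr => ?_
  have h2 : (0 : ℝ) < r := hr.1
  have h3 := hr.2
  rw [mem_Icc, not_and_or, not_le, not_le] at h3
  rw [h0, zero_mul]
  rcases h3 with h | h
  · left; nlinarith
  · right; nlinarith

theorem rad_pos (k : ℤ) : 0 < ∫ r in Ioi (0 : ℝ), ch (r ^ 2) * r ^ k := by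
  have hi := int_rad ch_smooth.continuous (fun s h => ch_zero (h.imp le_of_lt le_of_lt)) k
  rw [setIntegral_pos_iff_support_of_nonneg_ae _ hi]
  · have hc : ContinuousAt (fun r : ℝ => ch (r ^ 2) * r ^ k) (Real.sqrt 2) :=
      (ch_smooth.continuous.comp (continuous_pow 2)).continuousAt.mul
        (continuousAt_id.zpow₀ k (Or.inl (by simp)))
    have h2 : ch (Real.sqrt 2 ^ 2) * Real.sqrt 2 ^ k ≠ 0 := by
      rw [Real.sq_sqrt (by norm_num), ch_two, one_mul]
      exact zpow_ne_zero _ (by simp)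
    exact Measure.measure_pos_of_mem_nhds (volume : Measure ℝ) (x := Real.sqrt 2)
      (inter_mem (hc.eventually_ne h2) (Ioi_mem_nhds (by simp)))
  · filter_upwards [ae_restrict_mem measurableSet_Ioi] with r hr
    exact mul_nonneg (ch_nonneg _) (zpow_nonneg (le_of_lt hr) _)

theorem rad_ibp (d : ℤ) : ∫ r in Ioi (0 : ℝ), 2 * (deriv ch (r ^ 2) * r ^ (d + 3)) =
    -((d : ℝ) + 2) * ∫ r in Ioi (0 : ℝ), ch (r ^ 2) * r ^ (d + 1) := by
  have i1 := (int_rad dch_cont (fun s h => dch_zero h) (d + 3)).const_mul 2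
  have i2 := (int_rad ch_smooth.continuous (fun s h => ch_zero (h.imp le_of_lt le_of_lt))
    (d + 1)).const_mul ((d : ℝ) + 2)
  have z0 : (fun r : ℝ => ch (r ^ 2) * r ^ (d + 2)) =ᶠ[𝓝 0] fun _ => 0 := by
    filter_upwards [Ioo_mem_nhds (show (-1 : ℝ) < 0 by norm_num) (show (0 : ℝ) < 1 by norm_num)]
      with r hr
    rw [ch_zero (Or.inl (by nlinarith [hr.1, hr.2])), zero_mul]
  have z1 : (fun r : ℝ => ch (r ^ 2) * r ^ (d + 2)) =ᶠ[atTop] fun _ => 0 := by
    filter_upwards [eventually_ge_atTop (2 : ℝ)] with r hr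
    rw [ch_zero (Or.inr (by nlinarith)), zero_mul]
  have h := integral_Ioi_of_hasDerivAt_of_tendsto (a := 0) (m := 0)
    (f := fun r : ℝ => ch (r ^ 2) * r ^ (d + 2))
    (f' := fun r : ℝ => 2 * (deriv ch (r ^ 2) * r ^ (d + 3)) + ((d : ℝ) + 2) * (ch (r ^ 2) * r ^ (d + 1)))
    (continuousAt_const.congr z0.symm).continuousWithinAt ?_ (i1.add i2)
    (tendsto_const_nhds.congr' z1.symm)
  · rw [integral_add i1 i2, integral_const_mul ((d : ℝ) + 2), z0.eq_of_nhds] at h
    linarith
  · intro r hr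
    have hr0 : r ≠ 0 := ne_of_gt hr
    have a := ((ch_has (r ^ 2)).comp r (hasDerivAt_pow 2 r)).mul (hasDerivAt_zpow (d + 2) r (Or.inl hr0))
    refine a.congr_deriv ?_
    have e1 : r ^ (d + 3) = r * r ^ (d + 2) := by
      rw [show d + 3 = 1 + (d + 2) by ring, zpow_add₀ hr0, zpow_one]
    have e2 : d + 2 - 1 = d + 1 := by ring
    simp only [Function.comp, e1, e2]
    push_cast
    ring

/-- the derivative of a homogeneous function is homogeneous -/
theorem fderiv_hom {F : Type*} [NormedAddCommGroup F] [NormedSpace ℝ F] {f : E → F} {d : ℤ}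
    (hf : ∀ x : E, x ≠ 0 → DifferentiableAt ℝ f x)
    (hh : ∀ x : E, x ≠ 0 → ∀ s : ℝ, 0 < s → f (s • x) = s ^ d • f x) {x : E} (hx : x ≠ 0) {s : ℝ}
    (hs : 0 < s) : fderiv ℝ f (s • x) = s ^ (d - 1) • fderiv ℝ f x := by
  have h1 : HasFDerivAt (fun y => f (s • y))
      ((fderiv ℝ f (s • x)).comp (s • ContinuousLinearMap.id ℝ E)) x :=
    (hf _ (smul_ne_zero hs.ne' hx)).hasFDerivAt.comp x ((hasFDerivAt_id x).const_smul s)
  have h2 : HasFDerivAt (fun y => f (s • y)) (s ^ d • fderiv ℝ f x) x := by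
    refine ((hf x hx).hasFDerivAt.const_smul (s ^ d)).congr_of_eventuallyEq ?_
    filter_upwards [isOpen_compl_singleton.mem_nhds hx] with y hy using hh y hy s hs
  have := h1.unique h2
  ext1 k
  have h3 := congrArg (fun A : E →L[ℝ] F => A k) this
  simp only [ContinuousLinearMap.comp_apply, smul_apply,
    ContinuousLinearMap.id_apply, map_smul] at h3
  apply smul_right_injective F hs.ne'
  simp only [smul_apply]
  rw [h3, smul_smul, zpow_sub₀ hs.ne', zpow_one, mul_div_cancel₀ _ hs.ne']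

/-- cut-off of a function that is continuous off the origin -/
theorem int_cut {ψ : ℝ → ℝ} (hc : Continuous ψ) (h0 : ∀ s, s < 1 ∨ 3 < s → ψ s = 0) {f : E → ℝ}
    (hf : ContinuousOn f {0}ᶜ) : Integrable fun x : E => ψ (‖x‖ ^ 2) * f x := by
  have hK : IsCompact (closedBall (0 : E) 2 \ ball 0 1) := (isCompact_closedBall _ _).diff isOpen_ball
  have h1 : IntegrableOn (fun x : E => ψ (‖x‖ ^ 2) * f x) (closedBall (0 : E) 2 \ ball 0 1) := by
    apply ContinuousOn.integrableOn_compact hK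
    refine (hc.comp (continuous_norm.pow 2)).continuousOn.mul (hf.mono fun x hx h => ?_)
    exact hx.2 (by rw [mem_singleton_iff.1 h]; simp)
  refine h1.integrable_of_forall_notMem_eq_zero fun x hx => ?_
  rw [Set.mem_sdiff, not_and_or, not_not, mem_closedBall_zero_iff, mem_ball_zero_iff, not_le] at hx
  rw [h0, zero_mul]
  rcases hx with h | h
  · right; nlinarith
  · left; nlinarith [norm_nonneg x]

/-- integration by parts on the sphere, one direction -/
theorem ibp_dir {f : E → ℝ} {d : ℤ} (hf : ContDiffOn ℝ 1 f {0}ᶜ)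
    (hh : ∀ x : E, x ≠ 0 → ∀ s : ℝ, 0 < s → f (s • x) = s ^ d * f x) (v : E) :
    sph (fun y => fderiv ℝ f y v) = ((d : ℝ) + 2) * sph fun y => ⟪y, v⟫ * f y := by
  have hd : ∀ x : E, x ≠ 0 → DifferentiableAt ℝ f x := fun x hx =>
    (hf.contDiffAt (isOpen_compl_singleton.mem_nhds hx)).differentiableAt (by simp)
  have c0 : ContinuousOn f {0}ᶜ := hf.continuousOn
  have c1 : ContinuousOn (fun y => fderiv ℝ f y v) {0}ᶜ :=
    (hf.continuousOn_fderiv_of_isOpen isOpen_compl_singleton le_rfl).clm_apply continuousOn_const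
  have c2 : ContinuousOn (fun y : E => ⟪y, v⟫ * f y) {0}ᶜ :=
    (continuous_id.inner continuous_const).continuousOn.mul c0
  have z : ∀ s, s < 1 ∨ 3 < s → ch s = 0 := fun s h => ch_zero (h.imp le_of_lt le_of_lt)
  let W : E → ℝ := fun x => ch (‖x‖ ^ 2) * f x
  let W' : E → ℝ := fun x => 2 * (deriv ch (‖x‖ ^ 2) * (⟪x, v⟫ * f x)) + ch (‖x‖ ^ 2) * fderiv ℝ f x v
  have i1 := (int_cut dch_cont (fun s h => dch_zero h) c2).const_mul 2
  have i2 := int_cut ch_smooth.continuous z c1
  have iW : Integrable W := int_cut ch_smooth.continuous z c0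
  have iW' : Integrable W' := i1.add i2
  have hW : ∀ x, HasLineDerivAt ℝ W (W' x) x v := by
    intro x
    by_cases hx : x = 0
    · have e : W =ᶠ[𝓝 x] fun _ => 0 := by
        subst hx
        filter_upwards [ball_mem_nhds (0 : E) one_pos] with y hy
        rw [mem_ball_zero_iff] at hy
        simp only [W]
        rw [ch_zero (Or.inl (by nlinarith [norm_nonneg y])), zero_mul]
      have e2 : W' x = (0 : E →L[ℝ] ℝ) v := by
        subst hx
        simp [W', ch_zero (Or.inl zero_le_one)]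
      rw [e2]
      exact ((hasFDerivAt_const (0 : ℝ) x).congr_of_eventuallyEq e).hasLineDerivAt v
    · have a := (((ch_has (‖x‖ ^ 2)).comp_hasFDerivAt x
        (hasStrictFDerivAt_norm_sq x).hasFDerivAt).mul (hd x hx).hasFDerivAt).hasLineDerivAt v
      have e : W' x = (((ch ∘ fun x : E => ‖x‖ ^ 2) x • fderiv ℝ f x +
          f x • deriv ch (‖x‖ ^ 2) • 2 • (innerSL ℝ) x : E →L[ℝ] ℝ)) v := by
        simp [W']
        ring
      rw [e]
      exact a
  have h0 : ∫ x, W' x = 0 := by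
    have := integral_bilinear_hasLineDerivAt_right_eq_neg_left_of_integrable (μ := (volume : Measure E))
      (f := fun _ : E => (1 : ℝ)) (f' := fun _ => (0 : ℝ)) (g := W) (g' := W') (v := v)
      (B := ContinuousLinearMap.mul ℝ ℝ) (by simp) (by simpa using iW') (by simpa using iW)
      (fun x _ => by simpa using (hasFDerivAt_const (1 : ℝ) x).hasLineDerivAt v) fun x _ => hW x
    simpa using this
  rw [polar iW'] at h0
  set b := ∫ r in Ioi (0 : ℝ), ch (r ^ 2) * r ^ (d + 1) with hb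
  have hb0 : 0 < b := rad_pos _
  have e : (sph fun y => ∫ r in Ioi (0 : ℝ), r ^ 2 * W' (r • y)) =
      sph fun y => b * (fderiv ℝ f y v - ((d : ℝ) + 2) * (⟪y, v⟫ * f y)) := by
    apply sph_congr
    intro y hy
    have hy0 : y ≠ 0 := by rintro rfl; simp at hy
    have j1 := ((int_rad dch_cont (fun s h => dch_zero h) (d + 3)).const_mul 2).mul_const (⟪y, v⟫ * f y)
    have j2 := (int_rad ch_smooth.continuous z (d + 1)).mul_const (fderiv ℝ f y v)
    rw [setIntegral_congr_fun (g := fun r : ℝ => 2 * (deriv ch (r ^ 2) * r ^ (d + 3)) * (⟪y, v⟫ * f y) +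
      ch (r ^ 2) * r ^ (d + 1) * fderiv ℝ f y v) measurableSet_Ioi, integral_add j1 j2,
      integral_mul_const, integral_mul_const, rad_ibp, ← hb]
    · ring
    · intro r hr
      have hr0 : 0 < r := hr
      have e1 : r ^ (d + 3) = r ^ 3 * r ^ d := by
        rw [add_comm, zpow_add₀ hr0.ne']; norm_cast
      have e2 : r ^ (d + 1) = r ^ 2 * r ^ (d - 1) := by
        rw [show d + 1 = 2 + (d - 1) by ring, zpow_add₀ hr0.ne']; norm_cast
      simp only [W', norm_smul, hy, mul_one, Real.norm_eq_abs, sq_abs, hh y hy0 r hr0,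
        fderiv_hom hd hh hy0 hr0, real_inner_smul_left, smul_apply, smul_eq_mul,
        e1, e2]
      ring
  rw [e, sph_const_mul, sph_sub (g := fun y => ((d : ℝ) + 2) * (⟪y, v⟫ * f y)) c1
    (continuousOn_const.mul c2), sph_const_mul] at h0
  have := (mul_eq_zero.1 h0).resolve_left hb0.ne'
  linarith

theorem dvg_eq (V : E → E) (x : E) :
    dvg V x = ∑ i, fderiv ℝ V x (EuclideanSpace.single i 1) i := by
  unfold dvg tr
  rw [LinearMap.trace_eq_sum_inner _ (EuclideanSpace.basisFun (Fin 3) ℝ)]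
  simp [EuclideanSpace.inner_single_left]

/-- integration by parts on the sphere, components -/
theorem ibp_comp {V : Fin 3 → E → ℝ} {d : ℤ} (hV : ∀ i, ContDiffOn ℝ 1 (V i) {0}ᶜ)
    (hh : ∀ i, ∀ x : E, x ≠ 0 → ∀ s : ℝ, 0 < s → V i (s • x) = s ^ d * V i x) :
    sph (fun y => ∑ i, fderiv ℝ (V i) y (EuclideanSpace.single i 1)) =
      ((d : ℝ) + 2) * sph fun y => ∑ i, y i * V i y := by
  rw [sph_sum, sph_sum, Finset.mul_sum]
  · refine Finset.sum_congr rfl fun i _ => ?_
    rw [ibp_dir (hV i) (hh i)]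
    simp [EuclideanSpace.inner_single_right]
  · intro i _
    exact (by fun_prop : Continuous fun y : E => y i).continuousOn.mul (hV i).continuousOn
  · intro i _
    exact ((hV i).continuousOn_fderiv_of_isOpen isOpen_compl_singleton le_rfl).clm_apply
      continuousOn_const

/-- integration by parts on the sphere -/
theorem ibp {V : E → E} {d : ℤ} (hV : ContDiffOn ℝ 1 V {0}ᶜ)
    (hh : ∀ x : E, x ≠ 0 → ∀ s : ℝ, 0 < s → V (s • x) = s ^ d • V x) :
    sph (dvg V) = ((d : ℝ) + 2) * sph fun y => ⟪y, V y⟫ := by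
  have h := ibp_comp (V := fun i x => V x i) (d := d)
    (fun i => (EuclideanSpace.proj i : E →L[ℝ] ℝ).contDiff.comp_contDiffOn hV)
    (fun i x hx s hs => by simp [hh x hx s hs])
  have e1 : sph (dvg V) =
      sph fun y => ∑ i, fderiv ℝ (fun x => V x i) y (EuclideanSpace.single i 1) := by
    apply sph_congr
    intro y hy
    have hy0 : y ≠ 0 := by rintro rfl; simp at hy
    have hd : DifferentiableAt ℝ V y :=
      (hV.contDiffAt (isOpen_compl_singleton.mem_nhds hy0)).differentiableAt (by simp)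
    rw [dvg_eq]
    refine Finset.sum_congr rfl fun i _ => ?_
    have := ((EuclideanSpace.proj i : E →L[ℝ] ℝ).hasFDerivAt.comp y hd.hasFDerivAt).fderiv
    rw [show (fun x => V x i) = (EuclideanSpace.proj i : E →L[ℝ] ℝ) ∘ V from rfl, this]
    rfl
  rw [e1, h]
  congr 2
  funext y
  simp [PiLp.inner_apply, mul_comm]

theorem rad_scale {a : ℝ} (ha : 0 < a) :
    ∫ r in Ioi (0 : ℝ), ch ((a * r) ^ 2) * r ^ (-1 : ℤ) =
      ∫ r in Ioi (0 : ℝ), ch (r ^ 2) * r ^ (-1 : ℤ) := by
  have h := integral_comp_mul_left_Ioi' (fun r : ℝ => ch (r ^ 2) * r ^ (-1 : ℤ)) 0 ha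
  rw [mul_zero] at h
  rw [← h, smul_eq_mul, ← integral_const_mul]
  refine setIntegral_congr_fun measurableSet_Ioi fun r hr => ?_
  have hr0 : (0 : ℝ) < r := hr
  simp only [zpow_neg, zpow_one]
  field_simp

/-- invariance of the integral of a function of degree `-3` under a homogeneous bijection -/
theorem inv {X : E → E} {h : E → ℝ} (hX : ∀ x : E, x ≠ 0 → DifferentiableAt ℝ X x)
    (hXh : ∀ x : E, x ≠ 0 → ∀ s : ℝ, 0 < s → X (s • x) = s • X x)
    (hb : BijOn X {0}ᶜ {0}ᶜ) (hc : ContinuousOn h {0}ᶜ)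
    (hh : ∀ x : E, x ≠ 0 → ∀ s : ℝ, 0 < s → h (s • x) = s ^ (-3 : ℤ) * h x) :
    sph (fun y => h (X y) * |(fderiv ℝ X y).det|) = sph h := by
  have z : ∀ s, s < 1 ∨ 3 < s → ch s = 0 := fun s h => ch_zero (h.imp le_of_lt le_of_lt)
  let g : E → ℝ := fun x => ch (‖x‖ ^ 2) * h x
  have ig : Integrable g := int_cut ch_smooth.continuous z hc
  have hm : MeasurableSet ({0}ᶜ : Set E) := (measurableSet_singleton _).compl
  have hD : ∀ x ∈ ({0}ᶜ : Set E), HasFDerivWithinAt X (fderiv ℝ X x) {0}ᶜ x := fun x hx =>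
    (hX x hx).hasFDerivAt.hasFDerivWithinAt
  have e1 := integral_image_eq_integral_abs_det_fderiv_smul volume hm hD hb.injOn g
  have i1 := (integrableOn_image_iff_integrableOn_abs_det_fderiv_smul volume hm hD hb.injOn g).1
    ig.integrableOn
  rw [IntegrableOn, restrict_compl_singleton] at i1
  rw [hb.image_eq, restrict_compl_singleton, polar ig, polar i1] at e1
  set b := ∫ r in Ioi (0 : ℝ), ch (r ^ 2) * r ^ (-1 : ℤ) with hb'
  have hb0 : 0 < b := rad_pos _
  have p3 : ∀ r : ℝ, 0 < r → r ^ 2 * r ^ (-3 : ℤ) = r ^ (-1 : ℤ) := by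
    intro r hr
    rw [show (-1 : ℤ) = 2 + -3 by norm_num, zpow_add₀ hr.ne']; norm_cast
  have e2 : (sph fun y => ∫ r in Ioi (0 : ℝ), r ^ 2 * g (r • y)) = sph fun y => b * h y := by
    apply sph_congr
    intro y hy
    have hy0 : y ≠ 0 := by rintro rfl; simp at hy
    rw [hb', ← integral_mul_const]
    refine setIntegral_congr_fun measurableSet_Ioi fun r hr => ?_
    have hr0 : (0 : ℝ) < r := hr
    simp only [g, norm_smul, hy, mul_one, Real.norm_eq_abs, sq_abs, hh y hy0 r hr0, ← p3 r hr0]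
    ring
  have e3 : (sph fun y => ∫ r in Ioi (0 : ℝ), r ^ 2 * (|(fderiv ℝ X (r • y)).det| • g (X (r • y)))) =
      sph fun y => b * (h (X y) * |(fderiv ℝ X y).det|) := by
    apply sph_congr
    intro y hy
    have hy0 : y ≠ 0 := by rintro rfl; simp at hy
    have hX0 : X y ≠ 0 := hb.mapsTo hy0
    rw [hb', ← rad_scale (norm_pos_iff.2 hX0), ← integral_mul_const]
    refine setIntegral_congr_fun measurableSet_Ioi fun r hr => ?_
    have hr0 : (0 : ℝ) < r := hr
    have hf := fderiv_hom (d := 1) hX (fun x hx s hs => by rw [zpow_one]; exact hXh x hx s hs) hy0 hr0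
    simp only [sub_self, zpow_zero, one_smul] at hf
    simp only [g, hf, hXh y hy0 r hr0, norm_smul, Real.norm_eq_abs, abs_of_pos hr0,
      hh _ hX0 r hr0, ← p3 r hr0, smul_eq_mul, mul_comm ‖X y‖ r]
    ring
  rw [e2, e3, sph_const_mul, sph_const_mul] at e1
  exact (mul_left_cancel₀ hb0.ne' e1).symm

/-- a linear isometry acting on the sphere -/
def spMap (O : E ≃ₗᵢ[ℝ] E) : sphere (0 : E) 1 ≃ₜ sphere (0 : E) 1 where
  toFun y := ⟨O y, by simp⟩
  invFun y := ⟨O.symm y, by simp⟩
  left_inv y := by simp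
  right_inv y := by simp
  continuous_toFun := (O.continuous.comp continuous_subtype_val).subtype_mk _
  continuous_invFun := (O.symm.continuous.comp continuous_subtype_val).subtype_mk _

@[simp] theorem spMap_coe (O : E ≃ₗᵢ[ℝ] E) (y : sphere (0 : E) 1) : (spMap O y : E) = O y := rfl

open Pointwise in
theorem mp_iso (O : E ≃ₗᵢ[ℝ] E) : MeasurePreserving (spMap O) sg sg := by
  refine ⟨(spMap O).measurable, Measure.ext fun s hs => ?_⟩
  rw [Measure.map_apply (spMap O).measurable hs, Measure.toSphere_apply' _ hs,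
    Measure.toSphere_apply' _ ((spMap O).measurable hs),
    ← O.measurePreserving.measure_preimage_emb O.toHomeomorph.measurableEmbedding
      (Ioo (0 : ℝ) 1 • ((↑) '' s : Set E))]
  congr 2
  ext x
  constructor
  · rintro ⟨r, hr, _, ⟨y, hy, rfl⟩, rfl⟩
    exact ⟨r, hr, _, ⟨spMap O y, hy, rfl⟩, by simp⟩
  · rintro ⟨r, hr, _, ⟨y, hy, rfl⟩, h⟩
    refine ⟨r, hr, _, ⟨(spMap O).symm y, by simpa using hy, rfl⟩, O.injective ?_⟩
    rw [← h]
    simp [spMap]

/-- invariance under linear isometries, for any integrand -/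
theorem int_iso {F : Type*} [NormedAddCommGroup F] [NormedSpace ℝ F] (O : E ≃ₗᵢ[ℝ] E) (f : E → F) :
    ∫ y : sphere (0 : E) 1, f (O y) ∂sg = ∫ y : sphere (0 : E) 1, f y ∂sg :=
  (mp_iso O).integral_comp (spMap O).measurableEmbedding fun y => f y

theorem sph_iso (O : E ≃ₗᵢ[ℝ] E) (f : E → ℝ) : sph (fun y => f (O y)) = sph f := int_iso O f

theorem integrable_iso {F : Type*} [NormedAddCommGroup F] (O : E ≃ₗᵢ[ℝ] E) (f : E → F) :
    Integrable (fun y : sphere (0 : E) 1 => f (O y)) sg ↔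
      Integrable (fun y : sphere (0 : E) 1 => f y) sg :=
  (mp_iso O).integrable_comp_emb (spMap O).measurableEmbedding (g := fun y => f y)

theorem sph_one_pos : 0 < sph fun _ => 1 := by
  rw [sph_def, integral_const, smul_eq_mul, mul_one, Measure.toSphere_real_apply_univ]
  exact mul_pos (by simp) (ENNReal.toReal_pos (measure_ball_pos _ _ one_pos).ne' measure_ball_lt_top.ne)

/-- a continuous nonnegative function with zero integral vanishes on the sphere -/
theorem eq_zero_of_sph {f : E → ℝ} (hf : ContinuousOn f {0}ᶜ) (h0 : ∀ y : E, ‖y‖ = 1 → 0 ≤ f y)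
    (h : sph f = 0) (y : E) (hy : ‖y‖ = 1) : f y = 0 := by
  have h1 := (integral_eq_zero_iff_of_nonneg (f := fun y : sphere (0 : E) 1 => f y)
    (fun y => h0 y (sp_norm y)) (int_sp hf)).1 h
  have h2 := (Continuous.ae_eq_iff_eq sg (cont_sp hf) continuous_const).1 h1
  exact congrFun h2 ⟨y, by simpa using hy⟩

end Pool.Agent.Lib.MP_fbbbeb_an.Sph
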