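import Pool.Agent.Lib.MP_fbbbeb_an.B.Defs
import Pool.Agent.Lib.MP_fbbbeb_an.B.Sph

/-! Section B, group S2: change of variables on the sphere. -/

set_option autoImplicit false

namespace Pool.Agent.Lib.MP_fbbbeb_an.B

open scoped ContDiff RealInnerProductSpace Nat Topology
open Set Pub MeasureTheory

variable {M : Set (E ≃ₗᵢ[ℝ] E)} {f : E → ℝ}

namespace Chg

theorem da {X : E → E} (hX : ∀ i, Hm 1 fun a => X a i) {a : E} (ha : a ≠ 0) :
    DifferentiableAt ℝ X a :=
  differentiableAt_euclidean.2 fun i =>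
    ((hX i).sm.contDiffAt (isOpen_compl_singleton.mem_nhds ha)).differentiableAt (by simp)

theorem jac_apply {X : E → E} {a : E} (h : DifferentiableAt ℝ X a) (i j : Fin 3) :
    jac X a i j = fderiv ℝ X a (e j) i := by
  have := ((EuclideanSpace.proj i : E →L[ℝ] ℝ).hasFDerivAt.comp a h.hasFDerivAt).fderiv
  show fderiv ℝ ((EuclideanSpace.proj i : E →L[ℝ] ℝ) ∘ X) a (e j) = _
  rw [this]
  rfl

theorem det_jac {X : E → E} {a : E} (h : DifferentiableAt ℝ X a) :
    (jac X a).det = (fderiv ℝ X a).det := by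
  rw [ContinuousLinearMap.det,
    ← LinearMap.det_toMatrix (EuclideanSpace.basisFun (Fin 3) ℝ).toBasis]
  congr 1
  ext i j
  rw [jac_apply h, LinearMap.toMatrix_apply]
  simp [e]

end Chg

theorem sph_dif {X : E → E} (hX : Dif M X) (hf : Hm (-3) f) :
    sph (fun a => f (X a) * (jac X a).det) = sph f := by
  have h := Sph.inv (X := X) (h := f) (fun x hx => Chg.da hX.hm hx)
    (fun x hx s hs => by
      ext i
      simpa using (hX.hm i).hom s hs x hx) hX.bij hf.sm.continuousOn
    fun x hx s hs => hf.hom s hs x hx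
  refine (Sph.sph_congr fun y hy => ?_).trans h
  have hy0 : y ≠ 0 := by rintro rfl; simp at hy
  rw [← Chg.det_jac (Chg.da hX.hm hy0), abs_of_pos (hX.pos y hy0)]

end Pool.Agent.Lib.MP_fbbbeb_an.B
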