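import Pool.Agent.Lib.MP_fbbbeb_an.Pub

/-! Section B (base solver): definitions. -/

set_option autoImplicit false

namespace Pool.Agent.Lib.MP_fbbbeb_an.B

open scoped ContDiff RealInnerProductSpace Nat
open Set Pub

/-- basis vector -/
noncomputable def e (i : Fin 3) : E := EuclideanSpace.single i 1

/-- partial derivative in space -/
noncomputable def pd (i : Fin 3) (f : E → ℝ) (x : E) : ℝ := fderiv ℝ f x (e i)

/-- Laplacian -/
noncomputable def lap (f : E → ℝ) (x : E) : ℝ := ∑ i, pd i (pd i f) x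

/-- smooth off the origin and homogeneous of degree `d` -/
structure Hm (d : ℤ) (f : E → ℝ) : Prop where
  sm : ContDiffOn ℝ ∞ f {0}ᶜ
  hom : ∀ l : ℝ, 0 < l → ∀ x : E, x ≠ 0 → f (l • x) = l ^ d * f x

/-- continuous on the unit sphere -/
def Cn (f : E → ℝ) : Prop := ContinuousOn f (Metric.sphere 0 1)

/-- `L²` norm on the unit sphere -/
noncomputable def n2 (f : E → ℝ) : ℝ := √(sph fun y => f y ^ 2)

/-- `M` contains the three sign flips and the cyclic shift -/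
def Sym (M : Set (E ≃ₗᵢ[ℝ] E)) : Prop :=
  (∀ i : Fin 3, ∃ O ∈ M, ∀ (y : E) (j : Fin 3), O y j = if j = i then -y j else y j) ∧
    ∃ O ∈ M, ∀ (y : E) (j : Fin 3), O y j = y (j + 1)

/-- invariant function -/
def IsInv (M : Set (E ≃ₗᵢ[ℝ] E)) (f : E → ℝ) : Prop := ∀ O ∈ M, ∀ x : E, x ≠ 0 → f (O x) = f x

/-- the vector with components `V i x` -/
def vec (V : Fin 3 → E → ℝ) (x : E) : E := WithLp.toLp 2 fun i => V i x

/-- equivariant field, given by its components -/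
def Eqv (M : Set (E ≃ₗᵢ[ℝ] E)) (V : Fin 3 → E → ℝ) : Prop :=
  ∀ O ∈ M, ∀ x : E, x ≠ 0 → vec V (O x) = O (vec V x)

/-- the kernel `P₂(s) log (1 - s)` -/
noncomputable def kap (s : ℝ) : ℝ := (3 * s ^ 2 - 1) / 2 * Real.log (1 - s)

/-- solution operator of `lap p = h` -/
noncomputable def Sop (h : E → ℝ) (x : E) : ℝ :=
  ‖x‖ ^ 2 * ((sph fun y => kap ⟪‖x‖⁻¹ • x, y⟫ * h y) + sph h / 3) / sph fun _ => 1

/-- matrix of partial derivatives of a map -/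
noncomputable def jac (X : E → E) (a : E) : Matrix (Fin 3) (Fin 3) ℝ :=
  Matrix.of fun i j => pd j (fun b => X b i) a

/-- `J g⁻¹` for `g = Fᵀ F`, `J = det F` -/
noncomputable def ah (F : Matrix (Fin 3) (Fin 3) ℝ) : Matrix (Fin 3) (Fin 3) ℝ :=
  F.det⁻¹ • (F.adjugate * F.adjugate.transpose)

/-- a homogeneous equivariant orientation preserving diffeomorphism of `E ∖ 0` -/
structure Dif (M : Set (E ≃ₗᵢ[ℝ] E)) (X : E → E) : Prop where
  hm : ∀ i, Hm 1 fun a => X a i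
  bij : BijOn X {0}ᶜ {0}ᶜ
  pos : ∀ a : E, a ≠ 0 → 0 < (jac X a).det
  eqv : ∀ O ∈ M, ∀ a : E, a ≠ 0 → X (O a) = O (X a)
  exi : ∃ Xi : E → E, (∀ i, Hm 1 fun a => Xi a i) ∧
    ∀ a : E, a ≠ 0 → Xi a ≠ 0 ∧ X (Xi a) = a ∧ Xi (X a) = a

/-- the elliptic equation `div (A ∇s + H) = 0` -/
def Ell (A : Fin 3 → Fin 3 → E → ℝ) (s : E → ℝ) (H : Fin 3 → E → ℝ) : Prop :=
  ∀ x : E, x ≠ 0 → ∑ i, pd i (fun y => ∑ j, A i j y * pd j s y + H i y) x = 0

/-- level zero estimate for invariant solutions -/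
def Lev0 (M : Set (E ≃ₗᵢ[ℝ] E)) (A : Fin 3 → Fin 3 → E → ℝ) (K : ℝ) : Prop :=
  ∀ (s : E → ℝ) (H : Fin 3 → E → ℝ), Hm 2 s → IsInv M s → (∀ i, Hm 1 (H i)) → Ell A s H →
    ∀ i, n2 (pd i s) ≤ K * ∑ j, n2 (H j)

/-- ellipticity on the unit sphere -/
def Pos (A : Fin 3 → Fin 3 → E → ℝ) (K : ℝ) : Prop :=
  ∀ y : E, ‖y‖ = 1 → ∀ ξ : Fin 3 → ℝ, ∑ i, ξ i ^ 2 ≤ K * ∑ i, ∑ j, A i j y * ξ i * ξ j

/-! space-time -/

/-- space-time -/
abbrev Y : Type := ℝ × E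

/-- letters: `none` is time -/
abbrev L : Type := Option (Fin 3)

/-- the domain -/
def Om (T : ℝ) : Set Y := Ioo 0 T ×ˢ {0}ᶜ

/-- direction of a letter -/
noncomputable def dir : L → Y
  | none => (1, 0)
  | some i => (0, e i)

/-- derivative along a letter -/
noncomputable def dd (i : L) (f : Y → ℝ) (z : Y) : ℝ := fderiv ℝ f z (dir i)

/-- derivative along a word -/
noncomputable def dw (u : List L) (f : Y → ℝ) : Y → ℝ := u.foldr dd f

/-- time slice -/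
def sl (f : Y → ℝ) (t : ℝ) : E → ℝ := fun a => f (t, a)

/-- smooth on the domain, homogeneous of degree `d` in space -/
structure Ht (T : ℝ) (d : ℤ) (f : Y → ℝ) : Prop where
  sm : ContDiffOn ℝ ∞ f (Om T)
  hom : ∀ t ∈ Ioo 0 T, ∀ l : ℝ, 0 < l → ∀ a : E, a ≠ 0 → f (t, l • a) = l ^ d * f (t, a)

/-- product of the radii along a word -/
noncomputable def rad (r : L → ℝ) (u : List L) : ℝ := (u.map r).prod

/-- number of space letters -/
def na (u : List L) : ℕ := u.countP Option.isSome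

/-- Gevrey bound in the sup norm -/
def GS (T : ℝ) (r : L → ℝ) (w : ℝ → ℝ) (m : ℝ) (f : Y → ℝ) : Prop :=
  ∀ (u : List L), ∀ t ∈ Ioo 0 T, ∀ a : E, ‖a‖ = 1 →
    |dw u f (t, a)| * rad r u ≤ m * w t * (u.length ! : ℝ) ^ 2

/-- Gevrey bound in the `L²` norm -/
def G2 (T : ℝ) (r : L → ℝ) (w : ℝ → ℝ) (m : ℝ) (f : Y → ℝ) : Prop :=
  ∀ (u : List L), ∀ t ∈ Ioo 0 T, n2 (sl (dw u f) t) * rad r u ≤ m * w t * (u.length ! : ℝ) ^ 2

/-- all ways to split a word in two subwords; the head is `([], u)` -/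
def splits : List L → List (List L × List L)
  | [] => [([], [])]
  | i :: u => (splits u).map (fun p => (p.1, i :: p.2)) ++ (splits u).map fun p => (i :: p.1, p.2)

/-- primitive in time -/
noncomputable def prim (f : Y → ℝ) (z : Y) : ℝ := ∫ s in (0 : ℝ)..z.1, f (s, z.2)

/-- exponentially growing weight -/
def Wt (T lam : ℝ) (w : ℝ → ℝ) : Prop :=
  (∀ t ∈ Ioo 0 T, 0 ≤ w t) ∧
    ∀ t ∈ Ioo 0 T, ∀ s ∈ Ioo 0 t, w s ≤ Real.exp (-(lam * (t - s))) * w t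

/-- a smooth family of diffeomorphisms -/
structure DifT (M : Set (E ≃ₗᵢ[ℝ] E)) (T : ℝ) (X : Y → E) : Prop where
  ht : ∀ i, Ht T 1 fun z => X z i
  dif : ∀ t ∈ Ioo 0 T, Dif M fun a => X (t, a)
  exi : ∃ Xi : Y → E, (∀ i, Ht T 1 fun z => Xi z i) ∧
    ∀ t ∈ Ioo 0 T, ∀ a : E, a ≠ 0 → Xi (t, a) ≠ 0 ∧ X (t, Xi (t, a)) = a ∧ Xi (t, X (t, a)) = a

/-- Jacobian matrix of the family -/
noncomputable def jacT (X : Y → E) (z : Y) : Matrix (Fin 3) (Fin 3) ℝ := jac (fun a => X (z.1, a)) z.2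

end Pool.Agent.Lib.MP_fbbbeb_an.B
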