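import Pool.Agent.Lib.MP_fbbbeb_an.B.Defs
import Pool.Agent.Lib.MP_fbbbeb_an.B.Sph

/-! Section B, group S1: polar coordinates, integration by parts, Green formula. -/

set_option autoImplicit false

namespace Pool.Agent.Lib.MP_fbbbeb_an.B

open scoped ContDiff RealInnerProductSpace Nat Topology
open Set Pub MeasureTheory

variable {M : Set (E ≃ₗᵢ[ℝ] E)} {d d' : ℤ} {f g : E → ℝ}

theorem polar (F : E → ℝ) (hF : Integrable F) :
    ∫ x, F x = ∫ ρ in Ioi (0 : ℝ), ρ ^ 2 * sph fun y => F (ρ • y) := by
  have hm := (volume : Measure E).measurePreserving_homeomorphUnitSphereProd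
  have hd : Module.finrank ℝ E - 1 = 2 := by simp
  rw [hd] at hm
  let G : Metric.sphere (0 : E) 1 × Ioi (0 : ℝ) → ℝ := fun q => F ((q.2 : ℝ) • (q.1 : E))
  have hg : ∀ x : ({0}ᶜ : Set E), G (homeomorphUnitSphereProd E x) = F x := by
    intro x
    have hx : ‖(x : E)‖ ≠ 0 := norm_ne_zero_iff.2 x.2
    simp [G, smul_smul, hx]
  have e1 : ∫ x, F x = ∫ x : ({0}ᶜ : Set E), F x ∂((volume : Measure E).comap (↑)) := by
    rw [integral_subtype_comap (measurableSet_singleton _).compl F, restrict_compl_singleton]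
  have hi : Integrable G (Sph.sg.prod (Measure.volumeIoiPow 2)) := by
    rw [← hm.integrable_comp_emb (Homeomorph.measurableEmbedding _)]
    have : G ∘ (homeomorphUnitSphereProd E) = F ∘ Subtype.val := funext hg
    rw [this, ← integrableOn_iff_comap_subtypeVal (measurableSet_singleton _).compl]
    exact hF.integrableOn
  rw [e1, ← funext hg, hm.integral_comp (Homeomorph.measurableEmbedding _) G,
    integral_prod_symm G hi]
  simp only [Measure.volumeIoiPow, ENNReal.ofReal, G]
  rw [integral_withDensity_eq_integral_smul]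
  · have := integral_subtype_comap (μ := (volume : Measure ℝ)) (measurableSet_Ioi (a := (0 : ℝ)))
      fun a : ℝ => Real.toNNReal (a ^ 2) • sph fun y => F (a • y)
    refine this.trans (setIntegral_congr_fun measurableSet_Ioi fun x hx => ?_)
    rw [NNReal.smul_def, Real.coe_toNNReal _ (pow_nonneg hx.out.le _), smul_eq_mul]
  · exact (measurable_subtype_coe.pow_const _).real_toNNReal

theorem polar' (F : E → ℝ) (hF : Integrable F) :
    ∫ x, F x = sph fun y => ∫ ρ in Ioi (0 : ℝ), ρ ^ 2 * F (ρ • y) := Sph.polar hF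

theorem ibp (hf : Hm d f) (i : Fin 3) : sph (pd i f) = (d + 2) * sph fun y => f y * y i := by
  have h := Sph.ibp_dir (d := d) (hf.sm.of_le (by simp)) (fun x hx s hs => hf.hom s hs x hx) (e i)
  refine h.trans ?_
  congr 2
  funext y
  simp [e, EuclideanSpace.inner_single_right, mul_comm]

namespace Ibp

theorem cda (hf : Hm d f) {x : E} (hx : x ≠ 0) : ContDiffAt ℝ ∞ f x :=
  hf.sm.contDiffAt (isOpen_compl_singleton.mem_nhds hx)

theorem da (hf : Hm d f) {x : E} (hx : x ≠ 0) : DifferentiableAt ℝ f x :=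
  (cda hf hx).differentiableAt (by simp)

theorem hpd (hf : Hm d f) (i : Fin 3) : Hm (d - 1) (pd i f) where
  sm := fun x hx => (((cda hf hx).fderiv_right (m := ∞) (by simp)).clm_apply
    contDiffAt_const).contDiffWithinAt
  hom := fun l hl x hx => by
    unfold pd
    rw [Sph.fderiv_hom (d := d) (fun y hy => da hf hy) (fun y hy s hs => hf.hom s hs y hy) hx hl]
    rfl

theorem hmul (hf : Hm d f) (hg : Hm d' g) : Hm (d + d') fun y => f y * g y where
  sm := hf.sm.mul hg.sm
  hom := fun l hl x hx => by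
    rw [hf.hom l hl x hx, hg.hom l hl x hx, zpow_add₀ hl.ne']; ring

theorem pdm (hf : Hm d f) (hg : Hm d' g) (i : Fin 3) {x : E} (hx : x ≠ 0) :
    pd i (fun y => f y * g y) x = pd i f x * g x + f x * pd i g x := by
  unfold pd
  rw [fderiv_fun_mul (da hf hx) (da hg hx)]
  simp only [add_apply, smul_apply, smul_eq_mul]
  ring

theorem euler (hf : Hm d f) {x : E} (hx : x ≠ 0) : ∑ i, x i * pd i f x = d * f x := by
  have e1 : ∑ i, x i * pd i f x = fderiv ℝ f x x := by
    have : x = ∑ i, x i • e i := by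
      ext j
      simp [e, Finset.sum_apply, Pi.single_apply]
    conv_rhs => enter [2]; rw [this]
    simp [map_sum, pd]
  have h1 : HasDerivAt (fun s : ℝ => f (s • x)) (fderiv ℝ f x x) 1 := by
    have a : HasFDerivAt f (fderiv ℝ f x) ((1 : ℝ) • x) := by
      rw [one_smul]; exact (da hf hx).hasFDerivAt
    have b := a.comp_hasDerivAt (1 : ℝ) ((hasDerivAt_id (1 : ℝ)).smul_const x)
    rw [one_smul] at b
    exact b
  have h2 : HasDerivAt (fun s : ℝ => f (s • x)) (d * f x) 1 := by
    have a := (hasDerivAt_zpow d (1 : ℝ) (Or.inl one_ne_zero)).mul_const (f x)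
    simp only [one_zpow, mul_one] at a
    refine a.congr_of_eventuallyEq ?_
    filter_upwards [Ioi_mem_nhds (zero_lt_one' ℝ)] with s hs using hf.hom s hs x hx
  rw [e1, h1.unique h2]

/-- first Green formula -/
theorem green1 (hf : Hm d f) (hg : Hm d' g) :
    sph (fun y => f y * lap g y) + sph (fun y => ∑ i, pd i f y * pd i g y) =
      ((d : ℝ) + d' + 1) * d' * sph fun y => f y * g y := by
  have hV : ∀ i, Hm (d + (d' - 1)) fun y => f y * pd i g y := fun i => hmul hf (hpd hg i)
  have h := Sph.ibp_comp (V := fun i y => f y * pd i g y) (d := d + (d' - 1))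
    (fun i => (hV i).sm.of_le (by simp)) fun i x hx s hs => (hV i).hom s hs x hx
  have c1 : ContinuousOn (fun y => f y * lap g y) {0}ᶜ :=
    hf.sm.continuousOn.mul (continuousOn_finsetSum _ fun i _ => (hpd (hpd hg i) i).sm.continuousOn)
  have c2 : ContinuousOn (fun y => ∑ i, pd i f y * pd i g y) {0}ᶜ :=
    continuousOn_finsetSum _ fun i _ => (hmul (hpd hf i) (hpd hg i)).sm.continuousOn
  rw [← Sph.sph_add c1 c2, mul_assoc, ← Sph.sph_const_mul (d' : ℝ)]
  refine (Sph.sph_congr fun y hy => ?_).trans (h.trans ?_)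
  · have hy0 : y ≠ 0 := by rintro rfl; simp at hy
    rw [lap, Finset.mul_sum, ← Finset.sum_add_distrib]
    refine Finset.sum_congr rfl fun i _ => ?_
    exact ((pdm hf (hpd hg i) i hy0).trans (add_comm _ _)).symm
  · congr 1
    · push_cast; ring
    · refine Sph.sph_congr fun y hy => ?_
      have hy0 : y ≠ 0 := by rintro rfl; simp at hy
      rw [mul_left_comm, ← euler hg hy0, Finset.mul_sum]
      exact Finset.sum_congr rfl fun i _ => by ring

end Ibp

theorem green (hf : Hm 2 f) (hg : Hm 2 g) :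
    sph (fun y => f y * lap g y) = sph fun y => lap f y * g y := by
  have h1 := Ibp.green1 hf hg
  have h2 := Ibp.green1 hg hf
  simp only [mul_comm (g _), mul_comm (pd _ g _)] at h2
  linarith

end Pool.Agent.Lib.MP_fbbbeb_an.B
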