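import Pool.Agent.Lib.MP_fbbbeb_an.B.Ibp

/-! Section B, group S2: isometries, invariant functions, vanishing moments. -/

set_option autoImplicit false

namespace Pool.Agent.Lib.MP_fbbbeb_an.B

open scoped ContDiff RealInnerProductSpace Nat Topology
open Set Pub MeasureTheory

variable {M : Set (E ≃ₗᵢ[ℝ] E)} {d d' : ℤ} {f g : E → ℝ}

theorem sph_iso (O : E ≃ₗᵢ[ℝ] E) (f : E → ℝ) : sph (fun y => f (O y)) = sph f := Sph.sph_iso O f

theorem int_iso (O : E ≃ₗᵢ[ℝ] E) (f : E → ℝ) :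
    Integrable (fun y : Metric.sphere (0 : E) 1 => f (O y)) (volume : Measure E).toSphere ↔
      Integrable (fun y : Metric.sphere (0 : E) 1 => f y) (volume : Measure E).toSphere :=
  Sph.integrable_iso O f

namespace Iso

theorem ne0 (O : E ≃ₗᵢ[ℝ] E) {x : E} (hx : x ≠ 0) : O x ≠ 0 := by simpa using hx

theorem expand (v : E) : v = ∑ i, v i • e i := by
  ext j
  simp [e, Finset.sum_apply, Pi.single_apply]

theorem fd_sum (f : E → ℝ) (x v : E) : fderiv ℝ f x v = ∑ i, v i * pd i f x := by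
  conv_lhs => rw [expand v]
  simp [map_sum, pd]

theorem inner_grad (f : E → ℝ) (x v : E) : ⟪vec (fun i => pd i f) x, v⟫ = fderiv ℝ f x v := by
  rw [fd_sum]
  simp [vec, PiLp.inner_apply]

theorem da_vec {V : Fin 3 → E → ℝ} (hV : ∀ i, Hm d (V i)) {x : E} (hx : x ≠ 0) :
    DifferentiableAt ℝ (vec V) x :=
  differentiableAt_euclidean.2 fun i => Ibp.da (hV i) hx

theorem dvg_vec {V : Fin 3 → E → ℝ} (hV : ∀ i, Hm d (V i)) {x : E} (hx : x ≠ 0) :
    dvg (vec V) x = ∑ i, pd i (V i) x := by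
  rw [Sph.dvg_eq]
  refine Finset.sum_congr rfl fun i _ => ?_
  have := ((EuclideanSpace.proj i : E →L[ℝ] ℝ).hasFDerivAt.comp x (da_vec hV hx).hasFDerivAt).fderiv
  show _ = fderiv ℝ ((EuclideanSpace.proj i : E →L[ℝ] ℝ) ∘ vec V) x (e i)
  rw [this]
  rfl

/-- derivative of an equivariant map -/
theorem fderiv_eqv {F : Type*} [NormedAddCommGroup F] [NormedSpace ℝ F] {W : E → F}
    (hW : ∀ x : E, x ≠ 0 → DifferentiableAt ℝ W x) (O : E ≃ₗᵢ[ℝ] E) (P : F →L[ℝ] F)
    (h : ∀ x : E, x ≠ 0 → W (O x) = P (W x)) {x : E} (hx : x ≠ 0) (v : E) :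
    fderiv ℝ W (O x) (O v) = P (fderiv ℝ W x v) := by
  have h1 := (hW _ (ne0 O hx)).hasFDerivAt.comp x
    (O.toContinuousLinearEquiv : E →L[ℝ] E).hasFDerivAt
  have h2 := P.hasFDerivAt.comp x (hW x hx).hasFDerivAt
  have h3 : (W ∘ (O.toContinuousLinearEquiv : E →L[ℝ] E)) =ᶠ[𝓝 x] (P ∘ W) := by
    filter_upwards [isOpen_compl_singleton.mem_nhds hx] with y hy using h y hy
  have := h1.unique (h2.congr_of_eventuallyEq h3)
  exact congrArg (fun A : E →L[ℝ] F => A v) this

theorem cn_int (hf : Cn f) :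
    Integrable (fun y : Metric.sphere (0 : E) 1 => f y) (volume : Measure E).toSphere :=
  (ContinuousOn.comp_continuous hf continuous_subtype_val fun y => y.2).integrable_of_hasCompactSupport
    (HasCompactSupport.of_compactSpace _)

theorem sum_sph {ι : Type} (s : Finset ι) {F : ι → E → ℝ} (h : ∀ i ∈ s, Cn (F i)) :
    sph (fun y => ∑ i ∈ s, F i y) = ∑ i ∈ s, sph (F i) :=
  integral_finsetSum s fun i hi => cn_int (h i hi)

theorem cn_coord (i : Fin 3) : Cn fun y => y i :=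
  (by fun_prop : Continuous fun y : E => y i).continuousOn

/-- an invariant weight may be kept while the other factor is moved -/
theorem move (h : IsInv M f) {O : E ≃ₗᵢ[ℝ] E} (hO : O ∈ M) (p : E → ℝ) :
    sph (fun y => p (O y) * f y) = sph fun y => p y * f y := by
  rw [← sph_iso O fun y => p y * f y]
  refine Sph.sph_congr fun y hy => ?_
  have hy0 : y ≠ 0 := by rintro rfl; simp at hy
  rw [h O hO y hy0]

theorem mom1 (hM : Sym M) (h : IsInv M f) (i : Fin 3) : sph (fun y => y i * f y) = 0 := by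
  obtain ⟨O, hO, hf⟩ := hM.1 i
  have h1 := move h hO fun y => y i
  simp only [hf, if_true, neg_mul, Sph.sph_neg] at h1
  linarith

theorem mom2 (hM : Sym M) (h : IsInv M f) {i j : Fin 3} (hij : j ≠ i) :
    sph (fun y => y i * y j * f y) = 0 := by
  obtain ⟨O, hO, hf⟩ := hM.1 i
  have h1 := move h hO fun y => y i * y j
  simp only [hf, if_true, if_neg hij, neg_mul, Sph.sph_neg] at h1
  linarith

theorem mom3 (hM : Sym M) (hf : Cn f) (h : IsInv M f) (i : Fin 3) :
    sph (fun y => y i * y i * f y) = sph f / 3 := by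
  obtain ⟨O, hO, hs⟩ := hM.2
  have h1 : ∀ j : Fin 3, sph (fun y => y (j + 1) * y (j + 1) * f y) = sph fun y => y j * y j * f y := by
    intro j
    have := move h hO fun y => y j * y j
    simpa only [hs] using this
  have h2 : ∑ j : Fin 3, sph (fun y => y j * y j * f y) = sph f := by
    rw [← sum_sph (F := fun j y => y j * y j * f y) _ fun j _ =>
      ContinuousOn.mul (ContinuousOn.mul (cn_coord j) (cn_coord j)) hf]
    refine Sph.sph_congr fun y hy => ?_
    have : ∑ j, y j * y j = 1 := by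
      have := EuclideanSpace.real_norm_sq_eq y
      rw [hy] at this
      simpa [sq] using this.symm
    rw [← Finset.sum_mul, this, one_mul]
  have a0 : sph (fun y => y 1 * y 1 * f y) = sph fun y => y 0 * y 0 * f y := h1 0
  have a1 : sph (fun y => y 2 * y 2 * f y) = sph fun y => y 1 * y 1 * f y := h1 1
  rw [Fin.sum_univ_three] at h2
  fin_cases i
  · show sph (fun y => y 0 * y 0 * f y) = _
    linarith
  · show sph (fun y => y 1 * y 1 * f y) = _
    linarith
  · show sph (fun y => y 2 * y 2 * f y) = _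
    linarith

end Iso

theorem IsInv.grad (hf : Hm d f) (h : IsInv M f) : Eqv M fun i => pd i f := by
  intro O hO x hx
  apply ext_inner_right ℝ
  intro v
  obtain ⟨v, rfl⟩ := O.surjective v
  rw [O.inner_map_map, Iso.inner_grad, Iso.inner_grad]
  exact Iso.fderiv_eqv (fun y hy => Ibp.da hf hy) O (ContinuousLinearMap.id ℝ ℝ) (h O hO) hx v

theorem Eqv.div {V : Fin 3 → E → ℝ} (hV : ∀ i, Hm d (V i)) (h : Eqv M V) :
    IsInv M fun x => ∑ i, pd i (V i) x := by
  intro O hO x hx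
  show ∑ i, pd i (V i) (O x) = ∑ i, pd i (V i) x
  rw [← Iso.dvg_vec hV hx, ← Iso.dvg_vec hV (Iso.ne0 O hx)]
  unfold dvg tr
  rw [← LinearMap.trace_conj' (fderiv ℝ (vec V) x : E →ₗ[ℝ] E) O.toLinearEquiv]
  congr 1
  ext1 v
  obtain ⟨v, rfl⟩ := O.surjective v
  have := Iso.fderiv_eqv (fun y hy => Iso.da_vec hV hy) O (O.toContinuousLinearEquiv : E →L[ℝ] E)
    (h O hO) hx v
  simpa [LinearEquiv.conj_apply] using this

theorem IsInv.lap (hf : Hm d f) (h : IsInv M f) : IsInv M (lap f) :=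
  Eqv.div (fun i => Ibp.hpd hf i) (IsInv.grad hf h)

theorem kill1 (hM : Sym M) (hf : Cn f) (h : IsInv M f) (x : E) : sph (fun y => ⟪x, y⟫ * f y) = 0 := by
  have e1 : (fun y : E => ⟪x, y⟫ * f y) = fun y => ∑ i, x i * (y i * f y) := by
    funext y
    simp only [PiLp.inner_apply, Finset.sum_mul]
    exact Finset.sum_congr rfl fun i _ => by simp; ring
  rw [e1, Iso.sum_sph (F := fun i y => x i * (y i * f y)) _ fun i _ =>
    ContinuousOn.mul continuousOn_const (ContinuousOn.mul (Iso.cn_coord i) hf)]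
  simp [Sph.sph_const_mul, Iso.mom1 hM h]

theorem kill2 (hM : Sym M) (hf : Cn f) (h : IsInv M f) (x : E) :
    sph (fun y => ⟪x, y⟫ ^ 2 * f y) = ‖x‖ ^ 2 / 3 * sph f := by
  have e1 : (fun y : E => ⟪x, y⟫ ^ 2 * f y) =
      fun y => ∑ q : Fin 3 × Fin 3, x q.1 * x q.2 * (y q.1 * y q.2 * f y) := by
    funext y
    simp [PiLp.inner_apply, Fintype.sum_prod_type, Fin.sum_univ_three]
    ring
  rw [e1, Iso.sum_sph (F := fun (q : Fin 3 × Fin 3) y => x q.1 * x q.2 * (y q.1 * y q.2 * f y)) _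
    fun q _ => ContinuousOn.mul continuousOn_const
      (ContinuousOn.mul (ContinuousOn.mul (Iso.cn_coord q.1) (Iso.cn_coord q.2)) hf)]
  simp only [Sph.sph_const_mul, Fintype.sum_prod_type, Fin.sum_univ_three, Iso.mom3 hM hf h,
    EuclideanSpace.real_norm_sq_eq]
  rw [Iso.mom2 hM h (show (1 : Fin 3) ≠ 0 by decide), Iso.mom2 hM h (show (2 : Fin 3) ≠ 0 by decide),
    Iso.mom2 hM h (show (0 : Fin 3) ≠ 1 by decide), Iso.mom2 hM h (show (2 : Fin 3) ≠ 1 by decide),
    Iso.mom2 hM h (show (0 : Fin 3) ≠ 2 by decide), Iso.mom2 hM h (show (1 : Fin 3) ≠ 2 by decide)]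
  ring

end Pool.Agent.Lib.MP_fbbbeb_an.B
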