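import Mathlib
import Pool.Agent.Lib.MP_fbbbeb_an.Pub

/-! Zonal functions of degree two and their Laplacian. -/

set_option autoImplicit false

noncomputable section

namespace Pool.Agent.Lib.MP_fbbbeb_an.Zon

open Pool.Agent.Lib.MP_fbbbeb_an.Pub Set Filter Topology
open scoped ContDiff RealInnerProductSpace

/-- cosine of the angle -/
def cs (x y : E) : ℝ := ⟪x, y⟫ / ‖y‖

/-- zonal function of degree two -/
def zon (x : E) (k : ℝ → ℝ) (y : E) : ℝ := ‖y‖ ^ 2 * k (cs x y)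

theorem hasF_norm {y : E} (hy : y ≠ 0) :
    HasFDerivAt (fun z : E => ‖z‖) (‖y‖⁻¹ • innerSL ℝ y) y := by
  have h0 : ‖y‖ ≠ 0 := norm_ne_zero_iff.2 hy
  have h1 : HasFDerivAt (fun z : E => ‖z‖ ^ 2) (2 • innerSL ℝ y) y := (hasStrictFDerivAt_norm_sq y).hasFDerivAt
  have h2 := h1.sqrt (pow_ne_zero 2 h0)
  simp only [Real.sqrt_sq (norm_nonneg _)] at h2
  refine h2.congr_fderiv (ContinuousLinearMap.ext fun v => ?_)
  simp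
  field_simp

theorem hasF_cs (x : E) {y : E} (hy : y ≠ 0) :
    HasFDerivAt (cs x) (‖y‖⁻¹ • innerSL ℝ x - (⟪x, y⟫ / ‖y‖ ^ 3) • innerSL ℝ y) y := by
  have h0 : ‖y‖ ≠ 0 := norm_ne_zero_iff.2 hy
  have h1 : HasFDerivAt (fun z : E => ⟪x, z⟫) (innerSL ℝ x) y := (innerSL ℝ x).hasFDerivAt
  have h2 := (hasDerivAt_inv h0).comp_hasFDerivAt y (hasF_norm hy)
  have h3 := h1.mul h2
  have h4 : cs x = (fun z : E => ⟪x, z⟫) * ((fun r : ℝ => r⁻¹) ∘ fun z : E => ‖z‖) := by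
    funext z; simp [cs, div_eq_mul_inv]
  rw [h4]
  refine h3.congr_fderiv (ContinuousLinearMap.ext fun v => ?_)
  simp
  field_simp
  ring

theorem cs_mem {x : E} (hx : ‖x‖ = 1) (y : E) : cs x y ∈ Icc (-1 : ℝ) 1 := by
  by_cases hy : y = 0
  · simp [cs, hy]
  have h0 : 0 < ‖y‖ := norm_pos_iff.2 hy
  have h := abs_real_inner_le_norm x y
  rw [hx, one_mul, abs_le] at h
  exact ⟨by rw [cs, le_div_iff₀ h0]; linarith [h.1], by rw [cs, div_le_iff₀ h0]; linarith [h.2]⟩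

theorem cs_smul (x y : E) {c : ℝ} (hc : 0 < c) : cs x (c • y) = cs x y := by
  rw [cs, cs, inner_smul_right, norm_smul, Real.norm_eq_abs, abs_of_pos hc, mul_div_mul_left _ _ hc.ne']

theorem cs_unit (x : E) {y : E} (hy : ‖y‖ = 1) : cs x y = ⟪x, y⟫ := by rw [cs, hy, div_one]

theorem cda_cs (x : E) {y : E} (hy : y ≠ 0) : ContDiffAt ℝ ∞ (cs x) y :=
  (contDiffAt_const.inner ℝ contDiffAt_id).div (contDiffAt_norm ℝ hy) (norm_ne_zero_iff.2 hy)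

theorem cda_zon {x : E} (hx : ‖x‖ = 1) {k : ℝ → ℝ} (hk : ∀ s ∈ Icc (-1 : ℝ) 1, ContDiffAt ℝ ∞ k s)
    {y : E} (hy : y ≠ 0) : ContDiffAt ℝ ∞ (zon x k) y :=
  ((contDiffAt_norm ℝ hy).pow 2).mul ((hk _ (cs_mem hx y)).comp y (cda_cs x hy))

theorem zon_smul (x : E) (k : ℝ → ℝ) (y : E) {c : ℝ} (hc : 0 < c) :
    zon x k (c • y) = c ^ 2 * zon x k y := by
  rw [zon, zon, cs_smul x y hc, norm_smul, Real.norm_eq_abs, abs_of_pos hc]; ring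

theorem zon_unit (x : E) (k : ℝ → ℝ) {y : E} (hy : ‖y‖ = 1) : zon x k y = k ⟪x, y⟫ := by
  rw [zon, cs_unit x hy, hy]; ring

theorem fderiv_zon (x : E) {k : ℝ → ℝ} {k1 : ℝ} {y : E} (hy : y ≠ 0) (hk : HasDerivAt k k1 (cs x y))
    (v : E) : fderiv ℝ (zon x k) y v =
      2 * ⟪y, v⟫ * k (cs x y) + k1 * (‖y‖ * ⟪x, v⟫ - cs x y * ⟪y, v⟫) := by
  have h0 : ‖y‖ ≠ 0 := norm_ne_zero_iff.2 hy
  have h1 : HasFDerivAt (fun z : E => ‖z‖ ^ 2) (2 • innerSL ℝ y) y := (hasStrictFDerivAt_norm_sq y).hasFDerivAt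
  have h3 := h1.mul (hk.comp_hasFDerivAt y (hasF_cs x hy))
  have h4 : zon x k = (fun z : E => ‖z‖ ^ 2) * (k ∘ cs x) := rfl
  rw [h4, h3.fderiv]
  simp [cs]
  field_simp
  ring

/-- the Laplacian of a zonal function on the unit sphere -/
theorem lap_zon {x : E} (hx : ‖x‖ = 1) {k k1 k2 : ℝ → ℝ}
    (hk : ∀ s ∈ Icc (-1 : ℝ) 1, HasDerivAt k (k1 s) s)
    (hk1 : ∀ s ∈ Icc (-1 : ℝ) 1, HasDerivAt k1 (k2 s) s) {y : E} (hy : ‖y‖ = 1) :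
    ∑ i : Fin 3, fderiv ℝ (fun z => fderiv ℝ (zon x k) z (EuclideanSpace.single i 1)) y
      (EuclideanSpace.single i 1) =
      6 * k ⟪x, y⟫ + (1 - ⟪x, y⟫ ^ 2) * k2 ⟪x, y⟫ - 2 * ⟪x, y⟫ * k1 ⟪x, y⟫ := by
  have hy0 : y ≠ 0 := by intro h; rw [h] at hy; simp at hy
  have key : ∀ v : E, fderiv ℝ (fun z => fderiv ℝ (zon x k) z v) y v =
      2 * ⟪v, v⟫ * k ⟪x, y⟫ + 2 * ⟪y, v⟫ * (k1 ⟪x, y⟫ * (⟪x, v⟫ - ⟪x, y⟫ * ⟪y, v⟫)) +
      k2 ⟪x, y⟫ * (⟪x, v⟫ - ⟪x, y⟫ * ⟪y, v⟫) ^ 2 +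
      k1 ⟪x, y⟫ * (⟪y, v⟫ * ⟪x, v⟫ - (⟪x, v⟫ - ⟪x, y⟫ * ⟪y, v⟫) * ⟪y, v⟫ - ⟪x, y⟫ * ⟪v, v⟫) := by
    intro v
    have e1 : (fun z => fderiv ℝ (zon x k) z v) =ᶠ[𝓝 y] fun z =>
        2 * ⟪v, z⟫ * k (cs x z) + k1 (cs x z) * (‖z‖ * ⟪x, v⟫ - cs x z * ⟪v, z⟫) := by
      filter_upwards [isOpen_ne.mem_nhds hy0] with z hz
      rw [fderiv_zon x hz (hk _ (cs_mem hx z)) v, real_inner_comm v z]
    have hv : HasFDerivAt (fun z : E => ⟪v, z⟫) (innerSL ℝ v) y := (innerSL ℝ v).hasFDerivAt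
    have hc := hasF_cs x hy0
    have a1 := (hk _ (cs_mem hx y)).comp_hasFDerivAt y hc
    have a2 := (hk1 _ (cs_mem hx y)).comp_hasFDerivAt y hc
    have a3 := ((hv.const_mul 2).mul a1).add
      (a2.mul (((hasF_norm hy0).mul_const ⟪x, v⟫).sub (hc.mul hv)))
    rw [e1.fderiv_eq]
    have a4 : (fun z => 2 * ⟪v, z⟫ * k (cs x z) + k1 (cs x z) * (‖z‖ * ⟪x, v⟫ - cs x z * ⟪v, z⟫)) =
        ((fun z : E => 2 * ⟪v, z⟫) * (k ∘ cs x) + (k1 ∘ cs x) *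
          ((fun z : E => ‖z‖ * ⟪x, v⟫) - cs x * fun z : E => ⟪v, z⟫)) := rfl
    rw [a4, a3.fderiv]
    simp [cs_unit x hy, hy, real_inner_comm v y]
    ring
  have hy2 : y 0 ^ 2 + y 1 ^ 2 + y 2 ^ 2 = 1 := by
    have := EuclideanSpace.real_norm_sq_eq y
    rw [hy, Fin.sum_univ_three] at this; linarith
  have hx2 : x 0 ^ 2 + x 1 ^ 2 + x 2 ^ 2 = 1 := by
    have := EuclideanSpace.real_norm_sq_eq x
    rw [hx, Fin.sum_univ_three] at this; linarith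
  have hs : ⟪x, y⟫ = x 0 * y 0 + x 1 * y 1 + x 2 * y 2 := by
    simp [PiLp.inner_apply, Fin.sum_univ_three, mul_comm]
  simp only [key, Fin.sum_univ_three, EuclideanSpace.inner_single_right, conj_trivial, one_mul,
    PiLp.single_apply, if_true]
  generalize ⟪x, y⟫ = s at hs ⊢
  linear_combination (k2 s) * hx2 + (k2 s * s ^ 2 - k1 s * s) * hy2 + (2 * s * k2 s - 2 * k1 s) * hs

end Pool.Agent.Lib.MP_fbbbeb_an.Zon
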