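import Mathlib
import Pool.Agent.Lib.MP_fbbbeb_an.B.Zon

/-! The kernel on the sphere: mass of the approximate identity, integrability. -/

set_option autoImplicit false

noncomputable section

namespace Pool.Agent.Lib.MP_fbbbeb_an.Zon

open Pool.Agent.Lib.MP_fbbbeb_an.Pub Set Filter Topology MeasureTheory
open scoped ContDiff RealInnerProductSpace

abbrev Sph : Type := Metric.sphere (0 : E) 1

/-- surface measure -/
def sm : Measure Sph := (volume : Measure E).toSphere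

instance : IsFiniteMeasure sm := by unfold sm; infer_instance

theorem sph_def (f : E → ℝ) : sph f = ∫ y : Sph, f y ∂sm := rfl

theorem nrm (y : Sph) : ‖(y : E)‖ = 1 := norm_eq_of_mem_sphere y

theorem nz (y : Sph) : (y : E) ≠ 0 := ne_zero_of_mem_unit_sphere y

/-- area of the sphere -/
def ar : ℝ := sm.real univ

theorem ar_pos : 0 < ar := by
  have h : sm ≠ 0 := Measure.toSphere_ne_zero _
  exact ENNReal.toReal_pos (by simpa using h) (measure_ne_top _ _)

/-- Laplacian -/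
def lap (f : E → ℝ) (y : E) : ℝ :=
  ∑ i : Fin 3, fderiv ℝ (fun z => fderiv ℝ f z (EuclideanSpace.single i 1)) y (EuclideanSpace.single i 1)

/-- smooth off the origin -/
def Sm (f : E → ℝ) : Prop := ∀ y, y ≠ 0 → ContDiffAt ℝ ∞ f y

/-- smooth off the origin and of degree two -/
def H2 (f : E → ℝ) : Prop := Sm f ∧ ∀ y, y ≠ 0 → ∀ c : ℝ, 0 < c → f (c • y) = c ^ 2 * f y

/-- Green identity for two functions of degree two -/
def Green : Prop := ∀ f g, H2 f → H2 g → sph (fun y => f y * lap g y) = sph (fun y => g y * lap f y)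

theorem Sm.cont {f : E → ℝ} (h : Sm f) : Continuous fun y : Sph => f y :=
  continuous_iff_continuousAt.2 fun y =>
    (h y (nz y)).continuousAt.comp continuous_subtype_val.continuousAt

theorem Sm.pd {f : E → ℝ} (h : Sm f) (v : E) : Sm fun z => fderiv ℝ f z v := fun y hy =>
  ((h y hy).fderiv_right (m := ∞) (by simp)).clm_apply contDiffAt_const

theorem Sm.lap {f : E → ℝ} (h : Sm f) : Sm (lap f) := fun y hy =>
  ContDiffAt.sum fun _ _ => (h.pd _).pd _ y hy

theorem intg {f : Sph → ℝ} (h : Continuous f) : Integrable f sm :=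
  h.integrable_of_hasCompactSupport (HasCompactSupport.of_compactSpace _)

theorem s_mem {x : E} (hx : ‖x‖ = 1) (y : Sph) : ⟪x, (y : E)⟫ ∈ Icc (-1 : ℝ) 1 := by
  have := cs_mem hx y
  rwa [cs_unit x (nrm y)] at this

theorem cont_s (x : E) : Continuous fun y : Sph => ⟪x, (y : E)⟫ := by fun_prop

theorem cont_k {x : E} (hx : ‖x‖ = 1) {k : ℝ → ℝ} (hk : ContinuousOn k (Icc (-1) 1)) :
    Continuous fun y : Sph => k ⟪x, (y : E)⟫ :=
  hk.comp_continuous (cont_s x) (s_mem hx)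

theorem H2_zon {x : E} (hx : ‖x‖ = 1) {k : ℝ → ℝ} (hk : ∀ s ∈ Icc (-1 : ℝ) 1, ContDiffAt ℝ ∞ k s) :
    H2 (zon x k) := ⟨fun _ hy => cda_zon hx hk hy, fun y _ _ hc => zon_smul x k y hc⟩

/-- Green identity against a zonal function -/
theorem green_zon (HG : Green) {x : E} (hx : ‖x‖ = 1) {k k1 k2 : ℝ → ℝ}
    (h0 : ∀ s ∈ Icc (-1 : ℝ) 1, ContDiffAt ℝ ∞ k s)
    (hk : ∀ s ∈ Icc (-1 : ℝ) 1, HasDerivAt k (k1 s) s)
    (hk1 : ∀ s ∈ Icc (-1 : ℝ) 1, HasDerivAt k1 (k2 s) s) {p : E → ℝ} (hp : H2 p) :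
    ∫ y : Sph, k ⟪x, (y : E)⟫ * lap p y ∂sm = ∫ y : Sph, p y * (6 * k ⟪x, (y : E)⟫ +
      ((1 - ⟪x, (y : E)⟫ ^ 2) * k2 ⟪x, (y : E)⟫ - 2 * ⟪x, (y : E)⟫ * k1 ⟪x, (y : E)⟫)) ∂sm := by
  have h := HG _ _ (H2_zon hx h0) hp
  rw [sph_def, sph_def] at h
  convert h using 3 with y y
  · rw [zon_unit x k (nrm y)]
  · rw [lap, lap_zon hx hk hk1 (nrm y)]; ring

theorem lap_one {x : E} (hx : ‖x‖ = 1) (y : Sph) : lap (zon x fun _ => 1) y = 6 := by
  rw [lap, lap_zon hx (k1 := fun _ => 0) (k2 := fun _ => 0) (fun s _ => hasDerivAt_const s 1)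
    (fun s _ => hasDerivAt_const s 0) (nrm y)]
  ring

theorem int_lap (HG : Green) {p : E → ℝ} (hp : H2 p) :
    ∫ y : Sph, lap p y ∂sm = 6 * ∫ y : Sph, p y ∂sm := by
  have hx : ‖(EuclideanSpace.single 0 1 : E)‖ = 1 := by simp
  have h := green_zon HG hx (k := fun _ => 1) (k1 := fun _ => 0) (k2 := fun _ => 0)
    (fun _ _ => contDiffAt_const) (fun s _ => hasDerivAt_const s 1) (fun s _ => hasDerivAt_const s 0) hp
  simp only [one_mul, mul_one, mul_zero, sub_zero, add_zero] at h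
  rw [h, integral_mul_const, mul_comm]

/-- the Legendre operator has mean zero -/
theorem int_L (HG : Green) {x : E} (hx : ‖x‖ = 1) {k k1 k2 : ℝ → ℝ}
    (h0 : ∀ s ∈ Icc (-1 : ℝ) 1, ContDiffAt ℝ ∞ k s)
    (hk : ∀ s ∈ Icc (-1 : ℝ) 1, HasDerivAt k (k1 s) s)
    (hk1 : ∀ s ∈ Icc (-1 : ℝ) 1, HasDerivAt k1 (k2 s) s) {L : ℝ → ℝ} (hL : ContinuousOn L (Icc (-1) 1))
    (hL' : ∀ s ∈ Icc (-1 : ℝ) 1, (1 - s ^ 2) * k2 s - 2 * s * k1 s = L s) :
    ∫ y : Sph, L ⟪x, (y : E)⟫ ∂sm = 0 := by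
  have h := green_zon HG hx h0 hk hk1 (H2_zon hx (k := fun _ => 1) fun _ _ => contDiffAt_const)
  have c0 : ContinuousOn k (Icc (-1) 1) := fun s hs => (h0 s hs).continuousAt.continuousWithinAt
  simp only [lap_one hx, fun y : Sph => zon_unit x (fun _ => (1 : ℝ)) (nrm y), one_mul,
    fun y : Sph => hL' _ (s_mem hx y)] at h
  rw [integral_add ((intg (cont_k hx c0)).const_mul 6) (intg (cont_k hx hL)), integral_mul_const,
    integral_const_mul] at h
  linarith

/-- approximate identity -/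
def dl (e s : ℝ) : ℝ := e * (2 + e) / (1 + e - s) ^ 2

theorem y_pos {e s : ℝ} (he : 0 < e) (hs : s ∈ Icc (-1 : ℝ) 1) : 0 < 1 + e - s := by linarith [hs.2]

theorem hd_y (e s : ℝ) : HasDerivAt (fun s => 1 + e - s) (-1) s := by
  simpa using (hasDerivAt_id s).const_sub (1 + e)

theorem cont_dl {e : ℝ} (he : 0 < e) : ContinuousOn (dl e) (Icc (-1) 1) :=
  continuousOn_const.div (by fun_prop) fun s hs => pow_ne_zero 2 (y_pos he hs).ne'

theorem int_dl (HG : Green) {x : E} (hx : ‖x‖ = 1) {e : ℝ} (he : 0 < e) :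
    ∫ y : Sph, dl e ⟪x, (y : E)⟫ ∂sm = ar := by
  have h := int_L HG hx (k := fun s => Real.log (1 + e - s)) (k1 := fun s => -(1 + e - s)⁻¹)
    (k2 := fun s => -((1 + e - s) ^ 2)⁻¹) (L := fun s => dl e s - 1)
    (fun s hs => (contDiffAt_const.sub contDiffAt_id).log (y_pos he hs).ne')
    (fun s hs => by
      have := (hd_y e s).log (y_pos he hs).ne'
      convert this using 1; field_simp)
    (fun s hs => by
      have := ((hd_y e s).inv (y_pos he hs).ne').neg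
      refine this.congr_deriv ?_
      field_simp)
    ((cont_dl he).sub continuousOn_const)
    (fun s hs => by
      have := (y_pos he hs).ne'
      simp only [dl]; field_simp; ring)
  rw [integral_sub (intg (cont_k hx (cont_dl he))) (integrable_const _)] at h
  simp only [integral_const, smul_eq_mul, mul_one] at h
  rw [ar]; linarith

theorem dl_nonneg {e : ℝ} (he : 0 < e) (s : ℝ) : 0 ≤ dl e s := by unfold dl; positivity

/-- the pole is a null set -/
theorem ae_lt (HG : Green) {x : E} (hx : ‖x‖ = 1) : ∀ᵐ y : Sph ∂sm, ⟪x, (y : E)⟫ < 1 := by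
  have hA : MeasurableSet {y : Sph | 1 ≤ ⟪x, (y : E)⟫} :=
    (isClosed_le continuous_const (cont_s x)).measurableSet
  have key : ∀ e : ℝ, 0 < e → sm.real {y : Sph | 1 ≤ ⟪x, (y : E)⟫} ≤ e * ar := by
    intro e he
    have h1 : ∫ y : Sph, ({y : Sph | 1 ≤ ⟪x, (y : E)⟫}).indicator (fun _ => (1 : ℝ)) y ∂sm ≤
        ∫ y : Sph, e * dl e ⟪x, (y : E)⟫ ∂sm := by
      refine integral_mono ((integrable_const _).indicator hA)
        ((intg (cont_k hx (cont_dl he))).const_mul e) fun y => ?_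
      by_cases hy : y ∈ {y : Sph | 1 ≤ ⟪x, (y : E)⟫}
      · have h1 : ⟪x, (y : E)⟫ = 1 := le_antisymm (s_mem hx y).2 hy
        simp only [indicator_of_mem hy, h1, dl]
        rw [show 1 + e - 1 = e by ring]
        field_simp
        linarith
      · simp only [indicator_of_notMem hy]
        exact mul_nonneg he.le (dl_nonneg he _)
    rw [integral_const_mul, int_dl HG hx he, integral_indicator hA] at h1
    simpa using h1
  have h0 : sm.real {y : Sph | 1 ≤ ⟪x, (y : E)⟫} = 0 := by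
    refine le_antisymm (le_of_forall_pos_le_add fun ε hε => ?_) measureReal_nonneg
    have := key (ε / ar) (div_pos hε ar_pos)
    rw [div_mul_cancel₀ _ ar_pos.ne'] at this
    linarith
  rw [measureReal_eq_zero_iff] at h0
  rw [ae_iff]
  simpa using h0

theorem int_isq (HG : Green) {x : E} (hx : ‖x‖ = 1) {e : ℝ} (he : 0 < e) (he1 : e ≤ 1) :
    ∫ y : Sph, (√(1 + e - ⟪x, (y : E)⟫))⁻¹ ∂sm ≤ 4 * ar := by
  have sp : ∀ s ∈ Icc (-1 : ℝ) 1, 0 < √(1 + e - s) := fun s hs => Real.sqrt_pos.2 (y_pos he hs)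
  have cq : ContinuousOn (fun s => (√(1 + e - s))⁻¹) (Icc (-1 : ℝ) 1) :=
    ContinuousOn.inv₀ (by fun_prop) fun s hs => (sp s hs).ne'
  have cL : ContinuousOn (fun s => s * (√(1 + e - s))⁻¹ - (1 - s ^ 2) / 4 * (√(1 + e - s))⁻¹ ^ 3)
      (Icc (-1 : ℝ) 1) := (continuousOn_id.mul cq).sub (ContinuousOn.mul (by fun_prop) (cq.pow 3))
  have h := int_L HG hx (k := fun s => √(1 + e - s)) (k1 := fun s => -(1 / 2) * (√(1 + e - s))⁻¹)
    (k2 := fun s => -(1 / 4) * (√(1 + e - s))⁻¹ ^ 3)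
    (L := fun s => s * (√(1 + e - s))⁻¹ - (1 - s ^ 2) / 4 * (√(1 + e - s))⁻¹ ^ 3)
    (fun s hs => (contDiffAt_const.sub contDiffAt_id).sqrt (y_pos he hs).ne')
    (fun s hs => by
      have := (hd_y e s).sqrt (y_pos he hs).ne'
      convert this using 1; field_simp)
    (fun s hs => by
      have := ((((hd_y e s).sqrt (y_pos he hs).ne').inv (sp s hs).ne')).const_mul (-(1 / 2))
      have h2 := (sp s hs).ne'
      refine this.congr_deriv ?_
      field_simp; ring)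
    cL (fun s _ => by ring)
  have h2 : ∫ y : Sph, ((1 / 2) * (√(1 + e - ⟪x, (y : E)⟫))⁻¹ - 2) ∂sm ≤ 0 := by
    rw [← h]
    refine integral_mono (((intg (cont_k hx cq)).const_mul _).sub (integrable_const _))
      (intg (cont_k hx cL)) fun y => ?_
    have hs := s_mem hx y
    beta_reduce
    generalize ⟪x, (y : E)⟫ = s at hs
    have hq := sp s hs
    have hq2 : √(1 + e - s) ^ 2 = 1 + e - s := Real.sq_sqrt (y_pos he hs).le
    have hq3 : √(1 + e - s) ≤ 2 := Real.sqrt_le_iff.2 ⟨by norm_num, by linarith [hs.1]⟩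
    generalize √(1 + e - s) = q at hq hq2 hq3
    have a1 : (1 - s ^ 2) / 4 * q⁻¹ ^ 3 ≤ 1 / 2 * q⁻¹ := by
      have : (1 - s ^ 2) / 4 * q⁻¹ ^ 3 = (1 - s ^ 2) / (2 * q ^ 2) * (1 / 2 * q⁻¹) := by
        field_simp; ring
      rw [this]
      refine mul_le_of_le_one_left (by positivity) ?_
      rw [div_le_one (by positivity)]
      nlinarith [hs.1, hs.2]
    have a2 : (1 - s) * q⁻¹ ≤ 2 := by
      rw [← div_eq_mul_inv, div_le_iff₀ hq]
      nlinarith
    nlinarith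
  rw [integral_sub ((intg (cont_k hx cq)).const_mul _) (integrable_const _), integral_const_mul] at h2
  simp only [integral_const, smul_eq_mul] at h2
  rw [ar]; linarith

theorem tend_e : Tendsto (fun n : ℕ => 1 / ((n : ℝ) + 1)) atTop (𝓝 0) :=
  tendsto_one_div_add_atTop_nhds_zero_nat

theorem e_pos (n : ℕ) : 0 < 1 / ((n : ℝ) + 1) := by positivity

theorem e_le (n : ℕ) : 1 / ((n : ℝ) + 1) ≤ 1 := by
  rw [div_le_one (by positivity)]; linarith [(Nat.cast_nonneg n : (0 : ℝ) ≤ n)]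

theorem isq (HG : Green) {x : E} (hx : ‖x‖ = 1) :
    Integrable (fun y : Sph => (√(1 - ⟪x, (y : E)⟫))⁻¹) sm ∧
      ∫ y : Sph, (√(1 - ⟪x, (y : E)⟫))⁻¹ ∂sm ≤ 4 * ar := by
  have hm : Measurable fun y : Sph => (√(1 - ⟪x, (y : E)⟫))⁻¹ :=
    (Continuous.measurable (by fun_prop)).inv
  have cq : ∀ n : ℕ, Continuous fun y : Sph => (√(1 + 1 / ((n : ℝ) + 1) - ⟪x, (y : E)⟫))⁻¹ := fun n =>
    Continuous.inv₀ (by fun_prop) fun y => (Real.sqrt_pos.2 (y_pos (e_pos n) (s_mem hx y))).ne'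
  have h1 : ∫⁻ y : Sph, ENNReal.ofReal (√(1 - ⟪x, (y : E)⟫))⁻¹ ∂sm ≤ ENNReal.ofReal (4 * ar) := by
    have a1 : ∫⁻ y : Sph, ENNReal.ofReal (√(1 - ⟪x, (y : E)⟫))⁻¹ ∂sm =
        ∫⁻ y : Sph, liminf (fun n : ℕ =>
          ENNReal.ofReal (√(1 + 1 / ((n : ℝ) + 1) - ⟪x, (y : E)⟫))⁻¹) atTop ∂sm := by
      refine lintegral_congr_ae ((ae_lt HG hx).mono fun y hy => ?_)
      refine (Tendsto.liminf_eq (ENNReal.tendsto_ofReal ?_)).symm
      have t1 : Tendsto (fun n : ℕ => 1 + 1 / ((n : ℝ) + 1) - ⟪x, (y : E)⟫) atTop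
          (𝓝 (1 - ⟪x, (y : E)⟫)) := by
        simpa using (tend_e.const_add 1).sub_const ⟪x, (y : E)⟫
      exact t1.sqrt.inv₀ (Real.sqrt_pos.2 (by linarith)).ne'
    rw [a1]
    refine (lintegral_liminf_le fun n => (cq n).measurable.ennreal_ofReal).trans ?_
    refine liminf_le_of_frequently_le' (Frequently.of_forall fun n => ?_)
    rw [← ofReal_integral_eq_lintegral_ofReal (intg (cq n)) (.of_forall fun y => by positivity)]
    exact ENNReal.ofReal_le_ofReal (int_isq HG hx (e_pos n) (e_le n))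
  have h2 : Integrable (fun y : Sph => (√(1 - ⟪x, (y : E)⟫))⁻¹) sm :=
    ⟨hm.aestronglyMeasurable, (hasFiniteIntegral_iff_ofReal (.of_forall fun y => by positivity)).2
      (h1.trans_lt ENNReal.ofReal_lt_top)⟩
  refine ⟨h2, ?_⟩
  rw [← ofReal_integral_eq_lintegral_ofReal h2 (.of_forall fun y => by positivity)] at h1
  exact (ENNReal.ofReal_le_ofReal_iff (by have := ar_pos; positivity)).1 h1

theorem log_sq_le {y : ℝ} (h0 : 0 ≤ y) (h3 : y ≤ 3) : Real.log y ^ 2 ≤ 16 * (√y)⁻¹ := by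
  rcases h0.eq_or_lt with h | h
  · simp [← h]
  have hq : 0 < √y := Real.sqrt_pos.2 h
  have hr : 0 < √(√y) := Real.sqrt_pos.2 hq
  have e1 : Real.log y = 4 * Real.log (√(√y)) := by
    rw [Real.log_sqrt hq.le, Real.log_sqrt h.le]; ring
  have e2 : √(√y) ^ 2 = √y := Real.sq_sqrt hq.le
  have e3 : √y ≤ 2 := Real.sqrt_le_iff.2 ⟨by norm_num, by linarith⟩
  rw [e1]
  generalize √(√y) = r at hr e2
  rw [← e2] at e3 ⊢
  have b1 : Real.log r ≤ r - 1 := Real.log_le_sub_one_of_pos hr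
  have b2 : 1 - r⁻¹ ≤ Real.log r := Real.one_sub_inv_le_log_of_pos hr
  have b3 : r - 1 ≤ r⁻¹ := by
    rw [← one_div, le_div_iff₀ hr]; nlinarith
  have b4 : Real.log r ^ 2 ≤ r⁻¹ ^ 2 := sq_le_sq' (by linarith) (by linarith)
  rw [← inv_pow]
  nlinarith

/-- the kernel -/
def kap (s : ℝ) : ℝ := (3 * s ^ 2 - 1) / 2 * Real.log (1 - s)

theorem P2_le {s : ℝ} (hs : s ∈ Icc (-1 : ℝ) 1) : |(3 * s ^ 2 - 1) / 2| ≤ 1 := by
  rw [abs_le]; constructor <;> nlinarith [hs.1, hs.2]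

theorem meas_kap (x : E) : Measurable fun y : Sph => kap ⟪x, (y : E)⟫ := by
  unfold kap
  exact (Continuous.measurable (by fun_prop)).mul
    (Real.measurable_log.comp (Continuous.measurable (by fun_prop)))

theorem kap_sq_le {s : ℝ} (hs : s ∈ Icc (-1 : ℝ) 1) : kap s ^ 2 ≤ 16 * (√(1 - s))⁻¹ := by
  have h1 := log_sq_le (y := 1 - s) (by linarith [hs.2]) (by linarith [hs.1])
  have h2 : ((3 * s ^ 2 - 1) / 2) ^ 2 ≤ 1 := by
    have := P2_le hs
    rw [← sq_abs]; nlinarith [abs_nonneg ((3 * s ^ 2 - 1) / 2)]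
  rw [kap, mul_pow]
  nlinarith [sq_nonneg (Real.log (1 - s))]

theorem kap_sq (HG : Green) {x : E} (hx : ‖x‖ = 1) :
    Integrable (fun y : Sph => kap ⟪x, (y : E)⟫ ^ 2) sm ∧
      ∫ y : Sph, kap ⟪x, (y : E)⟫ ^ 2 ∂sm ≤ 64 * ar := by
  have h := isq HG hx
  have h1 : Integrable (fun y : Sph => kap ⟪x, (y : E)⟫ ^ 2) sm :=
    (h.1.const_mul 16).mono' ((meas_kap x).pow_const 2).aestronglyMeasurable (.of_forall fun y => by
      rw [Real.norm_of_nonneg (sq_nonneg _)]; exact kap_sq_le (s_mem hx y))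
  refine ⟨h1, (integral_mono h1 (h.1.const_mul 16) fun y => kap_sq_le (s_mem hx y)).trans ?_⟩
  rw [integral_const_mul]; linarith [h.2]

theorem kap_int (HG : Green) {x : E} (hx : ‖x‖ = 1) :
    Integrable (fun y : Sph => kap ⟪x, (y : E)⟫) sm :=
  ((kap_sq HG hx).1.add (integrable_const 1)).mono' (meas_kap x).aestronglyMeasurable
    (.of_forall fun y => by
      rw [Real.norm_eq_abs, Pi.add_apply, ← sq_abs]
      nlinarith [abs_nonneg (kap ⟪x, (y : E)⟫), sq_nonneg (|kap ⟪x, (y : E)⟫| - 1)])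

end Pool.Agent.Lib.MP_fbbbeb_an.Zon
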