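import Mathlib
import Pool.Agent.Lib.MP_fbbbeb_an.B.Defs
import Pool.Agent.Lib.MP_fbbbeb_an.B.Sph
import Pool.Agent.Lib.MP_fbbbeb_an.B.Ker

/-! Zonal functions: Green identity against them. -/

set_option autoImplicit false

namespace Pool.Agent.Lib.MP_fbbbeb_an

open scoped ContDiff RealInnerProductSpace Topology
open Set Pub MeasureTheory

namespace Zon

theorem Sm.on {f : E → ℝ} (h : Sm f) : ContDiffOn ℝ ∞ f {0}ᶜ := fun y hy => (h y hy).contDiffWithinAt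

theorem Sm.da {f : E → ℝ} (h : Sm f) {y : E} (hy : y ≠ 0) : DifferentiableAt ℝ f y :=
  (h y hy).differentiableAt (by simp)

theorem H2.euler {f : E → ℝ} (h : H2 f) {y : E} (hy : y ≠ 0) : fderiv ℝ f y y = 2 * f y := by
  have h1 : HasDerivAt (fun c : ℝ => c • y) y 1 := by simpa using (hasDerivAt_id (1 : ℝ)).smul_const y
  have h2 : HasFDerivAt f (fderiv ℝ f y) ((1 : ℝ) • y) := by
    rw [one_smul]; exact (h.1.da hy).hasFDerivAt
  have h3 := h2.comp_hasDerivAt (1 : ℝ) h1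
  have h4 : HasDerivAt (fun c : ℝ => c ^ 2 * f y) (2 * f y) 1 := by
    simpa using ((hasDerivAt_id (1 : ℝ)).pow 2).mul_const (f y)
  refine h3.unique (h4.congr_of_eventuallyEq ?_)
  filter_upwards [Ioi_mem_nhds one_pos] with c hc using h.2 y hy c hc

theorem H2.dhom {f : E → ℝ} (h : H2 f) {y : E} (hy : y ≠ 0) {c : ℝ} (hc : 0 < c) (v : E) :
    fderiv ℝ f (c • y) v = c * fderiv ℝ f y v := by
  rw [Sph.fderiv_hom (d := 2) (fun x hx => h.1.da hx)
    (fun x hx s hs => by rw [h.2 x hx s hs]; norm_cast) hy hc]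
  simp

theorem sum_dir (L : E →L[ℝ] ℝ) (y : E) : ∑ i, y i * L (EuclideanSpace.single i 1) = L y := by
  conv_rhs => rw [← (EuclideanSpace.basisFun (Fin 3) ℝ).sum_repr y]
  simp

theorem HG : Green := by
  intro f g hf hg
  have h := Sph.ibp_comp (d := 3) (V := fun i y => f y * fderiv ℝ g y (EuclideanSpace.single i 1) -
      g y * fderiv ℝ f y (EuclideanSpace.single i 1))
    (fun i => ((hf.1.on.mul (hg.1.pd _).on).sub (hg.1.on.mul (hf.1.pd _).on)).of_le (by simp))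
    (fun i x hx s hs => by
      rw [hf.2 x hx s hs, hg.2 x hx s hs, hf.dhom hx hs, hg.dhom hx hs, zpow_ofNat]; ring)
  have e1 : (sph fun y => ∑ i, y i * (f y * fderiv ℝ g y (EuclideanSpace.single i 1) -
      g y * fderiv ℝ f y (EuclideanSpace.single i 1))) = sph fun _ => 0 := by
    refine Sph.sph_congr fun y hy => ?_
    have h0 : y ≠ 0 := by rintro rfl; simp at hy
    have a := sum_dir (fderiv ℝ f y) y
    have b := sum_dir (fderiv ℝ g y) y
    rw [hf.euler h0] at a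
    rw [hg.euler h0] at b
    simp only [Fin.sum_univ_three] at a b ⊢
    linear_combination f y * b - g y * a
  have e2 : (sph fun y => ∑ i, fderiv ℝ (fun y => f y * fderiv ℝ g y (EuclideanSpace.single i 1) -
      g y * fderiv ℝ f y (EuclideanSpace.single i 1)) y (EuclideanSpace.single i 1)) =
      sph fun y => f y * lap g y - g y * lap f y := by
    refine Sph.sph_congr fun y hy => ?_
    have h0 : y ≠ 0 := by rintro rfl; simp at hy
    rw [lap, lap, Finset.mul_sum, Finset.mul_sum, ← Finset.sum_sub_distrib]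
    refine Finset.sum_congr rfl fun i _ => ?_
    rw [fderiv_fun_sub ((hf.1.da h0).fun_mul ((hg.1.pd _).da h0)) ((hg.1.da h0).fun_mul ((hf.1.pd _).da h0)),
      fderiv_fun_mul (hf.1.da h0) ((hg.1.pd _).da h0), fderiv_fun_mul (hg.1.da h0) ((hf.1.pd _).da h0)]
    simp
    ring
  rw [e1, e2, Sph.sph_sub (f := fun y => f y * lap g y) (g := fun y => g y * lap f y)
    (hf.1.on.continuousOn.mul hg.1.lap.on.continuousOn)
    (hg.1.on.continuousOn.mul hf.1.lap.on.continuousOn)] at h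
  have z : (sph fun _ => (0 : ℝ)) = 0 := by simp [sph]
  rw [z] at h
  linarith

theorem sm_of {d : ℤ} {f : E → ℝ} (h : B.Hm d f) : Sm f := fun _ hy =>
  h.sm.contDiffAt (isOpen_compl_singleton.mem_nhds hy)

theorem h2_of {f : E → ℝ} (h : B.Hm 2 f) : H2 f :=
  ⟨sm_of h, fun y hy c hc => by rw [h.hom c hc y hy]; norm_cast⟩

theorem lap_eq (f : E → ℝ) : B.lap f = lap f := rfl

theorem ar_eq : (sph fun _ => (1 : ℝ)) = ar := by simp [sph_def, ar]

theorem cn_cont {f : E → ℝ} (h : B.Cn f) : Continuous fun y : Sph => f y :=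
  ContinuousOn.comp_continuous h continuous_subtype_val fun y => y.2

end Zon

namespace B

variable {f : E → ℝ}

theorem hm_zonal {ψ : ℝ → ℝ} (hψ : ∀ s ∈ Icc (-1 : ℝ) 1, ContDiffAt ℝ ∞ ψ s) {x : E} (hx : ‖x‖ = 1) :
    Hm 0 fun y => ψ (⟪x, y⟫ / ‖y‖) :=
  ⟨fun y hy => ((hψ _ (Zon.cs_mem hx y)).comp y (Zon.cda_cs x hy)).contDiffWithinAt,
    fun l hl y _ => by
      have := Zon.cs_smul x y hl
      unfold Zon.cs at this
      rw [this]; simp⟩

theorem zonal {ψ ψ1 ψ2 : ℝ → ℝ} (h0 : ∀ s ∈ Icc (-1 : ℝ) 1, ContDiffAt ℝ ∞ ψ s)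
    (_h1 : ∀ s ∈ Icc (-1 : ℝ) 1, ContDiffAt ℝ ∞ ψ1 s) (_h2 : ContinuousOn ψ2 (Icc (-1) 1))
    (d0 : ∀ s ∈ Icc (-1 : ℝ) 1, HasDerivAt ψ (ψ1 s) s) (d1 : ∀ s ∈ Icc (-1 : ℝ) 1, HasDerivAt ψ1 (ψ2 s) s)
    {x : E} (hx : ‖x‖ = 1) (hf : Hm 2 f) :
    sph (fun y => ψ ⟪x, y⟫ * lap f y) =
      sph fun y => (6 * ψ ⟪x, y⟫ + (1 - ⟪x, y⟫ ^ 2) * ψ2 ⟪x, y⟫ - 2 * ⟪x, y⟫ * ψ1 ⟪x, y⟫) * f y :=
  (Zon.green_zon Zon.HG hx h0 d0 d1 (Zon.h2_of hf)).trans
    (integral_congr_ae (.of_forall fun y => by ring))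

theorem sph_lap (hf : Hm 2 f) : sph (lap f) = 6 * sph f := Zon.int_lap Zon.HG (Zon.h2_of hf)

end B

end Pool.Agent.Lib.MP_fbbbeb_an
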