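import Mathlib
import Pool.Agent.Lib.MP_fbbbeb_an.B.Zonal

/-! Integrability of the kernel. -/

set_option autoImplicit false

namespace Pool.Agent.Lib.MP_fbbbeb_an.B

open scoped ContDiff RealInnerProductSpace Topology
open Set Pub MeasureTheory

theorem inv_sqrt_bd : ∃ C : ℝ, ∀ x : E, ‖x‖ = 1 → ∀ ε : ℝ, 0 < ε → ε ≤ 1 →
    sph (fun y => (√(1 + ε - ⟪x, y⟫))⁻¹) ≤ C :=
  ⟨4 * Zon.ar, fun _ hx _ h0 h1 => Zon.int_isq Zon.HG hx h0 h1⟩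

theorem kap_sq : ∃ C : ℝ, ∀ x : E, ‖x‖ = 1 →
    Integrable (fun y : Metric.sphere (0 : E) 1 => kap ⟪x, (y : E)⟫ ^ 2) (volume : Measure E).toSphere ∧
      sph (fun y => kap ⟪x, y⟫ ^ 2) ≤ C :=
  ⟨64 * Zon.ar, fun _ hx => Zon.kap_sq Zon.HG hx⟩

theorem kap_int {x : E} (hx : ‖x‖ = 1) :
    Integrable (fun y : Metric.sphere (0 : E) 1 => kap ⟪x, (y : E)⟫) (volume : Measure E).toSphere :=
  Zon.kap_int Zon.HG hx

theorem kap_bd : ∃ C : ℝ, 0 ≤ C ∧ ∀ x : E, ‖x‖ = 1 → ∀ f : E → ℝ, Cn f →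
    |sph fun y => kap ⟪x, y⟫ * f y| ≤ C * n2 f := by
  refine ⟨√(64 * Zon.ar), Real.sqrt_nonneg _, fun x hx f hf => ?_⟩
  have cf := Zon.cn_cont hf
  have k2 := Zon.kap_sq Zon.HG hx
  have m1 : MemLp (fun y : Zon.Sph => Zon.kap ⟪x, (y : E)⟫) (ENNReal.ofReal 2) Zon.sm := by
    rw [ENNReal.ofReal_ofNat]
    exact (memLp_two_iff_integrable_sq (Zon.meas_kap x).aestronglyMeasurable).2 k2.1
  have m2 : MemLp (fun y : Zon.Sph => f y) (ENNReal.ofReal 2) Zon.sm := by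
    rw [ENNReal.ofReal_ofNat]
    exact (memLp_two_iff_integrable_sq cf.aestronglyMeasurable).2 (Zon.intg (cf.pow 2))
  have h := integral_mul_norm_le_Lp_mul_Lq Real.HolderConjugate.two_two m1 m2
  simp only [Real.norm_eq_abs, Real.rpow_two, sq_abs, ← Real.sqrt_eq_rpow] at h
  have h1 : |∫ y : Zon.Sph, Zon.kap ⟪x, (y : E)⟫ * f y ∂Zon.sm| ≤
      ∫ y : Zon.Sph, |Zon.kap ⟪x, (y : E)⟫| * |f y| ∂Zon.sm := by
    simpa only [Real.norm_eq_abs, abs_mul] using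
      norm_integral_le_integral_norm (μ := Zon.sm) fun y : Zon.Sph => Zon.kap ⟪x, (y : E)⟫ * f y
  exact (h1.trans h).trans (mul_le_mul_of_nonneg_right (Real.sqrt_le_sqrt k2.2) (Real.sqrt_nonneg _))

end Pool.Agent.Lib.MP_fbbbeb_an.B
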