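import Pool.Agent.Lib.MP_fbbbeb_an.B.Defs

/-! Section B: integrals and `L²` norms on the unit sphere. -/

set_option autoImplicit false

namespace Pool.Agent.Lib.MP_fbbbeb_an.B

open scoped ContDiff RealInnerProductSpace Nat
open Set Pub MeasureTheory

variable {f g : E → ℝ}

theorem Cn.add (hf : Cn f) (hg : Cn g) : Cn fun y => f y + g y := ContinuousOn.add hf hg

theorem Cn.sub (hf : Cn f) (hg : Cn g) : Cn fun y => f y - g y := ContinuousOn.sub hf hg

theorem Cn.mul (hf : Cn f) (hg : Cn g) : Cn fun y => f y * g y := ContinuousOn.mul hf hg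

theorem Cn.const (c : ℝ) : Cn fun _ => c := continuousOn_const

theorem Cn.sum {ι : Type} (s : Finset ι) {F : ι → E → ℝ} (h : ∀ i ∈ s, Cn (F i)) :
    Cn fun y => ∑ i ∈ s, F i y := continuousOn_finsetSum s h

theorem Cn.sq (hf : Cn f) : Cn fun y => f y ^ 2 := ContinuousOn.pow hf 2

theorem Cn.abs (hf : Cn f) : Cn fun y => |f y| := ContinuousOn.abs hf

theorem Cn.cont (hf : Cn f) : Continuous fun y : Metric.sphere (0 : E) 1 => f y :=
  continuousOn_iff_continuous_domRestrict.1 hf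

theorem Cn.int (hf : Cn f) :
    Integrable (fun y : Metric.sphere (0 : E) 1 => f y) (volume : Measure E).toSphere :=
  hf.cont.integrable_of_hasCompactSupport (HasCompactSupport.of_compactSpace _)

theorem K2.norm_one (y : Metric.sphere (0 : E) 1) : ‖(y : E)‖ = 1 := by simp

theorem sph_congr (h : ∀ y : E, ‖y‖ = 1 → f y = g y) : sph f = sph g := by
  unfold sph
  exact integral_congr_ae (Filter.Eventually.of_forall fun y => h y (K2.norm_one y))

theorem sph_add (hf : Cn f) (hg : Cn g) : sph (fun y => f y + g y) = sph f + sph g :=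
  integral_add hf.int hg.int

theorem sph_sub (hf : Cn f) (hg : Cn g) : sph (fun y => f y - g y) = sph f - sph g :=
  integral_sub hf.int hg.int

theorem sph_cmul (c : ℝ) (f : E → ℝ) : sph (fun y => c * f y) = c * sph f :=
  integral_const_mul c _

theorem sph_sum {ι : Type} (s : Finset ι) {F : ι → E → ℝ} (h : ∀ i ∈ s, Cn (F i)) :
    sph (fun y => ∑ i ∈ s, F i y) = ∑ i ∈ s, sph (F i) :=
  integral_finsetSum s fun i hi => (h i hi).int

theorem sph_mono (hf : Cn f) (hg : Cn g) (h : ∀ y : E, ‖y‖ = 1 → f y ≤ g y) : sph f ≤ sph g :=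
  integral_mono hf.int hg.int fun y => h y (K2.norm_one y)

theorem sph_nonneg (h : ∀ y : E, ‖y‖ = 1 → 0 ≤ f y) : 0 ≤ sph f :=
  integral_nonneg fun y => h y (K2.norm_one y)

theorem K2.eq_zero (hf : Cn f) (h0 : ∀ y : E, ‖y‖ = 1 → 0 ≤ f y) (h : sph f = 0) :
    ∀ y : E, ‖y‖ = 1 → f y = 0 := by
  intro y hy
  have h1 := (integral_eq_zero_iff_of_nonneg (f := fun y : Metric.sphere (0 : E) 1 => f y)
    (fun y => h0 y (K2.norm_one y)) hf.int).1 h
  have h2 := (Continuous.ae_eq_iff_eq (volume : Measure E).toSphere hf.cont continuous_const).1 h1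
  exact congrFun h2 ⟨y, by simpa using hy⟩

theorem sph_one_pos : 0 < sph fun _ => 1 := by
  refine lt_of_le_of_ne (sph_nonneg fun _ _ => zero_le_one) fun h => ?_
  have := K2.eq_zero (Cn.const 1) (fun _ _ => zero_le_one) h.symm (e 0) (by simp [e])
  exact one_ne_zero this

theorem n2_nonneg (f : E → ℝ) : 0 ≤ n2 f := Real.sqrt_nonneg _

theorem n2_sq (f : E → ℝ) : n2 f ^ 2 = sph fun y => f y ^ 2 :=
  Real.sq_sqrt (sph_nonneg fun _ _ => sq_nonneg _)

theorem n2_congr (h : ∀ y : E, ‖y‖ = 1 → f y = g y) : n2 f = n2 g := by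
  unfold n2
  rw [sph_congr (f := fun y => f y ^ 2) (g := fun y => g y ^ 2) fun y hy => by rw [h y hy]]

theorem sph_mul_le (hf : Cn f) (hg : Cn g) : |sph fun y => f y * g y| ≤ n2 f * n2 g := by
  have hq : ∀ x : ℝ, 0 ≤ n2 f ^ 2 * (x * x) + (2 * sph fun y => f y * g y) * x + n2 g ^ 2 := by
    intro x
    have h1 : 0 ≤ sph fun y => (x * f y + g y) ^ 2 := sph_nonneg fun _ _ => sq_nonneg _
    have h2 : (sph fun y => (x * f y + g y) ^ 2) =
        sph fun y => (x * x * f y ^ 2 + 2 * x * (f y * g y)) + g y ^ 2 :=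
      sph_congr fun y _ => by ring
    rw [h2, sph_add (((Cn.const _).mul hf.sq).add ((Cn.const _).mul (hf.mul hg))) hg.sq,
      sph_add ((Cn.const _).mul hf.sq) ((Cn.const _).mul (hf.mul hg)), sph_cmul, sph_cmul,
      ← n2_sq, ← n2_sq] at h1
    linarith
  have hd := discrim_le_zero hq
  rw [discrim] at hd
  refine abs_le_of_sq_le_sq' ?_ (mul_nonneg (n2_nonneg f) (n2_nonneg g)) |> abs_le.2
  nlinarith

theorem n2_mono (hf : Cn f) (hg : Cn g) (h : ∀ y : E, ‖y‖ = 1 → |f y| ≤ |g y|) : n2 f ≤ n2 g :=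
  Real.sqrt_le_sqrt (sph_mono hf.sq hg.sq fun y hy => sq_le_sq.2 (h y hy))

theorem n2_cmul (c : ℝ) (f : E → ℝ) : n2 (fun y => c * f y) = |c| * n2 f := by
  unfold n2
  rw [sph_congr (f := fun y => (c * f y) ^ 2) (g := fun y => c ^ 2 * f y ^ 2) fun y _ => by ring,
    sph_cmul, Real.sqrt_mul (sq_nonneg c), Real.sqrt_sq_eq_abs]

theorem n2_add (hf : Cn f) (hg : Cn g) : n2 (fun y => f y + g y) ≤ n2 f + n2 g := by
  refine (abs_le_of_sq_le_sq' ?_ (add_nonneg (n2_nonneg f) (n2_nonneg g))).2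
  have h2 : (sph fun y => (f y + g y) ^ 2) =
      sph fun y => (f y ^ 2 + 2 * (f y * g y)) + g y ^ 2 := sph_congr fun y _ => by ring
  rw [n2_sq, h2, sph_add (hf.sq.add ((Cn.const _).mul (hf.mul hg))) hg.sq,
    sph_add hf.sq ((Cn.const _).mul (hf.mul hg)), sph_cmul, ← n2_sq, ← n2_sq]
  nlinarith [(abs_le.1 (sph_mul_le hf hg)).2]

theorem n2_zero : n2 (fun _ => 0) = 0 := by simp [n2, sph]

theorem n2_sum {ι : Type} (s : Finset ι) {F : ι → E → ℝ} (h : ∀ i ∈ s, Cn (F i)) :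
    n2 (fun y => ∑ i ∈ s, F i y) ≤ ∑ i ∈ s, n2 (F i) := by
  classical
  induction s using Finset.induction_on with
  | empty => simp [n2_zero]
  | insert a s ha ih =>
    simp only [Finset.sum_insert ha]
    have hs : ∀ i ∈ s, Cn (F i) := fun i hi => h i (Finset.mem_insert_of_mem hi)
    exact (n2_add (h a (Finset.mem_insert_self a s)) (Cn.sum s hs)).trans (by linarith [ih hs])

theorem n2_mul_le (hf : Cn f) (hg : Cn g) {c : ℝ} (h : ∀ y : E, ‖y‖ = 1 → |f y| ≤ c) :
    n2 (fun y => f y * g y) ≤ c * n2 g := by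
  have hc : 0 ≤ c := (abs_nonneg _).trans (h (e 0) (by simp [e]))
  have h1 := n2_mono (hf.mul hg) ((Cn.const c).mul hg) fun y hy => by
    rw [abs_mul, abs_mul, abs_of_nonneg hc]
    exact mul_le_mul_of_nonneg_right (h y hy) (abs_nonneg _)
  rwa [n2_cmul, abs_of_nonneg hc] at h1

theorem n2_le_sup (hf : Cn f) {c : ℝ} (h : ∀ y : E, ‖y‖ = 1 → |f y| ≤ c) :
    n2 f ≤ c * n2 fun _ => 1 := by
  simpa using n2_mul_le hf (Cn.const 1) h

theorem eq_zero_of_n2 (hf : Cn f) (h : n2 f = 0) : ∀ y : E, ‖y‖ = 1 → f y = 0 := by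
  intro y hy
  have h1 : (sph fun y => f y ^ 2) = 0 := by rw [← n2_sq, h]; simp
  exact pow_eq_zero_iff (two_ne_zero) |>.1 (K2.eq_zero hf.sq (fun _ _ => sq_nonneg _) h1 y hy)

end Pool.Agent.Lib.MP_fbbbeb_an.B
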