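import Mathlib

/-! Smoothness of integrals with an integrable kernel against a smooth family on a compact set. -/

set_option autoImplicit false

namespace Pool.Agent.Lib.MP_fbbbeb_an.Par

open Set Filter Topology Metric MeasureTheory ContinuousLinearMap
open scoped ContDiff

variable {Y Z V : Type} [NormedAddCommGroup Y] [NormedSpace ℝ Y] [FiniteDimensional ℝ Y]
  [NormedAddCommGroup Z] [NormedSpace ℝ Z] [MeasurableSpace Z] [BorelSpace Z]
  [SecondCountableTopology Z]
  [NormedAddCommGroup V] [NormedSpace ℝ V]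
  {K : Set Z} {μ : Measure K} {k : K → ℝ} {F : Y × Z → V} {y : Y}

omit [FiniteDimensional ℝ Y] [MeasurableSpace Z] [BorelSpace Z] [SecondCountableTopology Z] in
theorem tube (hK : IsCompact K) {n : ℕ} (hF : ∀ t ∈ K, ContDiffAt ℝ n F (y, t)) :
    ∀ᶠ x in 𝓝 y, ∀ t ∈ K, ContDiffAt ℝ n F (x, t) :=
  hK.eventually_forall_of_forall_eventually fun t ht => (hF t ht).eventually (by simp)

omit [MeasurableSpace Z] [BorelSpace Z] [SecondCountableTopology Z] in
theorem bdd (hK : IsCompact K) (hF : ∀ t ∈ K, ContDiffAt ℝ 0 F (y, t)) :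
    ∃ M, ∀ᶠ x in 𝓝 y, Continuous (fun t : K => F (x, t)) ∧ ∀ t : K, ‖F (x, t)‖ ≤ M := by
  have := FiniteDimensional.proper_real Y
  obtain ⟨L, K1, K2, K3⟩ := local_compact_nhds (tube hK (n := 0) hF)
  obtain ⟨M, hM⟩ := (K3.prod hK).exists_bound_of_continuousOn
    (f := F) fun p hp => (K2 hp.1 p.2 hp.2).continuousAt.continuousWithinAt
  refine ⟨M, mem_of_superset K1 fun x hx => ⟨continuous_iff_continuousAt.2 fun t => ?_,
    fun t => hM _ ⟨hx, t.2⟩⟩⟩
  exact (K2 hx t t.2).continuousAt.comp_of_eq (f := fun t : K => (x, (t : Z))) (by fun_prop) rfl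

theorem meas (hk : Integrable k μ) {G : K → V} (hG : Continuous G) :
    AEStronglyMeasurable (fun t => k t • G t) μ :=
  hk.aestronglyMeasurable.smul hG.aestronglyMeasurable

theorem integ (hk : Integrable k μ) {G : K → V} (hG : Continuous G) {M : ℝ} (hM : ∀ t, ‖G t‖ ≤ M) :
    Integrable (fun t => k t • G t) μ :=
  (hk.norm.mul_const M).mono' (meas hk hG) (.of_forall fun t => by
    rw [norm_smul]; exact mul_le_mul_of_nonneg_left (hM t) (norm_nonneg _))

theorem cont (hK : IsCompact K) (hk : Integrable k μ) (hF : ∀ t ∈ K, ContDiffAt ℝ 0 F (y, t)) :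
    ContinuousAt (fun y => ∫ t : K, k t • F (y, t) ∂μ) y := by
  obtain ⟨M, hM⟩ := bdd hK hF
  exact continuousAt_of_dominated (bound := fun t => ‖k t‖ * M)
    (hM.mono fun x h => meas hk h.1)
    (hM.mono fun x h => .of_forall fun t => by
      rw [norm_smul]; exact mul_le_mul_of_nonneg_left (h.2 t) (norm_nonneg _))
    (hk.norm.mul_const M) (.of_forall fun t =>
      ((hF t t.2).continuousAt.comp_of_eq (f := fun x => (x, (t : Z))) (by fun_prop) rfl).const_smul _)

/-- the partial derivative in the parameter -/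
noncomputable def pd (F : Y × Z → V) (p : Y × Z) : Y →L[ℝ] V := (fderiv ℝ F p).comp (inl ℝ Y Z)

omit [FiniteDimensional ℝ Y] [MeasurableSpace Z] [BorelSpace Z] [SecondCountableTopology Z] in
theorem pd_cd {n : ℕ} {p : Y × Z} (h : ContDiffAt ℝ (n + 1) F p) : ContDiffAt ℝ n (pd F) p :=
  (h.fderiv_right le_rfl).clm_comp contDiffAt_const

theorem hasF (hK : IsCompact K) (hk : Integrable k μ) (hF : ∀ t ∈ K, ContDiffAt ℝ 1 F (y, t)) :
    HasFDerivAt (fun y => ∫ t : K, k t • F (y, t) ∂μ) (∫ t : K, k t • pd F (y, t) ∂μ) y := by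
  obtain ⟨M0, h0⟩ := bdd hK fun t ht => (hF t ht).of_le zero_le_one
  obtain ⟨M, hM⟩ := bdd hK (F := pd F) fun t ht => pd_cd (n := 0) (by simpa using hF t ht)
  refine hasFDerivAt_integral_of_dominated_of_fderiv_le (bound := fun t => ‖k t‖ * M)
    (F' := fun x t => k t • pd F (x, t)) (hM.and (tube hK (n := 1) hF))
    (h0.mono fun x h => meas hk h.1)
    (integ hk h0.self_of_nhds.1 h0.self_of_nhds.2)
    (meas hk hM.self_of_nhds.1)
    (.of_forall fun t x hx => ?_) (hk.norm.mul_const M)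
    (.of_forall fun t x hx => ?_)
  · rw [norm_smul]; exact mul_le_mul_of_nonneg_left (hx.1.2 t) (norm_nonneg _)
  · exact (((hx.2 t t.2).differentiableAt (by simp)).hasFDerivAt.comp x
      (hasFDerivAt_prodMk_left x (t : Z))).const_smul (k t)

theorem contDiffAt_nat (hK : IsCompact K) (hk : Integrable k μ) {n : ℕ}
    (hF : ∀ t ∈ K, ContDiffAt ℝ n F (y, t)) :
    ContDiffAt ℝ n (fun y => ∫ t : K, k t • F (y, t) ∂μ) y := by
  induction n generalizing V with
  | zero =>
    exact contDiffAt_zero.2 ⟨_, tube hK hF, fun x hx => (cont hK hk hx).continuousWithinAt⟩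
  | succ n ih =>
    push_cast at hF ⊢
    exact contDiffAt_succ_iff_hasFDerivAt.2 ⟨fun y => ∫ t : K, k t • pd F (y, t) ∂μ,
      ⟨_, tube hK (n := 1) fun t ht => (hF t ht).of_le (by simp), fun x hx => hasF hK hk hx⟩,
      ih fun t ht => pd_cd (hF t ht)⟩

/-- smoothness in the parameter -/
theorem contDiffAt_int (hK : IsCompact K) (hk : Integrable k μ)
    (hF : ∀ t ∈ K, ContDiffAt ℝ ∞ F (y, t)) :
    ContDiffAt ℝ ∞ (fun y => ∫ t : K, k t • F (y, t) ∂μ) y :=
  contDiffAt_infty.2 fun n => contDiffAt_nat hK hk fun t ht => contDiffAt_infty.1 (hF t ht) n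

end Pool.Agent.Lib.MP_fbbbeb_an.Par
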