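import Mathlib
import Pool.Agent.Lib.MP_fbbbeb_an.B.Ker

/-! Representation formula for functions of degree two. -/

set_option autoImplicit false

noncomputable section

namespace Pool.Agent.Lib.MP_fbbbeb_an.Zon

open Pool.Agent.Lib.MP_fbbbeb_an.Pub Set Filter Topology MeasureTheory
open scoped ContDiff RealInnerProductSpace

theorem bnd {f : Sph → ℝ} (h : Continuous f) : ∃ M, 0 ≤ M ∧ ∀ y, |f y| ≤ M := by
  obtain ⟨M, hM⟩ := isCompact_univ.exists_bound_of_continuousOn (f := f) h.continuousOn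
  exact ⟨max M 0, le_max_right _ _, fun y => (hM y trivial).trans (le_max_left _ _)⟩

theorem tend_y (s : ℝ) : Tendsto (fun n : ℕ => 1 + 1 / ((n : ℝ) + 1) - s) atTop (𝓝 (1 - s)) := by
  simpa using (tend_e.const_add 1).sub_const s

theorem dist_sq {x : E} (hx : ‖x‖ = 1) (y : Sph) : ‖(y : E) - x‖ ^ 2 = 2 * (1 - ⟪x, (y : E)⟫) := by
  rw [norm_sub_sq_real, nrm y, hx, real_inner_comm]; ring

theorem tend_tail (HG : Green) {x : E} (hx : ‖x‖ = 1) :
    Tendsto (fun n : ℕ => ∫ y : Sph, (1 - ⟪x, (y : E)⟫) * dl (1 / ((n : ℝ) + 1)) ⟪x, (y : E)⟫ ∂sm)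
      atTop (𝓝 0) := by
  have h := tendsto_integral_of_dominated_convergence (μ := sm)
    (F := fun (n : ℕ) (y : Sph) => (1 - ⟪x, (y : E)⟫) * dl (1 / ((n : ℝ) + 1)) ⟪x, (y : E)⟫)
    (f := fun _ => 0) (fun _ => 3)
    (fun n => (Continuous.mul (by fun_prop) (cont_k hx (cont_dl (e_pos n)))).aestronglyMeasurable)
    (integrable_const _) (fun n => .of_forall fun y => ?_) ((ae_lt HG hx).mono fun y hy => ?_)
  · simpa using h
  · have hs := s_mem hx y
    have h1 := e_pos n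
    have h2 := e_le n
    generalize ⟪x, (y : E)⟫ = s at hs
    generalize 1 / ((n : ℝ) + 1) = e at h1 h2
    have h3 := y_pos h1 hs
    have h4 : 0 ≤ 1 - s := by linarith [hs.2]
    rw [Real.norm_of_nonneg (mul_nonneg h4 (dl_nonneg h1 _)), dl, ← mul_div_assoc,
      div_le_iff₀ (by positivity)]
    nlinarith [mul_nonneg h4 h1.le, mul_nonneg (mul_nonneg h4 h1.le) (sub_nonneg.2 h2), sq_nonneg (1 - s),
      sq_nonneg e]
  · have t := ((tend_e.mul (tend_e.const_add 2)).div ((tend_y ⟪x, (y : E)⟫).pow 2)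
      (pow_ne_zero 2 (by linarith))).const_mul (1 - ⟪x, (y : E)⟫)
    simpa [dl] using t

/-- approximate identity -/
theorem tend_dl (HG : Green) (x : Sph) {φ : Sph → ℝ} (hφ : Continuous φ) :
    Tendsto (fun n : ℕ => ∫ y : Sph, φ y * dl (1 / ((n : ℝ) + 1)) ⟪(x : E), (y : E)⟫ ∂sm)
      atTop (𝓝 (ar * φ x)) := by
  have hx := nrm x
  obtain ⟨M, hM0, hM⟩ := bnd hφ
  have loc : ∀ η : ℝ, 0 < η → ∃ C, 0 ≤ C ∧ ∀ y : Sph, |φ y - φ x| ≤ η + C * (1 - ⟪(x : E), (y : E)⟫) := by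
    intro η hη
    obtain ⟨ρ, hρ, h⟩ := Metric.continuous_iff.1 hφ x η hη
    refine ⟨4 * M / ρ ^ 2, by positivity, fun y => ?_⟩
    have h4 : 0 ≤ 1 - ⟪(x : E), (y : E)⟫ := by linarith [(s_mem hx y).2]
    by_cases hy : dist y x < ρ
    · have := h y hy
      rw [Real.dist_eq] at this
      have : 0 ≤ 4 * M / ρ ^ 2 * (1 - ⟪(x : E), (y : E)⟫) := by positivity
      linarith
    · have h1 : ρ ≤ ‖(y : E) - x‖ := by
        rw [← dist_eq_norm]; exact not_lt.1 hy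
      have h2 : ρ ^ 2 ≤ 2 * (1 - ⟪(x : E), (y : E)⟫) := by
        rw [← dist_sq hx y]; exact pow_le_pow_left₀ hρ.le h1 2
      have h3 : 2 * M ≤ 4 * M / ρ ^ 2 * (1 - ⟪(x : E), (y : E)⟫) := by
        rw [div_mul_eq_mul_div, le_div_iff₀ (by positivity)]; nlinarith
      have h5 := abs_sub (φ y) (φ x)
      linarith [hM y, hM x]
  rw [Metric.tendsto_atTop]
  intro ε hε
  have ha := ar_pos
  obtain ⟨C, hC0, hC⟩ := loc (ε / (2 * ar)) (by positivity)
  obtain ⟨N, hN⟩ := Metric.tendsto_atTop.1 (by simpa using (tend_tail HG hx).const_mul C) (ε / 2)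
    (by positivity)
  refine ⟨N, fun n hn => ?_⟩
  have h1 := hN n hn
  have cd := cont_k hx (cont_dl (e_pos n))
  have e1 : ∫ y : Sph, φ y * dl (1 / ((n : ℝ) + 1)) ⟪(x : E), (y : E)⟫ ∂sm - ar * φ x =
      ∫ y : Sph, (φ y - φ x) * dl (1 / ((n : ℝ) + 1)) ⟪(x : E), (y : E)⟫ ∂sm := by
    simp only [sub_mul]
    rw [integral_sub (intg (hφ.fun_mul cd)) ((intg cd).const_mul _), integral_const_mul,
      int_dl HG hx (e_pos n), mul_comm ar]
  have c2 : Continuous fun y : Sph =>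
      (1 - ⟪(x : E), (y : E)⟫) * dl (1 / ((n : ℝ) + 1)) ⟪(x : E), (y : E)⟫ :=
    Continuous.mul (by fun_prop) cd
  have e2 : ‖∫ y : Sph, (φ y - φ x) * dl (1 / ((n : ℝ) + 1)) ⟪(x : E), (y : E)⟫ ∂sm‖ ≤
      ∫ y : Sph, (ε / (2 * ar) * dl (1 / ((n : ℝ) + 1)) ⟪(x : E), (y : E)⟫ +
        C * ((1 - ⟪(x : E), (y : E)⟫) * dl (1 / ((n : ℝ) + 1)) ⟪(x : E), (y : E)⟫)) ∂sm := by
    refine norm_integral_le_of_norm_le (((intg cd).const_mul _).add ((intg c2).const_mul _))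
      (.of_forall fun y => ?_)
    have h0 := dl_nonneg (e_pos n) ⟪(x : E), (y : E)⟫
    rw [norm_mul, Real.norm_of_nonneg h0, Real.norm_eq_abs]
    nlinarith [mul_le_mul_of_nonneg_right (hC y) h0]
  rw [integral_add ((intg cd).const_mul _) ((intg c2).const_mul _), integral_const_mul,
    integral_const_mul, int_dl HG hx (e_pos n)] at e2
  rw [Real.dist_eq, sub_zero] at h1
  rw [Real.dist_eq, e1]
  have h2 := le_abs_self (C * ∫ y : Sph,
    (1 - ⟪(x : E), (y : E)⟫) * dl (((n : ℝ) + 1)⁻¹) ⟪(x : E), (y : E)⟫ ∂sm)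
  have h3 : ε / (2 * ar) * ar = ε / 2 := by field_simp
  rw [Real.norm_eq_abs, h3] at e2
  simp only [one_div] at e2 ⊢
  linarith

/-- representation formula without symmetry -/
theorem rep0 (HG : Green) (x : Sph) {p : E → ℝ} (hp : H2 p) :
    ∫ y : Sph, kap ⟪(x : E), (y : E)⟫ * lap p y ∂sm = ar * p x -
      ∫ y : Sph, p y * ((3 * ⟪(x : E), (y : E)⟫ ^ 2 - 1) / 2 +
        6 * ⟪(x : E), (y : E)⟫ * (1 + ⟪(x : E), (y : E)⟫)) ∂sm := by
  have hx := nrm x
  have cp := hp.1.cont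
  have cl := hp.1.lap.cont
  have cy : ∀ n : ℕ, Continuous fun y : Sph => (1 + 1 / ((n : ℝ) + 1) - ⟪(x : E), (y : E)⟫)⁻¹ :=
    fun n => Continuous.inv₀ (by fun_prop) fun y => (y_pos (e_pos n) (s_mem hx y)).ne'
  have cB : ∀ n : ℕ, Continuous fun y : Sph => p y * ((3 * ⟪(x : E), (y : E)⟫ ^ 2 - 1) / 2 +
      6 * ⟪(x : E), (y : E)⟫ * ((1 - ⟪(x : E), (y : E)⟫ ^ 2) *
        (1 + 1 / ((n : ℝ) + 1) - ⟪(x : E), (y : E)⟫)⁻¹)) := fun n =>
    cp.mul (Continuous.add (by fun_prop) (Continuous.mul (by fun_prop)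
      (Continuous.mul (by fun_prop) (cy n))))
  have cφ : Continuous fun y : Sph => p y * ((3 * ⟪(x : E), (y : E)⟫ ^ 2 - 1) / 2) :=
    cp.mul (by fun_prop)
  have step : ∀ n : ℕ, ∫ y : Sph, (3 * ⟪(x : E), (y : E)⟫ ^ 2 - 1) / 2 *
        Real.log (1 + 1 / ((n : ℝ) + 1) - ⟪(x : E), (y : E)⟫) * lap p y ∂sm =
      ∫ y : Sph, p y * ((3 * ⟪(x : E), (y : E)⟫ ^ 2 - 1) / 2) *
        dl (1 / ((n : ℝ) + 1)) ⟪(x : E), (y : E)⟫ ∂sm -
      ∫ y : Sph, p y * ((3 * ⟪(x : E), (y : E)⟫ ^ 2 - 1) / 2 +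
        6 * ⟪(x : E), (y : E)⟫ * ((1 - ⟪(x : E), (y : E)⟫ ^ 2) *
          (1 + 1 / ((n : ℝ) + 1) - ⟪(x : E), (y : E)⟫)⁻¹)) ∂sm := by
    intro n
    have he := e_pos n
    rw [← integral_sub (intg (cφ.fun_mul (cont_k hx (cont_dl he)))) (intg (cB n))]
    generalize 1 / ((n : ℝ) + 1) = e at he
    have hP : ∀ s : ℝ, HasDerivAt (fun s : ℝ => (3 * s ^ 2 - 1) / 2) (3 * s) s := fun s => by
      have := ((((hasDerivAt_id s).pow 2).const_mul 3).sub_const 1).div_const 2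
      refine this.congr_deriv ?_
      simp; ring
    have h := green_zon HG hx (k := fun s => (3 * s ^ 2 - 1) / 2 * Real.log (1 + e - s))
      (k1 := fun s => 3 * s * Real.log (1 + e - s) - (3 * s ^ 2 - 1) / 2 * (1 + e - s)⁻¹)
      (k2 := fun s => 3 * Real.log (1 + e - s) - 6 * s * (1 + e - s)⁻¹ -
        (3 * s ^ 2 - 1) / 2 * ((1 + e - s) ^ 2)⁻¹)
      (fun s hs => ContDiffAt.mul (by fun_prop)
        ((contDiffAt_const.sub contDiffAt_id).log (y_pos he hs).ne'))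
      (fun s hs => by
        have := (hP s).mul ((hd_y e s).log (y_pos he hs).ne')
        refine this.congr_deriv ?_
        ring)
      (fun s hs => by
        have h0 := (y_pos he hs).ne'
        have := (((hasDerivAt_id s).const_mul 3).mul ((hd_y e s).log h0)).sub
          ((hP s).mul ((hd_y e s).inv h0))
        refine this.congr_deriv ?_
        simp only [id, Pi.inv_apply]
        field_simp
        ring) hp
    rw [h]
    refine integral_congr_ae (.of_forall fun y => ?_)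
    have h0 := (y_pos he (s_mem hx y)).ne'
    beta_reduce
    generalize ⟪(x : E), (y : E)⟫ = s at h0
    unfold dl
    field_simp
    ring
  obtain ⟨M, hM0, hM⟩ := bnd cl
  obtain ⟨Mp, hMp0, hMp⟩ := bnd cp
  have t1 := tendsto_integral_of_dominated_convergence (μ := sm)
    (F := fun (n : ℕ) (y : Sph) => (3 * ⟪(x : E), (y : E)⟫ ^ 2 - 1) / 2 *
        Real.log (1 + 1 / ((n : ℝ) + 1) - ⟪(x : E), (y : E)⟫) * lap p y)
    (f := fun y => kap ⟪(x : E), (y : E)⟫ * lap p y)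
    (fun y => (1 + 16 * (√(1 - ⟪(x : E), (y : E)⟫))⁻¹) * M)
    (fun n => ((Continuous.mul (by fun_prop) (Continuous.log (by fun_prop)
      fun y => (y_pos (e_pos n) (s_mem hx y)).ne')).mul cl).aestronglyMeasurable)
    (((integrable_const 1).add ((isq HG hx).1.const_mul 16)).mul_const M)
    (fun n => (ae_lt HG hx).mono fun y hy => by
      have hs := s_mem hx y
      have h1 := e_pos n
      have h2 := e_le n
      have h5 := hM y
      generalize ⟪(x : E), (y : E)⟫ = s at hs hy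
      generalize 1 / ((n : ℝ) + 1) = e at h1 h2
      have a1 := log_sq_le (y_pos h1 hs).le (by linarith [hs.1])
      have a2 : (√(1 + e - s))⁻¹ ≤ (√(1 - s))⁻¹ :=
        inv_anti₀ (Real.sqrt_pos.2 (by linarith)) (Real.sqrt_le_sqrt (by linarith))
      have a3 : |Real.log (1 + e - s)| ≤ 1 + 16 * (√(1 - s))⁻¹ := by
        rw [← sq_abs] at a1
        nlinarith [sq_nonneg (|Real.log (1 + e - s)| - 1), abs_nonneg (Real.log (1 + e - s))]
      rw [Real.norm_eq_abs, abs_mul, abs_mul]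
      refine mul_le_mul ?_ h5 (abs_nonneg _) (by positivity)
      exact (mul_le_of_le_one_left (abs_nonneg _) (P2_le hs)).trans a3)
    ((ae_lt HG hx).mono fun y hy =>
      (((tend_y ⟪(x : E), (y : E)⟫).log (by linarith)).const_mul _).mul_const _)
  have t2 := tend_dl HG x cφ
  have t3 := tendsto_integral_of_dominated_convergence (μ := sm)
    (F := fun (n : ℕ) (y : Sph) => p y * ((3 * ⟪(x : E), (y : E)⟫ ^ 2 - 1) / 2 +
      6 * ⟪(x : E), (y : E)⟫ * ((1 - ⟪(x : E), (y : E)⟫ ^ 2) *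
        (1 + 1 / ((n : ℝ) + 1) - ⟪(x : E), (y : E)⟫)⁻¹)))
    (f := fun y => p y * ((3 * ⟪(x : E), (y : E)⟫ ^ 2 - 1) / 2 +
        6 * ⟪(x : E), (y : E)⟫ * (1 + ⟪(x : E), (y : E)⟫)))
    (fun _ => Mp * 13) (fun n => (cB n).aestronglyMeasurable) (integrable_const _)
    (fun n => .of_forall fun y => by
      have hs := s_mem hx y
      have h1 := e_pos n
      have h5 := hMp y
      generalize ⟪(x : E), (y : E)⟫ = s at hs
      generalize 1 / ((n : ℝ) + 1) = e at h1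
      have h3 := y_pos h1 hs
      have a0 : 0 ≤ 1 - s ^ 2 := by nlinarith [hs.1, hs.2]
      have a1 : 0 ≤ (1 - s ^ 2) * (1 + e - s)⁻¹ := by positivity
      have a2 : (1 - s ^ 2) * (1 + e - s)⁻¹ ≤ 2 := by
        rw [← div_eq_mul_inv, div_le_iff₀ h3]; nlinarith [hs.1, hs.2]
      have a3 := abs_le.1 (P2_le hs)
      rw [Real.norm_eq_abs, abs_mul]
      refine mul_le_mul h5 ?_ (abs_nonneg _) hMp0
      generalize (1 - s ^ 2) * (1 + e - s)⁻¹ = w at a1 a2
      rw [abs_le]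
      constructor <;> nlinarith [hs.1, hs.2])
    ((ae_lt HG hx).mono fun y hy => by
      have h0 : 1 - ⟪(x : E), (y : E)⟫ ≠ 0 := by linarith
      have := (((((tend_y ⟪(x : E), (y : E)⟫).inv₀ h0).const_mul (1 - ⟪(x : E), (y : E)⟫ ^ 2)).const_mul
        (6 * ⟪(x : E), (y : E)⟫)).const_add ((3 * ⟪(x : E), (y : E)⟫ ^ 2 - 1) / 2)).const_mul (p y)
      convert this using 5
      field_simp
      ring)
  have e1 : ⟪(x : E), (x : E)⟫ = 1 := by rw [real_inner_self_eq_norm_sq, hx]; norm_num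
  have t4 := t2.sub t3
  simp only [e1] at t4
  have := tendsto_nhds_unique (t1.congr step) t4
  rw [this]
  norm_num

/-- first and second moments of an invariant function -/
def Mom (f : E → ℝ) : Prop := ∀ x : E, ‖x‖ = 1 →
  ∫ y : Sph, f y * ⟪x, (y : E)⟫ ∂sm = 0 ∧
    ∫ y : Sph, f y * ⟪x, (y : E)⟫ ^ 2 ∂sm = (1 / 3) * ∫ y : Sph, f y ∂sm

/-- representation formula -/
theorem rep (HG : Green) (x : Sph) {p : E → ℝ} (hp : H2 p) (hm : Mom p) :
    ar * p x = ∫ y : Sph, (kap ⟪(x : E), (y : E)⟫ + 1 / 3) * lap p y ∂sm := by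
  have hx := nrm x
  have cp := hp.1.cont
  have cl := hp.1.lap.cont
  obtain ⟨M, -, hM⟩ := bnd cl
  have i1 : Integrable (fun y : Sph => kap ⟪(x : E), (y : E)⟫ * lap p y) sm :=
    (kap_int HG hx).mul_bdd (c := M) cl.aestronglyMeasurable (.of_forall hM)
  have e1 : ∫ y : Sph, p y * ((3 * ⟪(x : E), (y : E)⟫ ^ 2 - 1) / 2 +
        6 * ⟪(x : E), (y : E)⟫ * (1 + ⟪(x : E), (y : E)⟫)) ∂sm =
      ∫ y : Sph, (15 / 2 * (p y * ⟪(x : E), (y : E)⟫ ^ 2) + 6 * (p y * ⟪(x : E), (y : E)⟫) -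
        1 / 2 * p y) ∂sm := integral_congr_ae (.of_forall fun y => by ring)
  have j1 : Integrable (fun y : Sph => 15 / 2 * (p y * ⟪(x : E), (y : E)⟫ ^ 2)) sm :=
    (intg (cp.mul ((cont_s (x : E)).pow 2))).const_mul (15 / 2)
  have j2 : Integrable (fun y : Sph => 6 * (p y * ⟪(x : E), (y : E)⟫)) sm :=
    (intg (cp.mul (cont_s (x : E)))).const_mul 6
  have j3 : Integrable (fun y : Sph => 15 / 2 * (p y * ⟪(x : E), (y : E)⟫ ^ 2) +
    6 * (p y * ⟪(x : E), (y : E)⟫)) sm := j1.add j2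
  rw [integral_sub j3 ((intg cp).const_mul _), integral_add j1 j2, integral_const_mul,
    integral_const_mul, integral_const_mul, (hm x hx).1, (hm x hx).2] at e1
  simp only [add_mul]
  rw [integral_add i1 ((intg cl).const_mul _), integral_const_mul, rep0 HG x hp, e1, int_lap HG hp]
  ring

end Pool.Agent.Lib.MP_fbbbeb_an.Zon
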