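import Mathlib
import Pool.Agent.Lib.MP_fbbbeb_an.B.Kap
import Pool.Agent.Lib.MP_fbbbeb_an.B.RepR

/-! The representation formula for invariant functions of degree two. -/

set_option autoImplicit false

namespace Pool.Agent.Lib.MP_fbbbeb_an

open scoped ContDiff RealInnerProductSpace Topology
open Set Pub MeasureTheory

namespace Zon

theorem inner_sum (x y : E) : ⟪x, y⟫ = ∑ i, x i * y i := by
  rw [PiLp.inner_apply]; exact Finset.sum_congr rfl fun i _ => by simp [mul_comm]

theorem mom_of {M : Set (E ≃ₗᵢ[ℝ] E)} (hM : B.Sym M) {f : E → ℝ} (hf : ContinuousOn f {0}ᶜ)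
    (h : B.IsInv M f) : Mom f := by
  have nz : ∀ y : E, ‖y‖ = 1 → y ≠ 0 := fun y hy h0 => by simp [h0] at hy
  have cc : ∀ i, ContinuousOn (fun y : E => y i) {0}ᶜ := fun i => by fun_prop
  have c1 : ∀ i, ContinuousOn (fun y : E => y i * f y) {0}ᶜ := fun i => (cc i).mul hf
  have c2 : ∀ i j, ContinuousOn (fun y : E => y i * y j * f y) {0}ᶜ :=
    fun i j => ((cc i).mul (cc j)).mul hf
  have a1 : ∀ i, sph (fun y => y i * f y) = 0 := fun i => by
    obtain ⟨O, hO, e⟩ := hM.1 i
    have := Sph.sph_iso O (fun y => y i * f y)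
    rw [Sph.sph_congr (g := fun y => -(y i * f y))
      (fun y hy => by rw [e, h O hO y (nz y hy)]; simp), Sph.sph_neg] at this
    linarith
  have a2 : ∀ i j, i ≠ j → sph (fun y => y i * y j * f y) = 0 := fun i j hij => by
    obtain ⟨O, hO, e⟩ := hM.1 i
    have := Sph.sph_iso O (fun y => y i * y j * f y)
    rw [Sph.sph_congr (g := fun y => -(y i * y j * f y))
      (fun y hy => by rw [e, e, h O hO y (nz y hy)]; simp [hij.symm]), Sph.sph_neg] at this
    linarith
  have a3 : ∀ i, sph (fun y => y (i + 1) * y (i + 1) * f y) = sph fun y => y i * y i * f y := fun i => by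
    obtain ⟨O, hO, e⟩ := hM.2
    rw [← Sph.sph_iso O (fun y => y i * y i * f y)]
    exact Sph.sph_congr fun y hy => by rw [e, h O hO y (nz y hy)]
  have a4 : ∑ i, sph (fun y => y i * y i * f y) = sph f := by
    rw [← Sph.sph_sum _ fun i _ => c2 i i]
    refine Sph.sph_congr fun y hy => ?_
    rw [← Finset.sum_mul, ← inner_sum, real_inner_self_eq_norm_sq, hy]; ring
  intro x hx
  have hx2 : ∑ i, x i * x i = 1 := by rw [← inner_sum, real_inner_self_eq_norm_sq, hx]; ring
  constructor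
  · have : sph (fun y => f y * ⟪x, y⟫) = ∑ i, x i * sph fun y => y i * f y := by
      simp only [← Sph.sph_const_mul]
      rw [← Sph.sph_sum _ fun i _ => continuousOn_const.fun_mul (c1 i)]
      refine Sph.sph_congr fun y _ => ?_
      rw [inner_sum, Finset.mul_sum]
      exact Finset.sum_congr rfl fun i _ => by ring
    rw [sph_def] at this
    rw [this]; simp [a1]
  · have : sph (fun y => f y * ⟪x, y⟫ ^ 2) = ∑ i, ∑ j, x i * x j * sph fun y => y i * y j * f y := by
      simp only [← Sph.sph_const_mul]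
      rw [Finset.sum_congr rfl fun i _ =>
        (Sph.sph_sum _ fun j _ => continuousOn_const.fun_mul (c2 i j)).symm,
        ← Sph.sph_sum _ fun i _ => continuousOn_finsetSum _ fun j _ => continuousOn_const.fun_mul (c2 i j)]
      refine Sph.sph_congr fun y _ => ?_
      rw [inner_sum]
      simp only [Fin.sum_univ_three]
      ring
    rw [sph_def] at this
    rw [this, ← sph_def, ← a4]
    have b0 := a3 0
    have b1 := a3 1
    simp only [Fin.sum_univ_three] at hx2 ⊢
    rw [a2 0 1 (by decide), a2 0 2 (by decide), a2 1 0 (by decide), a2 1 2 (by decide),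
      a2 2 0 (by decide), a2 2 1 (by decide)]
    change sph (fun y => y 1 * y 1 * f y) = _ at b0
    change sph (fun y => y 2 * y 2 * f y) = _ at b1
    rw [b1, b0]
    linear_combination (sph fun y => y 0 * y 0 * f y) * hx2

theorem unit_norm {x : E} (hx : x ≠ 0) : ‖‖x‖⁻¹ • x‖ = 1 := by
  rw [norm_smul, norm_inv, norm_norm, inv_mul_cancel₀ (norm_ne_zero_iff.2 hx)]

theorem kap_mul_int {x : E} (hx : ‖x‖ = 1) {g : Sph → ℝ} (hg : Continuous g) :
    Integrable (fun y : Sph => kap ⟪x, (y : E)⟫ * g y) sm := by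
  obtain ⟨M, -, hM⟩ := bnd hg
  exact (kap_int HG hx).mul_bdd hg.aestronglyMeasurable (.of_forall hM)

end Zon

namespace B

theorem rep {M : Set (E ≃ₗᵢ[ℝ] E)} {f : E → ℝ} (hM : Sym M) (hf : Hm 2 f) (h : IsInv M f) {x : E}
    (hx : x ≠ 0) : Sop (lap f) x = f x := by
  have hu := Zon.unit_norm hx
  have hp := Zon.h2_of hf
  have cl := hp.1.lap.cont
  have hn : 0 < ‖x‖ := norm_pos_iff.2 hx
  have r := Zon.rep Zon.HG ⟨‖x‖⁻¹ • x, mem_sphere_zero_iff_norm.2 hu⟩ hp
    (Zon.mom_of hM hf.sm.continuousOn h)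
  have i2 : Integrable (fun y : Zon.Sph => 1 / 3 * Zon.lap f y) Zon.sm := (Zon.intg cl).const_mul _
  simp only [add_mul] at r
  rw [integral_add (Zon.kap_mul_int hu cl) i2, integral_const_mul,
    hp.2 x hx _ (inv_pos.2 hn)] at r
  have e : (sph fun y => kap ⟪‖x‖⁻¹ • x, y⟫ * lap f y) + sph (lap f) / 3 =
      Zon.ar * (‖x‖⁻¹ ^ 2 * f x) := by
    rw [r, div_eq_inv_mul, one_div]; rfl
  rw [Sop, e, Zon.ar_eq]
  have := Zon.ar_pos
  field_simp

end B

end Pool.Agent.Lib.MP_fbbbeb_an
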