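import Mathlib
import Pool.Agent.Lib.MP_fbbbeb_an.B.Rep
import Pool.Agent.Lib.MP_fbbbeb_an.B.ParR

/-! Smoothness of the solution operator. -/

set_option autoImplicit false

namespace Pool.Agent.Lib.MP_fbbbeb_an

open scoped ContDiff RealInnerProductSpace Topology
open Set Pub MeasureTheory

namespace Par

/-- reflection in the plane orthogonal to `v` -/
noncomputable def rf (v y : E) : E := y - (2 * ⟪v, y⟫ / ‖v‖ ^ 2) • v

theorem rf_eq (v y : E) : (ℝ ∙ v)ᗮ.reflection y = rf v y := by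
  rw [Submodule.reflection_orthogonal_apply, Submodule.reflection_singleton_apply, rf, neg_sub,
    mul_div_assoc, mul_smul, two_smul, two_smul]
  simp

theorem rot {a u : E} (h : ‖a‖ = ‖u‖) (k : ℝ → ℝ) (g : E → ℝ) :
    sph (fun y => k ⟪u, y⟫ * g y) = sph fun y => k ⟪a, y⟫ * g (rf (a - u) y) := by
  rw [← Sph.sph_iso (ℝ ∙ (a - u))ᗮ.reflection]
  refine Sph.sph_congr fun y _ => ?_
  have e : ⟪u, (ℝ ∙ (a - u))ᗮ.reflection y⟫ = ⟪a, y⟫ := by
    rw [← (ℝ ∙ (a - u))ᗮ.reflection.inner_map_map a y, Submodule.reflection_sub h]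
  rw [e, rf_eq]

theorem cda_unit {x : E} (hx : x ≠ 0) : ContDiffAt ℝ ∞ (fun x : E => ‖x‖⁻¹ • x) x :=
  ((contDiffAt_norm ℝ hx).inv (norm_ne_zero_iff.2 hx)).smul contDiffAt_id

theorem cda_rf {v : E} (hv : v ≠ 0) (y : E) : ContDiffAt ℝ ∞ (fun p : E × E => rf p.1 p.2) (v, y) := by
  unfold rf
  exact contDiffAt_snd.sub (((contDiffAt_const.mul (contDiffAt_fst.inner ℝ contDiffAt_snd)).div
    (contDiffAt_fst.norm_sq ℝ) (pow_ne_zero _ (norm_ne_zero_iff.2 hv))).smul contDiffAt_fst)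

theorem cda_kap {Z : Type} [NormedAddCommGroup Z] [NormedSpace ℝ Z] [FiniteDimensional ℝ Z]
    {H : Z × E → ℝ} {z : Z} (hH : ∀ y : E, y ≠ 0 → ContDiffAt ℝ ∞ H (z, y)) {x : E} (hx : x ≠ 0) :
    ContDiffAt ℝ ∞ (fun p : Z × E => sph fun y => B.kap ⟪‖p.2‖⁻¹ • p.2, y⟫ * H (p.1, y)) (z, x) := by
  have hu := Zon.unit_norm hx
  set a : E := -(‖x‖⁻¹ • x) with ha
  have h1 : ‖a‖ = 1 := by rw [ha, norm_neg, hu]
  have hv : a - ‖x‖⁻¹ • x ≠ 0 := by
    intro h0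
    have : (2 : ℝ) • a = 0 := by rw [two_smul, ← h0, sub_eq_add_neg]
    rw [smul_eq_zero] at this
    rcases this with h | h
    · norm_num at h
    · simp [h] at h1
  have main := contDiffAt_int (Y := Z × E) (y := (z, x)) (isCompact_sphere (0 : E) 1) (B.kap_int h1)
    (F := fun q : (Z × E) × E => H (q.1.1, rf (a - ‖q.1.2‖⁻¹ • q.1.2) q.2)) fun t ht => by
      have n0 : rf (a - ‖x‖⁻¹ • x) t ≠ 0 := by
        rw [← rf_eq, ← norm_ne_zero_iff, LinearIsometryEquiv.norm_map, mem_sphere_zero_iff_norm.1 ht]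
        exact one_ne_zero
      have c1 : ContDiffAt ℝ ∞ (fun q : (Z × E) × E => a - ‖q.1.2‖⁻¹ • q.1.2) ((z, x), t) :=
        contDiffAt_const.sub (ContDiffAt.comp (f := fun q : (Z × E) × E => q.1.2) ((z, x), t)
          (cda_unit hx) contDiffAt_fst.snd)
      have c2 : ContDiffAt ℝ ∞ (fun q : (Z × E) × E => rf (a - ‖q.1.2‖⁻¹ • q.1.2) q.2) ((z, x), t) :=
        ContDiffAt.comp (g := fun p : E × E => rf p.1 p.2)
          (f := fun q : (Z × E) × E => (a - ‖q.1.2‖⁻¹ • q.1.2, q.2)) ((z, x), t) (cda_rf hv t)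
          (c1.prodMk contDiffAt_snd)
      exact ContDiffAt.comp (g := H)
        (f := fun q : (Z × E) × E => (q.1.1, rf (a - ‖q.1.2‖⁻¹ • q.1.2) q.2)) ((z, x), t) (hH _ n0)
        (contDiffAt_fst.fst.prodMk c2)
  refine main.congr_of_eventuallyEq ?_
  have ev : ∀ᶠ p : Z × E in 𝓝 (z, x), p.2 ≠ 0 :=
    continuous_snd.continuousAt.eventually_ne hx
  filter_upwards [ev] with p hp
  exact rot (h1.trans (Zon.unit_norm hp).symm) B.kap fun y => H (p.1, y)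

theorem cda_sop {Z : Type} [NormedAddCommGroup Z] [NormedSpace ℝ Z] [FiniteDimensional ℝ Z]
    {H : Z × E → ℝ} {z : Z} (hH : ∀ y : E, y ≠ 0 → ContDiffAt ℝ ∞ H (z, y)) {x : E} (hx : x ≠ 0) :
    ContDiffAt ℝ ∞ (fun p : Z × E => B.Sop (fun y => H (p.1, y)) p.2) (z, x) := by
  have c0 := contDiffAt_int (y := z) (isCompact_sphere (0 : E) 1) (μ := Zon.sm) (integrable_const (1 : ℝ))
    (F := H) fun t ht => hH t (ne_zero_of_mem_unit_sphere ⟨t, ht⟩)
  simp only [one_smul] at c0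
  have c1 : ContDiffAt ℝ ∞ (fun p : Z × E => sph fun y => H (p.1, y)) (z, x) :=
    ContDiffAt.comp (f := Prod.fst) (z, x) c0 contDiffAt_fst
  unfold B.Sop
  exact ((contDiffAt_snd.norm_sq ℝ).mul ((cda_kap hH hx).add (c1.div_const _))).div_const _

theorem sop_hom (h : E → ℝ) {l : ℝ} (hl : 0 < l) (x : E) : B.Sop h (l • x) = l ^ (2 : ℤ) * B.Sop h x := by
  have e : ‖l • x‖⁻¹ • l • x = ‖x‖⁻¹ • x := by
    rw [norm_smul, Real.norm_of_nonneg hl.le, smul_smul, mul_inv, mul_comm l⁻¹, mul_assoc,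
      inv_mul_cancel₀ hl.ne', mul_one]
  rw [B.Sop, B.Sop, e, norm_smul, Real.norm_of_nonneg hl.le, zpow_ofNat]
  ring

end Par

namespace B

theorem smooth_par {Z : Type} [NormedAddCommGroup Z] [NormedSpace ℝ Z] [FiniteDimensional ℝ Z]
    {U : Set Z} (hU : IsOpen U) {k : E → ℝ}
    (hk : Integrable (fun y : Metric.sphere (0 : E) 1 => k y) (volume : Measure E).toSphere)
    {H : Z × E → ℝ} (hH : ContDiffOn ℝ ∞ H (U ×ˢ {0}ᶜ)) :
    ContDiffOn ℝ ∞ (fun z => sph fun y => k y * H (z, y)) U := fun z hz =>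
  (Par.contDiffAt_int (y := z) (isCompact_sphere (0 : E) 1) hk (F := H) fun t ht =>
    hH.contDiffAt ((hU.prod isOpen_compl_singleton).mem_nhds
      ⟨hz, ne_zero_of_mem_unit_sphere ⟨t, ht⟩⟩)).contDiffWithinAt

theorem Ht.sop {T : ℝ} {h : Y → ℝ} (hh : Ht T 0 h) : Ht T 2 fun z => Sop (sl h z.1) z.2 :=
  ⟨fun z hz => (Par.cda_sop (H := h) (z := z.1) (fun _ hy => hh.sm.contDiffAt
      ((isOpen_Ioo.prod isOpen_compl_singleton).mem_nhds ⟨hz.1, hy⟩)) hz.2).contDiffWithinAt,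
    fun _ _ _ hl a _ => Par.sop_hom _ hl a⟩

theorem Hm.sop {f : E → ℝ} (hf : Hm 0 f) : Hm 2 (Sop f) :=
  ⟨fun x hx => ((Par.cda_sop (H := fun p : ℝ × E => f p.2) (z := 0)
      (fun y hy => (Zon.sm_of hf y hy).comp ((0 : ℝ), y) contDiffAt_snd) hx).comp x
        (contDiffAt_const.prodMk contDiffAt_id)).contDiffWithinAt,
    fun _ hl a _ => Par.sop_hom _ hl a⟩

end B

end Pool.Agent.Lib.MP_fbbbeb_an
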