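import Pool.Agent.Lib.MP_fbbbeb_an.B.Kit
import Pool.Agent.Lib.MP_fbbbeb_an.B.Kit2
import Pool.Agent.Lib.MP_fbbbeb_an.B.Ibp
import Pool.Agent.Lib.MP_fbbbeb_an.B.Iso
import Pool.Agent.Lib.MP_fbbbeb_an.B.Kap
import Pool.Agent.Lib.MP_fbbbeb_an.B.Rep
import Pool.Agent.Lib.MP_fbbbeb_an.B.Par

/-! Section B, S4b: the operator `Sop` is a right inverse of the Laplacian on invariant functions. -/

set_option autoImplicit false

namespace Pool.Agent.Lib.MP_fbbbeb_an.B

open scoped ContDiff RealInnerProductSpace Nat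
open Set Pub MeasureTheory

variable {M : Set (E ≃ₗᵢ[ℝ] E)} {d d' : ℤ} {f g : E → ℝ}

theorem ex_ne {y : E} (hy : ‖y‖ = 1) : y ≠ 0 := by
  intro h; rw [h, norm_zero] at hy; exact zero_ne_one hy

theorem ex_unit (f : E → ℝ) {x : E} (hx : ‖x‖ = 1) :
    Sop f x = ((sph fun y => kap ⟪x, y⟫ * f y) + sph f / 3) / sph fun _ => 1 := by
  simp [Sop, hx]

theorem IsInv.sop (h : IsInv M f) : IsInv M (Sop f) := by
  intro O hO x _
  have h1 : (sph fun y => kap ⟪‖x‖⁻¹ • O x, y⟫ * f y) = sph fun y => kap ⟪‖x‖⁻¹ • x, y⟫ * f y := by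
    rw [← sph_iso O fun y => kap ⟪‖x‖⁻¹ • O x, y⟫ * f y]
    refine sph_congr fun y hy => ?_
    rw [h O hO y (ex_ne hy), ← O.map_smul, O.inner_map_map]
  simp only [Sop, O.norm_map, h1]

theorem ex_meas : Measurable kap := by
  unfold kap
  exact Measurable.mul (by fun_prop) (Real.measurable_log.comp (by fun_prop))

theorem ex_sm : StronglyMeasurable fun z : Metric.sphere (0 : E) 1 × Metric.sphere (0 : E) 1 =>
    kap ⟪(z.1 : E), (z.2 : E)⟫ := by
  have hc : Continuous fun z : Metric.sphere (0 : E) 1 × Metric.sphere (0 : E) 1 =>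
      ⟪(z.1 : E), (z.2 : E)⟫ :=
    (continuous_subtype_val.comp continuous_fst).inner (continuous_subtype_val.comp continuous_snd)
  have h : Measurable fun z : Metric.sphere (0 : E) 1 × Metric.sphere (0 : E) 1 =>
      kap ⟪(z.1 : E), (z.2 : E)⟫ := ex_meas.comp hc.measurable
  exact h.stronglyMeasurable

theorem ex_abs : ∃ B : ℝ, ∀ x : E, ‖x‖ = 1 →
    ∫ y : Metric.sphere (0 : E) 1, ‖kap ⟪x, (y : E)⟫‖ ∂(volume : Measure E).toSphere ≤ B := by
  obtain ⟨C, hC⟩ := kap_sq
  refine ⟨(sph fun _ => 1) + C, fun x hx => ?_⟩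
  obtain ⟨h1, h2⟩ := hC x hx
  have h3 : ∫ y : Metric.sphere (0 : E) 1, ‖kap ⟪x, (y : E)⟫‖ ∂(volume : Measure E).toSphere ≤
      ∫ y : Metric.sphere (0 : E) 1, (1 + kap ⟪x, (y : E)⟫ ^ 2) ∂(volume : Measure E).toSphere := by
    refine integral_mono (kap_int hx).norm ((integrable_const _).add h1) fun y => ?_
    have := sq_abs (kap ⟪x, (y : E)⟫)
    simp only [Real.norm_eq_abs]
    nlinarith [sq_nonneg (|kap ⟪x, (y : E)⟫| - 1), abs_nonneg (kap ⟪x, (y : E)⟫)]
  rw [integral_add (integrable_const _) h1] at h3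
  exact h3.trans (add_le_add le_rfl h2)

theorem ex_gen {α : Type} [MeasurableSpace α] (μ : Measure α) [IsFiniteMeasure μ] {k : α → α → ℝ}
    (hk : StronglyMeasurable fun z : α × α => k z.1 z.2) (h1 : ∀ x, Integrable (k x) μ) {B : ℝ}
    (h2 : ∀ x, ∫ y, ‖k x y‖ ∂μ ≤ B) : Integrable (fun z : α × α => k z.1 z.2) (μ.prod μ) := by
  refine (integrable_prod_iff hk.aestronglyMeasurable).2 ⟨Filter.Eventually.of_forall h1, ?_⟩
  refine Integrable.of_bound hk.norm.integral_prod_right'.aestronglyMeasurable B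
    (Filter.Eventually.of_forall fun x => ?_)
  rw [Real.norm_of_nonneg (integral_nonneg fun _ => norm_nonneg _)]
  exact h2 x

theorem ex_kint : Integrable
    (fun z : Metric.sphere (0 : E) 1 × Metric.sphere (0 : E) 1 => kap ⟪(z.1 : E), (z.2 : E)⟫)
    ((volume : Measure E).toSphere.prod (volume : Measure E).toSphere) := by
  obtain ⟨B, hB⟩ := ex_abs
  exact ex_gen (volume : Measure E).toSphere
    (k := fun x y : Metric.sphere (0 : E) 1 => kap ⟪(x : E), (y : E)⟫) ex_sm
    (fun x => kap_int (norm_eq_of_mem_sphere x)) (B := B) fun x => hB x (norm_eq_of_mem_sphere x)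

theorem ex_cont (hf : Cn f) : Continuous fun y : Metric.sphere (0 : E) 1 => f y :=
  continuousOn_iff_continuous_domRestrict.1 hf

theorem ex_pint (hf : Cn f) (hg : Cn g) : Integrable
    (fun z : Metric.sphere (0 : E) 1 × Metric.sphere (0 : E) 1 =>
      kap ⟪(z.1 : E), (z.2 : E)⟫ * (f z.2 * g z.1))
    ((volume : Measure E).toSphere.prod (volume : Measure E).toSphere) := by
  have hc : Continuous fun z : Metric.sphere (0 : E) 1 × Metric.sphere (0 : E) 1 => f z.2 * g z.1 :=
    ((ex_cont hf).comp continuous_snd).mul ((ex_cont hg).comp continuous_fst)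
  obtain ⟨B, hB⟩ := isCompact_univ.exists_bound_of_continuousOn hc.continuousOn
  exact ex_kint.mul_bdd hc.aestronglyMeasurable
    (Filter.Eventually.of_forall fun z => hB z (mem_univ _))

theorem ex_left (hf : Cn f) (hg : Cn g) : sph (fun x => Sop f x * g x) =
    ((∫ x : Metric.sphere (0 : E) 1, ∫ y : Metric.sphere (0 : E) 1,
        kap ⟪(x : E), (y : E)⟫ * (f y * g x) ∂(volume : Measure E).toSphere
        ∂(volume : Measure E).toSphere) + sph f * sph g / 3) / sph fun _ => 1 := by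
  have h1 : sph (fun x => Sop f x * g x) = ∫ x : Metric.sphere (0 : E) 1,
      ((∫ y : Metric.sphere (0 : E) 1, kap ⟪(x : E), (y : E)⟫ * (f y * g x)
        ∂(volume : Measure E).toSphere) + sph f / 3 * g x) / (sph fun _ => 1)
        ∂(volume : Measure E).toSphere := by
    refine integral_congr_ae (Filter.Eventually.of_forall fun x => ?_)
    have h2 : (∫ y : Metric.sphere (0 : E) 1, kap ⟪(x : E), (y : E)⟫ * (f y * g x)
        ∂(volume : Measure E).toSphere) = (sph fun y => kap ⟪(x : E), y⟫ * f y) * g x := by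
      unfold sph
      rw [← integral_mul_const]
      exact integral_congr_ae (Filter.Eventually.of_forall fun y => by ring)
    simp only [h2, ex_unit f (norm_eq_of_mem_sphere x)]
    ring
  rw [h1, integral_div, integral_add (ex_pint hf hg).integral_prod_left (hg.int.const_mul _),
    integral_const_mul]
  have h3 : ∫ x : Metric.sphere (0 : E) 1, g x ∂(volume : Measure E).toSphere = sph g := rfl
  rw [h3]
  ring

theorem sop_symm (hf : Cn f) (hg : Cn g) :
    sph (fun x => Sop f x * g x) = sph fun y => f y * Sop g y := by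
  have h1 : (sph fun y => f y * Sop g y) = sph fun y => Sop g y * f y :=
    sph_congr fun y _ => mul_comm _ _
  rw [h1, ex_left hf hg, ex_left hg hf]
  have h2 := integral_integral_swap
    (f := fun x y : Metric.sphere (0 : E) 1 => kap ⟪(x : E), (y : E)⟫ * (f y * g x)) (ex_pint hf hg)
  rw [h2, mul_comm (sph f) (sph g)]
  congr 2
  refine integral_congr_ae (Filter.Eventually.of_forall fun y => ?_)
  refine integral_congr_ae (Filter.Eventually.of_forall fun x => ?_)
  simp only [real_inner_comm (x : E) (y : E), mul_comm (f y) (g x)]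

theorem sop_bd : ∃ C : ℝ, 0 ≤ C ∧ ∀ f : E → ℝ, Cn f → ∀ x : E, ‖x‖ = 1 → |Sop f x| ≤ C * n2 f := by
  obtain ⟨C, hC, h⟩ := kap_bd
  have hp := sph_one_pos
  have h1 := n2_nonneg fun _ : E => (1 : ℝ)
  refine ⟨(C + (n2 fun _ => 1) / 3) / sph fun _ => 1, by positivity, fun f hf x hx => ?_⟩
  have h2 := h x hx f hf
  have h3 := sph_mul_le hf (Cn.const 1)
  simp only [mul_one] at h3
  rw [ex_unit f hx, abs_div, abs_of_pos hp, div_mul_eq_mul_div]
  refine div_le_div_of_nonneg_right ((abs_add_le _ _).trans ?_) hp.le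
  rw [abs_div, abs_of_pos (by norm_num : (0 : ℝ) < 3)]
  have h4 : |sph f| ≤ n2 f * n2 fun _ => 1 := h3
  nlinarith

theorem lap_sop (hM : Sym M) (hf : Hm 0 f) (h : IsInv M f) {x : E} (hx : x ≠ 0) :
    lap (Sop f) x = f x := by
  have hu : Hm 2 (Sop f) := hf.sop
  have hl : Hm 0 (lap (Sop f)) := hu.lap.cast (by norm_num)
  have hw : Hm 0 fun y => lap (Sop f) y - f y := hl.sub hf
  have hwi : IsInv M fun y => lap (Sop f) y - f y := fun O hO y hy => by
    simp only [IsInv.lap hu h.sop O hO y hy, h O hO y hy]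
  have hφ : Hm 2 fun y => ‖y‖ ^ (2 : ℤ) * (lap (Sop f) y - f y) :=
    ((Hm.normz 2).mul hw).cast (by norm_num)
  have hφi : IsInv M fun y => ‖y‖ ^ (2 : ℤ) * (lap (Sop f) y - f y) := fun O hO y hy => by
    have := hwi O hO y hy
    simp only [O.norm_map] at this ⊢
    rw [this]
  have h1 := green hu hφ
  rw [sop_symm hf.cn hφ.lap.cn] at h1
  have h2 : (sph fun y => f y * Sop (lap fun y => ‖y‖ ^ (2 : ℤ) * (lap (Sop f) y - f y)) y) =
      sph fun y => f y * (‖y‖ ^ (2 : ℤ) * (lap (Sop f) y - f y)) :=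
    sph_congr fun y hy => by rw [rep hM hφ hφi (ex_ne hy)]
  rw [h2] at h1
  have h3 : (sph fun y => (lap (Sop f) y - f y) ^ 2) = 0 := by
    have h4 := sph_sub (hl.cn.mul hφ.cn) (hf.cn.mul hφ.cn)
    rw [← h1, sub_self] at h4
    rw [← h4]
    refine sph_congr fun y hy => ?_
    rw [hy, one_zpow]
    ring
  have h5 : n2 (fun y => lap (Sop f) y - f y) = 0 := by
    unfold n2
    rw [h3, Real.sqrt_zero]
  have hn : 0 < ‖x‖ := norm_pos_iff.2 hx
  have hy : ‖‖x‖⁻¹ • x‖ = 1 := by
    rw [norm_smul, norm_inv, norm_norm, inv_mul_cancel₀ hn.ne']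
  have h6 := eq_zero_of_n2 hw.cn h5 _ hy
  have h7 := hw.hom ‖x‖⁻¹ (inv_pos.2 hn) x hx
  simp only [zpow_zero, one_mul] at h6 h7
  linarith

end Pool.Agent.Lib.MP_fbbbeb_an.B
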