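import Pool.Agent.Lib.MP_fbbbeb_an.B.Defs

/-! Section B, S7: the space-time kit. -/

set_option autoImplicit false

namespace Pool.Agent.Lib.MP_fbbbeb_an.B

open scoped ContDiff RealInnerProductSpace Nat Topology
open Set Pub Filter

variable {M : Set (E ≃ₗᵢ[ℝ] E)} {d d' : ℤ}
variable {T m m' : ℝ} {r r' : L → ℝ} {w w' : ℝ → ℝ} {F G : Y → ℝ}

theorem isOpen_Om (T : ℝ) : IsOpen (Om T) := isOpen_Ioo.prod isOpen_compl_singleton

theorem kt_mem {t : ℝ} (ht : t ∈ Ioo 0 T) {a : E} (ha : a ≠ 0) : (t, a) ∈ Om T := ⟨ht, ha⟩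

theorem kt_nhds {z : Y} (hz : z ∈ Om T) : Om T ∈ 𝓝 z := (isOpen_Om T).mem_nhds hz

theorem Ht.cda (h : Ht T d F) {z : Y} (hz : z ∈ Om T) : ContDiffAt ℝ ∞ F z :=
  h.sm.contDiffAt (kt_nhds hz)

theorem Ht.dif (h : Ht T d F) {z : Y} (hz : z ∈ Om T) : DifferentiableAt ℝ F z :=
  (h.cda hz).differentiableAt (by simp)

theorem Ht.sl (h : Ht T d F) {t : ℝ} (ht : t ∈ Ioo 0 T) : Hm d (sl F t) :=
  ⟨h.sm.comp (contDiff_prodMk_right t).contDiffOn fun _ ha => kt_mem ht ha,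
    fun l hl a ha => h.hom t ht l hl a ha⟩

theorem Ht.const (T c : ℝ) : Ht T 0 fun _ => c := ⟨contDiffOn_const, fun _ _ _ _ _ _ => by simp⟩

theorem Ht.zero (T : ℝ) (d : ℤ) : Ht T d fun _ => 0 := ⟨contDiffOn_const, fun _ _ _ _ _ _ => by simp⟩

theorem Ht.add (hF : Ht T d F) (hG : Ht T d G) : Ht T d fun z => F z + G z :=
  ⟨hF.sm.add hG.sm, fun t ht l hl a ha => by rw [hF.hom t ht l hl a ha, hG.hom t ht l hl a ha]; ring⟩

theorem Ht.cmul (c : ℝ) (hF : Ht T d F) : Ht T d fun z => c * F z :=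
  ⟨contDiffOn_const.mul hF.sm, fun t ht l hl a ha => by rw [hF.hom t ht l hl a ha]; ring⟩

theorem Ht.mul (hF : Ht T d F) (hG : Ht T d' G) : Ht T (d + d') fun z => F z * G z :=
  ⟨hF.sm.mul hG.sm, fun t ht l hl a ha => by
    rw [hF.hom t ht l hl a ha, hG.hom t ht l hl a ha, zpow_add₀ hl.ne']; ring⟩

theorem Ht.sum {ι : Type} (s : Finset ι) {Φ : ι → Y → ℝ} (h : ∀ i ∈ s, Ht T d (Φ i)) :
    Ht T d fun z => ∑ i ∈ s, Φ i z :=
  ⟨ContDiffOn.sum fun i hi => (h i hi).sm, fun t ht l hl a ha => by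
    rw [Finset.mul_sum]
    exact Finset.sum_congr rfl fun i hi => (h i hi).hom t ht l hl a ha⟩

theorem Ht.inv (hF : Ht T d F) (h0 : ∀ z ∈ Om T, F z ≠ 0) : Ht T (-d) fun z => (F z)⁻¹ :=
  ⟨hF.sm.inv h0, fun t ht l hl a ha => by rw [hF.hom t ht l hl a ha, mul_inv, zpow_neg]⟩

theorem Ht.congr (hF : Ht T d F) (h : ∀ z ∈ Om T, G z = F z) : Ht T d G :=
  ⟨hF.sm.congr h, fun t ht l hl a ha => by
    rw [h _ (kt_mem ht ha), h _ (kt_mem ht (smul_ne_zero hl.ne' ha)), hF.hom t ht l hl a ha]⟩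

theorem Ht.cast (hF : Ht T d F) (h : d = d') : Ht T d' F := h ▸ hF

theorem kt_fd_sm (h : Ht T d F) : ContDiffOn ℝ ∞ (fderiv ℝ F) (Om T) :=
  ((contDiffOn_infty_iff_fderiv_of_isOpen (isOpen_Om T)).1 h.sm).2

theorem kt_dd_sm (h : Ht T d F) (i : L) : ContDiffOn ℝ ∞ (dd i F) (Om T) :=
  (kt_fd_sm h).clm_apply contDiffOn_const

/-- chain rule for a linear map of the space variable -/
theorem kt_lin (h : Ht T d F) (A : E →L[ℝ] E) (hA : ∀ a : E, a ≠ 0 → A a ≠ 0) (c : ℝ)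
    (he : ∀ t ∈ Ioo 0 T, ∀ a : E, a ≠ 0 → F (t, A a) = c * F (t, a)) {t : ℝ} (ht : t ∈ Ioo 0 T)
    {a : E} (ha : a ≠ 0) (v : Y) :
    fderiv ℝ F (t, A a) (v.1, A v.2) = c * fderiv ℝ F (t, a) v := by
  let B : Y →L[ℝ] Y := (ContinuousLinearMap.id ℝ ℝ).prodMap A
  have h1 : HasFDerivAt (fun z => F (B z)) ((fderiv ℝ F (t, A a)).comp B) (t, a) :=
    HasFDerivAt.comp (t, a) (g := F) (f := B) (h.dif (kt_mem ht (hA a ha))).hasFDerivAt B.hasFDerivAt
  have h2 : HasFDerivAt (fun z => c * F z) (c • fderiv ℝ F (t, a)) (t, a) :=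
    (h.dif (kt_mem ht ha)).hasFDerivAt.const_mul c
  have h3 : (fun z => F (B z)) =ᶠ[𝓝 (t, a)] fun z => c * F z :=
    mem_of_superset (kt_nhds (kt_mem ht ha)) fun z hz => he z.1 hz.1 z.2 hz.2
  have h4 := (h1.congr_of_eventuallyEq h3.symm).unique h2
  have h5 := congrArg (fun Q : Y →L[ℝ] ℝ => Q v) h4
  exact h5

theorem kt_scale (h : Ht T d F) {t : ℝ} (ht : t ∈ Ioo 0 T) {l : ℝ} (hl : 0 < l) {a : E} (ha : a ≠ 0)
    (v : Y) : fderiv ℝ F (t, l • a) (v.1, l • v.2) = l ^ d * fderiv ℝ F (t, a) v :=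
  kt_lin h (l • ContinuousLinearMap.id ℝ E) (fun _ hb => smul_ne_zero hl.ne' hb) (l ^ d)
    (fun s hs b hb => h.hom s hs l hl b hb) ht ha v

theorem Ht.dt (h : Ht T d F) : Ht T d (dd none F) :=
  ⟨kt_dd_sm h none, fun t ht l hl a ha => by
    have := kt_scale h ht hl ha (1, 0)
    simpa [dd, dir] using this⟩

theorem Ht.da (h : Ht T d F) (i : Fin 3) : Ht T (d - 1) (dd (some i) F) :=
  ⟨kt_dd_sm h (some i), fun t ht l hl a ha => by
    have h1 := kt_scale h ht hl ha (0, e i)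
    have h2 : ((0 : ℝ), l • e i) = l • (((0 : ℝ), e i) : Y) := by simp
    simp only [h2, map_smul, smul_eq_mul] at h1
    show fderiv ℝ F (t, l • a) (0, e i) = l ^ (d - 1) * fderiv ℝ F (t, a) (0, e i)
    rw [zpow_sub₀ hl.ne', zpow_one]
    field_simp
    linarith⟩

theorem kt_dw_cons (i : L) (u : List L) (F : Y → ℝ) : dw (i :: u) F = dd i (dw u F) := rfl

theorem Ht.dw (h : Ht T d F) (u : List L) : Ht T (d - na u) (dw u F) := by
  induction u with
  | nil => exact h.cast (by simp [na])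
  | cons i u ih =>
    cases i with
    | none => exact ih.dt.cast (by simp [na])
    | some i => exact (ih.da i).cast (by simp [na]; ring)

theorem pd_sl (h : Ht T d F) (i : Fin 3) {z : Y} (hz : z ∈ Om T) :
    pd i (sl F z.1) z.2 = dd (some i) F z := by
  have h1 : HasFDerivAt (fun a : E => F (z.1, a))
      ((fderiv ℝ F z).comp (ContinuousLinearMap.inr ℝ ℝ E)) z.2 :=
    HasFDerivAt.comp z.2 (g := F) (f := fun a : E => (z.1, a)) (h.dif hz).hasFDerivAt
      (hasFDerivAt_prodMk_right z.1 z.2)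
  show fderiv ℝ (fun a : E => F (z.1, a)) z.2 (e i) = fderiv ℝ F z (0, e i)
  rw [h1.fderiv]
  simp

theorem Ht.hasDerivAt (h : Ht T d F) {z : Y} (hz : z ∈ Om T) :
    HasDerivAt (fun s => F (s, z.2)) (dd none F z) z.1 := by
  have h1 : HasDerivAt (fun s : ℝ => ((s, z.2) : Y)) (1, 0) z.1 :=
    (hasDerivAt_id z.1).prodMk (hasDerivAt_const z.1 z.2)
  exact HasFDerivAt.comp_hasDerivAt z.1 (l := F) (f := fun s : ℝ => ((s, z.2) : Y))
    (h.dif hz).hasFDerivAt h1

theorem dw_append (u v : List L) (F : Y → ℝ) : dw (u ++ v) F = dw u (dw v F) := by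
  simp [dw, List.foldr_append]

theorem kt_dd_congr (h : ∀ z ∈ Om T, F z = G z) (i : L) : ∀ z ∈ Om T, dd i F z = dd i G z := by
  intro z hz
  have h3 : F =ᶠ[𝓝 z] G := mem_of_superset (kt_nhds hz) fun y hy => h y hy
  simp only [dd, h3.fderiv_eq]

theorem dw_congr (h : ∀ z ∈ Om T, F z = G z) (u : List L) : ∀ z ∈ Om T, dw u F z = dw u G z := by
  induction u with
  | nil => exact h
  | cons i u ih => exact kt_dd_congr ih i

theorem dw_add (hF : Ht T d F) (hG : Ht T d' G) (u : List L) :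
    ∀ z ∈ Om T, dw u (fun z => F z + G z) z = dw u F z + dw u G z := by
  induction u with
  | nil => intro z _; rfl
  | cons i u ih =>
    intro z hz
    rw [kt_dw_cons, kt_dd_congr ih i z hz]
    simp only [kt_dw_cons, dd]
    rw [fderiv_fun_add ((hF.dw u).dif hz) ((hG.dw u).dif hz)]
    rfl

theorem dw_cmul (c : ℝ) (hF : Ht T d F) (u : List L) :
    ∀ z ∈ Om T, dw u (fun z => c * F z) z = c * dw u F z := by
  induction u with
  | nil => intro z _; rfl
  | cons i u ih =>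
    intro z hz
    rw [kt_dw_cons, kt_dd_congr ih i z hz]
    simp only [kt_dw_cons, dd]
    rw [fderiv_const_mul ((hF.dw u).dif hz)]
    rfl

theorem dw_zero (T : ℝ) (u : List L) : ∀ z ∈ Om T, dw u (fun _ => 0) z = 0 := by
  intro z hz
  have := dw_cmul 0 (Ht.zero T 0) u z hz
  simpa using this

theorem dw_sum {ι : Type} (s : Finset ι) {Φ : ι → Y → ℝ} (h : ∀ i ∈ s, Ht T d (Φ i)) (u : List L) :
    ∀ z ∈ Om T, dw u (fun z => ∑ i ∈ s, Φ i z) z = ∑ i ∈ s, dw u (Φ i) z := by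
  classical
  induction s using Finset.induction_on with
  | empty => intro z hz; simpa using dw_zero T u z hz
  | insert j s hj ih =>
    intro z hz
    have hs : ∀ i ∈ s, Ht T d (Φ i) := fun i hi => h i (Finset.mem_insert_of_mem hi)
    simp only [Finset.sum_insert hj]
    rw [dw_add (h j (Finset.mem_insert_self j s)) (Ht.sum s hs) u z hz, ih hs z hz]

theorem kt_dd_dd (h : Ht T d F) (i j : L) {z : Y} (hz : z ∈ Om T) :
    dd i (dd j F) z = fderiv ℝ (fderiv ℝ F) z (dir i) (dir j) := by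
  have h1 : DifferentiableAt ℝ (fderiv ℝ F) z :=
    ((kt_fd_sm h).contDiffAt (kt_nhds hz)).differentiableAt (by simp)
  show fderiv ℝ (fun y => fderiv ℝ F y (dir j)) z (dir i) = _
  rw [fderiv_clm_apply h1 (differentiableAt_const _)]
  simp

theorem kt_dd_comm (h : Ht T d F) (i j : L) : ∀ z ∈ Om T, dd i (dd j F) z = dd j (dd i F) z := by
  intro z hz
  rw [kt_dd_dd h i j hz, kt_dd_dd h j i hz]
  have h2 : minSmoothness ℝ 2 ≤ ∞ := by
    rw [minSmoothness_of_isRCLikeNormedField]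
    exact WithTop.coe_le_coe.2 (le_top : (2 : ℕ∞) ≤ ⊤)
  exact ((h.cda hz).isSymmSndFDerivAt h2).eq _ _

theorem dw_dd (hF : Ht T d F) (i : L) (u : List L) : ∀ z ∈ Om T, dw u (dd i F) z = dd i (dw u F) z := by
  induction u with
  | nil => intro z _; rfl
  | cons j u ih =>
    intro z hz
    rw [kt_dw_cons, kt_dd_congr ih j z hz, kt_dw_cons]
    exact kt_dd_comm (hF.dw u) j i z hz

theorem dw_perm (hF : Ht T d F) {u v : List L} (h : u.Perm v) : ∀ z ∈ Om T, dw u F z = dw v F z := by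
  induction h with
  | nil => intro z _; rfl
  | cons i _ ih => exact kt_dd_congr ih i
  | swap i j u => exact kt_dd_comm (hF.dw u) j i
  | trans _ _ ih1 ih2 => intro z hz; rw [ih1 z hz, ih2 z hz]

theorem inv_dw (hF : Ht T d F) (h : ∀ t ∈ Ioo 0 T, IsInv M (sl F t)) {u : List L} (hu : na u = 0) :
    ∀ t ∈ Ioo 0 T, IsInv M (sl (dw u F) t) := by
  induction u with
  | nil => exact h
  | cons i u ih =>
    cases i with
    | some i => simp [na] at hu
    | none =>
      have hu' : na u = 0 := by simpa [na] using hu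
      intro t ht O hO a ha
      have := kt_lin (hF.dw u) (O.toContinuousLinearEquiv : E →L[ℝ] E)
        (fun b hb => by simpa using hb) 1
        (fun s hs b hb => by rw [one_mul]; exact ih hu' s hs O hO b hb) ht ha (1, 0)
      simpa [B.sl, kt_dw_cons, dd, dir] using this

theorem rad_pos (hr : ∀ i, 0 < r i) (u : List L) : 0 < rad r u := by
  induction u with
  | nil => simp [rad]
  | cons i u ih => simpa [rad] using mul_pos (hr i) ih

theorem rad_append (r : L → ℝ) (u v : List L) : rad r (u ++ v) = rad r u * rad r v := by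
  simp [rad]

theorem rad_perm (r : L → ℝ) {u v : List L} (h : u.Perm v) : rad r u = rad r v :=
  (h.map r).prod_eq

theorem kt_rad_cons (r : L → ℝ) (i : L) (u : List L) : rad r (i :: u) = r i * rad r u := by
  simp [rad]

theorem rad_scale (θ : ℝ) (r : L → ℝ) (u : List L) : rad (fun i => θ * r i) u = θ ^ u.length * rad r u := by
  induction u with
  | nil => simp [rad]
  | cons i u ih => rw [kt_rad_cons, kt_rad_cons, ih, List.length_cons]; ring

theorem kt_rad_nonneg (hr : ∀ i, 0 ≤ r i) (u : List L) : 0 ≤ rad r u := by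
  induction u with
  | nil => simp [rad]
  | cons i u ih => rw [kt_rad_cons]; exact mul_nonneg (hr i) ih

theorem rad_mono (hr : ∀ i, 0 ≤ r i) (h1 : ∀ i, r i ≤ r' i) (u : List L) : rad r u ≤ rad r' u := by
  induction u with
  | nil => simp [rad]
  | cons i u ih =>
    rw [kt_rad_cons, kt_rad_cons]
    exact mul_le_mul (h1 i) ih (kt_rad_nonneg hr u) ((hr i).trans (h1 i))

end Pool.Agent.Lib.MP_fbbbeb_an.B
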