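import Pool.Agent.Lib.MP_fbbbeb_an.B.Kit
import Pool.Agent.Lib.MP_fbbbeb_an.B.Kit2
import Pool.Agent.Lib.MP_fbbbeb_an.B.Ibp
import Pool.Agent.Lib.MP_fbbbeb_an.B.Ex
import Pool.Agent.Lib.MP_fbbbeb_an.B.Par

/-! Section B, S5: `L²` estimates on the sphere. -/

set_option autoImplicit false

namespace Pool.Agent.Lib.MP_fbbbeb_an.B

open scoped ContDiff RealInnerProductSpace Nat
open Set Pub MeasureTheory

variable {d d' : ℤ}

namespace L2

theorem ne0 {y : E} (hy : ‖y‖ = 1) : y ≠ 0 := by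
  rintro rfl
  simp at hy

theorem coord_le {y : E} (hy : ‖y‖ = 1) (i : Fin 3) : |y i| ≤ 1 := by
  have h := PiLp.norm_apply_le y i
  rwa [hy, Real.norm_eq_abs] at h

theorem ibp_mul {u V : E → ℝ} (hu : Hm d u) (hV : Hm d' V) (i : Fin 3) :
    sph (fun y => pd i u y * V y) + sph (fun y => u y * pd i V y) =
      ((d : ℝ) + d' + 2) * sph fun y => u y * (V y * y i) := by
  have h := ibp (hu.mul hV) i
  rw [← sph_add ((hu.pd i).mul hV).cn (hu.mul (hV.pd i)).cn,
    ← sph_congr fun y hy => pd_mul hu hV i (ne0 hy), h]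
  push_cast
  simp only [mul_assoc]

theorem ibp_div {u : E → ℝ} {V : Fin 3 → E → ℝ} (hu : Hm d u) (hV : ∀ i, Hm d' (V i)) :
    ∑ i, sph (fun y => pd i u y * V i y) + sph (fun y => u y * ∑ i, pd i (V i) y) =
      ((d : ℝ) + d' + 2) * ∑ i, sph fun y => u y * (V i y * y i) := by
  simp only [Finset.mul_sum]
  rw [sph_sum _ fun i _ => (hu.mul ((hV i).pd i)).cn, ← Finset.sum_add_distrib]
  exact Finset.sum_congr rfl fun i _ => ibp_mul hu (hV i) i

theorem n2_coord {V : E → ℝ} (hV : Hm d V) (i : Fin 3) : n2 (fun y => V y * y i) ≤ n2 V :=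
  n2_mono (hV.mul (Hm.coord i)).cn hV.cn fun y hy => by
    rw [abs_mul]
    exact mul_le_of_le_one_right (abs_nonneg _) (coord_le hy i)

theorem bdry_le {u V : E → ℝ} (hu : Hm d u) (hV : Hm d' V) (i : Fin 3) :
    |sph fun y => u y * (V y * y i)| ≤ n2 u * n2 V :=
  (sph_mul_le hu.cn (hV.mul (Hm.coord i)).cn).trans
    (mul_le_mul_of_nonneg_left (n2_coord hV i) (n2_nonneg _))

theorem quad {G K h a : ℝ} (hK : 1 ≤ K) (hh : 0 ≤ h) (ha : 0 ≤ a)
    (hq : G ^ 2 ≤ K * (G * h + a * (9 * K * G + h))) : G ≤ 20 * K ^ 2 * (h + a) := by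
  by_contra hc
  rw [not_le] at hc
  have hK2 : K ≤ K ^ 2 := by nlinarith
  have h1 : h + a ≤ G := by nlinarith
  have hG : 0 < G := lt_of_le_of_lt (by positivity) hc
  have h2 : K * (G * h) ≤ K ^ 2 * (G * h) := mul_le_mul_of_nonneg_right hK2 (by positivity)
  have h3 : K * (a * h) ≤ K ^ 2 * (a * G) :=
    mul_le_mul hK2 (mul_le_mul_of_nonneg_left (by linarith) ha) (by positivity) (by positivity)
  have h4 : G * (20 * K ^ 2 * (h + a)) < G * G := mul_lt_mul_of_pos_left hc hG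
  have h5 : 0 ≤ K ^ 2 * (G * h) := by positivity
  have h6 : 0 ≤ K ^ 2 * (a * G) := by positivity
  nlinarith

end L2

open L2

theorem garding {A : Fin 3 → Fin 3 → E → ℝ} {K : ℝ} (hK : 1 ≤ K) (hA : ∀ i j, Hm 0 (A i j))
    (hb : ∀ i j, ∀ y : E, ‖y‖ = 1 → |A i j y| ≤ K) (hp : Pos A K) {s : E → ℝ} {H : Fin 3 → E → ℝ}
    (hs : Hm d s) (hH : ∀ i, Hm (d - 1) (H i)) (he : Ell A s H) (i : Fin 3) :
    n2 (pd i s) ≤ 20 * K ^ 2 * (∑ j, n2 (H j) + |2 * (d : ℝ) + 1| * n2 s) := by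
  have hAs : ∀ i j, Hm (d - 1) fun y => A i j y * pd j s y := fun i j =>
    ((hA i j).mul (hs.pd j)).cast (by ring)
  have hU : ∀ i, Hm (d - 1) fun y => ∑ j, A i j y * pd j s y := fun i =>
    Hm.sum _ fun j _ => hAs i j
  have hW : ∀ i, Hm (d - 1) fun y => ∑ j, A i j y * pd j s y + H i y := fun i =>
    (hU i).add (hH i)
  have h1 := ibp_div hs hW
  rw [sph_congr (g := fun y => 0 * s y) fun y hy => by rw [he y (ne0 hy)]; ring, sph_cmul,
    zero_mul, add_zero] at h1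
  set G : ℝ := √(∑ j, n2 (pd j s) ^ 2) with hG
  have hG0 : 0 ≤ G := Real.sqrt_nonneg _
  have hG2 : G ^ 2 = ∑ j, n2 (pd j s) ^ 2 :=
    Real.sq_sqrt (Finset.sum_nonneg fun j _ => sq_nonneg _)
  have hg : ∀ j, n2 (pd j s) ≤ G := fun j =>
    Real.le_sqrt_of_sq_le (Finset.single_le_sum (f := fun j => n2 (pd j s) ^ 2)
      (fun j _ => sq_nonneg _) (Finset.mem_univ j))
  have hh0 : 0 ≤ ∑ j, n2 (H j) := Finset.sum_nonneg fun j _ => n2_nonneg _
  have hK0 : 0 ≤ K := by linarith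
  -- ellipticity
  have hsq : ∀ j, Cn fun y => pd j s y ^ 2 := fun j => by
    simpa only [sq] using (hs.pd j).cn.mul (hs.pd j).cn
  have hpU : ∀ j, Cn fun y => pd j s y * ∑ l, A j l y * pd l s y := fun j =>
    (hs.pd j).cn.mul (hU j).cn
  have h2 : G ^ 2 ≤ K * ∑ j, sph fun y => pd j s y * ∑ l, A j l y * pd l s y := by
    rw [hG2, Finset.sum_congr rfl fun j _ => n2_sq (pd j s), ← sph_sum _ fun j _ => hsq j,
      ← sph_sum _ fun j _ => hpU j, ← sph_cmul]
    refine sph_mono (Cn.sum _ fun j _ => hsq j) ((Cn.const K).mul (Cn.sum _ fun j _ => hpU j))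
      fun y hy => (hp y hy fun j => pd j s y).trans (le_of_eq ?_)
    congr 1
    refine Finset.sum_congr rfl fun j _ => ?_
    rw [Finset.mul_sum]
    exact Finset.sum_congr rfl fun l _ => by ring
  have h3 : ∑ j, (sph fun y => pd j s y * ∑ l, A j l y * pd l s y) =
      ∑ j, (sph fun y => pd j s y * (∑ l, A j l y * pd l s y + H j y)) -
        ∑ j, sph fun y => pd j s y * H j y := by
    rw [← Finset.sum_sub_distrib]
    refine Finset.sum_congr rfl fun j _ => ?_
    rw [← sph_sub ((hs.pd j).cn.mul (hW j).cn) ((hs.pd j).cn.mul (hH j).cn)]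
    exact sph_congr fun y _ => by ring
  have h4 : |∑ j, sph fun y => pd j s y * H j y| ≤ G * ∑ j, n2 (H j) := by
    rw [Finset.mul_sum]
    refine (Finset.abs_sum_le_sum_abs _ _).trans (Finset.sum_le_sum fun j _ => ?_)
    exact (sph_mul_le (hs.pd j).cn (hH j).cn).trans
      (mul_le_mul_of_nonneg_right (hg j) (n2_nonneg _))
  have h5 : ∀ j, n2 (fun y => ∑ l, A j l y * pd l s y + H j y) ≤ 3 * K * G + n2 (H j) := fun j => by
    refine (n2_add (hU j).cn (hH j).cn).trans (add_le_add_left ?_ _)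
    refine (n2_sum _ fun l _ => (hAs j l).cn).trans ?_
    calc _ ≤ ∑ _l : Fin 3, K * G := Finset.sum_le_sum fun l _ =>
          (n2_mul_le (hA j l).cn (hs.pd l).cn (hb j l)).trans
            (mul_le_mul_of_nonneg_left (hg l) hK0)
      _ = _ := by simp; ring
  have h6 : |∑ j, sph fun y => s y * ((∑ l, A j l y * pd l s y + H j y) * y j)| ≤
      n2 s * (9 * K * G + ∑ j, n2 (H j)) := by
    refine (Finset.abs_sum_le_sum_abs _ _).trans ?_
    calc _ ≤ ∑ j, n2 s * (3 * K * G + n2 (H j)) := Finset.sum_le_sum fun j _ =>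
          (bdry_le hs (hW j) j).trans (mul_le_mul_of_nonneg_left (h5 j) (n2_nonneg _))
      _ = _ := by
          rw [← Finset.mul_sum, Finset.sum_add_distrib]
          simp
          left
          ring
  refine (hg i).trans (quad hK hh0 (mul_nonneg (abs_nonneg _) (n2_nonneg _)) (h2.trans ?_))
  refine mul_le_mul_of_nonneg_left ?_ hK0
  have h7 : ((d : ℝ) + ((d - 1 : ℤ) : ℝ) + 2) = 2 * (d : ℝ) + 1 := by push_cast; ring
  rw [h3, h1, h7]
  have h8 := le_abs_self ((2 * (d : ℝ) + 1) *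
    ∑ j, sph fun y => s y * ((∑ l, A j l y * pd l s y + H j y) * y j))
  rw [abs_mul] at h8
  have h9 := mul_le_mul_of_nonneg_left h6 (abs_nonneg (2 * (d : ℝ) + 1))
  have h10 := neg_le_abs (∑ j, sph fun y => pd j s y * H j y)
  nlinarith

namespace L2

theorem gard_id {s : E → ℝ} {H : Fin 3 → E → ℝ} (hs : Hm 2 s) (hH : ∀ i, Hm 1 (H i))
    (he : ∀ x : E, x ≠ 0 → lap s x + ∑ i, pd i (H i) x = 0) (i : Fin 3) :
    n2 (pd i s) ≤ 20 * (∑ j, n2 (H j) + 5 * n2 s) := by
  have h := garding (A := fun i j _ => if i = j then 1 else 0) (K := 1) le_rfl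
    (fun i j => Hm.const _) (fun i j y _ => by split_ifs <;> simp)
    (fun y _ ξ => by simp [sq]) hs (fun i => (hH i).cast (by norm_num)) (fun x hx => by
      refine Eq.trans ?_ (he x hx)
      rw [lap, ← Finset.sum_add_distrib]
      refine Finset.sum_congr rfl fun i _ => ?_
      rw [← pd_add (hs.pd i) (hH i) i hx]
      simp) i
  norm_num at h ⊢
  exact h

theorem pd_coord (i : Fin 3) (x : E) : pd i (fun y : E => y i) x = 1 := by
  have h : HasFDerivAt (fun y : E => y i) (EuclideanSpace.proj (𝕜 := ℝ) i) x :=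
    (EuclideanSpace.proj (𝕜 := ℝ) i).hasFDerivAt
  simp [pd, h.fderiv, e]

theorem pd_cmul {f : E → ℝ} (hf : Hm d f) (c : ℝ) (i : Fin 3) {x : E} (hx : x ≠ 0) :
    pd i (fun y => c * f y) x = c * pd i f x := by
  simp [pd, fderiv_const_mul (hf.da hx)]

end L2

theorem l2_flat : ∃ C : ℝ, 0 ≤ C ∧ ∀ M : Set (E ≃ₗᵢ[ℝ] E), Sym M → ∀ (p : E → ℝ) (R : Fin 3 → E → ℝ),
    Hm 2 p → IsInv M p → (∀ i, Hm 1 (R i)) → (∀ x : E, x ≠ 0 → lap p x + ∑ i, pd i (R i) x = 0) →
      ∀ i, n2 (pd i p) ≤ C * ∑ j, n2 (R j) := by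
  obtain ⟨Cs, hCs, hS⟩ := sop_bd
  set c1 : ℝ := Cs * n2 fun _ => 1 with hc1
  have hc0 : 0 ≤ c1 := mul_nonneg hCs (n2_nonneg _)
  refine ⟨20 * (1 + 5 * (20 * (1 + 5 * c1) + 5 * c1)), by positivity,
    fun M hM p R hp hi hR he i => ?_⟩
  have hq : Hm 0 fun y => p y * ‖y‖ ^ (-2 : ℤ) := (hp.mul (Hm.normz (-2))).cast (by norm_num)
  set q : E → ℝ := fun y => p y * ‖y‖ ^ (-2 : ℤ) with hqd
  have hqi : IsInv M q := fun O hO x hx => by
    simp only [hqd, hi O hO x hx, O.norm_map]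
  have hqp : ∀ y : E, ‖y‖ = 1 → q y = p y := fun y hy => by simp [hqd, hy]
  have hv : Hm 2 (Sop q) := hq.sop
  have hP0 := n2_nonneg p
  have hρ0 : 0 ≤ ∑ j, n2 (R j) := Finset.sum_nonneg fun j _ => n2_nonneg _
  have hvn : n2 (Sop q) ≤ c1 * n2 p := by
    have h := n2_le_sup hv.cn fun y hy => hS q hq.cn y hy
    rw [n2_congr hqp] at h
    exact h.trans (le_of_eq (by rw [hc1]; ring))
  have hqy : ∀ j, Hm 1 fun y => q y * y j := fun j => (hq.mul (Hm.coord j)).cast (by norm_num)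
  have hgv : ∀ j, n2 (pd j (Sop q)) ≤ 20 * (1 + 5 * c1) * n2 p := fun j => by
    have h := gard_id (H := fun l y => -(1 / 3) * (q y * y l)) hv (fun l => (hqy l).cmul _)
      (fun x hx => by
        have h1 := hq.euler hx
        rw [lap_sop hM hq hqi hx, Finset.sum_congr rfl fun l _ => by
          rw [pd_cmul (hqy l) _ l hx, pd_mul hq (Hm.coord l) l hx, pd_coord]]
        simp only [Fin.sum_univ_three, Int.cast_zero, zero_mul] at h1 ⊢
        linarith) j
    have h2 : ∀ l, n2 (fun y => -(1 / 3) * (q y * y l)) ≤ 1 / 3 * n2 p := fun l => by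
      rw [n2_cmul, abs_neg, abs_of_pos (by norm_num : (0 : ℝ) < 1 / 3), ← n2_congr hqp]
      exact mul_le_mul_of_nonneg_left (n2_coord hq l) (by norm_num)
    have h3 := h2 0
    have h4 := h2 1
    have h5 := h2 2
    rw [Fin.sum_univ_three] at h
    nlinarith
  have hPP : n2 p ^ 2 ≤ n2 p * ((20 * (1 + 5 * c1) + 5 * c1) * ∑ j, n2 (R j)) := by
    have h1 : n2 p ^ 2 = sph fun y => p y * lap (Sop q) y := by
      rw [n2_sq]
      exact sph_congr fun y hy => by rw [lap_sop hM hq hqi (ne0 hy), hqp y hy, sq]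
    have h2 : (sph fun y => lap p y * Sop q y) =
        -1 * sph fun y => Sop q y * ∑ j, pd j (R j) y := by
      rw [← sph_cmul]
      exact sph_congr fun y hy => by
        have := he y (ne0 hy)
        rw [eq_neg_of_add_eq_zero_left this]; ring
    have h3 := ibp_div hv hR
    have h4 : |∑ j, sph fun y => pd j (Sop q) y * R j y| ≤
        20 * (1 + 5 * c1) * n2 p * ∑ j, n2 (R j) := by
      rw [Finset.mul_sum]
      refine (Finset.abs_sum_le_sum_abs _ _).trans (Finset.sum_le_sum fun j _ => ?_)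
      exact (sph_mul_le (hv.pd j).cn (hR j).cn).trans
        (mul_le_mul_of_nonneg_right (hgv j) (n2_nonneg _))
    have h5 : |∑ j, sph fun y => Sop q y * (R j y * y j)| ≤ c1 * n2 p * ∑ j, n2 (R j) := by
      rw [Finset.mul_sum]
      refine (Finset.abs_sum_le_sum_abs _ _).trans (Finset.sum_le_sum fun j _ => ?_)
      exact (bdry_le hv (hR j) j).trans (mul_le_mul_of_nonneg_right hvn (n2_nonneg _))
    have h6 := le_abs_self (∑ j, sph fun y => pd j (Sop q) y * R j y)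
    have h7 := neg_le_abs (∑ j, sph fun y => Sop q y * (R j y * y j))
    rw [h1, green hp hv, h2]
    push_cast at h3
    nlinarith
  have hPb : n2 p ≤ (20 * (1 + 5 * c1) + 5 * c1) * ∑ j, n2 (R j) := by
    rcases hP0.eq_or_lt with h0 | h0
    · rw [← h0]; positivity
    · exact le_of_mul_le_mul_left (by rw [← sq]; exact hPP) h0
  have h := gard_id hp hR he i
  nlinarith

end Pool.Agent.Lib.MP_fbbbeb_an.B
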