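import Pool.Agent.Lib.MP_fbbbeb_an.B.Kit
import Pool.Agent.Lib.MP_fbbbeb_an.B.Kit2
import Pool.Agent.Lib.MP_fbbbeb_an.B.KitT
import Pool.Agent.Lib.MP_fbbbeb_an.Cas.Word

/-! Section B: Leibniz rule along words and the calculus of Gevrey bounds. -/

set_option autoImplicit false

namespace Pool.Agent.Lib.MP_fbbbeb_an.B

open scoped ContDiff RealInnerProductSpace Nat Topology
open Set Pub MeasureTheory

variable {d d' : ℤ} {T m m' : ℝ} {r r' : L → ℝ} {w w' : ℝ → ℝ} {F G : Y → ℝ}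

namespace Lb

theorem diff (hF : Ht T d F) {z : Y} (hz : z ∈ Om T) : DifferentiableAt ℝ F z :=
  (hF.sm.contDiffAt ((isOpen_Om T).mem_nhds hz)).differentiableAt (by simp)

theorem dd_lsum {ι : Type} (l : List ι) (f : ι → Y → ℝ) (z : Y)
    (h : ∀ p ∈ l, DifferentiableAt ℝ (f p) z) :
    DifferentiableAt ℝ (fun y => (l.map fun p => f p y).sum) z ∧
      ∀ i, dd i (fun y => (l.map fun p => f p y).sum) z = (l.map fun p => dd i (f p) z).sum := by
  induction l with
  | nil => simp [dd]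
  | cons a l ih =>
    obtain ⟨h1, h2⟩ := ih fun p hp => h p (List.mem_cons_of_mem _ hp)
    have ha := h a List.mem_cons_self
    simp only [List.map_cons, List.sum_cons]
    refine ⟨ha.fun_add h1, fun i => ?_⟩
    rw [← h2 i]
    simp only [dd]
    rw [fderiv_fun_add ha h1]
    rfl

theorem dd_mul {z : Y} (hF : DifferentiableAt ℝ F z) (hG : DifferentiableAt ℝ G z) (i : L) :
    dd i (fun y => F y * G y) z = F z * dd i G z + dd i F z * G z := by
  simp only [dd]
  rw [fderiv_fun_mul hF hG]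
  simp [mul_comm]

theorem mem_Om {t : ℝ} (ht : t ∈ Ioo 0 T) {a : E} (ha : ‖a‖ = 1) : ((t, a) : Y) ∈ Om T :=
  ⟨ht, fun h => by
    have h1 : a = 0 := h
    rw [h1] at ha; simp at ha⟩

theorem cn (hF : Ht T d F) (u : List L) {t : ℝ} (ht : t ∈ Ioo 0 T) : Cn (sl (dw u F) t) :=
  ((hF.dw u).sl ht).cn

theorem abs_lsum {ι : Type} (l : List ι) (a b : ι → ℝ) {c : ℝ} (hc : 0 ≤ c)
    (h : ∀ p ∈ l, |a p| * c ≤ b p) : |(l.map a).sum| * c ≤ (l.map b).sum := by
  induction l with
  | nil => simp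
  | cons x l ih =>
    have h1 := ih fun p hp => h p (List.mem_cons_of_mem _ hp)
    have h2 := h x List.mem_cons_self
    have h3 := mul_le_mul_of_nonneg_right (abs_add_le (a x) (l.map a).sum) hc
    simp only [List.map_cons, List.sum_cons]
    linarith

theorem n2_lsum {ι : Type} (l : List ι) (f : ι → E → ℝ) (b : ι → ℝ) {c : ℝ} (hc : 0 ≤ c)
    (h : ∀ p ∈ l, Cn (f p) ∧ n2 (f p) * c ≤ b p) :
    Cn (fun y => (l.map fun p => f p y).sum) ∧
      n2 (fun y => (l.map fun p => f p y).sum) * c ≤ (l.map b).sum := by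
  induction l with
  | nil => exact ⟨Cn.const 0, by simp [n2, sph]⟩
  | cons x l ih =>
    obtain ⟨h0, h1⟩ := ih fun p hp => h p (List.mem_cons_of_mem _ hp)
    obtain ⟨h4, h2⟩ := h x List.mem_cons_self
    have h3 := mul_le_mul_of_nonneg_right (n2_add h4 h0) hc
    simp only [List.map_cons, List.sum_cons]
    exact ⟨h4.add h0, by linarith⟩

theorem splits_len (u : List L) : ∀ ψ : ℕ → ℕ → ℝ,
    ((splits u).map fun p => ψ p.1.length p.2.length).sum =
      ∑ p ∈ Finset.HasAntidiagonal.antidiagonal u.length, (u.length.choose p.1 : ℝ) * ψ p.1 p.2 := by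
  induction u with
  | nil => intro ψ; simp [splits]
  | cons i u ih =>
    intro ψ
    rw [List.length_cons, Finset.sum_antidiagonal_choose_succ_mul, ← ih fun a b => ψ a (b + 1)]
    have h2 := ih fun a b => ψ (a + 1) b
    rw [Finset.sum_congr rfl fun p hp => by
      rw [Nat.choose_symm_of_eq_add (Finset.HasAntidiagonal.mem_antidiagonal.1 hp).symm]] at h2
    rw [← h2]
    simp only [splits, List.map_append, List.sum_append, List.map_map]
    rfl

end Lb

open Lb

theorem leibniz (hF : Ht T d F) (hG : Ht T d' G) (u : List L) : ∀ z ∈ Om T,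
    dw u (fun z => F z * G z) z = ((splits u).map fun p => dw p.1 F z * dw p.2 G z).sum := by
  induction u with
  | nil => intro z _; simp [splits, dw]
  | cons i u ih =>
    intro z hz
    have e : dw u (fun z => F z * G z) =ᶠ[𝓝 z]
        fun y => ((splits u).map fun p => dw p.1 F y * dw p.2 G y).sum :=
      Filter.eventually_of_mem ((isOpen_Om T).mem_nhds hz) ih
    have h1 := (dd_lsum (splits u) (fun p y => dw p.1 F y * dw p.2 G y) z
      fun p _ => (diff (hF.dw p.1) hz).fun_mul (diff (hG.dw p.2) hz)).2 i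
    have h2 : dw (i :: u) (fun z => F z * G z) z =
        dd i (fun y => ((splits u).map fun p => dw p.1 F y * dw p.2 G y).sum) z := by
      show fderiv ℝ (dw u fun z => F z * G z) z (dir i) = _
      rw [e.fderiv_eq]; rfl
    rw [h2, h1]
    simp only [splits, List.map_append, List.sum_append, List.map_map]
    rw [← List.sum_map_add]
    congr 1
    exact List.map_congr_left fun p _ => dd_mul (diff (hF.dw p.1) hz) (diff (hG.dw p.2) hz) i

theorem splits_head (u : List L) : ∃ l, splits u = ([], u) :: l ∧ ∀ p ∈ l, p.1 ≠ [] := by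
  induction u with
  | nil => exact ⟨[], rfl, by simp⟩
  | cons i u ih =>
    obtain ⟨l, h1, h2⟩ := ih
    refine ⟨l.map (fun p => (p.1, i :: p.2)) ++ (splits u).map fun p => (i :: p.1, p.2), ?_, ?_⟩
    · conv_lhs => rw [splits]
      nth_rw 1 [h1]
      rfl
    · intro p hp
      rcases List.mem_append.1 hp with h | h <;> obtain ⟨q, hq, rfl⟩ := List.mem_map.1 h
      · exact h2 q hq
      · simp

theorem splits_perm {u : List L} {p : List L × List L} (hp : p ∈ splits u) : (p.1 ++ p.2).Perm u := by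
  induction u generalizing p with
  | nil =>
    have : p = ([], []) := by simpa [splits] using hp
    simp [this]
  | cons i u ih =>
    rcases List.mem_append.1 hp with h | h <;> obtain ⟨q, hq, rfl⟩ := List.mem_map.1 h
    · exact List.perm_middle.trans ((ih hq).cons i)
    · exact (ih hq).cons i

theorem splits_sum (u : List L) :
    ((splits u).map fun p => (p.1.length ! : ℝ) ^ 2 * (p.2.length ! : ℝ) ^ 2).sum ≤ 3 * (u.length ! : ℝ) ^ 2 :=
  (splits_len u fun a b => (a ! : ℝ) ^ 2 * (b ! : ℝ) ^ 2).trans_le (Word.choose_fac_sum _)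

theorem GS.mono (h : GS T r w m F) (hr : ∀ i, 0 ≤ r' i) (h1 : ∀ i, r' i ≤ r i) (hm : m ≤ m')
    (hw : ∀ t ∈ Ioo 0 T, 0 ≤ w t) : GS T r' w m' F := fun u t ht a ha =>
  ((mul_le_mul_of_nonneg_left (rad_mono hr h1 u) (abs_nonneg _)).trans (h u t ht a ha)).trans
    (mul_le_mul_of_nonneg_right (mul_le_mul_of_nonneg_right hm (hw t ht)) (by positivity))

theorem G2.mono (h : G2 T r w m F) (hm : m ≤ m') (hw : ∀ t ∈ Ioo 0 T, 0 ≤ w t) : G2 T r w m' F :=
  fun u t ht => (h u t ht).trans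
    (mul_le_mul_of_nonneg_right (mul_le_mul_of_nonneg_right hm (hw t ht)) (by positivity))

theorem GS.congr (h : GS T r w m F) (e : ∀ z ∈ Om T, G z = F z) : GS T r w m G :=
  fun u t ht a ha => by
    rw [dw_congr e u _ (mem_Om ht ha)]; exact h u t ht a ha

theorem G2.congr (h : G2 T r w m F) (e : ∀ z ∈ Om T, G z = F z) : G2 T r w m G := fun u t ht => by
  rw [n2_congr (f := sl (dw u G) t) (g := sl (dw u F) t)
    fun a ha => dw_congr e u _ (mem_Om ht ha)]
  exact h u t ht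

theorem GS.add (hr : ∀ i, 0 < r i) (hF : Ht T d F) (hG : Ht T d' G) (h1 : GS T r w m F)
    (h2 : GS T r w m' G) : GS T r w (m + m') fun z => F z + G z := fun u t ht a ha => by
  rw [dw_add hF hG u _ (mem_Om ht ha)]
  have h3 := mul_le_mul_of_nonneg_right (abs_add_le (dw u F (t, a)) (dw u G (t, a)))
    (rad_pos hr u).le
  linarith [h1 u t ht a ha, h2 u t ht a ha]

theorem G2.add (hr : ∀ i, 0 < r i) (hF : Ht T d F) (hG : Ht T d' G) (h1 : G2 T r w m F)
    (h2 : G2 T r w m' G) : G2 T r w (m + m') fun z => F z + G z := fun u t ht => by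
  rw [n2_congr (f := sl (dw u fun z => F z + G z) t)
    (g := fun a => sl (dw u F) t a + sl (dw u G) t a)
    fun a ha => dw_add hF hG u _ (mem_Om ht ha)]
  have h3 := mul_le_mul_of_nonneg_right (n2_add (cn hF u ht) (cn hG u ht)) (rad_pos hr u).le
  linarith [h1 u t ht, h2 u t ht]

theorem GS.cmul (c : ℝ) (hF : Ht T d F) (h : GS T r w m F) : GS T r w (|c| * m) fun z => c * F z :=
  fun u t ht a ha => by
    rw [dw_cmul c hF u _ (mem_Om ht ha), abs_mul]
    have := mul_le_mul_of_nonneg_left (h u t ht a ha) (abs_nonneg c)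
    linarith

theorem G2.cmul (c : ℝ) (hF : Ht T d F) (h : G2 T r w m F) : G2 T r w (|c| * m) fun z => c * F z :=
  fun u t ht => by
    rw [n2_congr (f := sl (dw u fun z => c * F z) t) (g := fun a => c * sl (dw u F) t a)
      fun a ha => dw_cmul c hF u _ (mem_Om ht ha), n2_cmul]
    have := mul_le_mul_of_nonneg_left (h u t ht) (abs_nonneg c)
    linarith

theorem G2.sum (hr : ∀ i, 0 < r i) {ι : Type} (s : Finset ι) {Φ : ι → Y → ℝ} {μ : ι → ℝ}
    (h : ∀ i ∈ s, Ht T d (Φ i)) (hb : ∀ i ∈ s, G2 T r w (μ i) (Φ i)) :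
    G2 T r w (∑ i ∈ s, μ i) fun z => ∑ i ∈ s, Φ i z := fun u t ht => by
  rw [n2_congr (f := sl (dw u fun z => ∑ i ∈ s, Φ i z) t)
    (g := fun a => ∑ i ∈ s, sl (dw u (Φ i)) t a) fun a ha => dw_sum s h u _ (mem_Om ht ha)]
  refine (mul_le_mul_of_nonneg_right (n2_sum s fun i hi => cn (h i hi) u ht)
    (rad_pos hr u).le).trans ?_
  simp only [Finset.sum_mul]
  exact Finset.sum_le_sum fun i hi => hb i hi u t ht

theorem Lb.rad_split {u : List L} {p : List L × List L} (hp : p ∈ splits u) :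
    rad r u = rad r p.1 * rad r p.2 := by rw [← rad_append, rad_perm r (splits_perm hp)]

theorem Lb.fin_sum (u : List L) {x : ℝ} (hx : 0 ≤ x) :
    ((splits u).map fun p => x * ((p.1.length ! : ℝ) ^ 2 * (p.2.length ! : ℝ) ^ 2)).sum ≤
      x * (3 * (u.length ! : ℝ) ^ 2) := by
  rw [List.sum_map_mul_left]
  exact mul_le_mul_of_nonneg_left (splits_sum u) hx

theorem Lb.gs_nonneg (h : GS T r w m F) {t : ℝ} (ht : t ∈ Ioo 0 T) : 0 ≤ m * w t := by
  have h1 := h [] t ht (e 0) (by simp [e])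
  simp only [rad, List.map_nil, List.prod_nil, List.length_nil, Nat.factorial_zero, Nat.cast_one,
    one_pow, mul_one] at h1
  exact (abs_nonneg _).trans h1

theorem Lb.g2_nonneg (h : G2 T r w m F) {t : ℝ} (ht : t ∈ Ioo 0 T) : 0 ≤ m * w t := by
  have h1 := h [] t ht
  simp only [rad, List.map_nil, List.prod_nil, List.length_nil, Nat.factorial_zero, Nat.cast_one,
    one_pow, mul_one] at h1
  exact (n2_nonneg _).trans h1

theorem GS.mul (hr : ∀ i, 0 < r i) (hF : Ht T d F) (hG : Ht T d' G) (h1 : GS T r w m F)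
    (h2 : GS T r w' m' G) : GS T r (fun t => w t * w' t) (3 * m * m') fun z => F z * G z := by
  intro u t ht a ha
  have p1 := gs_nonneg h1 ht
  have p2 := gs_nonneg h2 ht
  rw [leibniz hF hG u _ (mem_Om ht ha)]
  refine (abs_lsum _ _ _ (rad_pos hr u).le fun p hp => ?_).trans
    ((fin_sum u (mul_nonneg p1 p2)).trans_eq (by ring))
  have h3 := mul_le_mul (h1 p.1 t ht a ha) (h2 p.2 t ht a ha)
    (mul_nonneg (abs_nonneg _) (rad_pos hr _).le) (by positivity)
  rw [rad_split hp, abs_mul]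
  linarith

theorem G2.mul (hr : ∀ i, 0 < r i) (hF : Ht T d F) (hG : Ht T d' G)
    (h1 : GS T r (fun _ => 1) m F) (h2 : G2 T r w m' G) :
    G2 T r w (3 * m * m') fun z => F z * G z := by
  intro u t ht
  have p1 : 0 ≤ m * 1 := gs_nonneg h1 ht
  have p2 := g2_nonneg h2 ht
  rw [n2_congr (f := sl (dw u fun z => F z * G z) t)
    (g := fun a => ((splits u).map fun p : List L × List L =>
      sl (dw p.1 F) t a * sl (dw p.2 G) t a).sum)
    fun a ha => leibniz hF hG u _ (mem_Om ht ha)]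
  refine (n2_lsum _ (fun (p : List L × List L) a => sl (dw p.1 F) t a * sl (dw p.2 G) t a) _
    (rad_pos hr u).le
    fun p hp => ⟨(cn hF _ ht).mul (cn hG _ ht), ?_⟩).2.trans
    ((fin_sum u (mul_nonneg p1 p2)).trans_eq (by ring))
  have q1 := rad_pos hr p.1
  have h3 := n2_mul_le (cn hF p.1 ht) (cn hG p.2 ht)
    (c := m * 1 * (p.1.length ! : ℝ) ^ 2 / rad r p.1)
    fun a ha => (le_div_iff₀ q1).2 (h1 p.1 t ht a ha)
  rw [div_mul_eq_mul_div, le_div_iff₀ q1] at h3
  have h4 := mul_le_mul_of_nonneg_right h3 (rad_pos hr p.2).le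
  have h5 := mul_le_mul_of_nonneg_left (h2 p.2 t ht)
    (show 0 ≤ m * 1 * (p.1.length ! : ℝ) ^ 2 by positivity)
  rw [rad_split hp]
  linarith

theorem GS.g2 (hr : ∀ i, 0 < r i) (hF : Ht T d F) (h : GS T r w m F) :
    G2 T r w (m * n2 fun _ => 1) F := fun u t ht => by
  have q1 := rad_pos hr u
  have h3 := n2_le_sup (cn hF u ht) (c := m * w t * (u.length ! : ℝ) ^ 2 / rad r u)
    fun a ha => (le_div_iff₀ q1).2 (h u t ht a ha)
  rw [div_mul_eq_mul_div, le_div_iff₀ q1] at h3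
  linarith

theorem Lb.adj_eq (A : Matrix (Fin 3) (Fin 3) ℝ) (i j : Fin 3) : A.adjugate i j =
    A (j + 1) (i + 1) * A (j + 2) (i + 2) + -1 * (A (j + 1) (i + 2) * A (j + 2) (i + 1)) := by
  rw [Matrix.adjugate_fin_three]
  fin_cases i <;> fin_cases j <;> simp <;> ring

theorem ah_gs {Φ : Y → Matrix (Fin 3) (Fin 3) ℝ} {K : ℝ} (hr : ∀ i, 0 < r i) (hK : 2 ≤ K)
    (h : ∀ i j, Ht T 0 fun z => Φ z i j) (h0 : ∀ z ∈ Om T, (Φ z).det ≠ 0)
    (hb : ∀ i j, GS T r (fun _ => 1) K fun z => Φ z i j)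
    (hJ : GS T r (fun _ => 1) K fun z => (Φ z).det⁻¹) (i j : Fin 3) :
    (Ht T 0 fun z => ah (Φ z) i j) ∧ GS T r (fun _ => 1) (K ^ 16) fun z => ah (Φ z) i j := by
  let P : ℝ → (Y → ℝ) → Prop := fun m F => Ht T 0 F ∧ GS T r (fun _ => 1) m F
  have mul : ∀ {m m' F G}, P m F → P m' G → P (3 * m * m') fun z => F z * G z := fun a b =>
    ⟨(a.1.mul b.1).cast (by simp), by simpa using GS.mul hr a.1 b.1 a.2 b.2⟩
  have add : ∀ {m m' F G}, P m F → P m' G → P (m + m') fun z => F z + G z := fun a b =>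
    ⟨a.1.add b.1, GS.add hr a.1 b.1 a.2 b.2⟩
  have neg : ∀ {m F}, P m F → P m fun z => -1 * F z := fun a =>
    ⟨a.1.cmul _, by simpa using GS.cmul (-1) a.1 a.2⟩
  have ent : ∀ i j, P K fun z => Φ z i j := fun i j => ⟨h i j, hb i j⟩
  have adj : ∀ i j, P (3 * K * K + 3 * K * K) fun z => (Φ z).adjugate i j := fun i j => by
    simp only [adj_eq]
    exact add (mul (ent _ _) (ent _ _)) (neg (mul (ent _ _) (ent _ _)))
  have hdet : Ht T 0 fun z => (Φ z).det := by
    have h3 := (add (add (mul (ent 0 0) (adj 0 0)) (mul (ent 0 1) (adj 1 0)))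
      (mul (ent 0 2) (adj 2 0))).1
    refine h3.congr fun z _ => ?_
    simp only [adj_eq, Matrix.det_fin_three]
    simp
    ring
  have hJ' : P K fun z => (Φ z).det⁻¹ := ⟨(hdet.inv h0).cast (by simp), hJ⟩
  have h4 := mul hJ' (add (add (mul (adj i 0) (adj j 0)) (mul (adj i 1) (adj j 1)))
    (mul (adj i 2) (adj j 2)))
  have e1 : ∀ z, ah (Φ z) i j = (Φ z).det⁻¹ * ((Φ z).adjugate i 0 * (Φ z).adjugate j 0 +
      (Φ z).adjugate i 1 * (Φ z).adjugate j 1 + (Φ z).adjugate i 2 * (Φ z).adjugate j 2) :=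
    fun z => by simp [ah, Matrix.mul_apply, Fin.sum_univ_three]
  simp only [e1]
  refine ⟨h4.1, h4.2.mono (fun i => (hr i).le) (fun _ => le_rfl) ?_ fun _ _ => zero_le_one⟩
  have h5 : (2 : ℝ) ^ 11 ≤ K ^ 11 := pow_le_pow_left₀ (by norm_num) hK 11
  have h6 : 0 ≤ K ^ 5 := by positivity
  nlinarith [mul_le_mul_of_nonneg_left h5 h6]

end Pool.Agent.Lib.MP_fbbbeb_an.B
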