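import Pool.Agent.Lib.MP_fbbbeb_an.B.Kit
import Pool.Agent.Lib.MP_fbbbeb_an.B.Kit2
import Pool.Agent.Lib.MP_fbbbeb_an.B.L2
import Pool.Agent.Lib.MP_fbbbeb_an.B.KitT
import Pool.Agent.Lib.MP_fbbbeb_an.B.Leib

/-! Section B: the `L²` Gevrey bound without loss. -/

set_option autoImplicit false

namespace Pool.Agent.Lib.MP_fbbbeb_an.B

open scoped ContDiff RealInnerProductSpace Nat
open Set Pub

namespace Gev

variable {T : ℝ}

theorem mem_Om {t : ℝ} (ht : t ∈ Ioo 0 T) {a : E} (ha : a ≠ 0) : ((t, a) : Y) ∈ Om T := ⟨ht, ha⟩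

theorem ne_of_norm {a : E} (ha : ‖a‖ = 1) : a ≠ 0 := by
  intro h
  rw [h] at ha
  simp at ha

theorem n2_zero : n2 (fun _ => (0 : ℝ)) = 0 := by
  have h := n2_cmul 0 (fun _ => (1 : ℝ))
  simpa using h

theorem cn_list {ι : Type} (l : List ι) (Φ : ι → E → ℝ) (h : ∀ p ∈ l, Cn (Φ p)) :
    Cn fun y => (l.map fun p => Φ p y).sum := by
  induction l with
  | nil => simpa using Cn.const 0
  | cons p l ih =>
    simp only [List.map_cons, List.sum_cons]
    exact (h p (by simp)).add (ih fun q hq => h q (by simp [hq]))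

theorem n2_list {ι : Type} (l : List ι) (Φ : ι → E → ℝ) (h : ∀ p ∈ l, Cn (Φ p)) :
    n2 (fun y => (l.map fun p => Φ p y).sum) ≤ (l.map fun p => n2 (Φ p)).sum := by
  induction l with
  | nil => simp [n2_zero]
  | cons p l ih =>
    simp only [List.map_cons, List.sum_cons]
    have h1 := n2_add (h p (by simp)) (cn_list l Φ fun q hq => h q (by simp [hq]))
    have h2 := ih fun q hq => h q (by simp [hq])
    linarith

theorem cn_dw {d : ℤ} {F : Y → ℝ} (hF : Ht T d F) (u : List L) {t : ℝ} (ht : t ∈ Ioo 0 T) :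
    Cn (sl (dw u F) t) := ((hF.dw u).sl ht).cn

theorem rad_small {r r0 : L → ℝ} {κ : ℝ} (hκ : 1 ≤ κ) (hr : ∀ i, 0 < r i)
    (h : ∀ i, r i * κ ≤ r0 i) {u : List L} (hu : u ≠ []) : rad r u * κ ≤ rad r0 u := by
  have h1 : rad (fun i => κ * r i) u ≤ rad r0 u :=
    rad_mono (fun i => (mul_pos (by linarith) (hr i)).le) (fun i => by rw [mul_comm]; exact h i) u
  rw [rad_scale] at h1
  have h2 : κ ≤ κ ^ u.length := le_self_pow₀ hκ (by simpa using hu)
  have h3 := rad_pos hr u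
  nlinarith

/-- the flux -/
noncomputable def fl (A : Fin 3 → Fin 3 → Y → ℝ) (q : Y → ℝ) (H : Fin 3 → Y → ℝ) (i : Fin 3) :
    Y → ℝ := fun z => ∑ j, A i j z * dd (some j) q z + H i z

/-- right side of the differentiated equation -/
noncomputable def hu (A : Fin 3 → Fin 3 → Y → ℝ) (q : Y → ℝ) (H : Fin 3 → Y → ℝ) (u : List L)
    (i : Fin 3) : Y → ℝ :=
  fun z => dw u (fl A q H i) z + (-1) * ∑ j, A i j z * dd (some j) (dw u q) z

variable {A : Fin 3 → Fin 3 → Y → ℝ} {q : Y → ℝ} {H : Fin 3 → Y → ℝ}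

theorem ht_term (hA : ∀ i j, Ht T 0 (A i j)) (hq : Ht T 2 q) (i j : Fin 3) :
    Ht T 1 fun z => A i j z * dd (some j) q z := ((hA i j).mul (hq.da j)).cast (by norm_num)

theorem ht_fl (hA : ∀ i j, Ht T 0 (A i j)) (hq : Ht T 2 q) (hH : ∀ i, Ht T 1 (H i)) (i : Fin 3) :
    Ht T 1 (fl A q H i) :=
  (Ht.sum Finset.univ fun j _ => ht_term hA hq i j).add (hH i)

theorem ht_hu (hA : ∀ i j, Ht T 0 (A i j)) (hq : Ht T 2 q) (hH : ∀ i, Ht T 1 (H i)) (u : List L)
    (i : Fin 3) : Ht T (2 - na u - 1) (hu A q H u i) :=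
  (((ht_fl hA hq hH i).dw u).cast (by ring)).add
    ((Ht.sum Finset.univ fun j _ => ((hA i j).mul ((hq.dw u).da j)).cast (by ring)).cmul (-1))

theorem div_fl (hA : ∀ i j, Ht T 0 (A i j)) (hq : Ht T 2 q) (hH : ∀ i, Ht T 1 (H i))
    (he : ∀ t ∈ Ioo 0 T, Ell (fun i j => sl (A i j) t) (sl q t) fun i => sl (H i) t) :
    ∀ z ∈ Om T, ∑ i, dd (some i) (fl A q H i) z = 0 := by
  intro z hz
  have h := he z.1 hz.1 z.2 hz.2
  rw [← h]
  refine Finset.sum_congr rfl fun i _ => ?_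
  rw [← pd_sl (ht_fl hA hq hH i) i hz]
  refine pd_congr (fun y hy => ?_) i hz.2
  simp only [sl, fl]
  congr 1
  refine Finset.sum_congr rfl fun j _ => ?_
  rw [← pd_sl hq j (mem_Om hz.1 hy)]

theorem ell_hu (hA : ∀ i j, Ht T 0 (A i j)) (hq : Ht T 2 q) (hH : ∀ i, Ht T 1 (H i))
    (he : ∀ t ∈ Ioo 0 T, Ell (fun i j => sl (A i j) t) (sl q t) fun i => sl (H i) t)
    (u : List L) {t : ℝ} (ht : t ∈ Ioo 0 T) :
    Ell (fun i j => sl (A i j) t) (sl (dw u q) t) fun i => sl (hu A q H u i) t := by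
  intro x hx
  have hz := mem_Om ht hx
  have h1 : dw u (fun z => ∑ i, dd (some i) (fl A q H i) z) (t, x) = 0 := by
    rw [dw_congr (div_fl hA hq hH he) u _ hz, dw_zero T u _ hz]
  rw [dw_sum Finset.univ (fun i _ => (ht_fl hA hq hH i).da i) u _ hz] at h1
  rw [← h1]
  refine Finset.sum_congr rfl fun i _ => ?_
  rw [dw_dd (ht_fl hA hq hH i) _ u _ hz, ← pd_sl ((ht_fl hA hq hH i).dw u) i hz]
  refine pd_congr (fun y hy => ?_) i hx
  have h2 : ∀ j, pd j (sl (dw u q) t) y = dd (some j) (dw u q) (t, y) :=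
    fun j => pd_sl (hq.dw u) j (mem_Om ht hy)
  simp only [h2, sl, hu]
  ring

theorem hu_eq (hA : ∀ i j, Ht T 0 (A i j)) (hq : Ht T 2 q) (hH : ∀ i, Ht T 1 (H i)) {u : List L}
    {l : List (List L × List L)} (hl : splits u = ([], u) :: l) (i : Fin 3) {z : Y} (hz : z ∈ Om T) :
    hu A q H u i z =
      ∑ j, (l.map fun p => dw p.1 (A i j) z * dw p.2 (dd (some j) q) z).sum + dw u (H i) z := by
  have h1 : dw u (fl A q H i) z =
      ∑ j, dw u (fun z => A i j z * dd (some j) q z) z + dw u (H i) z := by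
    rw [← dw_sum Finset.univ (fun j _ => ht_term hA hq i j) u z hz]
    exact dw_add (Ht.sum Finset.univ fun j _ => ht_term hA hq i j) (hH i) u z hz
  have h2 : ∀ j, dw u (fun z => A i j z * dd (some j) q z) z = A i j z * dd (some j) (dw u q) z +
      (l.map fun p => dw p.1 (A i j) z * dw p.2 (dd (some j) q) z).sum := by
    intro j
    rw [leibniz (hA i j) (hq.da j) u z hz, hl, List.map_cons, List.sum_cons, dw_dd hq _ u z hz]
    rfl
  simp only [hu, h1, h2, Finset.sum_add_distrib]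
  ring

theorem hu_bd {K κ X μ t : ℝ} {r r0 : L → ℝ} (hK : 0 ≤ K) (hκ : 1 ≤ κ) (hX : 0 ≤ X)
    (hr : ∀ i, 0 < r i) (h0 : ∀ i, r i * κ ≤ r0 i) (hA : ∀ i j, Ht T 0 (A i j))
    (hb : ∀ i j, GS T r0 (fun _ => 1) K (A i j)) (hq : Ht T 2 q) (hH : ∀ i, Ht T 1 (H i))
    (ht : t ∈ Ioo 0 T) (u : List L)
    (hm : ∀ i, n2 (sl (dw u (H i)) t) * rad r u ≤ μ * (u.length ! : ℝ) ^ 2)
    (ih : ∀ v : List L, v.length < u.length → ∀ j,
      n2 (sl (dw v (dd (some j) q)) t) * rad r v ≤ X * (v.length ! : ℝ) ^ 2) (i : Fin 3) :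
    n2 (sl (hu A q H u i) t) * rad r u ≤ (9 * (K / κ) * X + μ) * (u.length ! : ℝ) ^ 2 := by
  obtain ⟨l, hl, hne⟩ := splits_head u
  have hκ0 : 0 < κ := by linarith
  have hru := rad_pos hr u
  have hmem : ∀ p ∈ l, p ∈ splits u := fun p hp => by rw [hl]; exact List.mem_cons_of_mem _ hp
  have hc : ∀ j (p : List L × List L),
      Cn fun y => sl (dw p.1 (A i j)) t y * sl (dw p.2 (dd (some j) q)) t y :=
    fun j p => (cn_dw (hA i j) p.1 ht).mul (cn_dw (hq.da j) p.2 ht)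
  have hterm : ∀ j, ∀ p ∈ l,
      n2 (fun y => sl (dw p.1 (A i j)) t y * sl (dw p.2 (dd (some j) q)) t y) * rad r u ≤
        K / κ * X * ((p.1.length ! : ℝ) ^ 2 * (p.2.length ! : ℝ) ^ 2) := by
    intro j p hp
    have hperm := splits_perm (hmem p hp)
    have hlen : p.2.length < u.length := by
      have h1 := hperm.length_eq
      have h2 : 0 < p.1.length := List.length_pos_iff.2 (hne p hp)
      rw [List.length_append] at h1
      omega
    have hp1 := rad_pos hr p.1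
    have hp2 := rad_pos hr p.2
    have hs := rad_small hκ hr h0 (hne p hp)
    have h1 : ∀ y : E, ‖y‖ = 1 →
        |sl (dw p.1 (A i j)) t y| ≤ K / κ * (p.1.length ! : ℝ) ^ 2 / rad r p.1 := by
      intro y hy
      have h2 := hb i j p.1 t ht y hy
      rw [le_div_iff₀ hp1, div_mul_eq_mul_div, le_div_iff₀ hκ0]
      have h3 : |dw p.1 (A i j) (t, y)| * (rad r p.1 * κ) ≤ |dw p.1 (A i j) (t, y)| * rad r0 p.1 :=
        mul_le_mul_of_nonneg_left hs (abs_nonneg _)
      simp only [sl]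
      linarith
    have h2 := n2_mul_le (cn_dw (hA i j) p.1 ht) (cn_dw (hq.da j) p.2 ht) h1
    have h3 := ih p.2 hlen j
    have h4 : 0 ≤ K / κ * (p.1.length ! : ℝ) ^ 2 := by positivity
    rw [← rad_perm r hperm, rad_append]
    calc _ ≤ K / κ * (p.1.length ! : ℝ) ^ 2 / rad r p.1 * n2 (sl (dw p.2 (dd (some j) q)) t) *
          (rad r p.1 * rad r p.2) := mul_le_mul_of_nonneg_right h2 (by positivity)
      _ = K / κ * (p.1.length ! : ℝ) ^ 2 * (n2 (sl (dw p.2 (dd (some j) q)) t) * rad r p.2) := by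
          field_simp
      _ ≤ K / κ * (p.1.length ! : ℝ) ^ 2 * (X * (p.2.length ! : ℝ) ^ 2) :=
          mul_le_mul_of_nonneg_left h3 h4
      _ = _ := by ring
  have hsum : (l.map fun p => (p.1.length ! : ℝ) ^ 2 * (p.2.length ! : ℝ) ^ 2).sum ≤
      3 * (u.length ! : ℝ) ^ 2 := by
    have h1 := splits_sum u
    rw [hl, List.map_cons, List.sum_cons] at h1
    have h2 : (0 : ℝ) ≤ ((([] : List L), u).1.length ! : ℝ) ^ 2 * ((([] : List L), u).2.length ! : ℝ) ^ 2 := by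
      positivity
    linarith
  have hj : ∀ j, n2 (fun y => (l.map fun p =>
      sl (dw p.1 (A i j)) t y * sl (dw p.2 (dd (some j) q)) t y).sum) * rad r u ≤
        3 * (K / κ) * X * (u.length ! : ℝ) ^ 2 := by
    intro j
    have h1 := n2_list l (fun p y => sl (dw p.1 (A i j)) t y * sl (dw p.2 (dd (some j) q)) t y)
      fun p _ => hc j p
    have h2 := List.sum_le_sum (l := l) (hterm j)
    rw [List.sum_map_mul_right, List.sum_map_mul_left] at h2
    have h3 := mul_le_mul_of_nonneg_right h1 hru.le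
    have h4 := mul_le_mul_of_nonneg_left hsum (show 0 ≤ K / κ * X by positivity)
    linarith
  have hcj : ∀ j, Cn fun y => (l.map fun p =>
      sl (dw p.1 (A i j)) t y * sl (dw p.2 (dd (some j) q)) t y).sum :=
    fun j => cn_list l (fun p y => sl (dw p.1 (A i j)) t y * sl (dw p.2 (dd (some j) q)) t y)
      fun p _ => hc j p
  have h5 : n2 (sl (hu A q H u i) t) = n2 fun y => ∑ j, (l.map fun p =>
      sl (dw p.1 (A i j)) t y * sl (dw p.2 (dd (some j) q)) t y).sum + sl (dw u (H i)) t y :=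
    n2_congr fun y hy => hu_eq hA hq hH hl i (mem_Om ht (ne_of_norm hy))
  have h6 := n2_add (Cn.sum Finset.univ fun j _ => hcj j) (cn_dw (hH i) u ht)
  have h7 := n2_sum Finset.univ fun j _ => hcj j
  rw [Fin.sum_univ_three] at h7
  rw [h5]
  have h8 := mul_le_mul_of_nonneg_right (h6.trans (add_le_add_left h7 _)) hru.le
  have h9 := hm i
  have := hj 0
  have := hj 1
  have := hj 2
  linarith

theorem na_le (u : List L) : na u ≤ u.length := List.countP_le_length

theorem exists_some {u : List L} (h : na u ≠ 0) : ∃ k : Fin 3, ∃ v : List L, u.Perm (v ++ [some k]) := by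
  have h1 : 0 < u.countP Option.isSome := Nat.pos_of_ne_zero h
  obtain ⟨a, ha, hs⟩ := List.countP_pos_iff.1 h1
  obtain ⟨k, rfl⟩ := Option.isSome_iff_exists.1 hs
  exact ⟨k, u.erase (some k), (List.perm_cons_erase ha).trans (List.perm_append_singleton _ _).symm⟩

theorem step {M : Set (E ≃ₗᵢ[ℝ] E)} {K μ t : ℝ} {r r0 : L → ℝ} (hK : 2 ≤ K) (hμ : 0 ≤ μ)
    (hr : ∀ i, 0 < r i) (h0 : ∀ i, r i * K ^ 14 ≤ r0 i) (h1 : ∀ i, r0 i ≤ 1)
    (hA : ∀ i j, Ht T 0 (A i j)) (hb : ∀ i j, GS T r0 (fun _ => 1) K (A i j))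
    (hI : ∀ t ∈ Ioo 0 T, IsInv M (sl q t))
    (he : ∀ t ∈ Ioo 0 T, Ell (fun i j => sl (A i j) t) (sl q t) fun i => sl (H i) t)
    (hq : Ht T 2 q) (hH : ∀ i, Ht T 1 (H i)) (ht : t ∈ Ioo 0 T)
    (hp : Pos (fun i j => sl (A i j) t) K) (hl : Lev0 M (fun i j => sl (A i j) t) K) (u : List L)
    (hm : ∀ i, n2 (sl (dw u (H i)) t) * rad r u ≤ μ * (u.length ! : ℝ) ^ 2)
    (ih : ∀ v : List L, v.length < u.length → ∀ j,
      n2 (sl (dw v (dd (some j) q)) t) * rad r v ≤ K ^ 14 * μ * (v.length ! : ℝ) ^ 2) (i : Fin 3) :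
    n2 (sl (dw u (dd (some i) q)) t) * rad r u ≤ K ^ 14 * μ * (u.length ! : ℝ) ^ 2 := by
  have hK0 : 0 < K := by linarith
  have hκ : 1 ≤ K ^ 14 := one_le_pow₀ (by linarith)
  have hru := rad_pos hr u
  have hN : (0 : ℝ) ≤ μ * (u.length ! : ℝ) ^ 2 := by positivity
  have hbd := hu_bd hK0.le hκ (show 0 ≤ K ^ 14 * μ by positivity) hr h0 hA hb hq hH ht u hm ih
  have e1 : 9 * (K / K ^ 14) * (K ^ 14 * μ) + μ = (9 * K + 1) * μ := by field_simp
  simp only [e1] at hbd
  have hS : (∑ j, n2 (sl (hu A q H u j) t)) * rad r u ≤ (27 * K + 3) * (μ * (u.length ! : ℝ) ^ 2) := by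
    rw [Fin.sum_univ_three]
    have := hbd 0
    have := hbd 1
    have := hbd 2
    linarith
  have e2 : n2 (sl (dw u (dd (some i) q)) t) = n2 (pd i (sl (dw u q) t)) :=
    n2_congr fun y hy => by
      have hz := mem_Om ht (ne_of_norm hy)
      exact (dw_dd hq _ u _ hz).trans (pd_sl (hq.dw u) i hz).symm
  have hE := ell_hu hA hq hH he u ht
  have hK11 : 2048 ≤ K ^ 11 := le_trans (by norm_num) (pow_le_pow_left₀ (by norm_num) hK 11)
  have hpoly : 20 * K ^ 2 * (27 * K + 6) ≤ K ^ 14 := by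
    have h3 : K ^ 14 = K ^ 2 * K * K ^ 11 := by ring
    have h4 : 0 < K ^ 2 := by positivity
    have h5 : K ^ 2 * K * 2048 ≤ K ^ 2 * K * K ^ 11 := mul_le_mul_of_nonneg_left hK11 (by positivity)
    have h6 : K ^ 2 * 2 ≤ K ^ 2 * K := mul_le_mul_of_nonneg_left hK h4.le
    linarith
  rw [e2, mul_assoc]
  by_cases hna : na u = 0
  · have h2 := hl (sl (dw u q) t) (fun j => sl (hu A q H u j) t)
      (((hq.dw u).sl ht).cast (by simp [hna])) (inv_dw hq hI hna t ht)
      (fun j => ((ht_hu hA hq hH u j).sl ht).cast (by simp [hna])) hE i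
    have h3 := mul_le_mul_of_nonneg_right h2 hru.le
    have h4 := mul_le_mul_of_nonneg_left hS hK0.le
    have h5 : K * (27 * K + 3) ≤ K ^ 14 := by nlinarith
    have h6 := mul_le_mul_of_nonneg_right h5 hN
    linarith
  · obtain ⟨k, v, hv⟩ := exists_some hna
    have hlen : u.length = v.length + 1 := by simpa using hv.length_eq
    have hA0 : ∀ i j, ∀ y : E, ‖y‖ = 1 → |sl (A i j) t y| ≤ K := fun i j y hy => by
      simpa [dw, rad, sl] using hb i j [] t ht y hy
    have h2 := garding (by linarith) (fun i j => (hA i j).sl ht) hA0 hp ((hq.dw u).sl ht)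
      (fun j => (ht_hu hA hq hH u j).sl ht) hE i
    have e3 : n2 (sl (dw u q) t) = n2 (sl (dw v (dd (some k) q)) t) :=
      n2_congr fun y hy => by
        have hz := mem_Om ht (ne_of_norm hy)
        have h3 := dw_perm hq hv _ hz
        rw [dw_append] at h3
        exact h3
    have e4 : rad r u = rad r v * r (some k) := by
      rw [rad_perm r hv, rad_append]
      simp [rad]
    have h3 := ih v (by omega) k
    have h4 : r (some k) * K ^ 14 ≤ 1 := (h0 _).trans (h1 _)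
    have hNv : (0 : ℝ) ≤ μ * (v.length ! : ℝ) ^ 2 := by positivity
    have h5 : n2 (sl (dw u q) t) * rad r u ≤ μ * (v.length ! : ℝ) ^ 2 := by
      rw [e3, e4]
      have h6 := mul_le_mul_of_nonneg_right h3 (hr (some k)).le
      have h7 := mul_le_mul_of_nonneg_right h4 hNv
      linarith
    have h6 : |2 * (((2 : ℤ) - na u : ℤ) : ℝ) + 1| ≤ 3 * ((v.length : ℝ) + 1) := by
      have a1 : (1 : ℝ) ≤ na u := by exact_mod_cast Nat.one_le_iff_ne_zero.2 hna
      have a2 : (na u : ℝ) ≤ (v.length : ℝ) + 1 := by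
        have := na_le u
        rw [hlen] at this
        exact_mod_cast this
      push_cast
      rw [abs_le]
      constructor <;> linarith
    have h7 : ((v.length : ℝ) + 1) * (μ * (v.length ! : ℝ) ^ 2) ≤ μ * (u.length ! : ℝ) ^ 2 := by
      rw [hlen, Nat.factorial_succ]
      push_cast
      have a1 : (0 : ℝ) ≤ v.length := Nat.cast_nonneg _
      have a2 : ((v.length : ℝ) + 1) ≤ ((v.length : ℝ) + 1) ^ 2 := by nlinarith
      have a3 := mul_le_mul_of_nonneg_right a2 hNv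
      calc _ ≤ _ := a3
        _ = _ := by ring
    have h8 : |2 * (((2 : ℤ) - na u : ℤ) : ℝ) + 1| * (n2 (sl (dw u q) t) * rad r u) ≤
        3 * (μ * (u.length ! : ℝ) ^ 2) := by
      have a1 := mul_le_mul h6 h5 (mul_nonneg (n2_nonneg _) hru.le) (by positivity)
      linarith
    have h9 := mul_le_mul_of_nonneg_right h2 hru.le
    have h10 := mul_le_mul_of_nonneg_left (add_le_add hS h8) (show 0 ≤ 20 * K ^ 2 by positivity)
    have h11 := mul_le_mul_of_nonneg_right hpoly hN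
    linarith

end Gev

theorem gev_l2 : ∃ C : ℕ, ∀ (M : Set (E ≃ₗᵢ[ℝ] E)) (T K m : ℝ) (r0 r : L → ℝ) (w : ℝ → ℝ)
    (A : Fin 3 → Fin 3 → Y → ℝ) (q : Y → ℝ) (H : Fin 3 → Y → ℝ), 2 ≤ K → (∀ i, 0 < r i) →
    (∀ i, r i * K ^ C ≤ r0 i) → (∀ i, r0 i ≤ 1) → (∀ i j, Ht T 0 (A i j)) →
    (∀ i j, GS T r0 (fun _ => 1) K (A i j)) →
    (∀ t ∈ Ioo 0 T, Pos (fun i j => sl (A i j) t) K ∧ Lev0 M (fun i j => sl (A i j) t) K ∧
      IsInv M (sl q t) ∧ Ell (fun i j => sl (A i j) t) (sl q t) fun i => sl (H i) t) →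
    Ht T 2 q → (∀ i, Ht T 1 (H i)) → (∀ i, G2 T r w m (H i)) →
    ∀ i, G2 T r w (K ^ C * m) (dd (some i) q) := by
  refine ⟨14, fun M T K m r0 r w A q H hK hr h0 h1 hA hb h hq hH hG i u t ht => ?_⟩
  have hμ : 0 ≤ m * w t := by
    have h2 := hG 0 [] t ht
    have h3 := n2_nonneg (sl (dw [] (H 0)) t)
    simp only [rad, List.map_nil, List.prod_nil, List.length_nil, Nat.factorial_zero] at h2
    norm_num at h2
    linarith
  have key : ∀ n : ℕ, ∀ v : List L, v.length = n → ∀ j,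
      n2 (sl (dw v (dd (some j) q)) t) * rad r v ≤ K ^ 14 * (m * w t) * (v.length ! : ℝ) ^ 2 := by
    intro n
    induction n using Nat.strong_induction_on with
    | _ n ih =>
      intro v hv j
      exact Gev.step hK hμ hr h0 h1 hA hb (fun s hs => (h s hs).2.2.1) (fun s hs => (h s hs).2.2.2)
        hq hH ht (h t ht).1 (h t ht).2.1 v (fun k => hG k v t ht)
        (fun v' hv' k => ih v'.length (hv ▸ hv') v' rfl k) j
  have h2 := key u.length u rfl i
  rw [mul_assoc (K ^ 14) m]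
  exact h2

end Pool.Agent.Lib.MP_fbbbeb_an.B
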