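import Pool.Agent.Lib.MP_fbbbeb_an.B.Defs

/-! Section B, S6b: the inverse map is equivariant; composition with a homogeneous family. -/

set_option autoImplicit false

namespace Pool.Agent.Lib.MP_fbbbeb_an.B

open scoped ContDiff RealInnerProductSpace Nat
open Set Pub MeasureTheory

variable {M : Set (E ≃ₗᵢ[ℝ] E)} {d d' : ℤ} {f g : E → ℝ}

theorem InvMap.iso_ne (O : E ≃ₗᵢ[ℝ] E) {a : E} (ha : a ≠ 0) : O a ≠ 0 :=
  fun h => ha (O.injective (h.trans O.map_zero.symm))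

theorem DifT.inv {T : ℝ} {X : Y → E} (hX : DifT M T X) : ∃ Xi : Y → E, (∀ i, Ht T 1 fun z => Xi z i) ∧
    ∀ t ∈ Ioo 0 T, ∀ a : E, a ≠ 0 → Xi (t, a) ≠ 0 ∧ X (t, Xi (t, a)) = a ∧ Xi (t, X (t, a)) = a ∧
      ∀ O ∈ M, Xi (t, O a) = O (Xi (t, a)) := by
  obtain ⟨Xi, h1, h2⟩ := hX.exi
  refine ⟨Xi, h1, fun t ht a ha => ?_⟩
  obtain ⟨a1, a2, a3⟩ := h2 t ht a ha
  refine ⟨a1, a2, a3, fun O hO => ?_⟩
  have e1 : X (t, O (Xi (t, a))) = O a := by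
    have := (hX.dif t ht).eqv O hO _ a1
    simpa only [a2] using this
  rw [← e1]
  exact (h2 t ht _ (InvMap.iso_ne O a1)).2.2

theorem Dif.inv {X : E → E} (hX : Dif M X) : ∃ Xi : E → E, (∀ i, Hm 1 fun a => Xi a i) ∧
    ∀ a : E, a ≠ 0 → Xi a ≠ 0 ∧ X (Xi a) = a ∧ Xi (X a) = a ∧ ∀ O ∈ M, Xi (O a) = O (Xi a) := by
  obtain ⟨Xi, h1, h2⟩ := hX.exi
  refine ⟨Xi, h1, fun a ha => ?_⟩
  obtain ⟨a1, a2, a3⟩ := h2 a ha
  refine ⟨a1, a2, a3, fun O hO => ?_⟩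
  have e1 : X (O (Xi a)) = O a := by rw [hX.eqv O hO _ a1, a2]
  rw [← e1]
  exact (h2 _ (InvMap.iso_ne O a1)).2.2

theorem Ht.compT {T : ℝ} {h : Y → ℝ} (hh : Ht T d h) {Z : Y → E} (hZ : ∀ i, Ht T 1 fun z => Z z i)
    (h0 : ∀ t ∈ Ioo 0 T, ∀ a : E, a ≠ 0 → Z (t, a) ≠ 0) : Ht T d fun z => h (z.1, Z z) := by
  refine ⟨?_, fun t ht l hl a ha => ?_⟩
  · have hs : ContDiffOn ℝ ∞ Z (Om T) := contDiffOn_euclidean.2 fun i => (hZ i).sm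
    have hp : ContDiffOn ℝ ∞ (fun z : Y => ((z.1, Z z) : Y)) (Om T) := contDiffOn_fst.prodMk hs
    refine hh.sm.comp hp fun z hz => ?_
    exact ⟨hz.1, h0 z.1 hz.1 z.2 hz.2⟩
  · have e1 : Z (t, l • a) = l • Z (t, a) := by
      ext i
      have := (hZ i).hom t ht l hl a ha
      simpa using this
    show h (t, Z (t, l • a)) = l ^ d * h (t, Z (t, a))
    rw [e1]
    exact hh.hom t ht l hl _ (h0 t ht a ha)

end Pool.Agent.Lib.MP_fbbbeb_an.B
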