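import Pool.Agent.Lib.MP_fbbbeb_an.B.Defs

/-! Section B, static kit: homogeneous functions and their derivatives. -/

set_option autoImplicit false

namespace Pool.Agent.Lib.MP_fbbbeb_an.B

open scoped ContDiff RealInnerProductSpace Nat
open Set Pub MeasureTheory

variable {M : Set (E ≃ₗᵢ[ℝ] E)} {d d' : ℤ} {f g : E → ℝ}

namespace Kit

theorem open0 : IsOpen ({0}ᶜ : Set E) := isOpen_compl_singleton

theorem nhds0 {x : E} (hx : x ≠ 0) : ({0}ᶜ : Set E) ∈ nhds x := open0.mem_nhds hx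

theorem cda (hf : Hm d f) {x : E} (hx : x ≠ 0) : ContDiffAt ℝ ∞ f x :=
  hf.sm.contDiffAt (nhds0 hx)

theorem ev_eq (h : ∀ y : E, y ≠ 0 → f y = g y) {x : E} (hx : x ≠ 0) : f =ᶠ[nhds x] g :=
  Filter.mem_of_superset (nhds0 hx) fun y hy => h y hy

theorem sum_e (v : E) : ∑ i, v i • e i = v := by
  ext j
  simp [e, Fin.sum_univ_three]
  fin_cases j <;> simp

end Kit

open Kit

theorem Hm.const (c : ℝ) : Hm 0 fun _ => c :=
  ⟨contDiffOn_const, fun _ _ _ _ => by simp⟩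

theorem Hm.zero (d : ℤ) : Hm d fun _ => 0 :=
  ⟨contDiffOn_const, fun _ _ _ _ => by simp⟩

theorem Hm.coord (i : Fin 3) : Hm 1 fun y => y i :=
  ⟨(EuclideanSpace.proj i : E →L[ℝ] ℝ).contDiff.contDiffOn, fun _ _ _ _ => by simp⟩

theorem Hm.normz (k : ℤ) : Hm k fun y => ‖y‖ ^ k := by
  refine ⟨fun x hx => ?_, fun l hl x _ => ?_⟩
  · have h1 : ContDiffAt ℝ ∞ (fun y : E => ‖y‖) x := contDiffAt_norm ℝ hx
    have h0 : ‖x‖ ≠ 0 := norm_ne_zero_iff.2 hx
    refine ContDiffAt.contDiffWithinAt ?_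
    cases k with
    | ofNat n => simpa using h1.pow n
    | negSucc n =>
      simp only [zpow_negSucc]
      exact (h1.pow (n + 1)).inv (pow_ne_zero _ h0)
  · rw [norm_smul, Real.norm_eq_abs, abs_of_pos hl, mul_zpow]

theorem Hm.add (hf : Hm d f) (hg : Hm d g) : Hm d fun y => f y + g y :=
  ⟨hf.sm.add hg.sm, fun l hl x hx => by rw [hf.hom l hl x hx, hg.hom l hl x hx]; ring⟩

theorem Hm.sub (hf : Hm d f) (hg : Hm d g) : Hm d fun y => f y - g y :=
  ⟨hf.sm.sub hg.sm, fun l hl x hx => by rw [hf.hom l hl x hx, hg.hom l hl x hx]; ring⟩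

theorem Hm.cmul (c : ℝ) (hf : Hm d f) : Hm d fun y => c * f y :=
  ⟨contDiffOn_const.mul hf.sm, fun l hl x hx => by rw [hf.hom l hl x hx]; ring⟩

theorem Hm.mul (hf : Hm d f) (hg : Hm d' g) : Hm (d + d') fun y => f y * g y :=
  ⟨hf.sm.mul hg.sm, fun l hl x hx => by
    rw [hf.hom l hl x hx, hg.hom l hl x hx, zpow_add₀ hl.ne']; ring⟩

theorem Hm.sum {ι : Type} (s : Finset ι) {F : ι → E → ℝ} (h : ∀ i ∈ s, Hm d (F i)) :
    Hm d fun y => ∑ i ∈ s, F i y :=
  ⟨ContDiffOn.sum fun i hi => (h i hi).sm, fun l hl x hx => by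
    rw [Finset.mul_sum]
    exact Finset.sum_congr rfl fun i hi => (h i hi).hom l hl x hx⟩

theorem Hm.inv (hf : Hm d f) (h0 : ∀ y : E, y ≠ 0 → f y ≠ 0) : Hm (-d) fun y => (f y)⁻¹ :=
  ⟨hf.sm.inv fun y hy => h0 y hy, fun l hl x hx => by
    rw [hf.hom l hl x hx, mul_inv, zpow_neg]⟩

theorem Hm.congr (hf : Hm d f) (h : ∀ y : E, y ≠ 0 → g y = f y) : Hm d g :=
  ⟨hf.sm.congr fun y hy => h y hy, fun l hl x hx => by
    rw [h _ (smul_ne_zero hl.ne' hx), h x hx, hf.hom l hl x hx]⟩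

theorem Hm.cast (hf : Hm d f) (h : d = d') : Hm d' f := h ▸ hf

theorem Hm.da (hf : Hm d f) {x : E} (hx : x ≠ 0) : DifferentiableAt ℝ f x :=
  (cda hf hx).differentiableAt (by simp)

theorem Kit.fderiv_hom (hf : Hm d f) {l : ℝ} (hl : 0 < l) {x : E} (hx : x ≠ 0) (v : E) :
    l * fderiv ℝ f (l • x) v = l ^ d * fderiv ℝ f x v := by
  have hlx : l • x ≠ 0 := smul_ne_zero hl.ne' hx
  have h1 : HasFDerivAt (fun y : E => f (l • y))
      ((fderiv ℝ f (l • x)).comp (l • ContinuousLinearMap.id ℝ E)) x :=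
    (hf.da hlx).hasFDerivAt.comp x ((hasFDerivAt_id x).const_smul l)
  have h2 : HasFDerivAt (fun y : E => l ^ d * f y) (l ^ d • fderiv ℝ f x) x :=
    (hf.da hx).hasFDerivAt.const_mul (l ^ d)
  have h3 : (fun y : E => f (l • y)) =ᶠ[nhds x] fun y : E => l ^ d * f y :=
    ev_eq (fun y hy => hf.hom l hl y hy) hx
  have h4 := (h1.congr_of_eventuallyEq h3.symm).unique h2
  have h5 := congrArg (fun A : E →L[ℝ] ℝ => A v) h4
  simpa using h5

theorem Hm.pd (hf : Hm d f) (i : Fin 3) : Hm (d - 1) (pd i f) := by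
  refine ⟨?_, fun l hl x hx => ?_⟩
  · have h1 : ContDiffOn ℝ ∞ (fderiv ℝ f) {0}ᶜ := hf.sm.fderiv_of_isOpen open0 (by simp)
    exact h1.clm_apply contDiffOn_const
  · have h := Kit.fderiv_hom hf hl hx (e i)
    unfold B.pd
    rw [zpow_sub₀ hl.ne', zpow_one]
    field_simp
    linarith

theorem Hm.lap (hf : Hm d f) : Hm (d - 2) (lap f) := by
  have h : Hm (d - 2) fun y => ∑ i, B.pd i (B.pd i f) y :=
    Hm.sum _ fun i _ => ((hf.pd i).pd i).cast (by ring)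
  exact h

theorem Hm.cn (hf : Hm d f) : Cn f := by
  refine hf.sm.continuousOn.mono fun y hy h0 => ?_
  rw [mem_singleton_iff] at h0
  simp [h0] at hy

theorem fderiv_eq_sum (f : E → ℝ) (x v : E) : fderiv ℝ f x v = ∑ i, v i * pd i f x := by
  conv_lhs => rw [← sum_e v]
  simp only [map_sum, map_smul, smul_eq_mul, pd]

theorem Hm.euler (hf : Hm d f) {x : E} (hx : x ≠ 0) : ∑ i, x i * B.pd i f x = d * f x := by
  rw [← fderiv_eq_sum]
  have h0 : HasDerivAt (fun l : ℝ => l • x) x 1 := by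
    simpa using (hasDerivAt_id (1 : ℝ)).smul_const x
  have hd : HasFDerivAt f (fderiv ℝ f x) ((fun l : ℝ => l • x) 1) := by
    simpa using (hf.da hx).hasFDerivAt
  have h1 : HasDerivAt (fun l : ℝ => f (l • x)) (fderiv ℝ f x x) 1 := hd.comp_hasDerivAt 1 h0
  have h2 : HasDerivAt (fun l : ℝ => l ^ d * f x) (d * (1 : ℝ) ^ (d - 1) * f x) 1 :=
    (hasDerivAt_zpow d 1 (Or.inl one_ne_zero)).mul_const _
  have h3 : (fun l : ℝ => f (l • x)) =ᶠ[nhds 1] fun l : ℝ => l ^ d * f x :=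
    Filter.mem_of_superset (Ioi_mem_nhds one_pos) fun l hl => hf.hom l hl x hx
  have h4 := (h1.congr_of_eventuallyEq h3.symm).unique h2
  simpa using h4

theorem pd_congr (h : ∀ y : E, y ≠ 0 → f y = g y) (i : Fin 3) {x : E} (hx : x ≠ 0) :
    pd i f x = pd i g x := by
  unfold pd
  rw [(ev_eq h hx).fderiv_eq]

theorem pd_add (hf : Hm d f) (hg : Hm d' g) (i : Fin 3) {x : E} (hx : x ≠ 0) :
    pd i (fun y => f y + g y) x = pd i f x + pd i g x := by
  unfold pd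
  rw [fderiv_fun_add (hf.da hx) (hg.da hx)]
  rfl

theorem pd_mul (hf : Hm d f) (hg : Hm d' g) (i : Fin 3) {x : E} (hx : x ≠ 0) :
    pd i (fun y => f y * g y) x = pd i f x * g x + f x * pd i g x := by
  unfold pd
  rw [fderiv_fun_mul (hf.da hx) (hg.da hx)]
  simp only [add_apply, smul_apply, smul_eq_mul]
  ring

theorem pd_sum {ι : Type} (s : Finset ι) {F : ι → E → ℝ} (h : ∀ j ∈ s, Hm d (F j)) (i : Fin 3)
    {x : E} (hx : x ≠ 0) : pd i (fun y => ∑ j ∈ s, F j y) x = ∑ j ∈ s, pd i (F j) x := by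
  unfold pd
  rw [fderiv_fun_sum fun j hj => (h j hj).da hx]
  simp

theorem pd_comm (hf : Hm d f) (i j : Fin 3) {x : E} (hx : x ≠ 0) :
    pd i (pd j f) x = pd j (pd i f) x := by
  have hc := cda hf hx
  have h2 : ContDiffAt ℝ 2 f x := hc.of_le (WithTop.coe_le_coe.2 (le_top : (2 : ℕ∞) ≤ ⊤))
  have hs : IsSymmSndFDerivAt ℝ f x := h2.isSymmSndFDerivAt (by simp)
  have hd : DifferentiableAt ℝ (fderiv ℝ f) x :=
    (h2.fderiv_right (m := 1) (by norm_num)).differentiableAt (by simp)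
  have key : ∀ a b : Fin 3, pd a (pd b f) x = fderiv ℝ (fderiv ℝ f) x (e a) (e b) := by
    intro a b
    have h1 : pd b f = fun y => fderiv ℝ f y (e b) := rfl
    rw [h1]
    unfold pd
    rw [fderiv_clm_apply hd (differentiableAt_const _)]
    simp
  rw [key, key, hs]

end Pool.Agent.Lib.MP_fbbbeb_an.B
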