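import Pool.Agent.Lib.MP_fbbbeb_an.B.Kit

/-! Section B, S6a: chain rule, Piola identity and equivariance of the Jacobian matrix. -/

set_option autoImplicit false

namespace Pool.Agent.Lib.MP_fbbbeb_an.B

open scoped ContDiff RealInnerProductSpace Nat
open Set Pub MeasureTheory

variable {M : Set (E ≃ₗᵢ[ℝ] E)} {d d' : ℤ} {f g : E → ℝ}

theorem Dif.jac_hm {X : E → E} (hX : Dif M X) (i j : Fin 3) : Hm 0 fun a => jac X a i j :=
  ((hX.hm i).pd j).cast (by norm_num)

theorem Dif.pio_sm {X : E → E} (hX : Dif M X) : ContDiffOn ℝ ∞ X {0}ᶜ :=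
  contDiffOn_euclidean.2 fun i => (hX.hm i).sm

theorem Dif.pio_ne {X : E → E} (hX : Dif M X) {a : E} (ha : a ≠ 0) : X a ≠ 0 :=
  hX.bij.mapsTo ha

theorem Dif.pio_da {X : E → E} (hX : Dif M X) {a : E} (ha : a ≠ 0) : DifferentiableAt ℝ X a :=
  differentiableAt_euclidean.2 fun i => (hX.hm i).da ha

theorem Dif.comp {X : E → E} (hX : Dif M X) (hf : Hm d f) : Hm d fun a => f (X a) := by
  refine ⟨hf.sm.comp hX.pio_sm hX.bij.mapsTo, fun l hl x hx => ?_⟩
  have : X (l • x) = l • X x := by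
    ext i
    have := (hX.hm i).hom l hl x hx
    simpa using this
  rw [this, hf.hom l hl _ (hX.pio_ne hx)]

theorem Dif.pio_jac {X : E → E} (hX : Dif M X) {a : E} (ha : a ≠ 0) (i j : Fin 3) :
    fderiv ℝ X a (e j) i = jac X a i j := by
  have h := ((EuclideanSpace.proj i : E →L[ℝ] ℝ).hasFDerivAt.comp a
    (hX.pio_da ha).hasFDerivAt).fderiv
  have h2 : jac X a i j = fderiv ℝ ((EuclideanSpace.proj i : E →L[ℝ] ℝ) ∘ X) a (e j) := rfl
  rw [h2, h]
  rfl

theorem Dif.chain {X : E → E} (hX : Dif M X) (hf : Hm d f) (j : Fin 3) {a : E} (ha : a ≠ 0) :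
    pd j (fun b => f (X b)) a = ∑ i, pd i f (X a) * jac X a i j := by
  have h := ((hf.da (hX.pio_ne ha)).hasFDerivAt.comp a (hX.pio_da ha).hasFDerivAt).fderiv
  have h2 : pd j (fun b => f (X b)) a = fderiv ℝ (f ∘ X) a (e j) := rfl
  rw [h2, h, ContinuousLinearMap.comp_apply, fderiv_eq_sum]
  exact Finset.sum_congr rfl fun i _ => by rw [hX.pio_jac ha, mul_comm]

theorem pio_minor {p q r s : E → ℝ} (hp : Hm 0 p) (hq : Hm 0 q) (hr : Hm 0 r) (hs : Hm 0 s)
    (k : Fin 3) {a : E} (ha : a ≠ 0) :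
    pd k (fun b => p b * q b - r b * s b) a =
      pd k p a * q a + p a * pd k q a - (pd k r a * s a + r a * pd k s a) := by
  rw [← pd_mul hp hq k ha, ← pd_mul hr hs k ha]
  have h := (((hp.mul hq).da ha).hasFDerivAt.sub ((hr.mul hs).da ha).hasFDerivAt).fderiv
  have h2 : pd k (fun b => p b * q b - r b * s b) a =
      fderiv ℝ ((fun b => p b * q b) - fun b => r b * s b) a (e k) := rfl
  rw [h2, h]
  rfl

theorem pio_adj (F : Matrix (Fin 3) (Fin 3) ℝ) (j i : Fin 3) :
    F.adjugate j i = F (i + 1) (j + 1) * F (i + 2) (j + 2) - F (i + 1) (j + 2) * F (i + 2) (j + 1) := by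
  rw [Matrix.adjugate_fin_three]
  fin_cases i <;> fin_cases j <;> simp <;> ring

theorem Dif.adj_hm {X : E → E} (hX : Dif M X) (j i : Fin 3) :
    Hm 0 fun a => (jac X a).adjugate j i := by
  simp only [pio_adj]
  exact (((hX.jac_hm _ _).mul (hX.jac_hm _ _)).sub ((hX.jac_hm _ _).mul (hX.jac_hm _ _))).cast
    (by norm_num)

theorem Dif.div_adj {X : E → E} (hX : Dif M X) (i : Fin 3) {a : E} (ha : a ≠ 0) :
    ∑ j, pd j (fun b => (jac X b).adjugate j i) a = 0 := by
  have s : ∀ m k j, pd k (fun b => jac X b m j) a = pd j (fun b => jac X b m k) a :=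
    fun m k j => pd_comm (hX.hm m) k j ha
  simp only [pio_adj, pio_minor (hX.jac_hm _ _) (hX.jac_hm _ _) (hX.jac_hm _ _) (hX.jac_hm _ _) _ ha,
    Fin.sum_univ_three]
  have e1 : (0 : Fin 3) + 1 = 1 := rfl
  have e2 : (0 : Fin 3) + 2 = 2 := rfl
  have e3 : (1 : Fin 3) + 1 = 2 := rfl
  have e4 : (1 : Fin 3) + 2 = 0 := rfl
  have e5 : (2 : Fin 3) + 1 = 0 := rfl
  have e6 : (2 : Fin 3) + 2 = 1 := rfl
  rw [e1, e2, e3, e4, e5, e6, s (i + 1) 1 0, s (i + 1) 2 0, s (i + 1) 2 1, s (i + 2) 1 0,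
    s (i + 2) 2 0, s (i + 2) 2 1]
  ring

theorem Dif.piola {X : E → E} (hX : Dif M X) {V : Fin 3 → E → ℝ} (hV : ∀ i, Hm d (V i)) {a : E}
    (ha : a ≠ 0) : ∑ j, pd j (fun b => ∑ i, (jac X b).adjugate j i * V i (X b)) a =
      (jac X a).det * ∑ i, pd i (V i) (X a) := by
  have h1 : ∀ j, pd j (fun b => ∑ i, (jac X b).adjugate j i * V i (X b)) a =
      ∑ i, (pd j (fun b => (jac X b).adjugate j i) a * V i (X a) +
        ∑ k, pd k (V i) (X a) * (jac X a k j * (jac X a).adjugate j i)) := fun j => by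
    rw [pd_sum Finset.univ (F := fun i b => (jac X b).adjugate j i * V i (X b))
      (fun i _ => (hX.adj_hm j i).mul (hX.comp (hV i))) j ha]
    refine Finset.sum_congr rfl fun i _ => ?_
    rw [pd_mul (hX.adj_hm j i) (hX.comp (hV i)) j ha, hX.chain (hV i) j ha, Finset.mul_sum]
    congr 1
    exact Finset.sum_congr rfl fun k _ => by ring
  simp only [h1]
  rw [Finset.sum_comm, Finset.mul_sum]
  refine Finset.sum_congr rfl fun i _ => ?_
  rw [Finset.sum_add_distrib, ← Finset.sum_mul, hX.div_adj i ha, zero_mul, zero_add,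
    Finset.sum_comm]
  have h2 : ∀ k, ∑ j, pd k (V i) (X a) * (jac X a k j * (jac X a).adjugate j i) =
      if k = i then (jac X a).det * pd i (V i) (X a) else 0 := fun k => by
    rw [← Finset.mul_sum, ← Matrix.mul_apply, Matrix.mul_adjugate, Matrix.smul_apply,
      Matrix.one_apply]
    split_ifs with h
    · rw [h, smul_eq_mul]; ring
    · simp
  simp only [h2]
  simp

theorem pio_app (O : E ≃ₗᵢ[ℝ] E) (y : E) (i : Fin 3) : O y i = ∑ j, O (e j) i * y j := by
  have : y = ∑ j, y j • e j := by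
    ext k
    simp [e, Fin.sum_univ_three]
    fin_cases k <;> simp
  conv_lhs => rw [this]
  simp [map_sum, mul_comm]

theorem pio_orth (O : E ≃ₗᵢ[ℝ] E) :
    (Matrix.of fun i j => O (e j) i : Matrix (Fin 3) (Fin 3) ℝ).transpose *
      (Matrix.of fun i j => O (e j) i) = 1 := by
  ext i j
  have := O.inner_map_map (e j) (e i)
  rw [PiLp.inner_apply] at this
  simp only [Matrix.mul_apply, Matrix.transpose_apply, Matrix.of_apply, Matrix.one_apply]
  simp only [RCLike.inner_apply, conj_trivial] at this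
  rw [this]
  simp [e, EuclideanSpace.inner_single_left, eq_comm]

theorem Dif.jac_eqv {X : E → E} (hX : Dif M X) {O : E ≃ₗᵢ[ℝ] E} (hO : O ∈ M) {a : E} (ha : a ≠ 0) :
    jac X (O a) = (Matrix.of fun i j => O (e j) i) * jac X a * (Matrix.of fun i j => O (e j) i).transpose := by
  have hOa : O a ≠ 0 := by simpa using ha
  have h1 : jac X (O a) * (Matrix.of fun i j => O (e j) i) =
      (Matrix.of fun i j => O (e j) i) * jac X a := by
    ext i k
    have c1 := (((hX.hm i).da hOa).hasFDerivAt.comp a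
      O.toContinuousLinearEquiv.toContinuousLinearMap.hasFDerivAt).fderiv
    have c2 : pd k (fun b => X (O b) i) a = fderiv ℝ (fun b => X b i) (O a) (O (e k)) :=
      congrArg (fun L : E →L[ℝ] ℝ => L (e k)) c1
    have c3 : pd k (fun b => X (O b) i) a = pd k (fun b => ∑ j, O (e j) i * X b j) a :=
      pd_congr (fun y hy => by rw [hX.eqv O hO y hy, pio_app]) k ha
    rw [pd_sum Finset.univ (F := fun j b => O (e j) i * X b j)
      (fun j _ => (hX.hm j).cmul _) k ha, c2, fderiv_eq_sum] at c3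
    simp only [Matrix.mul_apply, Matrix.of_apply]
    refine (Finset.sum_congr rfl fun j _ => mul_comm _ _).trans (c3.trans ?_)
    refine Finset.sum_congr rfl fun j _ => ?_
    rw [pd_mul (Hm.const _) (hX.hm j) k ha]
    simp [pd, jac]
  rw [← h1, Matrix.mul_assoc, mul_eq_one_comm.1 (pio_orth O), Matrix.mul_one]

theorem pio_ah {Q : Matrix (Fin 3) (Fin 3) ℝ} (hQ : Q.transpose * Q = 1)
    (F : Matrix (Fin 3) (Fin 3) ℝ) : ah (Q * F * Q.transpose) * Q = Q * ah F := by
  have hQ' : Q * Q.transpose = 1 := mul_eq_one_comm.1 hQ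
  have hd : Q.det * Q.det = 1 := by
    have := congrArg Matrix.det hQ
    rwa [Matrix.det_mul, Matrix.det_transpose, Matrix.det_one] at this
  have a1 : Q.adjugate = Q.det • Q.transpose := by
    rw [← Matrix.mul_one Q.adjugate, ← hQ', ← Matrix.mul_assoc, Matrix.adjugate_mul,
      Matrix.smul_mul, Matrix.one_mul]
  have a2 : (Q * F * Q.transpose).adjugate = Q * F.adjugate * Q.transpose := by
    rw [Matrix.adjugate_mul_distrib, Matrix.adjugate_mul_distrib, ← Matrix.adjugate_transpose, a1,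
      Matrix.transpose_smul, Matrix.transpose_transpose, Matrix.smul_mul, Matrix.mul_smul,
      Matrix.mul_smul, smul_smul, hd, one_smul, Matrix.mul_assoc]
  have a3 : (Q * F * Q.transpose).det = F.det := by
    rw [Matrix.det_mul, Matrix.det_mul, Matrix.det_transpose, mul_right_comm, hd, one_mul]
  rw [ah, ah, a2, a3, Matrix.smul_mul, Matrix.mul_smul]
  congr 1
  simp only [Matrix.transpose_mul, Matrix.transpose_transpose, Matrix.mul_assoc]
  rw [hQ, Matrix.mul_one, ← Matrix.mul_assoc Q.transpose, hQ, Matrix.one_mul]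

theorem Dif.ah_eqv {X : E → E} (hX : Dif M X) {V : Fin 3 → E → ℝ} (hV : Eqv M V) :
    Eqv M fun i a => ∑ j, ah (jac X a) i j * V j a := by
  intro O hO x hx
  ext i
  have hv : ∀ j, V j (O x) = ∑ k, O (e k) j * V k x := fun j => by
    have := congrArg (fun y : E => y j) (hV O hO x hx)
    simp only [pio_app O (vec V x)] at this
    exact this
  have h := congrFun (congrArg (fun A => A.mulVec fun k => V k x)
    (pio_ah (pio_orth O) (jac X x))) i
  simp only [← Matrix.mulVec_mulVec] at h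
  rw [← hX.jac_eqv hO hx] at h
  rw [pio_app]
  simp only [vec, hv]
  exact h

end Pool.Agent.Lib.MP_fbbbeb_an.B
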