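import Pool.Agent.Lib.MP_fbbbeb_an.B.Kit2
import Pool.Agent.Lib.MP_fbbbeb_an.B.Chg
import Pool.Agent.Lib.MP_fbbbeb_an.B.Piola
import Pool.Agent.Lib.MP_fbbbeb_an.B.InvMap
import Pool.Agent.Lib.MP_fbbbeb_an.B.L2

/-! Section B, S6d: ellipticity of `ah` and the level zero estimate. -/

set_option autoImplicit false

namespace Pool.Agent.Lib.MP_fbbbeb_an.B

open scoped ContDiff RealInnerProductSpace Nat
open Set Pub MeasureTheory

namespace L0

variable {M : Set (E ≃ₗᵢ[ℝ] E)} {d : ℤ} {f g : E → ℝ}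

theorem mv_sq (A : Fin 3 → Fin 3 → ℝ) {k : ℝ} (h : ∀ i j, |A i j| ≤ k) (v : Fin 3 → ℝ) :
    ∑ i, (∑ j, A i j * v j) ^ 2 ≤ 9 * k ^ 2 * ∑ j, v j ^ 2 := by
  have hv : 0 ≤ ∑ j, v j ^ 2 := Finset.sum_nonneg fun j _ => sq_nonneg _
  have h1 : ∀ i, (∑ j, A i j * v j) ^ 2 ≤ 3 * k ^ 2 * ∑ j, v j ^ 2 := fun i => by
    refine (Finset.sum_mul_sq_le_sq_mul_sq _ _ _).trans (mul_le_mul_of_nonneg_right ?_ hv)
    have h2 : ∀ j, A i j ^ 2 ≤ k ^ 2 := fun j => sq_le_sq' (abs_le.1 (h i j)).1 (abs_le.1 (h i j)).2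
    rw [Fin.sum_univ_three]
    linarith [h2 0, h2 1, h2 2]
  rw [Fin.sum_univ_three]
  linarith [h1 0, h1 1, h1 2]

theorem adj_mul (F : Matrix (Fin 3) (Fin 3) ℝ) (v : Fin 3 → ℝ) (j : Fin 3) :
    ∑ i, F.adjugate j i * ∑ k, F i k * v k = F.det * v j := by
  have h := congrFun (Matrix.mulVec_mulVec v F.adjugate F) j
  rw [Matrix.adjugate_mul, Matrix.smul_mulVec, Matrix.one_mulVec] at h
  simpa [Matrix.mulVec, dotProduct] using h

theorem adj_mul' (F : Matrix (Fin 3) (Fin 3) ℝ) (v : Fin 3 → ℝ) (j : Fin 3) :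
    ∑ k, F k j * ∑ i, F.adjugate i k * v i = F.det * v j := by
  have h := congrFun (Matrix.mulVec_mulVec v F.transpose F.adjugate.transpose) j
  rw [← Matrix.transpose_mul, Matrix.adjugate_mul, Matrix.transpose_smul, Matrix.transpose_one,
    Matrix.smul_mulVec, Matrix.one_mulVec] at h
  simpa [Matrix.mulVec, dotProduct] using h

theorem mul_adj' (F : Matrix (Fin 3) (Fin 3) ℝ) (v : Fin 3 → ℝ) (i : Fin 3) :
    ∑ k, F.adjugate k i * ∑ l, v l * F l k = F.det * v i := by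
  have h := congrFun (Matrix.mulVec_mulVec v F.adjugate.transpose F.transpose) i
  rw [← Matrix.transpose_mul, Matrix.mul_adjugate, Matrix.transpose_smul, Matrix.transpose_one,
    Matrix.smul_mulVec, Matrix.one_mulVec] at h
  simpa [Matrix.mulVec, dotProduct, mul_comm] using h

theorem ah_mv (F : Matrix (Fin 3) (Fin 3) ℝ) (v : Fin 3 → ℝ) (j : Fin 3) :
    ∑ k, ah F j k * v k = F.det⁻¹ * ∑ i, F.adjugate j i * ∑ k, F.adjugate k i * v k := by
  simp only [ah, Matrix.smul_apply, Matrix.mul_apply, Matrix.transpose_apply, smul_eq_mul,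
    Fin.sum_univ_three]
  ring

theorem adj_le {F : Matrix (Fin 3) (Fin 3) ℝ} {K : ℝ} (hF : ∀ i j, |F i j| ≤ K) (j i : Fin 3) :
    |F.adjugate j i| ≤ 2 * K ^ 2 := by
  have h : ∀ a b c e, |F a b * F c e| ≤ K ^ 2 := fun a b c e => by
    rw [abs_mul, sq]
    exact mul_le_mul (hF a b) (hF c e) (abs_nonneg _) ((abs_nonneg _).trans (hF a b))
  rw [pio_adj]
  refine (abs_sub _ _).trans ?_
  linarith [h (i + 1) (j + 1) (i + 2) (j + 2), h (i + 1) (j + 2) (i + 2) (j + 1)]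

theorem det_eq (F : Matrix (Fin 3) (Fin 3) ℝ) : F.det = ∑ i, F.adjugate 0 i * F i 0 := by
  have h := congrFun (congrFun (Matrix.adjugate_mul F) 0) 0
  simpa [Matrix.mul_apply] using h.symm

theorem det_le {F : Matrix (Fin 3) (Fin 3) ℝ} {K : ℝ} (hF : ∀ i j, |F i j| ≤ K) :
    F.det ≤ 6 * K ^ 3 := by
  have h : ∀ i, F.adjugate 0 i * F i 0 ≤ 2 * K ^ 2 * K := fun i => by
    refine (le_abs_self _).trans ?_
    rw [abs_mul]
    exact mul_le_mul (adj_le hF 0 i) (hF i 0) (abs_nonneg _) (by positivity)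
  rw [det_eq, Fin.sum_univ_three]
  linarith [h 0, h 1, h 2]

theorem comp_hm {Z : E → E} (hZ : ∀ i, Hm 1 fun a => Z a i) (h0 : ∀ a : E, a ≠ 0 → Z a ≠ 0)
    (hf : Hm d f) : Hm d fun a => f (Z a) := by
  have hs : ContDiffOn ℝ ∞ Z {0}ᶜ := contDiffOn_euclidean.2 fun i => (hZ i).sm
  refine ⟨hf.sm.comp hs fun a ha => h0 a ha, fun l hl x hx => ?_⟩
  have : Z (l • x) = l • Z x := by
    ext i
    have := (hZ i).hom l hl x hx
    simpa using this
  rw [this, hf.hom l hl _ (h0 x hx)]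

theorem det_hm {X : E → E} (hX : Dif M X) : Hm 0 fun a => (jac X a).det := by
  simp only [det_eq]
  exact (Hm.sum _ fun i _ => (hX.adj_hm 0 i).mul (hX.jac_hm i 0)).cast (by norm_num)

theorem ne0 {a : E} (ha : ‖a‖ = 1) : a ≠ 0 := by
  rintro rfl
  simp at ha

/-- the weight of the change of variables for functions of degree one -/
theorem wt {X : E → E} (hX : Dif M X) {K : ℝ} (hK : 2 ≤ K) {a : E} (ha : ‖a‖ = 1)
    (hF : ∀ i j, |jac X a i j| ≤ K) (hJ : (jac X a).det⁻¹ ≤ K) :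
    1 ≤ (K ^ 8) ^ 2 * (‖X a‖ ^ (-5 : ℤ) * (jac X a).det) ∧
      ‖X a‖ ^ (-5 : ℤ) * (jac X a).det ≤ (K ^ 18) ^ 2 := by
  have h0 := hX.pos a (ne0 ha)
  have hn : 0 < ‖X a‖ := norm_pos_iff.2 (hX.pio_ne (ne0 ha))
  have hK0 : 0 < K := by linarith
  have hx : ∀ i, X a i = ∑ j, jac X a i j * a j := fun i => by
    have := (hX.hm i).euler (ne0 ha)
    simp only [Int.cast_one, one_mul] at this
    rw [← this]
    exact Finset.sum_congr rfl fun j _ => mul_comm _ _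
  have ea : ∑ j, a j ^ 2 = 1 := by rw [← EuclideanSpace.real_norm_sq_eq, ha, one_pow]
  have hKJ : 1 ≤ K * (jac X a).det := by
    have := mul_le_mul_of_nonneg_right hJ h0.le
    rwa [inv_mul_cancel₀ h0.ne'] at this
  have k2 : 4 ≤ K ^ 2 := by nlinarith
  have k3 : 8 ≤ K ^ 3 := by nlinarith
  have u1 : ‖X a‖ ≤ K ^ 3 := by
    have h1 := mv_sq (fun i j => jac X a i j) hF fun j => a j
    simp only [← hx] at h1
    rw [ea, ← EuclideanSpace.real_norm_sq_eq] at h1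
    have h2 : ‖X a‖ ≤ 3 * K := by
      refine (sq_le_sq₀ hn.le (by positivity)).1 ?_
      linarith
    nlinarith
  have u2 : 1 ≤ K ^ 6 * ‖X a‖ := by
    have h1 := mv_sq (fun j i => (jac X a).adjugate j i) (adj_le hF) fun i => X a i
    have h2 : ∀ j, ∑ i, (jac X a).adjugate j i * X a i = (jac X a).det * a j := fun j => by
      simp only [hx]
      exact adj_mul _ (fun j => a j) j
    simp only [h2, mul_pow] at h1
    rw [← Finset.mul_sum, ea, ← EuclideanSpace.real_norm_sq_eq] at h1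
    have h3 : (jac X a).det ≤ 6 * K ^ 2 * ‖X a‖ := by
      refine (sq_le_sq₀ h0.le (by positivity)).1 ?_
      linarith
    have h4 : K * (jac X a).det ≤ K * (6 * K ^ 2 * ‖X a‖) := mul_le_mul_of_nonneg_left h3 hK0.le
    have h5 : 6 * (K ^ 3 * ‖X a‖) ≤ K ^ 3 * (K ^ 3 * ‖X a‖) :=
      mul_le_mul_of_nonneg_right (by linarith) (by positivity)
    linarith
  have u3 : (jac X a).det ≤ K ^ 6 := by
    have h5 : 6 * K ^ 3 ≤ K ^ 3 * K ^ 3 := mul_le_mul_of_nonneg_right (by linarith) (by positivity)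
    linarith [det_le hF]
  have ez : ‖X a‖ ^ (-5 : ℤ) = (‖X a‖ ^ 5)⁻¹ := by rw [zpow_neg]; norm_cast
  have p5 : 0 < ‖X a‖ ^ 5 := by positivity
  rw [ez]
  constructor
  · have h1 : ‖X a‖ ^ 5 ≤ (K ^ 3) ^ 5 := pow_le_pow_left₀ hn.le u1 5
    have h2 : (K ^ 3) ^ 5 * 1 ≤ (K ^ 3) ^ 5 * (K * (jac X a).det) :=
      mul_le_mul_of_nonneg_left hKJ (by positivity)
    have h3 : (K ^ 8) ^ 2 * ((‖X a‖ ^ 5)⁻¹ * (jac X a).det) =
        (K ^ 3) ^ 5 * (K * (jac X a).det) / ‖X a‖ ^ 5 := by ring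
    rw [h3, le_div_iff₀ p5]
    linarith
  · have h1 : 1 ≤ (K ^ 6 * ‖X a‖) ^ 5 := one_le_pow₀ u2
    have h2 : K ^ 6 * 1 ≤ K ^ 6 * (K ^ 6 * ‖X a‖) ^ 5 := mul_le_mul_of_nonneg_left h1 (by positivity)
    rw [inv_mul_le_iff₀ p5]
    have h3 : ‖X a‖ ^ 5 * (K ^ 18) ^ 2 = K ^ 6 * (K ^ 6 * ‖X a‖) ^ 5 := by ring
    linarith

/-- transport of the norm -/
theorem tr {X : E → E} (hX : Dif M X) {K : ℝ} (hK : 2 ≤ K)
    (hb : ∀ a : E, ‖a‖ = 1 → (∀ i j, |jac X a i j| ≤ K) ∧ (jac X a).det⁻¹ ≤ K) (hg : Hm 1 g) :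
    n2 (fun a => g (X a)) ≤ K ^ 8 * n2 g ∧ n2 g ≤ K ^ 18 * n2 fun a => g (X a) := by
  have hK0 : 0 < K := by linarith
  have hf : Hm (-3) fun y => ‖y‖ ^ (-5 : ℤ) * (g y * g y) :=
    ((Hm.normz (-5)).mul (hg.mul hg)).cast (by norm_num)
  have e1 : sph (fun a => ‖X a‖ ^ (-5 : ℤ) * (g (X a) * g (X a)) * (jac X a).det) = n2 g ^ 2 := by
    rw [sph_dif hX hf, n2_sq]
    exact sph_congr fun y hy => by rw [hy, one_zpow, one_mul, sq]
  have c1 : Cn fun a => ‖X a‖ ^ (-5 : ℤ) * (g (X a) * g (X a)) * (jac X a).det :=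
    ((hX.comp hf).mul (det_hm hX)).cn
  have c2 : Cn fun a => g (X a) ^ 2 := by
    simp only [sq]
    exact ((hX.comp hg).mul (hX.comp hg)).cn
  constructor
  · refine (sq_le_sq₀ (n2_nonneg _) (mul_nonneg (by positivity) (n2_nonneg _))).1 ?_
    rw [mul_pow, ← e1, ← sph_cmul, n2_sq]
    refine sph_mono c2 ((Cn.const _).mul c1) fun y hy => ?_
    have := mul_le_mul_of_nonneg_right (wt hX hK hy (hb y hy).1 (hb y hy).2).1 (sq_nonneg (g (X y)))
    linarith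
  · refine (sq_le_sq₀ (n2_nonneg _) (mul_nonneg (by positivity) (n2_nonneg _))).1 ?_
    rw [mul_pow, ← e1, n2_sq, ← sph_cmul]
    refine sph_mono c1 ((Cn.const _).mul c2) fun y hy => ?_
    have := mul_le_mul_of_nonneg_right (wt hX hK hy (hb y hy).1 (hb y hy).2).2 (sq_nonneg (g (X y)))
    linarith

end L0

theorem ah_pos {F : Matrix (Fin 3) (Fin 3) ℝ} {K : ℝ} (hK : 1 ≤ K) (hF : ∀ i j, |F i j| ≤ K)
    (h0 : 0 < F.det) (hJ : F.det⁻¹ ≤ K) (ξ : Fin 3 → ℝ) :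
    ∑ i, ξ i ^ 2 ≤ 9 * K ^ 3 * ∑ i, ∑ j, ah F i j * ξ i * ξ j := by
  have hK0 : 0 < K := by linarith
  have h1 := L0.mv_sq (fun j k => F k j) (fun j k => hF k j) fun k => ∑ i, F.adjugate i k * ξ i
  simp only [L0.adj_mul', mul_pow] at h1
  rw [← Finset.mul_sum] at h1
  have h2 : ∑ i, ∑ j, ah F i j * ξ i * ξ j = F.det⁻¹ * ∑ k, (∑ i, F.adjugate i k * ξ i) ^ 2 := by
    simp only [ah, Matrix.smul_apply, Matrix.mul_apply, Matrix.transpose_apply, smul_eq_mul,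
      Fin.sum_univ_three]
    ring
  rw [h2]
  have hη : 0 ≤ ∑ k, (∑ i, F.adjugate i k * ξ i) ^ 2 := Finset.sum_nonneg fun j _ => sq_nonneg _
  generalize ∑ k, (∑ i, F.adjugate i k * ξ i) ^ 2 = η at h1 hη
  have hi : 0 < F.det⁻¹ := inv_pos.2 h0
  have h3 := mul_le_mul_of_nonneg_left h1 (mul_pos hi hi).le
  have h4 : F.det⁻¹ * F.det⁻¹ * (F.det ^ 2 * ∑ i, ξ i ^ 2) = ∑ i, ξ i ^ 2 := by
    field_simp
  have h5 : F.det⁻¹ * (9 * K ^ 2 * (F.det⁻¹ * η)) ≤ K * (9 * K ^ 2 * (F.det⁻¹ * η)) :=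
    mul_le_mul_of_nonneg_right hJ (by positivity)
  linarith

theorem lev0 : ∃ C : ℕ, ∀ M : Set (E ≃ₗᵢ[ℝ] E), Sym M → ∀ (X : E → E) (K : ℝ), 2 ≤ K → Dif M X →
    (∀ a : E, ‖a‖ = 1 → (∀ i j, |jac X a i j| ≤ K) ∧ (jac X a).det⁻¹ ≤ K) →
      Lev0 M (fun i j a => ah (jac X a) i j) (K ^ C) := by
  obtain ⟨C0, hC0, hl⟩ := l2_flat
  obtain ⟨m, hm⟩ := pow_unbounded_of_one_lt (9 * C0) (one_lt_two : (1 : ℝ) < 2)
  refine ⟨29 + m, fun M hM X K hK hX hb s H hs hi hH he j => ?_⟩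
  have hK0 : 0 < K := by linarith
  obtain ⟨Xi, x1, x2⟩ := hX.inv
  have x0 : ∀ a : E, a ≠ 0 → Xi a ≠ 0 := fun a ha => (x2 a ha).1
  have hJ : Hm 0 fun a => (jac X a).det⁻¹ :=
    ((L0.det_hm hX).inv fun a ha => (hX.pos a ha).ne').cast (by norm_num)
  obtain ⟨p, hp⟩ : ∃ p : E → ℝ, p = fun x => s (Xi x) := ⟨_, rfl⟩
  obtain ⟨Q, hQ⟩ : ∃ Q : Fin 3 → E → ℝ,
    Q = fun i a => ∑ k, (jac X a).det⁻¹ * jac X a i k * H k a := ⟨_, rfl⟩
  obtain ⟨R, hR⟩ : ∃ R : Fin 3 → E → ℝ, R = fun i x => Q i (Xi x) := ⟨_, rfl⟩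
  have p2 : Hm 2 p := hp ▸ L0.comp_hm x1 x0 hs
  have pi : IsInv M p := fun O hO x hx => by
    simp only [hp]
    rw [(x2 x hx).2.2.2 O hO, hi O hO _ (x0 x hx)]
  have p1 : ∀ i, Hm 1 (pd i p) := fun i => (p2.pd i).cast (by norm_num)
  have q0 : ∀ i k, Hm 0 fun a => (jac X a).det⁻¹ * jac X a i k := fun i k =>
    (hJ.mul (hX.jac_hm i k)).cast (by norm_num)
  have Q1 : ∀ i, Hm 1 (Q i) := fun i => by
    rw [hQ]
    exact Hm.sum _ fun k _ => ((q0 i k).mul (hH k)).cast (by norm_num)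
  have R1 : ∀ i, Hm 1 (R i) := fun i => hR ▸ L0.comp_hm x1 x0 (Q1 i)
  have RX : ∀ i (a : E), a ≠ 0 → R i (X a) = Q i a := fun i a ha => by
    simp only [hR]
    rw [(x2 a ha).2.2.1]
  have ds : ∀ k (a : E), a ≠ 0 → pd k s a = ∑ l, pd l p (X a) * jac X a l k := fun k a ha => by
    rw [← hX.chain p2 k ha]
    refine pd_congr (fun y hy => ?_) k ha
    simp only [hp]
    rw [(x2 y hy).2.2.1]
  have key : ∀ k (b : E), b ≠ 0 → ∑ i, (jac X b).adjugate k i * (pd i p (X b) + R i (X b)) =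
      ∑ l, ah (jac X b) k l * pd l s b + H k b := fun k b hb0 => by
    have hd := (hX.pos b hb0).ne'
    have a1 : ∑ l, ah (jac X b) k l * pd l s b = ∑ i, (jac X b).adjugate k i * pd i p (X b) := by
      rw [L0.ah_mv]
      simp only [ds _ b hb0, L0.mul_adj' (jac X b) fun l => pd l p (X b)]
      rw [Finset.mul_sum]
      exact Finset.sum_congr rfl fun i _ => by field_simp
    have a2 : ∑ i, (jac X b).adjugate k i * R i (X b) = H k b := by
      have a3 := L0.adj_mul (jac X b) (fun l => (jac X b).det⁻¹ * H l b) k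
      rw [← mul_assoc, mul_inv_cancel₀ hd, one_mul] at a3
      rw [← a3]
      refine Finset.sum_congr rfl fun i _ => ?_
      rw [RX i b hb0, hQ]
      congr 1
      exact Finset.sum_congr rfl fun l _ => by ring
    simp only [mul_add]
    rw [Finset.sum_add_distrib, a1, a2]
  have flat : ∀ x : E, x ≠ 0 → lap p x + ∑ i, pd i (R i) x = 0 := fun x hx => by
    have b1 := hX.piola (V := fun i y => pd i p y + R i y) (fun i => (p1 i).add (R1 i)) (x0 x hx)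
    have b2 := he (Xi x) (x0 x hx)
    have b3 : ∀ k, pd k (fun b => ∑ i, (jac X b).adjugate k i * (pd i p (X b) + R i (X b))) (Xi x) =
        pd k (fun y => ∑ l, ah (jac X y) k l * pd l s y + H k y) (Xi x) := fun k =>
      pd_congr (key k) k (x0 x hx)
    simp only [b3] at b1
    rw [b2, (x2 x hx).2.1] at b1
    have b4 := (mul_eq_zero.1 b1.symm).resolve_left (hX.pos _ (x0 x hx)).ne'
    simp only [pd_add (p1 _) (R1 _) _ hx] at b4
    rw [Finset.sum_add_distrib] at b4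
    exact b4
  have l2 := hl M hM p R p2 pi R1 flat
  have S0 : 0 ≤ ∑ k, n2 (H k) := Finset.sum_nonneg fun k _ => n2_nonneg _
  have r1 : ∀ i, n2 (R i) ≤ K ^ 20 * ∑ k, n2 (H k) := fun i => by
    have c1 : n2 (fun a => R i (X a)) ≤ K ^ 2 * ∑ k, n2 (H k) := by
      rw [n2_congr (g := Q i) fun y hy => RX i y (L0.ne0 hy), hQ, Finset.mul_sum]
      refine (n2_sum _ fun k _ => ((q0 i k).mul (hH k)).cn).trans (Finset.sum_le_sum fun k _ => ?_)
      refine n2_mul_le (q0 i k).cn (hH k).cn fun y hy => ?_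
      rw [abs_mul, sq, abs_of_pos (inv_pos.2 (hX.pos y (L0.ne0 hy)))]
      exact mul_le_mul (hb y hy).2 ((hb y hy).1 i k) (abs_nonneg _) hK0.le
    have c2 := mul_le_mul_of_nonneg_left c1 (by positivity : 0 ≤ K ^ 18)
    linarith [(L0.tr hX hK hb (R1 i)).2]
  have r2 : ∀ l, n2 (pd l p) ≤ C0 * (3 * (K ^ 20 * ∑ k, n2 (H k))) := fun l => by
    refine (l2 l).trans (mul_le_mul_of_nonneg_left ?_ hC0)
    rw [Fin.sum_univ_three]
    linarith [r1 0, r1 1, r1 2]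
  have r3 : ∀ l, n2 (fun a => jac X a l j * pd l p (X a)) ≤
      K * (K ^ 8 * (C0 * (3 * (K ^ 20 * ∑ k, n2 (H k))))) := fun l => by
    refine (n2_mul_le (hX.jac_hm l j).cn (hX.comp (p1 l)).cn fun y hy => (hb y hy).1 l j).trans ?_
    refine mul_le_mul_of_nonneg_left ((L0.tr hX hK hb (p1 l)).1.trans ?_) hK0.le
    exact mul_le_mul_of_nonneg_left (r2 l) (by positivity)
  have r4 : n2 (pd j s) ≤ ∑ l, n2 fun a => jac X a l j * pd l p (X a) := by
    rw [n2_congr (g := fun a => ∑ l, jac X a l j * pd l p (X a)) fun y hy => by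
      rw [ds j y (L0.ne0 hy)]
      exact Finset.sum_congr rfl fun l _ => mul_comm _ _]
    exact n2_sum _ fun l _ => ((hX.jac_hm l j).mul (hX.comp (p1 l))).cn
  have r5 : 9 * C0 ≤ K ^ m := hm.le.trans (pow_le_pow_left₀ (by norm_num) hK m)
  have r6 := mul_le_mul_of_nonneg_right r5 (by positivity : 0 ≤ K ^ 29 * ∑ k, n2 (H k))
  rw [Fin.sum_univ_three] at r4
  rw [pow_add]
  linarith [r3 0, r3 1, r3 2]

end Pool.Agent.Lib.MP_fbbbeb_an.B
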