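import Pool.Agent.Lib.MP_fbbbeb_an.B.KitT

/-! Section B, S11: the primitive in time. -/

set_option autoImplicit false

namespace Pool.Agent.Lib.MP_fbbbeb_an.B

open scoped ContDiff RealInnerProductSpace Nat Topology
open Set Pub MeasureTheory Filter

variable {d : ℤ} {T m : ℝ} {r : L → ℝ} {w : ℝ → ℝ} {F : Y → ℝ}

/-- all derivatives are bounded on the sphere, uniformly in time up to any `t < T` -/
def Bd (T : ℝ) (F : Y → ℝ) : Prop :=
  ∀ (u : List L), ∀ t ∈ Ioo 0 T, ∃ b : ℝ, ∀ s ∈ Ioc 0 t, ∀ a : E, ‖a‖ = 1 → |dw u F (s, a)| ≤ b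

theorem Bd.dd (hb : Bd T F) (i : L) : Bd T (dd i F) := by
  intro u t ht
  have h := hb (u ++ [i]) t ht
  rw [dw_append] at h
  exact h

theorem GS.bd {lam : ℝ} (hr : ∀ i, 0 < r i) (hl : 0 ≤ lam) (hw : Wt T lam w) (h : GS T r w m F) :
    Bd T F := by
  intro u t ht
  refine ⟨|m| * w t * (u.length ! : ℝ) ^ 2 / rad r u, fun s hs a ha => ?_⟩
  have hsT : s ∈ Ioo 0 T := ⟨hs.1, lt_of_le_of_lt hs.2 ht.2⟩
  have hws : w s ≤ w t := by
    rcases hs.2.eq_or_lt with e | hlt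
    · rw [e]
    · refine (hw.2 t ht s ⟨hs.1, hlt⟩).trans ?_
      have h1 : Real.exp (-(lam * (t - s))) ≤ 1 := by
        rw [Real.exp_le_one_iff]
        have := mul_nonneg hl (sub_nonneg.2 hlt.le)
        linarith
      have := mul_le_mul_of_nonneg_right h1 (hw.1 t ht)
      linarith
  rw [le_div_iff₀ (rad_pos hr u)]
  refine (h u s hsT a ha).trans (mul_le_mul_of_nonneg_right ?_ (by positivity))
  exact mul_le_mul (le_abs_self m) hws (hw.1 s hsT) (abs_nonneg m)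

namespace PrimA

/-- coordinates -/
noncomputable def co : L → (Y →L[ℝ] ℝ)
  | none => ContinuousLinearMap.fst ℝ ℝ E
  | some i => (EuclideanSpace.proj i : E →L[ℝ] ℝ).comp (ContinuousLinearMap.snd ℝ ℝ E)

theorem vec_eq (v : Y) : v = ∑ i, co i v • dir i := by
  rw [Fintype.sum_option]
  refine Prod.ext ?_ ?_
  · simp [co, dir, Prod.fst_sum]
  · ext j
    simp [co, dir, e, Fin.sum_univ_three]
    fin_cases j <;> simp

theorem clm_eq (A : Y →L[ℝ] ℝ) : A = ∑ i, A (dir i) • co i := by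
  refine ContinuousLinearMap.ext fun v => ?_
  conv_lhs => rw [vec_eq v]
  simp [map_sum, mul_comm]

theorem co_dir (i j : L) : co i (dir j) = if i = j then 1 else 0 := by
  rcases i with _ | i <;> rcases j with _ | j <;> simp [co, dir, e]

/-- one for the time letter -/
def ex : L → ℕ
  | none => 1
  | some _ => 0

/-- dilation of time -/
noncomputable def sc (σ : ℝ) : Y →L[ℝ] Y :=
  (σ • ContinuousLinearMap.fst ℝ ℝ E).prod (ContinuousLinearMap.snd ℝ ℝ E)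

theorem sc_app (σ : ℝ) (z : Y) : sc σ z = (σ * z.1, z.2) := by simp [sc]

theorem sc_dir (σ : ℝ) (i : L) : sc σ (dir i) = σ ^ ex i • dir i := by
  rcases i with _ | i <;> simp [sc_app, dir, ex]

theorem sc_mem {σ : ℝ} (hσ : σ ∈ Ioo (0 : ℝ) 1) {z : Y} (hz : z ∈ Om T) : sc σ z ∈ Om T := by
  rw [sc_app]
  refine ⟨⟨mul_pos hσ.1 hz.1.1, ?_⟩, hz.2⟩
  have := mul_lt_mul_of_pos_right hσ.2 hz.1.1
  have := hz.1.2
  show σ * z.1 < T
  linarith

/-- the averaged function -/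
noncomputable def av (k : ℕ) (F : Y → ℝ) (z : Y) : ℝ := ∫ σ in Ioo (0 : ℝ) 1, σ ^ k * F (sc σ z)

theorem loc (hF : Ht T d F) (hb : Bd T F) {z : Y} (hz : z ∈ Om T) :
    ∃ b : ℝ, ∀ᶠ y in 𝓝 z, ∀ s ∈ Ioc 0 y.1, |F (s, y.2)| ≤ b := by
  obtain ⟨t, h1, h2⟩ := exists_between hz.1.2
  have ht : t ∈ Ioo 0 T := ⟨hz.1.1.trans h1, h2⟩
  obtain ⟨b, hbb⟩ := hb [] t ht
  have hn : ‖z.2‖ ≠ 0 := norm_ne_zero_iff.2 hz.2
  have hc : ContinuousAt (fun y : Y => ‖y.2‖ ^ d) z :=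
    (continuous_snd.norm.continuousAt).zpow₀ d (Or.inl hn)
  have e1 : ∀ᶠ y : Y in 𝓝 z, ‖y.2‖ ^ d < ‖z.2‖ ^ d + 1 := hc.eventually (gt_mem_nhds (by linarith))
  have e2 : ∀ᶠ y : Y in 𝓝 z, y.1 < t := continuous_fst.continuousAt.eventually (gt_mem_nhds h1)
  have e3 : ∀ᶠ y : Y in 𝓝 z, y ∈ Om T := (isOpen_Om T).mem_nhds hz
  refine ⟨(‖z.2‖ ^ d + 1) * |b|, ?_⟩
  filter_upwards [e1, e2, e3] with y f1 f2 f3 s hs
  have hy : 0 < ‖y.2‖ := norm_pos_iff.2 f3.2
  have hu : ‖‖y.2‖⁻¹ • y.2‖ = 1 := by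
    rw [norm_smul, norm_inv, norm_norm, inv_mul_cancel₀ hy.ne']
  have h0 : ‖y.2‖⁻¹ • y.2 ≠ 0 := by
    intro h; rw [h, norm_zero] at hu; exact zero_ne_one hu
  have h3 := hF.hom s ⟨hs.1, by linarith [hs.2]⟩ _ hy _ h0
  rw [smul_smul, mul_inv_cancel₀ hy.ne', one_smul] at h3
  have h4 : |F (s, ‖y.2‖⁻¹ • y.2)| ≤ |b| := (hbb s ⟨hs.1, by linarith [hs.2]⟩ _ hu).trans (le_abs_self b)
  have h5 : 0 < ‖y.2‖ ^ d := zpow_pos hy d
  rw [h3, abs_mul, abs_of_pos h5]
  exact mul_le_mul f1.le h4 (abs_nonneg _) (by linarith)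

theorem loc' (hF : Ht T d F) (hb : Bd T F) {z : Y} (hz : z ∈ Om T) :
    ∃ b : ℝ, ∀ᶠ y in 𝓝 z, y ∈ Om T ∧ ∀ k : ℕ, ∀ σ ∈ Ioo (0 : ℝ) 1, |σ ^ k * F (sc σ y)| ≤ b := by
  obtain ⟨b, h⟩ := loc hF hb hz
  refine ⟨b, ?_⟩
  filter_upwards [h, (isOpen_Om T).mem_nhds hz] with y f1 f2
  refine ⟨f2, fun k σ hσ => ?_⟩
  have h1 : |F (sc σ y)| ≤ b := by
    rw [sc_app]
    refine f1 _ ⟨mul_pos hσ.1 f2.1.1, ?_⟩
    have := mul_lt_mul_of_pos_right hσ.2 f2.1.1
    linarith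
  have h2 : |σ ^ k| ≤ 1 := by
    rw [abs_of_pos (pow_pos hσ.1 k)]
    exact pow_le_one₀ hσ.1.le hσ.2.le
  rw [abs_mul]
  have := mul_le_mul h2 h1 (abs_nonneg _) zero_le_one
  linarith

theorem meas (hF : Ht T d F) (k : ℕ) {z : Y} (hz : z ∈ Om T) :
    AEStronglyMeasurable (fun σ : ℝ => σ ^ k * F (sc σ z)) (volume.restrict (Ioo (0 : ℝ) 1)) := by
  refine ContinuousOn.aestronglyMeasurable ?_ measurableSet_Ioo
  refine (continuous_pow k).continuousOn.mul ?_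
  refine hF.sm.continuousOn.comp (f := fun σ : ℝ => sc σ z) ?_ fun σ hσ => sc_mem hσ hz
  simp only [sc_app]
  fun_prop

theorem intg (hF : Ht T d F) (hb : Bd T F) (k : ℕ) {z : Y} (hz : z ∈ Om T) :
    Integrable (fun σ : ℝ => σ ^ k * F (sc σ z)) (volume.restrict (Ioo (0 : ℝ) 1)) := by
  obtain ⟨b, h⟩ := loc' hF hb hz
  refine Integrable.of_bound (meas hF k hz) b ?_
  filter_upwards [ae_restrict_mem measurableSet_Ioo] with σ hσ
  exact h.self_of_nhds.2 k σ hσ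

theorem ht_dd (hF : Ht T d F) (i : L) : Ht T (d - na [i]) (dd i F) := hF.dw [i]

theorem av_der (hF : Ht T d F) (hb : Bd T F) (k : ℕ) {z : Y} (hz : z ∈ Om T) :
    HasFDerivAt (av k F) (∑ i, av (k + ex i) (dd i F) z • co i) z := by
  choose b hbb using fun i => loc' (ht_dd hF i) (hb.dd i) hz
  have hall : ∀ᶠ y in 𝓝 z, ∀ i, y ∈ Om T ∧
      ∀ k : ℕ, ∀ σ ∈ Ioo (0 : ℝ) 1, |σ ^ k * dd i F (sc σ y)| ≤ b i := eventually_all.2 hbb
  have key := hasFDerivAt_integral_of_dominated_of_fderiv_le (𝕜 := ℝ)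
    (μ := volume.restrict (Ioo (0 : ℝ) 1)) (F := fun (y : Y) (σ : ℝ) => σ ^ k * F (sc σ y))
    (F' := fun (y : Y) (σ : ℝ) => ∑ i, (σ ^ (k + ex i) * dd i F (sc σ y)) • co i)
    (bound := fun _ => ∑ i, b i * ‖co i‖) (x₀ := z) hall ?_ (intg hF hb k hz) ?_ ?_
    (integrable_const _) ?_
  · rw [integral_finsetSum _ fun i _ => (intg (ht_dd hF i) (hb.dd i) _ hz).smul_const _] at key
    simp only [integral_smul_const] at key
    exact key
  · filter_upwards [(isOpen_Om T).mem_nhds hz] with y hy using meas hF k hy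
  · exact Finset.aestronglyMeasurable_fun_sum _ fun i _ => (meas (ht_dd hF i) _ hz).smul_const _
  · filter_upwards [ae_restrict_mem measurableSet_Ioo] with σ hσ y hy
    refine (norm_sum_le _ _).trans (Finset.sum_le_sum fun i _ => ?_)
    rw [norm_smul]
    exact mul_le_mul_of_nonneg_right ((hy i).2 _ σ hσ) (norm_nonneg _)
  · filter_upwards [ae_restrict_mem measurableSet_Ioo] with σ hσ y hy
    have hm : sc σ y ∈ Om T := sc_mem hσ (hy none).1
    have hd : HasFDerivAt F (fderiv ℝ F (sc σ y)) (sc σ y) :=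
      ((hF.sm.contDiffAt ((isOpen_Om T).mem_nhds hm)).differentiableAt (by simp)).hasFDerivAt
    have h2 := (hd.comp y (sc σ).hasFDerivAt).const_mul (σ ^ k)
    rw [clm_eq (σ ^ k • (fderiv ℝ F (sc σ y)).comp (sc σ))] at h2
    simpa [sc_dir, dd, pow_add, mul_assoc] using h2

theorem av_sm (n : ℕ) : ∀ (k : ℕ) (d : ℤ) (F : Y → ℝ), Ht T d F → Bd T F →
    ContDiffOn ℝ n (av k F) (Om T) := by
  induction n with
  | zero =>
    intro k d F hF hb
    exact contDiffOn_zero.2 fun z hz => (av_der hF hb k hz).continuousAt.continuousWithinAt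
  | succ n ih =>
    intro k d F hF hb
    rw [Nat.cast_succ, contDiffOn_succ_iff_fderiv_of_isOpen (isOpen_Om T)]
    refine ⟨fun z hz => (av_der hF hb k hz).differentiableAt.differentiableWithinAt, by simp, ?_⟩
    refine ContDiffOn.congr (f := fun z => ∑ i, av (k + ex i) (dd i F) z • co i) ?_
      fun z hz => (av_der hF hb k hz).fderiv
    exact ContDiffOn.sum fun i _ => (ih _ _ _ (ht_dd hF i) (hb.dd i)).smul contDiffOn_const

theorem prim_eq (F : Y → ℝ) (z : Y) : prim F z = z.1 * av 0 F z := by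
  have h := intervalIntegral.smul_integral_comp_mul_left (a := 0) (b := 1)
    (fun s => F (s, z.2)) z.1
  rw [mul_zero, mul_one, intervalIntegral.integral_of_le zero_le_one,
    integral_Ioc_eq_integral_Ioo] at h
  simp only [prim, av, sc_app, pow_zero, one_mul, ← h, smul_eq_mul, mul_comm z.1]

end PrimA

open PrimA

theorem Ht.prim (hF : Ht T d F) (hb : Bd T F) : Ht T d (prim F) := by
  refine ⟨?_, fun t ht l hl a ha => ?_⟩
  · have : B.prim F = fun z => z.1 * av 0 F z := funext (prim_eq F)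
    rw [this]
    exact contDiffOn_fst.mul (contDiffOn_infty.2 fun n => av_sm n 0 d F hF hb)
  · simp only [B.prim]
    rw [← intervalIntegral.integral_const_mul]
    refine intervalIntegral.integral_congr_ae (Eventually.of_forall fun s hs => ?_)
    rw [uIoc_of_le ht.1.le] at hs
    exact hF.hom s ⟨hs.1, lt_of_le_of_lt hs.2 ht.2⟩ l hl a ha

theorem prim_int (hF : Ht T d F) (hb : Bd T F) :
    ∀ z ∈ Om T, IntervalIntegrable (fun s => F (s, z.2)) volume 0 z.1 := by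
  intro z hz
  obtain ⟨b, h⟩ := loc hF hb hz
  rw [intervalIntegrable_iff_integrableOn_Ioc_of_le hz.1.1.le]
  refine Integrable.of_bound (ContinuousOn.aestronglyMeasurable ?_ measurableSet_Ioc) b ?_
  · refine hF.sm.continuousOn.comp (f := fun s : ℝ => (s, z.2)) (by fun_prop) fun s hs => ?_
    exact ⟨⟨hs.1, lt_of_le_of_lt hs.2 hz.1.2⟩, hz.2⟩
  · filter_upwards [ae_restrict_mem measurableSet_Ioc] with s hs
    exact h.self_of_nhds s hs

theorem dt_prim (hF : Ht T d F) (hb : Bd T F) : ∀ z ∈ Om T, dd none (prim F) z = F z := by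
  intro z hz
  have hc : ContinuousOn (fun s : ℝ => F (s, z.2)) (Ioo 0 T) :=
    hF.sm.continuousOn.comp (f := fun s : ℝ => (s, z.2)) (by fun_prop) fun s hs => ⟨hs, hz.2⟩
  have h := intervalIntegral.integral_hasDerivAt_right (prim_int hF hb z hz)
    (hc.stronglyMeasurableAtFilter isOpen_Ioo z.1 hz.1) (hc.continuousAt (isOpen_Ioo.mem_nhds hz.1))
  exact ((hF.prim hb).hasDerivAt hz).unique h

theorem da_prim (hF : Ht T d F) (hb : Bd T F) (i : Fin 3) :
    ∀ z ∈ Om T, dd (some i) (prim F) z = prim (dd (some i) F) z := by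
  intro z hz
  have h := (hasFDerivAt_fst (𝕜 := ℝ) (p := z)).mul (av_der hF hb 0 hz)
  have h2 : HasFDerivAt (prim F) _ z := h.congr_of_eventuallyEq (Eventually.of_forall (prim_eq F))
  rw [prim_eq, dd, h2.fderiv]
  simp [co_dir, ex]
  simp [dir]

end Pool.Agent.Lib.MP_fbbbeb_an.B
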