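import Pool.Agent.Lib.MP_fbbbeb_an.B.Kit
import Pool.Agent.Lib.MP_fbbbeb_an.B.Kit2
import Pool.Agent.Lib.MP_fbbbeb_an.B.KitT
import Pool.Agent.Lib.MP_fbbbeb_an.B.Prim

/-! Section B, S12: bounds, symmetry and divergence of the primitive in time. -/

set_option autoImplicit false

namespace Pool.Agent.Lib.MP_fbbbeb_an.B

open scoped ContDiff RealInnerProductSpace Nat
open Set Pub MeasureTheory

variable {M : Set (E ≃ₗᵢ[ℝ] E)} {d : ℤ} {T m : ℝ} {r : L → ℝ} {w : ℝ → ℝ} {F : Y → ℝ}

namespace PG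

theorem ne_zero_of_norm {a : E} (h : ‖a‖ = 1) : a ≠ 0 := fun h0 => by simp [h0] at h

theorem int_exp {lam : ℝ} (hl : 0 < lam) (t : ℝ) :
    ∫ s in (0 : ℝ)..t, Real.exp (-(lam * (t - s))) ≤ lam⁻¹ := by
  have hd : ∀ s ∈ uIcc (0 : ℝ) t, HasDerivAt (fun s => lam⁻¹ * Real.exp (-(lam * (t - s))))
      (Real.exp (-(lam * (t - s)))) s := fun s _ => by
    have h1 : HasDerivAt (fun s => -(lam * (t - s))) lam s := by
      simpa using (((hasDerivAt_id s).const_sub t).const_mul lam).fun_neg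
    have h2 := h1.exp.const_mul lam⁻¹
    rwa [mul_comm (Real.exp _) lam, inv_mul_cancel_left₀ hl.ne'] at h2
  rw [intervalIntegral.integral_eq_sub_of_hasDerivAt hd
    (Continuous.intervalIntegrable (by fun_prop) _ _)]
  have : 0 < lam⁻¹ * Real.exp (-(lam * (t - 0))) := by positivity
  simp only [sub_self, mul_zero, neg_zero, Real.exp_zero, mul_one]
  linarith

theorem swap (hF : Ht T d F) (hb : Bd T F) {t : ℝ} (ht : t ∈ Ioo 0 T) {g : E → ℝ} (hg : Cn g) :
    sph (fun y => g y * sl (prim F) t y) = ∫ s in Ioc 0 t, sph fun y => g y * sl F s y := by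
  obtain ⟨b0, hb0⟩ := hb [] t ht
  obtain ⟨b1, hb1⟩ := (isCompact_sphere (0 : E) 1).exists_bound_of_continuousOn hg
  have hc : ContinuousOn (fun p : ℝ × Metric.sphere (0 : E) 1 => g p.2 * F (p.1, p.2))
      (Ioc 0 t ×ˢ univ) := by
    refine ContinuousOn.mul ?_ ?_
    · exact (hg.domRestrict.comp continuous_snd).continuousOn
    · refine hF.sm.continuousOn.comp (f := fun p : ℝ × Metric.sphere (0 : E) 1 => (p.1, (p.2 : E)))
        (by fun_prop) fun p hp => ⟨⟨hp.1.1, hp.1.2.trans_lt ht.2⟩, ?_⟩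
      exact ne_zero_of_norm (mem_sphere_zero_iff_norm.1 p.2.2)
  have hi : Integrable (Function.uncurry fun (s : ℝ) (y : Metric.sphere (0 : E) 1) => g y * F (s, y))
      ((volume.restrict (Ioc 0 t)).prod (volume : Measure E).toSphere) := by
    refine Integrable.of_bound (C := b1 * b0) ?_ ?_
    · rw [Measure.restrict_prod_eq_prod_univ]
      exact hc.aestronglyMeasurable (measurableSet_Ioc.prod MeasurableSet.univ)
    · rw [Measure.restrict_prod_eq_prod_univ]
      refine (ae_restrict_iff' (measurableSet_Ioc.prod MeasurableSet.univ)).2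
        (Filter.Eventually.of_forall fun p hp => ?_)
      have h1 := hb1 p.2 p.2.2
      have h2 := hb0 p.1 hp.1 p.2 (mem_sphere_zero_iff_norm.1 p.2.2)
      show ‖g p.2 * F (p.1, p.2)‖ ≤ _
      rw [norm_mul]
      exact mul_le_mul h1 h2 (norm_nonneg _) ((norm_nonneg _).trans h1)
  have h := integral_integral_swap hi
  simp only [sph, sl, prim]
  rw [h]
  refine integral_congr_ae (Filter.Eventually.of_forall fun y => ?_)
  simp only []
  rw [intervalIntegral.integral_of_le ht.1.le, integral_const_mul]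

theorem bd_dw (hb : Bd T F) (u : List L) : Bd T (dw u F) := by
  induction u with
  | nil => exact hb
  | cons i u ih => exact ih.dd i

theorem dw_prim (hF : Ht T d F) (hb : Bd T F) {u : List L} (hu : none ∉ u) :
    ∀ z ∈ Om T, dw u (prim F) z = prim (dw u F) z := by
  induction u with
  | nil => exact fun _ _ => rfl
  | cons i u ih =>
    intro z hz
    have h1 := dw_congr (ih fun h => hu (List.mem_cons_of_mem _ h)) [i] z hz
    cases i with
    | none => exact absurd List.mem_cons_self hu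
    | some i => exact h1.trans (da_prim (hF.dw u) (bd_dw hb u) i z hz)

theorem iso_apply (O : E ≃ₗᵢ[ℝ] E) (v : E) (i : Fin 3) : O v i = ∑ j, O (e j) i * v j := by
  have h : v = ∑ j, v j • e j := by
    ext k
    simp [e, Pi.single_apply, Finset.sum_apply]
  conv_lhs => rw [h]
  simp [map_sum, mul_comm]

end PG

theorem n2_prim {lam b : ℝ} (hl : 0 < lam) (hw : Wt T lam w) (hF : Ht T d F) (hb : Bd T F)
    (h : ∀ t ∈ Ioo 0 T, n2 (sl F t) ≤ b * w t) :
    ∀ t ∈ Ioo 0 T, n2 (sl (prim F) t) ≤ lam⁻¹ * b * w t := by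
  intro t ht
  have hg : Cn (sl (prim F) t) := ((hF.prim hb).sl ht).cn
  have h0 : 0 ≤ b * w t := (n2_nonneg _).trans (h t ht)
  have hn := n2_nonneg (sl (prim F) t)
  have hs : ∀ s ∈ Ioo 0 t, n2 (sl F s) ≤ b * w t * Real.exp (-(lam * (t - s))) := fun s hs => by
    have hs' : s ∈ Ioo 0 T := ⟨hs.1, hs.2.trans ht.2⟩
    refine (h s hs').trans ?_
    rcases le_or_gt 0 b with hb0 | hb0
    · calc b * w s ≤ b * (Real.exp (-(lam * (t - s))) * w t) :=
            mul_le_mul_of_nonneg_left (hw.2 t ht s hs) hb0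
        _ = _ := by ring
    · exact (mul_nonpos_of_nonpos_of_nonneg hb0.le (hw.1 s hs')).trans (by positivity)
  have key : n2 (sl (prim F) t) ^ 2 ≤ n2 (sl (prim F) t) * (lam⁻¹ * b * w t) := by
    rw [n2_sq]
    simp only [sq]
    rw [PG.swap hF hb ht hg]
    have h1 : ‖∫ s in Ioc 0 t, sph fun y => sl (prim F) t y * sl F s y‖ ≤
        ∫ s in Ioc 0 t, n2 (sl (prim F) t) * (b * w t) * Real.exp (-(lam * (t - s))) := by
      refine norm_integral_le_of_norm_le (Continuous.integrableOn_Ioc (by fun_prop)) ?_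
      rw [← Measure.restrict_congr_set Ioo_ae_eq_Ioc]
      refine (ae_restrict_iff' measurableSet_Ioo).2 (Filter.Eventually.of_forall fun s hs' => ?_)
      refine (sph_mul_le hg (hF.sl ⟨hs'.1, hs'.2.trans ht.2⟩).cn).trans ?_
      rw [mul_assoc]
      exact mul_le_mul_of_nonneg_left (hs s hs') hn
    refine (le_abs_self _).trans (h1.trans ?_)
    rw [integral_const_mul, ← intervalIntegral.integral_of_le ht.1.le]
    calc _ ≤ n2 (sl (prim F) t) * (b * w t) * lam⁻¹ :=
          mul_le_mul_of_nonneg_left (PG.int_exp hl t) (mul_nonneg hn h0)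
      _ = _ := by ring
  rcases hn.eq_or_lt with h1 | h1
  · rw [← h1, mul_assoc]; positivity
  · rw [sq] at key
    exact le_of_mul_le_mul_left key h1

theorem G2.prim {lam : ℝ} (hr : ∀ i, 0 < r i) (hl : 0 < lam) (hw : Wt T lam w) (hF : Ht T d F)
    (hb : Bd T F) (h : G2 T r w m F) : G2 T r w ((lam⁻¹ + r none) * m) (prim F) := by
  intro u t ht
  have h0 : 0 ≤ m * w t := by
    have := h [] t ht
    simp only [rad, List.map_nil, List.prod_nil, mul_one, List.length_nil, Nat.factorial_zero,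
      Nat.cast_one, one_pow] at this
    exact (n2_nonneg _).trans this
  have hi : 0 < lam⁻¹ := inv_pos.2 hl
  have hr0 := hr none
  have hz : ∀ y : E, ‖y‖ = 1 → ((t, y) : Y) ∈ Om T := fun y hy => ⟨ht, PG.ne_zero_of_norm hy⟩
  by_cases hu : none ∈ u
  · have hp : u.Perm (u.erase none ++ [none]) :=
      (List.perm_cons_erase hu).trans (List.perm_append_singleton _ _).symm
    have e1 : n2 (sl (dw u (B.prim F)) t) = n2 (sl (dw (u.erase none) F) t) :=
      n2_congr fun y hy => by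
        show dw u (B.prim F) (t, y) = dw (u.erase none) F (t, y)
        rw [dw_perm (hF.prim hb) hp _ (hz y hy), dw_append]
        exact dw_congr (dt_prim hF hb) _ _ (hz y hy)
    have e2 : rad r u = rad r (u.erase none) * r none := by
      rw [rad_perm r hp, rad_append]; simp [rad]
    have e3 : (((u.erase none).length ! : ℕ) : ℝ) ≤ (u.length ! : ℕ) :=
      Nat.cast_le.2 (Nat.factorial_le List.length_erase_le)
    have e4 := h (u.erase none) t ht
    rw [e1, e2, ← mul_assoc]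
    calc _ ≤ m * w t * (((u.erase none).length ! : ℕ) : ℝ) ^ 2 * r none := by gcongr
      _ ≤ m * w t * ((u.length ! : ℕ) : ℝ) ^ 2 * (lam⁻¹ + r none) := by gcongr; linarith
      _ = _ := by ring
  · have hp := rad_pos hr u
    have e1 : n2 (sl (dw u (B.prim F)) t) = n2 (sl (B.prim (dw u F)) t) :=
      n2_congr fun y hy => PG.dw_prim hF hb hu _ (hz y hy)
    have e2 := n2_prim (b := m * ((u.length ! : ℕ) : ℝ) ^ 2 / rad r u) hl hw (hF.dw u)
      (PG.bd_dw hb u) (fun s hs => by
        rw [div_mul_eq_mul_div, le_div_iff₀ hp]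
        exact (h u s hs).trans (le_of_eq (by ring))) t ht
    rw [e1]
    calc _ ≤ lam⁻¹ * (m * ((u.length ! : ℕ) : ℝ) ^ 2 / rad r u) * w t * rad r u := by gcongr
      _ = m * w t * ((u.length ! : ℕ) : ℝ) ^ 2 * lam⁻¹ := by field_simp
      _ ≤ m * w t * ((u.length ! : ℕ) : ℝ) ^ 2 * (lam⁻¹ + r none) := by gcongr; linarith
      _ = _ := by ring

theorem eqv_prim {V : Fin 3 → Y → ℝ} (hV : ∀ i, Ht T d (V i)) (hb : ∀ i, Bd T (V i))
    (h : ∀ t ∈ Ioo 0 T, Eqv M fun i => sl (V i) t) :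
    ∀ t ∈ Ioo 0 T, Eqv M fun i => sl (prim (V i)) t := by
  intro t ht O hO x hx
  ext i
  rw [PG.iso_apply]
  show ∫ s in (0 : ℝ)..t, V i (s, O x) = ∑ j, O (e j) i * ∫ s in (0 : ℝ)..t, V j (s, x)
  simp only [← intervalIntegral.integral_const_mul]
  rw [← intervalIntegral.integral_finsetSum fun j _ =>
    (prim_int (hV j) (hb j) (t, x) ⟨ht, hx⟩).const_mul _]
  refine intervalIntegral.integral_congr_ae (Filter.Eventually.of_forall fun s hs => ?_)
  rw [uIoc_of_le ht.1.le] at hs
  have h1 := congrArg (fun v : E => v i) (h s ⟨hs.1, hs.2.trans_lt ht.2⟩ O hO x hx)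
  simp only [] at h1
  rw [PG.iso_apply] at h1
  exact h1

theorem div_prim {V : Fin 3 → Y → ℝ} (hV : ∀ i, Ht T d (V i)) (hb : ∀ i, Bd T (V i))
    (h : ∀ z ∈ Om T, ∑ i, dd (some i) (V i) z = 0) :
    ∀ z ∈ Om T, ∑ i, dd (some i) (prim (V i)) z = 0 := by
  intro z hz
  rw [Finset.sum_congr rfl fun i _ => da_prim (hV i) (hb i) i z hz]
  simp only [prim]
  rw [← intervalIntegral.integral_finsetSum fun i _ =>
    prim_int ((hV i).da i) ((hb i).dd (some i)) z hz]
  rw [intervalIntegral.integral_congr_ae (g := fun _ => (0 : ℝ))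
    (Filter.Eventually.of_forall fun s hs => ?_)]
  · simp
  · rw [uIoc_of_le hz.1.1.le] at hs
    exact h (s, z.2) ⟨⟨hs.1, hs.2.trans_lt hz.1.2⟩, hz.2⟩

end Pool.Agent.Lib.MP_fbbbeb_an.B
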