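import Pool.Agent.Lib.MP_fbbbeb_an.B.Defs
import Pool.Agent.Lib.MP_fbbbeb_an.B.Sph

/-! Section B: Sobolev inequality on a small cube for homogeneous functions. -/

set_option autoImplicit false

namespace Pool.Agent.Lib.MP_fbbbeb_an.B

open scoped ContDiff RealInnerProductSpace Nat ENNReal
open Set Pub MeasureTheory

namespace Sob

theorem hm_da {d : ℤ} {f : E → ℝ} (hf : Hm d f) {x : E} (hx : x ≠ 0) : DifferentiableAt ℝ f x :=
  (hf.sm.contDiffAt (isOpen_compl_singleton.mem_nhds hx)).differentiableAt (by simp)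

theorem hm_pd {d : ℤ} {f : E → ℝ} (hf : Hm d f) (i : Fin 3) : Hm (d - 1) (pd i f) := by
  refine ⟨?_, fun l hl x hx => ?_⟩
  · exact (hf.sm.fderiv_of_isOpen (m := ∞) isOpen_compl_singleton (by simp)).clm_apply
      contDiffOn_const
  · have h := Sph.fderiv_hom (f := f) (d := d) (fun x hx => hm_da hf hx)
      (fun x hx s hs => hf.hom s hs x hx) hx hl
    simp [pd, h]

theorem one_d {g g' : ℝ → ℝ} {h : ℝ} (hh : 0 < h) (hd : ∀ s ∈ Icc 0 h, HasDerivAt g (g' s) s)
    (hc : ContinuousOn g' (Icc 0 h)) :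
    g 0 ^ 2 ≤ ∫ s in (0 : ℝ)..h, (2 / h * g s ^ 2 + h * g' s ^ 2) := by
  have hg : ContinuousOn g (Icc 0 h) := fun s hs => (hd s hs).continuousAt.continuousWithinAt
  have hu : uIcc 0 h = Icc 0 h := uIcc_of_le hh.le
  have h1 : ∫ s in (0 : ℝ)..h, (1 / h * g s ^ 2 + (s - h) / h * (2 * g s * g' s)) =
      (h - h) / h * g h ^ 2 - (0 - h) / h * g 0 ^ 2 := by
    refine intervalIntegral.integral_eq_sub_of_hasDerivAt (f := fun s => (s - h) / h * g s ^ 2)
      (fun s hs => ?_) ?_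
    · rw [hu] at hs
      have h2 := (((hasDerivAt_id s).sub_const h).div_const h).mul ((hd s hs).pow 2)
      refine h2.congr_deriv ?_
      simp only [id, Pi.pow_apply]
      norm_num
    · refine ContinuousOn.intervalIntegrable ?_
      rw [hu]
      exact (continuousOn_const.mul (hg.pow 2)).add
        (((continuousOn_id.sub continuousOn_const).div_const h).mul
          ((continuousOn_const.mul hg).mul hc))
  have h2 : (h - h) / h * g h ^ 2 - (0 - h) / h * g 0 ^ 2 = g 0 ^ 2 := by field_simp; ring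
  rw [← h2, ← h1]
  refine intervalIntegral.integral_mono_on hh.le ?_ ?_ fun s hs => ?_
  · refine ContinuousOn.intervalIntegrable ?_
    rw [hu]
    exact (continuousOn_const.mul (hg.pow 2)).add
      (((continuousOn_id.sub continuousOn_const).div_const h).mul
        ((continuousOn_const.mul hg).mul hc))
  · refine ContinuousOn.intervalIntegrable ?_
    rw [hu]
    exact (continuousOn_const.mul (hg.pow 2)).add (continuousOn_const.mul (hc.pow 2))
  · have e : 2 / h * g s ^ 2 + h * g' s ^ 2 - (1 / h * g s ^ 2 + (s - h) / h * (2 * g s * g' s)) =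
        ((g s + (h - s) * g' s) ^ 2 + s * (2 * h - s) * g' s ^ 2) / h := by field_simp; ring
    have h3 : 0 ≤ s * (2 * h - s) := mul_nonneg hs.1 (by linarith [hs.2])
    have h4 : 0 ≤ ((g s + (h - s) * g' s) ^ 2 + s * (2 * h - s) * g' s ^ 2) / h := by positivity
    linarith

/-- `F` is dominated by the integral of `G` along a segment in direction `i` -/
def Le (h : ℝ) (i : Fin 3) (F G : E → ℝ) : Prop :=
  ContinuousOn G {0}ᶜ ∧ (∀ x, 0 ≤ G x) ∧
    ∀ x : E, (∀ s ∈ Icc 0 h, x + s • e i ≠ 0) → F x ≤ ∫ s in (0 : ℝ)..h, G (x + s • e i)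

theorem seg_int {h : ℝ} (hh : 0 < h) {i : Fin 3} {G : E → ℝ} (hG : ContinuousOn G {0}ᶜ) {x : E}
    (hx : ∀ s ∈ Icc 0 h, x + s • e i ≠ 0) :
    IntervalIntegrable (fun s : ℝ => G (x + s • e i)) volume 0 h := by
  refine ContinuousOn.intervalIntegrable ?_
  rw [uIcc_of_le hh.le]
  exact hG.comp (by fun_prop) hx

theorem Le.comb {h a b : ℝ} (hh : 0 < h) (ha : 0 ≤ a) (hb : 0 ≤ b) {i : Fin 3} {F G F' G' : E → ℝ}
    (h1 : Le h i F G) (h2 : Le h i F' G') :
    Le h i (fun x => a * F x + b * F' x) fun x => a * G x + b * G' x := by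
  refine ⟨(continuousOn_const.mul h1.1).add (continuousOn_const.mul h2.1),
    fun x => add_nonneg (mul_nonneg ha (h1.2.1 x)) (mul_nonneg hb (h2.2.1 x)), fun x hx => ?_⟩
  rw [intervalIntegral.integral_add ((seg_int hh h1.1 hx).const_mul a)
    ((seg_int hh h2.1 hx).const_mul b), intervalIntegral.integral_const_mul,
    intervalIntegral.integral_const_mul]
  exact add_le_add (mul_le_mul_of_nonneg_left (h1.2.2 x hx) ha)
    (mul_le_mul_of_nonneg_left (h2.2.2 x hx) hb)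

theorem le_sq {h : ℝ} (hh : 0 < h) (i : Fin 3) {d : ℤ} {g : E → ℝ} (hg : Hm d g) :
    Le h i (fun x => g x ^ 2) fun x => 2 / h * g x ^ 2 + h * pd i g x ^ 2 := by
  have hc := (hm_pd hg i).sm.continuousOn
  refine ⟨(continuousOn_const.mul (hg.sm.continuousOn.pow 2)).add
    (continuousOn_const.mul (hc.pow 2)), fun x => by positivity, fun x hx => ?_⟩
  have h1 := one_d (g := fun s => g (x + s • e i)) (g' := fun s => pd i g (x + s • e i)) hh
    (fun s hs => by
      have h2 : HasDerivAt (fun s : ℝ => x + s • e i) (e i) s := by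
        simpa using ((hasDerivAt_id s).smul_const (e i)).const_add x
      exact (hm_da hg (hx s hs)).hasFDerivAt.comp_hasDerivAt s h2)
    (hc.comp (by fun_prop) hx)
  simpa using h1

theorem Le.lint {h : ℝ} (hh : 0 < h) {i : Fin 3} {F G : E → ℝ} (h1 : Le h i F G) {x : E}
    (hx : ∀ s ∈ Icc 0 h, x + s • e i ≠ 0) :
    ENNReal.ofReal (F x) ≤ ∫⁻ s in Ioc 0 h, ENNReal.ofReal (G (x + s • e i)) := by
  rw [← ofReal_integral_eq_lintegral_ofReal (seg_int hh h1.1 hx).1
    (Filter.Eventually.of_forall fun s => h1.2.1 _), ← intervalIntegral.integral_of_le hh.le]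
  exact ENNReal.ofReal_le_ofReal (h1.2.2 x hx)

/-- coordinates -/
def Ps (p : ℝ × ℝ × ℝ) : E := !₂[p.1, p.2.1, p.2.2]

theorem mp_Ps : MeasurePreserving Ps volume volume := by
  have h := (PiLp.volume_preserving_toLp (Fin 3)).comp
    ((volume_preserving_piFinSuccAbove (fun _ : Fin 3 => ℝ) 0).symm.comp
      ((MeasurePreserving.id (volume : Measure ℝ)).prod (volume_preserving_finTwoArrow ℝ).symm))
  have e : Ps = WithLp.toLp 2 ∘ (MeasurableEquiv.piFinSuccAbove (fun _ : Fin 3 => ℝ) 0).symm ∘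
      Prod.map id (MeasurableEquiv.finTwoArrow (α := ℝ)).symm := by
    funext p
    ext i
    fin_cases i <;> simp [Ps, MeasurableEquiv.piFinSuccAbove, MeasurableEquiv.finTwoArrow,
      Fin.insertNthEquiv, Fin.consEquiv]
  rw [e]
  exact h

theorem Ps_eq (y : E) (s t r : ℝ) : y + s • e 0 + t • e 1 + r • e 2 = y + Ps (s, t, r) := by
  ext i
  fin_cases i <;> simp [Ps, e]

theorem norm_Ps {h s t r : ℝ} (hs : s ∈ Icc 0 h) (ht : t ∈ Icc 0 h) (hr : r ∈ Icc 0 h) :
    ‖Ps (s, t, r)‖ ≤ 2 * h := by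
  have hh : 0 ≤ h := hs.1.trans hs.2
  rw [EuclideanSpace.norm_eq]
  refine Real.sqrt_le_iff.2 ⟨by positivity, ?_⟩
  simp only [Fin.sum_univ_three, Ps, Real.norm_eq_abs, sq_abs]
  simp
  nlinarith [hs.1, hs.2, ht.1, ht.2, hr.1, hr.2]

/-- the shell -/
def Sh (h : ℝ) : Set E := Metric.closedBall 0 (1 + 2 * h) \ Metric.ball 0 (1 - 2 * h)

theorem mem_Sh {h : ℝ} {x : E} : x ∈ Sh h ↔ 1 - 2 * h ≤ ‖x‖ ∧ ‖x‖ ≤ 1 + 2 * h := by
  simp [Sh, and_comm]

theorem Sh_compact (h : ℝ) : IsCompact (Sh h) := (isCompact_closedBall _ _).diff Metric.isOpen_ball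

theorem Sh_sub {h : ℝ} (h4 : h ≤ 1 / 4) : Sh h ⊆ {0}ᶜ := fun x hx h0 => by
  have := (mem_Sh.1 hx).1
  rw [mem_singleton_iff.1 h0, norm_zero] at this
  linarith

theorem cube_mem {h s t r : ℝ} {y : E} (hy : ‖y‖ = 1) (hs : s ∈ Icc 0 h) (ht : t ∈ Icc 0 h)
    (hr : r ∈ Icc 0 h) : y + s • e 0 + t • e 1 + r • e 2 ∈ Sh h := by
  rw [Ps_eq, mem_Sh]
  have h1 := norm_Ps hs ht hr
  have h2 := norm_add_le y (Ps (s, t, r))
  have h3 := norm_sub_le (y + Ps (s, t, r)) (Ps (s, t, r))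
  rw [add_sub_cancel_right] at h3
  constructor <;> linarith

theorem three {h : ℝ} (hh : 0 < h) (h4 : h ≤ 1 / 4) {F0 F1 F2 F3 : E → ℝ} (l0 : Le h 0 F0 F1)
    (l1 : Le h 1 F1 F2) (l2 : Le h 2 F2 F3) {y : E} (hy : ‖y‖ = 1) :
    F0 y ≤ ∫ x, (Sh h).indicator F3 x := by
  classical
  have z : (0 : ℝ) ∈ Icc 0 h := ⟨le_rfl, hh.le⟩
  have hc : ContinuousOn F3 (Sh h) := l2.1.mono (Sh_sub h4)
  have hm : MeasurableSet (Sh h) := (Sh_compact h).measurableSet
  have hi : Integrable ((Sh h).indicator F3) :=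
    (integrable_indicator_iff hm).2 (hc.integrableOn_compact (Sh_compact h))
  have h0 : ∀ x, 0 ≤ (Sh h).indicator F3 x := fun x => indicator_nonneg (fun x _ => l2.2.1 x) x
  have hms : Measurable fun x => ENNReal.ofReal ((Sh h).indicator F3 x) :=
    (hc.measurable_piecewise (g := fun _ => (0 : ℝ)) continuousOn_const hm).ennreal_ofReal
  rw [← ENNReal.ofReal_le_ofReal_iff (integral_nonneg h0),
    ofReal_integral_eq_lintegral_ofReal hi (Filter.Eventually.of_forall h0),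
    ← lintegral_add_left_eq_self _ y,
    ← mp_Ps.lintegral_comp (f := fun x => ENNReal.ofReal ((Sh h).indicator F3 (y + x)))
      (hms.comp (measurable_const_add y))]
  have hp : Measurable fun p => ENNReal.ofReal ((Sh h).indicator F3 (y + Ps p)) :=
    hms.comp ((measurable_const_add y).comp mp_Ps.measurable)
  rw [Measure.volume_eq_prod, lintegral_prod _ hp.aemeasurable]
  refine (l0.lint hh fun s hs => Sh_sub h4 (by simpa using cube_mem hy hs z z)).trans ?_
  refine (setLIntegral_mono' measurableSet_Ioc fun s hs => ?_).trans (setLIntegral_le_lintegral _ _)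
  have hs' := Ioc_subset_Icc_self hs
  have hp' : Measurable fun q : ℝ × ℝ => ENNReal.ofReal ((Sh h).indicator F3 (y + Ps (s, q))) :=
    hp.comp measurable_prodMk_left
  rw [Measure.volume_eq_prod, lintegral_prod _ hp'.aemeasurable]
  refine (l1.lint hh fun t ht => Sh_sub h4 (by simpa using cube_mem hy hs' ht z)).trans ?_
  refine (setLIntegral_mono' measurableSet_Ioc fun t ht => ?_).trans (setLIntegral_le_lintegral _ _)
  have ht' := Ioc_subset_Icc_self ht
  refine (l2.lint hh fun r hr => Sh_sub h4 (cube_mem hy hs' ht' hr)).trans ?_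
  refine (setLIntegral_mono' measurableSet_Ioc fun r hr => ?_).trans (setLIntegral_le_lintegral _ _)
  have hmem := cube_mem hy hs' ht' (Ioc_subset_Icc_self hr)
  rw [← Ps_eq, indicator_of_mem hmem]

/-- continuity, scaling on the shell and a bound of the integral over the sphere -/
def Nice (h K : ℝ) (F : E → ℝ) (β : ℝ) : Prop :=
  ContinuousOn F {0}ᶜ ∧ (∀ x, 0 ≤ F x) ∧
    (∀ y : E, ‖y‖ = 1 → ∀ r ∈ Icc (1 - 2 * h) (1 + 2 * h), r ^ 2 * F (r • y) ≤ K * F y) ∧ sph F ≤ β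

theorem Nice.comb {h K a b β β' : ℝ} (ha : 0 ≤ a) (hb : 0 ≤ b) {F G : E → ℝ} (h1 : Nice h K F β)
    (h2 : Nice h K G β') : Nice h K (fun x => a * F x + b * G x) (a * β + b * β') := by
  refine ⟨(continuousOn_const.mul h1.1).add (continuousOn_const.mul h2.1),
    fun x => add_nonneg (mul_nonneg ha (h1.2.1 x)) (mul_nonneg hb (h2.2.1 x)), fun y hy r hr => ?_, ?_⟩
  · have h3 := mul_le_mul_of_nonneg_left (h1.2.2.1 y hy r hr) ha
    have h4 := mul_le_mul_of_nonneg_left (h2.2.2.1 y hy r hr) hb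
    linarith
  · rw [Sph.sph_add (f := fun x => a * F x) (g := fun x => b * G x) (continuousOn_const.mul h1.1)
      (continuousOn_const.mul h2.1), Sph.sph_const_mul, Sph.sph_const_mul]
    exact add_le_add (mul_le_mul_of_nonneg_left h1.2.2.2 ha) (mul_le_mul_of_nonneg_left h2.2.2.2 hb)

theorem Nice.shell {h K β : ℝ} (hh : 0 < h) (h4 : h ≤ 1 / 4) (hK : 0 ≤ K) {F : E → ℝ}
    (h1 : Nice h K F β) : ∫ x, (Sh h).indicator F x ≤ K * β := by
  have hm : MeasurableSet (Sh h) := (Sh_compact h).measurableSet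
  have hi : Integrable ((Sh h).indicator F) :=
    (integrable_indicator_iff hm).2 ((h1.1.mono (Sh_sub h4)).integrableOn_compact (Sh_compact h))
  have h0 : ∀ x, 0 ≤ (Sh h).indicator F x := fun x => indicator_nonneg (fun x _ => h1.2.1 x) x
  rw [Sph.polar hi]
  refine le_trans ?_ (mul_le_mul_of_nonneg_left h1.2.2.2 hK)
  rw [← Sph.sph_const_mul]
  refine integral_mono_of_nonneg (Filter.Eventually.of_forall fun y => ?_)
    (Sph.int_sp (continuousOn_const.mul h1.1)) (Filter.Eventually.of_forall fun y => ?_)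
  · exact integral_nonneg fun r => mul_nonneg (sq_nonneg r) (h0 _)
  · have hy := Sph.sp_norm y
    have hKF : 0 ≤ K * F y := mul_nonneg hK (h1.2.1 _)
    have hj : Integrable ((Icc (1 - 2 * h) (1 + 2 * h)).indicator fun _ : ℝ => K * F y) :=
      (integrable_indicator_iff measurableSet_Icc).2
        (continuousOn_const.integrableOn_compact isCompact_Icc)
    calc ∫ r in Ioi (0 : ℝ), r ^ 2 * (Sh h).indicator F (r • (y : E))
        ≤ ∫ r in Ioi (0 : ℝ), (Icc (1 - 2 * h) (1 + 2 * h)).indicator (fun _ : ℝ => K * F y) r := by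
          refine integral_mono_of_nonneg
            (Filter.Eventually.of_forall fun r => mul_nonneg (sq_nonneg r) (h0 _)) hj.integrableOn
            ((ae_restrict_iff' measurableSet_Ioi).2 (Filter.Eventually.of_forall fun r hr => ?_))
          have hn : ‖r • (y : E)‖ = r := by
            rw [norm_smul, hy, mul_one, Real.norm_eq_abs, abs_of_pos hr]
          by_cases hs : r • (y : E) ∈ Sh h
          · have hr' : r ∈ Icc (1 - 2 * h) (1 + 2 * h) := by
              have := mem_Sh.1 hs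
              rwa [hn] at this
            show r ^ 2 * (Sh h).indicator F (r • (y : E)) ≤ _
            rw [indicator_of_mem hs, indicator_of_mem hr']
            exact h1.2.2.1 y hy r hr'
          · show r ^ 2 * (Sh h).indicator F (r • (y : E)) ≤ _
            rw [indicator_of_notMem hs, mul_zero]
            exact indicator_nonneg (fun _ _ => hKF) r
      _ ≤ ∫ r, (Icc (1 - 2 * h) (1 + 2 * h)).indicator (fun _ : ℝ => K * F y) r :=
          setIntegral_le_integral hj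
            (Filter.Eventually.of_forall fun r => indicator_nonneg (fun _ _ => hKF) r)
      _ = 4 * h * (K * F y) := by
          rw [integral_indicator measurableSet_Icc, setIntegral_const, Real.volume_real_Icc_of_le
            (by linarith), smul_eq_mul]
          ring
      _ ≤ K * F y := by nlinarith

theorem zpow_le {h r : ℝ} (hh : 0 < h) (h4 : h ≤ 1 / 4) (hr : r ∈ Icc (1 - 2 * h) (1 + 2 * h))
    {m : ℤ} {k : ℕ} (h1 : m ≤ 3) (h2 : -m ≤ k) : r ^ m ≤ 8 * ((1 - 2 * h)⁻¹) ^ k := by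
  have h0 : 0 < 1 - 2 * h := by linarith
  have hρ : 1 ≤ (1 - 2 * h)⁻¹ := (one_le_inv₀ h0).2 (by linarith)
  have hk : 1 ≤ ((1 - 2 * h)⁻¹) ^ k := one_le_pow₀ hρ
  have hr0 : 0 < r := h0.trans_le hr.1
  rcases le_total 0 m with hm | hm
  · obtain ⟨n, rfl⟩ := Int.eq_ofNat_of_zero_le hm
    rw [zpow_natCast]
    have h3 : r ^ n ≤ 2 ^ n := pow_le_pow_left₀ hr0.le (by linarith [hr.2]) n
    have h5 : (2 : ℝ) ^ n ≤ 2 ^ 3 := pow_le_pow_right₀ (by norm_num) (by omega)
    nlinarith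
  · obtain ⟨n, hn⟩ := Int.eq_ofNat_of_zero_le (neg_nonneg.2 hm)
    have e : m = -(n : ℤ) := by omega
    rw [e, zpow_neg, zpow_natCast, ← inv_pow]
    have h3 : r⁻¹ ^ n ≤ ((1 - 2 * h)⁻¹) ^ n :=
      pow_le_pow_left₀ (inv_pos.2 hr0).le (inv_anti₀ h0 hr.1) n
    have h5 : ((1 - 2 * h)⁻¹) ^ n ≤ ((1 - 2 * h)⁻¹) ^ k := pow_le_pow_right₀ hρ (by omega)
    linarith

theorem nice_sq {h b : ℝ} (hh : 0 < h) (h4 : h ≤ 1 / 4) {m : ℤ} {k : ℕ} (n : ℕ) {g : E → ℝ}
    (hg : Hm m g) (h1 : m ≤ 2) (h2 : -(m + 1) ≤ k) (hb : h ^ n * n2 g ≤ b) :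
    Nice h ((8 * ((1 - 2 * h)⁻¹) ^ k) ^ 2) (fun x => g x ^ 2) ((b / h ^ n) ^ 2) := by
  refine ⟨hg.sm.continuousOn.pow 2, fun x => sq_nonneg _, fun y hy r hr => ?_, ?_⟩
  · have hr0 : 0 < r := lt_of_lt_of_le (by linarith) hr.1
    have hy0 : y ≠ 0 := fun h0 => by simp [h0] at hy
    have h3 := zpow_le hh h4 hr (m := m + 1) (by omega) h2
    have h5 : (r ^ (m + 1)) ^ 2 ≤ (8 * ((1 - 2 * h)⁻¹) ^ k) ^ 2 :=
      pow_le_pow_left₀ (zpow_pos hr0 _).le h3 2
    show r ^ 2 * g (r • y) ^ 2 ≤ _ * g y ^ 2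
    rw [hg.hom r hr0 y hy0, show r ^ 2 * (r ^ m * g y) ^ 2 = (r ^ (m + 1)) ^ 2 * g y ^ 2 by
      rw [zpow_add_one₀ hr0.ne']; ring]
    exact mul_le_mul_of_nonneg_right h5 (sq_nonneg _)
  · have h3 : n2 g ≤ b / h ^ n := by rw [le_div_iff₀ (pow_pos hh n)]; linarith
    have h5 : n2 g ^ 2 = sph fun y => g y ^ 2 :=
      Real.sq_sqrt (Sph.sph_nonneg fun y _ => sq_nonneg _)
    rw [← h5]
    exact pow_le_pow_left₀ (Real.sqrt_nonneg _) h3 2

end Sob

open Sob in
theorem cube_sob : ∃ C : ℝ, 1 ≤ C ∧ ∀ (d : ℤ) (f : E → ℝ) (h b : ℝ), Hm d f → d ≤ 2 → 0 < h → h ≤ 1 / 4 →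
    (∀ u : List (Fin 3), u.length ≤ 3 → h ^ u.length * n2 (u.foldr pd f) ≤ b) →
      ∀ y : E, ‖y‖ = 1 → |f y| ≤ C * (h⁻¹) ^ 2 * ((1 - 2 * h)⁻¹) ^ (2 - d).toNat * b := by
  refine ⟨48, by norm_num, fun d f h b hf hd hh h4 hb y hy => ?_⟩
  have ha : 0 ≤ 2 / h := by positivity
  have f0 := hm_pd hf 0
  have f1 := hm_pd hf 1
  have f10 := hm_pd f0 1
  have l0 := le_sq hh 0 hf
  have l1 := (le_sq hh 1 hf).comb hh ha hh.le (le_sq hh 1 f0)
  have l2 := ((le_sq hh 2 hf).comb hh ha hh.le (le_sq hh 2 f1)).comb hh ha hh.le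
    ((le_sq hh 2 f0).comb hh ha hh.le (le_sq hh 2 f10))
  have h1 := three hh h4 l0 l1 l2 hy
  set k := (2 - d).toNat with hk
  have n0 := nice_sq (k := k) hh h4 0 hf hd (by omega) (hb [] (by simp))
  have n1 := nice_sq (k := k) hh h4 1 (hm_pd hf 2) (by omega) (by omega) (hb [2] (by simp))
  have n2' := nice_sq (k := k) hh h4 1 f1 (by omega) (by omega) (hb [1] (by simp))
  have n3 := nice_sq (k := k) hh h4 2 (hm_pd f1 2) (by omega) (by omega) (hb [2, 1] (by simp))
  have n4 := nice_sq (k := k) hh h4 1 f0 (by omega) (by omega) (hb [0] (by simp))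
  have n5 := nice_sq (k := k) hh h4 2 (hm_pd f0 2) (by omega) (by omega) (hb [2, 0] (by simp))
  have n6 := nice_sq (k := k) hh h4 2 f10 (by omega) (by omega) (hb [1, 0] (by simp))
  have n7 := nice_sq (k := k) hh h4 3 (hm_pd f10 2) (by omega) (by omega) (hb [2, 1, 0] (by simp))
  have h2 := (((n0.comb ha hh.le n1).comb ha hh.le (n2'.comb ha hh.le n3)).comb ha hh.le
    ((n4.comb ha hh.le n5).comb ha hh.le (n6.comb ha hh.le n7))).shell hh h4 (sq_nonneg _)
  have h3 := h1.trans h2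
  have hb0 : 0 ≤ b := le_trans (mul_nonneg (pow_pos hh _).le (Real.sqrt_nonneg _)) (hb [] (by simp))
  have hρ : 0 < (1 - 2 * h)⁻¹ := inv_pos.2 (by linarith)
  refine abs_le_of_sq_le_sq (h3.trans ?_) (by positivity)
  have e : 2 / h * (2 / h * (2 / h * (b / h ^ 0) ^ 2 + h * (b / h ^ 1) ^ 2) +
      h * (2 / h * (b / h ^ 1) ^ 2 + h * (b / h ^ 2) ^ 2)) +
      h * (2 / h * (2 / h * (b / h ^ 1) ^ 2 + h * (b / h ^ 2) ^ 2) +
      h * (2 / h * (b / h ^ 2) ^ 2 + h * (b / h ^ 3) ^ 2)) = 27 * h * ((h⁻¹) ^ 2 * b) ^ 2 := by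
    field_simp
    ring
  rw [e]
  have h5 : 0 ≤ (((1 - 2 * h)⁻¹) ^ k * ((h⁻¹) ^ 2 * b)) ^ 2 := sq_nonneg _
  nlinarith [mul_le_mul_of_nonneg_right h4 h5]

end Pool.Agent.Lib.MP_fbbbeb_an.B
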