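import Pool.Agent.Lib.MP_fbbbeb_an.B.Kit
import Pool.Agent.Lib.MP_fbbbeb_an.B.Kit2
import Pool.Agent.Lib.MP_fbbbeb_an.B.KitT
import Pool.Agent.Lib.MP_fbbbeb_an.B.Sob

/-! Section B: from the `L²` Gevrey bound to the sup Gevrey bound. -/

set_option autoImplicit false

namespace Pool.Agent.Lib.MP_fbbbeb_an.B

open scoped ContDiff RealInnerProductSpace Nat
open Set Pub MeasureTheory

theorem sg_fold {T : ℝ} {d : ℤ} {F : Y → ℝ} (hF : Ht T d F) {t : ℝ} (ht : t ∈ Ioo 0 T)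
    (v : List (Fin 3)) : ∀ y : E, y ≠ 0 → v.foldr pd (sl F t) y = sl (dw (v.map some) F) t y := by
  induction v with
  | nil => intro y _; rfl
  | cons i v ih =>
    intro y hy
    have h1 : pd i (v.foldr pd (sl F t)) y = pd i (sl (dw (v.map some) F) t) y := pd_congr ih i hy
    have h2 := pd_sl (hF.dw (v.map some)) i (z := (t, y)) ⟨ht, hy⟩
    exact h1.trans h2

theorem sg_rad {σ : ℝ} {r : L → ℝ} (hσ : 0 ≤ σ) (h : ∀ i, σ ≤ r i) (u : List L) :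
    σ ^ u.length ≤ rad r u := by
  induction u with
  | nil => simp [rad]
  | cons i u ih =>
    have e : rad r (i :: u) = r i * rad r u := by simp [rad]
    rw [e, List.length_cons, pow_succ']
    exact mul_le_mul (h i) ih (pow_nonneg hσ _) (hσ.trans (h i))

theorem sg_fac (n : ℕ) : ((n + 3)! : ℝ) ≤ ((n + 3 : ℕ) : ℝ) ^ 3 * n ! := by
  have h : (n + 3)! = (n + 3) * ((n + 2) * ((n + 1) * n !)) := by
    rw [Nat.factorial_succ, Nat.factorial_succ, Nat.factorial_succ]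
  have h2 : (n + 3)! ≤ (n + 3) ^ 3 * n ! := by
    rw [h]
    calc (n + 3) * ((n + 2) * ((n + 1) * n !)) ≤ (n + 3) * ((n + 3) * ((n + 3) * n !)) := by
          gcongr <;> omega
      _ = (n + 3) ^ 3 * n ! := by ring
  exact_mod_cast h2

theorem sg_exp {δ : ℝ} (h0 : 0 < δ) (h1 : δ ≤ 1) (N : ℕ) :
    (1 - δ / 2) ^ N * (N : ℝ) ^ 6 ≤ 720 * (2 / δ) ^ 6 := by
  have a : (1 - δ / 2) ^ N ≤ Real.exp (-(δ / 2 * N)) := by
    have b : 1 - δ / 2 ≤ Real.exp (-(δ / 2)) := by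
      have := Real.add_one_le_exp (-(δ / 2)); linarith
    calc (1 - δ / 2) ^ N ≤ Real.exp (-(δ / 2)) ^ N := pow_le_pow_left₀ (by linarith) b N
      _ = Real.exp (-(δ / 2 * N)) := by rw [← Real.exp_nat_mul]; congr 1; ring
  have c := Real.pow_div_factorial_le_exp (δ / 2 * N) (by positivity) 6
  have c' : (δ / 2 * N) ^ 6 ≤ 720 * Real.exp (δ / 2 * N) := by
    have f6 : ((6 ! : ℕ) : ℝ) = 720 := by norm_num [Nat.factorial]
    rw [f6, div_le_iff₀ (by norm_num)] at c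
    linarith
  have e : (N : ℝ) ^ 6 = (δ / 2 * N) ^ 6 * (2 / δ) ^ 6 := by
    rw [← mul_pow]; congr 1; field_simp
  calc (1 - δ / 2) ^ N * (N : ℝ) ^ 6
      ≤ Real.exp (-(δ / 2 * N)) * ((720 * Real.exp (δ / 2 * N)) * (2 / δ) ^ 6) := by
        rw [e]; gcongr
    _ = 720 * (2 / δ) ^ 6 * (Real.exp (-(δ / 2 * N)) * Real.exp (δ / 2 * N)) := by ring
    _ = 720 * (2 / δ) ^ 6 := by rw [← Real.exp_add]; simp

theorem sg_num {σ θ : ℝ} (hσ : 0 < σ) (hσ1 : σ ≤ 1) (h1 : 1 / 2 ≤ θ) (h2 : θ < 1) {n k : ℕ}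
    (hk : k ≤ n + 3) :
    ((σ * (1 - θ) / 8)⁻¹) ^ 2 * ((1 - 2 * (σ * (1 - θ) / 8))⁻¹) ^ k * θ ^ n * ((n + 3)! : ℝ) ^ 2 ≤
      92160 * (2 / (σ * (1 - θ))) ^ 8 * (n ! : ℝ) ^ 2 := by
  have hδ : 0 < 1 - θ := by linarith
  have hp : 0 < σ * (1 - θ) := mul_pos hσ hδ
  have hq : σ * (1 - θ) ≤ 1 - θ := mul_le_of_le_one_left hδ.le hσ1
  set ρ : ℝ := (1 - 2 * (σ * (1 - θ) / 8))⁻¹ with hρ
  have hd : 0 < 1 - 2 * (σ * (1 - θ) / 8) := by linarith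
  have ρ1 : 1 ≤ ρ := by
    rw [hρ]; exact (one_le_inv₀ hd).2 (by linarith)
  have ρθ : ρ * θ ≤ 1 - (1 - θ) / 2 := by
    rw [hρ, inv_mul_le_iff₀ hd]
    nlinarith
  have a1 : ρ ^ k ≤ ρ ^ (n + 3) := pow_le_pow_right₀ ρ1 hk
  have θ0 : 0 ≤ θ := by linarith
  have a2 : θ ^ n ≤ 8 * θ ^ (n + 3) := by
    have : (1 / 2 : ℝ) ^ 3 ≤ θ ^ 3 := pow_le_pow_left₀ (by norm_num) h1 3
    have p : 0 ≤ θ ^ n := pow_nonneg θ0 n
    rw [pow_add]; nlinarith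
  have a3 : ρ ^ (n + 3) * θ ^ (n + 3) ≤ (1 - (1 - θ) / 2) ^ (n + 3) := by
    rw [← mul_pow]; exact pow_le_pow_left₀ (by positivity) ρθ _
  have a4 := sg_exp hδ (by linarith) (n + 3)
  have a5 : ((n + 3)! : ℝ) ^ 2 ≤ ((n + 3 : ℕ) : ℝ) ^ 6 * (n ! : ℝ) ^ 2 := by
    calc ((n + 3)! : ℝ) ^ 2 ≤ (((n + 3 : ℕ) : ℝ) ^ 3 * n !) ^ 2 :=
          pow_le_pow_left₀ (by positivity) (sg_fac n) 2
      _ = _ := by ring
  have a6 : 2 / (1 - θ) ≤ 2 / (σ * (1 - θ)) := div_le_div_of_nonneg_left (by norm_num) hp hq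
  have a7 : (σ * (1 - θ) / 8)⁻¹ = 4 * (2 / (σ * (1 - θ))) := by field_simp; norm_num
  set x : ℝ := 2 / (σ * (1 - θ)) with hx
  have x0 : 0 < x := by positivity
  have a8 : (2 / (1 - θ)) ^ 6 ≤ x ^ 6 := pow_le_pow_left₀ (by positivity) a6 6
  rw [a7]
  calc (4 * x) ^ 2 * ρ ^ k * θ ^ n * ((n + 3)! : ℝ) ^ 2
      ≤ (4 * x) ^ 2 * ρ ^ (n + 3) * (8 * θ ^ (n + 3)) *
          (((n + 3 : ℕ) : ℝ) ^ 6 * (n ! : ℝ) ^ 2) := by gcongr
    _ = 128 * x ^ 2 * (n ! : ℝ) ^ 2 * (ρ ^ (n + 3) * θ ^ (n + 3) * ((n + 3 : ℕ) : ℝ) ^ 6) := by ring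
    _ ≤ 128 * x ^ 2 * (n ! : ℝ) ^ 2 *
          ((1 - (1 - θ) / 2) ^ (n + 3) * ((n + 3 : ℕ) : ℝ) ^ 6) := by gcongr
    _ ≤ 128 * x ^ 2 * (n ! : ℝ) ^ 2 * (720 * x ^ 6) :=
        mul_le_mul_of_nonneg_left (a4.trans (by gcongr)) (by positivity)
    _ = 92160 * x ^ 8 * (n ! : ℝ) ^ 2 := by ring

theorem G2.gs : ∃ C : ℕ, ∀ (T σ θ m : ℝ) (r : L → ℝ) (w : ℝ → ℝ) (d : ℤ) (F : Y → ℝ), Ht T d F → d ≤ 2 → -1 ≤ d →
    0 < σ → (∀ i, σ ≤ r i) → (∀ i, r i ≤ 1) → 1 / 2 ≤ θ → θ < 1 → G2 T r w m F →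
      GS T (fun i => θ * r i) w ((2 / (σ * (1 - θ))) ^ C * m) F := by
  obtain ⟨Cs, hCs, hS⟩ := cube_sob
  obtain ⟨C0, hC0⟩ := pow_unbounded_of_one_lt (Cs * 92160) (show (1 : ℝ) < 2 by norm_num)
  refine ⟨C0 + 8, ?_⟩
  intro T σ θ m r w d F hF hd2 hd1 hσ hr hr1 h1 h2 hG u t ht a ha
  have hσ1 : σ ≤ 1 := (hr none).trans (hr1 none)
  have r0 : ∀ i, 0 < r i := fun i => hσ.trans_le (hr i)
  have hδ : 0 < 1 - θ := by linarith
  have hp : 0 < σ * (1 - θ) := mul_pos hσ hδ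
  have hq : σ * (1 - θ) ≤ 1 - θ := mul_le_of_le_one_left hδ.le hσ1
  have hq' : σ * (1 - θ) ≤ σ := mul_le_of_le_one_right hσ.le (by linarith)
  have ru := rad_pos r0 u
  have mw : 0 ≤ m * w t := by
    have := hG [] t ht
    have p := mul_nonneg (n2_nonneg (sl (dw [] F) t)) (rad_pos r0 []).le
    simpa using p.trans this
  have hU := hF.dw u
  have key := hS (d - na u) (sl (dw u F) t) (σ * (1 - θ) / 8)
    (m * w t * ((u.length + 3)! : ℝ) ^ 2 / rad r u) (hU.sl ht) (by omega) (by positivity)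
    (by linarith) (fun v hv => by
      have e : n2 (v.foldr pd (sl (dw u F) t)) = n2 (sl (dw (v.map some ++ u) F) t) := by
        rw [dw_append]
        refine n2_congr fun y hy => sg_fold hU ht v y ?_
        rintro rfl; simp at hy
      have b := hG (v.map some ++ u) t ht
      rw [rad_append, List.length_append, List.length_map] at b
      have c := sg_rad hσ.le hr (v.map some)
      rw [List.length_map] at c
      have n0 := n2_nonneg (sl (dw (v.map some ++ u) F) t)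
      have f : ((v.length + u.length)! : ℝ) ≤ ((u.length + 3)! : ℝ) := by
        exact_mod_cast Nat.factorial_le (by omega)
      rw [e, le_div_iff₀ ru]
      calc (σ * (1 - θ) / 8) ^ v.length * n2 (sl (dw (v.map some ++ u) F) t) * rad r u
          ≤ σ ^ v.length * n2 (sl (dw (v.map some ++ u) F) t) * rad r u := by
            gcongr; linarith
        _ ≤ rad r (v.map some) * n2 (sl (dw (v.map some ++ u) F) t) * rad r u := by gcongr
        _ = n2 (sl (dw (v.map some ++ u) F) t) * (rad r (v.map some) * rad r u) := by ring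
        _ ≤ m * w t * ((v.length + u.length)! : ℝ) ^ 2 := b
        _ ≤ m * w t * ((u.length + 3)! : ℝ) ^ 2 := by gcongr) a ha
  have hk : (2 - (d - (na u : ℤ))).toNat ≤ u.length + 3 := by
    have : na u ≤ u.length := List.countP_le_length
    omega
  have num := sg_num hσ hσ1 h1 h2 hk
  have x2 : 2 ≤ 2 / (σ * (1 - θ)) := by
    rw [le_div_iff₀ hp]; linarith
  have xc : Cs * 92160 ≤ (2 / (σ * (1 - θ))) ^ C0 :=
    hC0.le.trans (pow_le_pow_left₀ (by norm_num) x2 C0)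
  have θ0 : 0 ≤ θ := by linarith
  rw [rad_scale]
  calc |dw u F (t, a)| * (θ ^ u.length * rad r u)
      ≤ (Cs * ((σ * (1 - θ) / 8)⁻¹) ^ 2 *
          ((1 - 2 * (σ * (1 - θ) / 8))⁻¹) ^ (2 - (d - (na u : ℤ))).toNat *
          (m * w t * ((u.length + 3)! : ℝ) ^ 2 / rad r u)) * (θ ^ u.length * rad r u) :=
        mul_le_mul_of_nonneg_right key (by positivity)
    _ = Cs * (m * w t) * (((σ * (1 - θ) / 8)⁻¹) ^ 2 *
          ((1 - 2 * (σ * (1 - θ) / 8))⁻¹) ^ (2 - (d - (na u : ℤ))).toNat * θ ^ u.length *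
          ((u.length + 3)! : ℝ) ^ 2) := by field_simp
    _ ≤ Cs * (m * w t) * (92160 * (2 / (σ * (1 - θ))) ^ 8 * (u.length ! : ℝ) ^ 2) :=
        mul_le_mul_of_nonneg_left num (mul_nonneg (by linarith) mw)
    _ = Cs * 92160 * ((2 / (σ * (1 - θ))) ^ 8 * (m * w t) * (u.length ! : ℝ) ^ 2) := by ring
    _ ≤ (2 / (σ * (1 - θ))) ^ C0 * ((2 / (σ * (1 - θ))) ^ 8 * (m * w t) * (u.length ! : ℝ) ^ 2) :=
        mul_le_mul_of_nonneg_right xc (by positivity)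
    _ = (2 / (σ * (1 - θ))) ^ (C0 + 8) * m * w t * (u.length ! : ℝ) ^ 2 := by ring

end Pool.Agent.Lib.MP_fbbbeb_an.B
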