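import Pool.Agent.Lib.MP_fbbbeb_an.B.Static
import Pool.Agent.Lib.MP_fbbbeb_an.B.Lev0
import Pool.Agent.Lib.MP_fbbbeb_an.B.Gev
import Pool.Agent.Lib.MP_fbbbeb_an.B.SobG
import Pool.Agent.Lib.MP_fbbbeb_an.B.PrimG
import Pool.Agent.Lib.MP_fbbbeb_an.B.Leib
import Pool.Agent.Lib.MP_fbbbeb_an.B.Iso
import Pool.Agent.Lib.MP_fbbbeb_an.B.Piola

/-! Section B: the base solver (finite Picard iteration). -/

set_option autoImplicit false

namespace Pool.Agent.Lib.MP_fbbbeb_an.B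

open scoped ContDiff RealInnerProductSpace Nat
open Set Pub MeasureTheory

variable {M : Set (E ≃ₗᵢ[ℝ] E)}

theorem Eqv.congr {V W : Fin 3 → E → ℝ} (h : Eqv M V) (e : ∀ i, ∀ x : E, x ≠ 0 → W i x = V i x) :
    Eqv M W := by
  intro O hO x hx
  have hOx : O x ≠ 0 := fun h0 => hx (O.injective (by rw [h0, map_zero]))
  have e1 : ∀ y : E, y ≠ 0 → vec W y = vec V y := fun y hy => by
    unfold vec; congr 1; funext i; exact e i y hy
  rw [e1 _ hOx, e1 _ hx]; exact h O hO x hx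

theorem Eqv.add {V W : Fin 3 → E → ℝ} (h : Eqv M V) (h' : Eqv M W) :
    Eqv M fun i x => V i x + W i x := by
  intro O hO x hx
  have e1 : ∀ y : E, vec (fun i x => V i x + W i x) y = vec V y + vec W y := fun y => by
    ext i; simp [vec]
  rw [e1, e1, map_add, h O hO x hx, h' O hO x hx]

theorem Eqv.zero : Eqv M fun _ _ => 0 := by
  intro O _ x _
  have e1 : ∀ y : E, vec (fun _ _ => (0 : ℝ)) y = 0 := fun y => by ext i; simp [vec]
  rw [e1, e1, map_zero]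

theorem Lev0.mono {A : Fin 3 → Fin 3 → E → ℝ} {K K' : ℝ} (h : Lev0 M A K) (hK : K ≤ K') :
    Lev0 M A K' := fun s H hs hi hH he i =>
  (h s H hs hi hH he i).trans
    (mul_le_mul_of_nonneg_right hK (Finset.sum_nonneg fun _ _ => n2_nonneg _))

theorem Pos.mono {A : Fin 3 → Fin 3 → E → ℝ} {K K' : ℝ} (h : Pos A K) (h0 : 0 < K) (hK : K ≤ K') :
    Pos A K' := fun y hy ξ => by
  have h1 := h y hy ξ
  have h2 : 0 ≤ ∑ i, ξ i ^ 2 := Finset.sum_nonneg fun _ _ => sq_nonneg _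
  have h3 : 0 ≤ ∑ i, ∑ j, A i j y * ξ i * ξ j := by
    by_contra hn
    push Not at hn
    nlinarith [mul_pos h0 (neg_pos.2 hn)]
  exact h1.trans (mul_le_mul_of_nonneg_right hK h3)

theorem GS.sup {T m : ℝ} {r : L → ℝ} {F : Y → ℝ} (h : GS T r (fun _ => 1) m F) {t : ℝ}
    (ht : t ∈ Ioo 0 T) {a : E} (ha : ‖a‖ = 1) : |F (t, a)| ≤ m := by
  simpa [dw, rad] using h [] t ht a ha

theorem DifT.jac_ht {T : ℝ} {X : Y → E} (hX : DifT M T X) (i j : Fin 3) :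
    Ht T 0 fun z => jacT X z i j := by
  have h1 := ((hX.ht i).da j).cast (d' := 0) (by norm_num)
  exact h1.congr fun z hz => pd_sl (hX.ht i) j hz

/-- the data of the solver -/
structure Dat (M : Set (E ≃ₗᵢ[ℝ] E)) (T lam σ K1 k : ℝ) (r : L → ℝ) (w : ℝ → ℝ) (X : Y → E)
    (B : Fin 3 → Fin 3 → Y → ℝ) : Prop where
  sym : Sym M
  dif : DifT M T X
  hσ : 0 < σ
  lo : ∀ i, σ ≤ r i
  hi : ∀ i, r i ≤ 1
  hl : 0 < lam
  wt : Wt T lam w
  K0 : 0 ≤ K1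
  k0 : 0 ≤ k
  At : ∀ i j, Ht T 0 fun z => ah (jacT X z) i j
  Ag : ∀ i j, GS T r (fun _ => 1) K1 fun z => ah (jacT X z) i j
  Bt : ∀ i j, Ht T 0 (B i j)
  Bg : ∀ i j, GS T r (fun _ => 1) K1 (B i j)
  Be : ∀ t ∈ Ioo 0 T, ∀ V : Fin 3 → E → ℝ, Eqv M V → Eqv M fun i a => ∑ j, B i j (t, a) * V j a
  gev : ∀ (m : ℝ) (q : Y → ℝ) (H : Fin 3 → Y → ℝ), (∀ t ∈ Ioo 0 T, IsInv M (sl q t) ∧
      Ell (fun i j a => ah (jacT X (t, a)) i j) (sl q t) fun i => sl (H i) t) → Ht T 2 q →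
      (∀ i, Ht T 1 (H i)) → (∀ i, G2 T r w m (H i)) → ∀ i, G2 T r w (k * m) (dd (some i) q)
  s1 : (lam⁻¹ + r none) * (9 * K1 * (k * (9 * K1) + 1)) ≤ 1
  s2 : 9 * K1 * ((lam⁻¹ + r none) * (9 * K1 * (k * (9 * K1) + 1))) ≤ 1 / 2

theorem g2_mv {T K1 m : ℝ} {r : L → ℝ} {w : ℝ → ℝ} (hr : ∀ i, 0 < r i) {A : Fin 3 → Y → ℝ}
    {h : Fin 3 → Y → ℝ} (hA : ∀ j, Ht T 0 (A j)) (gA : ∀ j, GS T r (fun _ => 1) K1 (A j))
    (hh : ∀ j, Ht T 1 (h j)) (gh : ∀ j, G2 T r w m (h j)) :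
    (Ht T 1 fun z => ∑ j, A j z * h j z) ∧ G2 T r w (9 * K1 * m) fun z => ∑ j, A j z * h j z := by
  have h1 : ∀ j, Ht T 1 fun z => A j z * h j z := fun j =>
    ((hA j).mul (hh j)).cast (by norm_num)
  refine ⟨Ht.sum _ fun j _ => h1 j, ?_⟩
  have h2 := G2.sum (μ := fun _ => 3 * K1 * m) hr Finset.univ (fun j _ => h1 j)
    fun j _ => G2.mul hr (hA j) (hh j) (gA j) (gh j)
  have e : (∑ _j : Fin 3, 3 * K1 * m) = 9 * K1 * m := by simp; ring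
  rwa [e] at h2

theorem Dat.step {T lam σ K1 k : ℝ} {r : L → ℝ} {w : ℝ → ℝ} {X : Y → E} {B : Fin 3 → Fin 3 → Y → ℝ}
    (D : Dat M T lam σ K1 k r w X B) {m : ℝ} (hm : 0 ≤ m) {h : Fin 3 → Y → ℝ} (hh : ∀ i, Ht T 1 (h i))
    (he : ∀ t ∈ Ioo 0 T, Eqv M fun i => sl (h i) t) (gh : ∀ i, G2 T r w m (h i)) :
    ∃ (ζ : Fin 3 → Y → ℝ) (q : Y → ℝ), Ht T 2 q ∧ (∀ i, Ht T 1 (ζ i) ∧ G2 T r w m (ζ i) ∧
        G2 T r w (m / 2) fun z => ∑ k, B i k z * ζ k z) ∧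
      (∀ t ∈ Ioo 0 T, Eqv M fun i => sl (ζ i) t) ∧
      ∀ z ∈ Om T, ∑ i, dd (some i) (ζ i) z = 0 ∧
        ∀ i, dd none (ζ i) z = ∑ j, ah (jacT X z) i j * (dd (some j) q z + h j z) := by
  have hr : ∀ i, 0 < r i := fun i => D.hσ.trans_le (D.lo i)
  obtain ⟨q, hq, hs⟩ := static D.sym D.dif hh he
  have hH := fun i => g2_mv hr (D.At i) (D.Ag i) hh gh
  have gq := D.gev (9 * K1 * m) q (fun i z => ∑ j, ah (jacT X z) i j * h j z) hs hq
    (fun i => (hH i).1) fun i => (hH i).2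
  have hdq : ∀ j, Ht T 1 (dd (some j) q) := fun j => (hq.da j).cast (by norm_num)
  have hV : ∀ j, Ht T 1 fun z => dd (some j) q z + h j z := fun j => (hdq j).add (hh j)
  have gV : ∀ j, G2 T r w (k * (9 * K1 * m) + m) fun z => dd (some j) q z + h j z := fun j =>
    G2.add hr (hdq j) (hh j) (gq j) (gh j)
  have hη := fun i => g2_mv hr (D.At i) (D.Ag i) hV gV
  set η : Fin 3 → Y → ℝ := fun i z => ∑ j, ah (jacT X z) i j * (dd (some j) q z + h j z) with hηd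
  obtain ⟨C, hC⟩ := G2.gs
  have bη : ∀ i, Bd T (η i) := fun i =>
    GS.bd (fun j => mul_pos (by norm_num) (hr j)) D.hl.le D.wt
      (hC T σ (1 / 2) _ r w 1 (η i) (hη i).1 (by norm_num) (by norm_num) D.hσ D.lo D.hi le_rfl
        (by norm_num) (hη i).2)
  have eη : ∀ t ∈ Ioo 0 T, Eqv M fun i => sl (η i) t := fun t ht => by
    have e1 : Eqv M fun j x => pd j (sl q t) x + sl (h j) t x :=
      (IsInv.grad (hq.sl ht) (hs t ht).1).add (he t ht)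
    refine ((D.dif.dif t ht).ah_eqv e1).congr fun i x hx => ?_
    refine Finset.sum_congr rfl fun j _ => ?_
    rw [pd_sl hq j (z := (t, x)) ⟨ht, hx⟩]
    rfl
  have dη : ∀ z ∈ Om T, ∑ i, dd (some i) (η i) z = 0 := fun z hz => by
    rw [← (hs z.1 hz.1).2 z.2 hz.2]
    refine Finset.sum_congr rfl fun i _ => ?_
    rw [← pd_sl (hη i).1 i hz]
    refine pd_congr (fun y hy => ?_) i hz.2
    simp only [sl, mul_add, Finset.sum_add_distrib]
    congr 1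
    refine Finset.sum_congr rfl fun j _ => ?_
    rw [← pd_sl hq j (z := (z.1, y)) ⟨hz.1, hy⟩]
  have hζ : ∀ i, Ht T 1 (prim (η i)) := fun i => (hη i).1.prim (bη i)
  have gζ : ∀ i, G2 T r w ((lam⁻¹ + r none) * (9 * K1 * (k * (9 * K1) + 1)) * m) (prim (η i)) := fun i => by
    have := G2.prim hr D.hl D.wt (hη i).1 (bη i) (hη i).2
    convert this using 1; ring
  refine ⟨fun i => prim (η i), q, hq, fun i => ⟨hζ i, ?_, ?_⟩, eqv_prim (fun i => (hη i).1) bη eη,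
    fun z hz => ⟨div_prim (fun i => (hη i).1) bη dη z hz, fun i => dt_prim (hη i).1 (bη i) z hz⟩⟩
  · exact (gζ i).mono (by nlinarith [D.s1]) D.wt.1
  · exact (g2_mv hr (D.Bt i) (D.Bg i) hζ gζ).2.mono (by nlinarith [D.s2]) D.wt.1

theorem dd_add {T : ℝ} {d d' : ℤ} {F G : Y → ℝ} (hF : Ht T d F) (hG : Ht T d' G) (i : L) {z : Y}
    (hz : z ∈ Om T) : dd i (fun z => F z + G z) z = dd i F z + dd i G z :=
  dw_add hF hG [i] z hz

theorem Dat.iter {T lam σ K1 k : ℝ} {r : L → ℝ} {w : ℝ → ℝ} {X : Y → E} {B : Fin 3 → Fin 3 → Y → ℝ}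
    (D : Dat M T lam σ K1 k r w X B) (n : ℕ) : ∀ (m : ℝ), 0 ≤ m → ∀ h : Fin 3 → Y → ℝ,
    (∀ i, Ht T 1 (h i)) → (∀ t ∈ Ioo 0 T, Eqv M fun i => sl (h i) t) → (∀ i, G2 T r w m (h i)) →
    ∃ (ζ ρ : Fin 3 → Y → ℝ) (q : Y → ℝ), Ht T 2 q ∧
      (∀ i, Ht T 1 (ζ i) ∧ Ht T 1 (ρ i) ∧ G2 T r w (2 * m) (ζ i) ∧ G2 T r w (m / 2 ^ n) (ρ i)) ∧
      (∀ t ∈ Ioo 0 T, Eqv M fun i => sl (ζ i) t) ∧
      ∀ z ∈ Om T, ∑ i, dd (some i) (ζ i) z = 0 ∧ ∀ i, dd none (ζ i) z =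
        ∑ j, ah (jacT X z) i j * (dd (some j) q z + ∑ k, B j k z * ζ k z + h j z + ρ j z) := by
  have hr : ∀ i, 0 < r i := fun i => D.hσ.trans_le (D.lo i)
  induction n with
  | zero =>
    intro m hm h hh he gh
    have z0 : ∀ (i : L) (z : Y), dd i (fun _ => (0 : ℝ)) z = 0 := fun i z => by simp [dd]
    refine ⟨fun _ _ => 0, fun i z => (-1) * h i z, fun _ => 0, Ht.zero T 2,
      fun i => ⟨Ht.zero T 1, (hh i).cmul _, ?_, ?_⟩, fun t _ => Eqv.zero, fun z _ => ⟨?_, fun i => ?_⟩⟩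
    · have := (G2.cmul 0 (hh i) (gh i)).congr (G := fun _ => 0) fun z _ => by simp
      exact this.mono (by simp; linarith) D.wt.1
    · simpa using G2.cmul (-1) (hh i) (gh i)
    · simp [z0]
    · simp [z0]
  | succ n ih =>
    intro m hm h hh he gh
    obtain ⟨ζ1, q1, hq1, h1, e1, d1⟩ := D.step hm hh he gh
    have hB := fun i => (g2_mv hr (D.Bt i) (D.Bg i) (fun j => (h1 j).1) fun j => (h1 j).2.1).1
    obtain ⟨ζ2, ρ, q2, hq2, h2, e2, d2⟩ := ih (m / 2) (by linarith) (fun i z => ∑ k, B i k z * ζ1 k z) hB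
      (fun t ht => D.Be t ht _ (e1 t ht)) fun i => (h1 i).2.2
    refine ⟨fun i z => ζ1 i z + ζ2 i z, ρ, fun z => q1 z + q2 z, hq1.add hq2,
      fun i => ⟨(h1 i).1.add (h2 i).1, (h2 i).2.1, ?_, ?_⟩, fun t ht => (e1 t ht).add (e2 t ht),
      fun z hz => ⟨?_, fun i => ?_⟩⟩
    · exact (G2.add hr (h1 i).1 (h2 i).1 (h1 i).2.1 (h2 i).2.2.1).mono (by linarith) D.wt.1
    · have := (h2 i).2.2.2
      rwa [div_div, ← pow_succ'] at this
    · rw [Finset.sum_congr rfl fun i _ => dd_add (h1 i).1 (h2 i).1 (some i) hz, Finset.sum_add_distrib,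
        (d1 z hz).1, (d2 z hz).1, add_zero]
    · rw [dd_add (h1 i).1 (h2 i).1 none hz, (d1 z hz).2 i, (d2 z hz).2 i, ← Finset.sum_add_distrib]
      refine Finset.sum_congr rfl fun j _ => ?_
      rw [dd_add hq1 hq2 (some j) hz]
      simp only [mul_add, Finset.sum_add_distrib]
      ring

theorem solv0 : ∃ C : ℕ, ∀ (M : Set (E ≃ₗᵢ[ℝ] E)) (T K σ θ lam c ε : ℝ) (r0 r : L → ℝ) (w : ℝ → ℝ) (X : Y → E)
    (B : Fin 3 → Fin 3 → Y → ℝ) (f : Fin 3 → Y → ℝ), Sym M → DifT M T X → 2 ≤ K → 0 < σ →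
    (∀ i, σ ≤ r i) → (∀ i, r i * K ^ C ≤ r0 i) → (∀ i, r0 i ≤ 1) → K ^ C ≤ lam → Wt T lam w →
    1 / 2 ≤ θ → θ < 1 → 0 ≤ c → 0 < ε →
    (∀ i j, GS T r0 (fun _ => 1) K fun z => jacT X z i j) →
    (GS T r0 (fun _ => 1) K fun z => (jacT X z).det⁻¹) →
    (∀ i j, Ht T 0 (B i j) ∧ GS T r0 (fun _ => 1) K (B i j)) →
    (∀ t ∈ Ioo 0 T, ∀ V : Fin 3 → E → ℝ, Eqv M V → Eqv M fun i a => ∑ j, B i j (t, a) * V j a) →
    (∀ i, Ht T 1 (f i) ∧ GS T r w c (f i)) → (∀ t ∈ Ioo 0 T, Eqv M fun i => sl (f i) t) →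
    ∃ (ζ ρ : Fin 3 → Y → ℝ) (q : Y → ℝ), Ht T 2 q ∧
      (∀ i, Ht T 1 (ζ i) ∧ Ht T 1 (ρ i) ∧
        GS T (fun i => θ * r i) w ((K / (σ * (1 - θ))) ^ C * c) (ζ i) ∧
        GS T (fun i => θ * r i) w (ε * c) (ρ i)) ∧
      (∀ t ∈ Ioo 0 T, Eqv M fun i => sl (ζ i) t) ∧
      ∀ z ∈ Om T, ∑ i, dd (some i) (ζ i) z = 0 ∧ ∀ i, dd none (ζ i) z =
        ∑ j, ah (jacT X z) i j * (dd (some j) q z + ∑ k, B j k z * ζ k z + f j z + ρ j z) := by
  obtain ⟨Cl, hl⟩ := lev0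
  obtain ⟨Cg, hg⟩ := gev_l2
  obtain ⟨Cs, hs⟩ := G2.gs
  obtain ⟨n0, hn0⟩ := pow_unbounded_of_one_lt (2 * n2 fun _ => 1) (one_lt_two (α := ℝ))
  refine ⟨12 + (Cl + 16) * Cg + 3 * (Cl + 16) + Cs + n0, ?_⟩
  intro M T K σ θ lam c ε r0 r w X B f hM hX hK hσ lo hr0 hi0 hlam hw hθ hθ1 hc hε gF gJ hB eB hf ef
  set C := 12 + (Cl + 16) * Cg + 3 * (Cl + 16) + Cs + n0 with hC
  have K1 : (1 : ℝ) ≤ K := by linarith
  have K0 : (0 : ℝ) < K := by linarith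
  have pm : ∀ {a b : ℕ}, a ≤ b → K ^ a ≤ K ^ b := fun h => pow_le_pow_right₀ K1 h
  have p1 : ∀ a : ℕ, 1 ≤ K ^ a := fun a => one_le_pow₀ K1
  have hr : ∀ i, 0 < r i := fun i => hσ.trans_le (lo i)
  have rr0 : ∀ i, r i ≤ r0 i := fun i => le_trans (le_mul_of_one_le_right (hr i).le (p1 C)) (hr0 i)
  have hr0p : ∀ i, 0 < r0 i := fun i => (hr i).trans_le (rr0 i)
  have hi : ∀ i, r i ≤ 1 := fun i => (rr0 i).trans (hi0 i)
  have one : ∀ t ∈ Ioo (0 : ℝ) T, (0 : ℝ) ≤ (fun _ => 1) t := fun _ _ => zero_le_one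
  have hA := fun i j => ah_gs (Φ := jacT X) hr0p hK hX.jac_ht
    (fun z hz => ((hX.dif z.1 hz.1).pos z.2 hz.2).ne') gF gJ i j
  set K1' := K ^ (Cl + 16) with hK1'
  have KK : K ≤ K1' := by simpa using pm (a := 1) (b := Cl + 16) (by omega)
  have gA : ∀ i j, GS T r0 (fun _ => 1) K1' fun z => ah (jacT X z) i j := fun i j =>
    (hA i j).2.mono (fun l => (hr0p l).le) (fun _ => le_rfl) (pm (by omega)) one
  have K4 : (16 : ℝ) ≤ K ^ 4 := by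
    have := pow_le_pow_left₀ (by norm_num) hK 4
    norm_num at this
    exact this
  have K12 : (4096 : ℝ) ≤ K ^ 12 := by
    have := pow_le_pow_left₀ (by norm_num) hK 12
    norm_num at this
    exact this
  have hlam0 : 0 < lam := (pow_pos K0 C).trans_le hlam
  have small : lam⁻¹ + r none ≤ 2 / K ^ C := by
    have h1 : lam⁻¹ ≤ 1 / K ^ C := by
      rw [one_div]; exact inv_anti₀ (pow_pos K0 C) hlam
    have h2 : r none ≤ 1 / K ^ C := by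
      rw [le_div_iff₀ (pow_pos K0 C)]; exact (hr0 none).trans (hi0 none)
    have : 2 / K ^ C = 1 / K ^ C + 1 / K ^ C := by ring
    linarith
  have k1 : 1 ≤ K1' ^ Cg := one_le_pow₀ (p1 _)
  have q1 : 1 ≤ K1' := p1 _
  have s2 : 9 * K1' * ((lam⁻¹ + r none) * (9 * K1' * (K1' ^ Cg * (9 * K1') + 1))) ≤ 1 / 2 := by
    have h1 : K1' ^ Cg * (9 * K1') + 1 ≤ 10 * (K1' ^ Cg * K1') := by nlinarith
    have h2 : K ^ 12 * (K1' ^ Cg * K1' ^ 3) ≤ K ^ C := by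
      rw [hK1', ← pow_mul, ← pow_mul, ← pow_add, ← pow_add]
      exact pm (by omega)
    have h3 : 0 ≤ K1' ^ Cg * K1' ^ 3 := by positivity
    calc 9 * K1' * ((lam⁻¹ + r none) * (9 * K1' * (K1' ^ Cg * (9 * K1') + 1)))
        ≤ 9 * K1' * ((2 / K ^ C) * (9 * K1' * (10 * (K1' ^ Cg * K1')))) := by gcongr
      _ = 1620 * (K1' ^ Cg * K1' ^ 3) / K ^ C := by ring
      _ ≤ 1 / 2 := by
        rw [div_le_iff₀ (pow_pos K0 C)]
        nlinarith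
  have D : Dat M T lam σ K1' (K1' ^ Cg) r w X B :=
    { sym := hM, dif := hX, hσ := hσ, lo := lo, hi := hi, hl := hlam0, wt := hw
      K0 := by positivity, k0 := by positivity
      At := fun i j => (hA i j).1
      Ag := fun i j => (gA i j).mono (fun l => (hr l).le) rr0 le_rfl one
      Bt := fun i j => (hB i j).1
      Bg := fun i j => (hB i j).2.mono (fun l => (hr l).le) rr0 KK one
      Be := eB
      gev := fun m q H h hq hH gH => by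
        refine hg M T K1' m r0 r w (fun i j z => ah (jacT X z) i j) q H (hK.trans KK) hr (fun i => ?_) hi0
          (fun i j => (hA i j).1) gA (fun t ht => ⟨?_, ?_, (h t ht).1, (h t ht).2⟩) hq hH gH
        · refine le_trans (mul_le_mul_of_nonneg_left ?_ (hr i).le) (hr0 i)
          rw [hK1', ← pow_mul]
          exact pm (by omega)
        · refine Pos.mono (K := 9 * K ^ 3) (fun y hy ξ => ?_) (by positivity) ?_
          · have hy0 : y ≠ 0 := by rintro rfl; simp at hy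
            exact ah_pos K1 (fun i j => (gF i j).sup ht hy) ((hX.dif t ht).pos y hy0)
              ((le_abs_self _).trans (gJ.sup ht hy)) ξ
          · have h1 : K ^ 4 * K ^ 3 ≤ K1' := by rw [← pow_add]; exact pm (by omega)
            nlinarith [p1 3]
        · exact (hl M hM _ K hK (hX.dif t ht) fun a ha => ⟨fun i j => (gF i j).sup ht ha,
            (le_abs_self _).trans (gJ.sup ht ha)⟩).mono (pm (by omega))
      s1 := by
        have h0 : 0 ≤ (lam⁻¹ + r none) * (9 * K1' * (K1' ^ Cg * (9 * K1') + 1)) := by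
          have := hr none
          positivity
        nlinarith
      s2 := s2 }
  have N0 : 0 ≤ n2 fun _ => (1 : ℝ) := n2_nonneg _
  set N := n2 fun _ => (1 : ℝ) with hN
  have hθ' : 0 < 1 - θ := by linarith
  have hσθ : 0 < σ * (1 - θ) := mul_pos hσ hθ'
  have hσθ1 : σ * (1 - θ) ≤ 1 := by
    have := (lo none).trans (hi none)
    nlinarith
  obtain ⟨n, hn⟩ := pow_unbounded_of_one_lt ((2 / (σ * (1 - θ))) ^ Cs * N / ε) (one_lt_two (α := ℝ))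
  obtain ⟨ζ, ρ, q, hq, h1, h2, h3⟩ := D.iter n (c * N) (by positivity) f (fun i => (hf i).1) ef
    fun i => GS.g2 hr (hf i).1 (hf i).2
  have hrθ : ∀ i, 0 ≤ θ * r i := fun i => mul_nonneg (by linarith) (hr i).le
  refine ⟨ζ, ρ, q, hq, fun i => ⟨(h1 i).1, (h1 i).2.1, ?_, ?_⟩, h2, h3⟩
  · refine (hs T σ θ _ r w 1 (ζ i) (h1 i).1 (by norm_num) (by norm_num) hσ lo hi hθ hθ1
      (h1 i).2.2.1).mono hrθ (fun _ => le_rfl) ?_ hw.1
    have x2 : 2 ≤ K / (σ * (1 - θ)) := by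
      rw [le_div_iff₀ hσθ]; nlinarith
    have x3 : 2 / (σ * (1 - θ)) ≤ K / (σ * (1 - θ)) := by gcongr
    calc (2 / (σ * (1 - θ))) ^ Cs * (2 * (c * N)) = (2 / (σ * (1 - θ))) ^ Cs * (2 * N) * c := by ring
      _ ≤ (K / (σ * (1 - θ))) ^ Cs * (K / (σ * (1 - θ))) ^ n0 * c := by
        gcongr
        exact hn0.le.trans (pow_le_pow_left₀ (by norm_num) x2 n0)
      _ ≤ (K / (σ * (1 - θ))) ^ C * c := by
        rw [← pow_add]
        exact mul_le_mul_of_nonneg_right (pow_le_pow_right₀ (by linarith) (by omega)) hc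
  · refine (hs T σ θ _ r w 1 (ρ i) (h1 i).2.1 (by norm_num) (by norm_num) hσ lo hi hθ hθ1
      (h1 i).2.2.2).mono hrθ (fun _ => le_rfl) ?_ hw.1
    rw [div_lt_iff₀ hε] at hn
    have e : (2 / (σ * (1 - θ))) ^ Cs * (c * N / 2 ^ n) = (2 / (σ * (1 - θ))) ^ Cs * N / 2 ^ n * c := by
      ring
    rw [e]
    refine mul_le_mul_of_nonneg_right ?_ hc
    rw [div_le_iff₀ (by positivity)]
    linarith

end Pool.Agent.Lib.MP_fbbbeb_an.B
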