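import Pool.Agent.Lib.MP_fbbbeb_an.B.Kit
import Pool.Agent.Lib.MP_fbbbeb_an.B.KitT
import Pool.Agent.Lib.MP_fbbbeb_an.B.Iso
import Pool.Agent.Lib.MP_fbbbeb_an.B.Par
import Pool.Agent.Lib.MP_fbbbeb_an.B.Ex
import Pool.Agent.Lib.MP_fbbbeb_an.B.Piola
import Pool.Agent.Lib.MP_fbbbeb_an.B.InvMap

/-! Section B, S6c: the static elliptic problem in Lagrangian coordinates. -/

set_option autoImplicit false

namespace Pool.Agent.Lib.MP_fbbbeb_an.B

open scoped ContDiff RealInnerProductSpace Nat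
open Set Pub MeasureTheory Matrix

variable {M : Set (E ≃ₗᵢ[ℝ] E)} {d d' : ℤ} {f g : E → ℝ}

namespace Sta

/-- matrix of an isometry -/
noncomputable def om (O : E ≃ₗᵢ[ℝ] E) : Matrix (Fin 3) (Fin 3) ℝ := Matrix.of fun i j => O (e j) i

theorem om_apply (O : E ≃ₗᵢ[ℝ] E) (v : E) (i : Fin 3) : O v i = ∑ j, om O i j * v j := by
  have h1 : v = ∑ j, v j • e j := by
    ext k
    simp [e, Fin.sum_univ_three]
    fin_cases k <;> simp
  conv_lhs => rw [h1]
  simp [om, map_sum, mul_comm]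

theorem om_orth (O : E ≃ₗᵢ[ℝ] E) : (om O)ᵀ * om O = 1 := by
  ext i j
  have h := O.inner_map_map (e i) (e j)
  rw [EuclideanSpace.inner_eq_star_dotProduct, EuclideanSpace.inner_eq_star_dotProduct] at h
  simp only [Matrix.mul_apply, Matrix.transpose_apply, om, Matrix.of_apply]
  simp only [dotProduct, star_trivial] at h
  rw [show (∑ k, O (e i) k * O (e j) k) = ∑ k, O (e j) k * O (e i) k from
    Finset.sum_congr rfl fun k _ => mul_comm _ _, h]
  simp [e, Matrix.one_apply]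

/-- `F⁻ᵀ h` -/
noncomputable def wv (F : Matrix (Fin 3) (Fin 3) ℝ) (h : Fin 3 → ℝ) (i : Fin 3) : ℝ :=
  F.det⁻¹ * ∑ j, F.adjugate j i * h j

theorem wv_eq (F : Matrix (Fin 3) (Fin 3) ℝ) (h : Fin 3 → ℝ) :
    wv F h = F.det⁻¹ • (F.adjugateᵀ *ᵥ h) := by
  ext i
  simp [wv, Matrix.mulVec, dotProduct]

theorem mul_wv {F : Matrix (Fin 3) (Fin 3) ℝ} (h0 : F.det ≠ 0) (h : Fin 3 → ℝ) : Fᵀ *ᵥ wv F h = h := by
  rw [wv_eq, Matrix.mulVec_smul, Matrix.mulVec_mulVec, ← Matrix.transpose_mul, Matrix.adjugate_mul,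
    Matrix.transpose_smul, Matrix.transpose_one, Matrix.smul_mulVec, Matrix.one_mulVec, smul_smul,
    inv_mul_cancel₀ h0, one_smul]

theorem wv_mul {F : Matrix (Fin 3) (Fin 3) ℝ} (h0 : F.det ≠ 0) (v : Fin 3 → ℝ) : wv F (Fᵀ *ᵥ v) = v := by
  rw [wv_eq, Matrix.mulVec_mulVec, ← Matrix.transpose_mul, Matrix.mul_adjugate,
    Matrix.transpose_smul, Matrix.transpose_one, Matrix.smul_mulVec, Matrix.one_mulVec, smul_smul,
    inv_mul_cancel₀ h0, one_smul]

theorem wv_conj {F P : Matrix (Fin 3) (Fin 3) ℝ} (hP : Pᵀ * P = 1) (h0 : F.det ≠ 0)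
    (h1 : (P * F * Pᵀ).det ≠ 0) (h : Fin 3 → ℝ) : wv (P * F * Pᵀ) (P *ᵥ h) = P *ᵥ wv F h := by
  have e1 : P *ᵥ h = (P * F * Pᵀ)ᵀ *ᵥ (P *ᵥ wv F h) := by
    rw [Matrix.mulVec_mulVec, Matrix.transpose_mul, Matrix.transpose_mul, Matrix.transpose_transpose,
      Matrix.mul_assoc, Matrix.mul_assoc, hP, Matrix.mul_one, ← Matrix.mulVec_mulVec, mul_wv h0]
  rw [e1, wv_mul h1]

theorem ah_mulVec (F : Matrix (Fin 3) (Fin 3) ℝ) (h : Fin 3 → ℝ) : ah F *ᵥ h = F.adjugate *ᵥ wv F h := by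
  rw [wv_eq, ah, Matrix.smul_mulVec, Matrix.mulVec_smul, Matrix.mulVec_mulVec]

theorem key {F : Matrix (Fin 3) (Fin 3) ℝ} (h0 : F.det ≠ 0) (p h : Fin 3 → ℝ) (i : Fin 3) :
    ∑ j, ah F i j * (∑ k, p k * F k j) + ∑ j, ah F i j * h j =
      ∑ k, F.adjugate i k * (p k + wv F h k) := by
  have a1 := congrFun (ah_mulVec F (Fᵀ *ᵥ p)) i
  rw [wv_mul h0] at a1
  have a2 := congrFun (ah_mulVec F h) i
  simp only [Matrix.mulVec, dotProduct, Matrix.transpose_apply] at a1 a2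
  simp only [mul_add, Finset.sum_add_distrib]
  rw [← a1, ← a2]
  congr 1
  exact Finset.sum_congr rfl fun j _ => by
    congr 1
    exact Finset.sum_congr rfl fun k _ => mul_comm _ _

theorem ht_prod {T : ℝ} {ι : Type} (s : Finset ι) {Φ : ι → Y → ℝ} (h : ∀ i, Ht T 0 (Φ i)) :
    Ht T 0 fun z => ∏ i ∈ s, Φ i z := by
  classical
  induction s using Finset.induction_on with
  | empty => simpa using Ht.const T 1
  | insert a s ha ih =>
    simp only [Finset.prod_insert ha]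
    exact ((h a).mul ih).cast (by simp)

theorem ht_det {T : ℝ} {Φ : Y → Matrix (Fin 3) (Fin 3) ℝ} (h : ∀ i j, Ht T 0 fun z => Φ z i j) :
    Ht T 0 fun z => (Φ z).det := by
  simp only [Matrix.det_apply']
  exact Ht.sum _ fun σ _ => Ht.cmul _ (ht_prod _ fun i => h (σ i) i)

theorem ht_adj {T : ℝ} {Φ : Y → Matrix (Fin 3) (Fin 3) ℝ} (h : ∀ i j, Ht T 0 fun z => Φ z i j)
    (i j : Fin 3) : Ht T 0 fun z => (Φ z).adjugate i j := by
  simp only [Matrix.adjugate_apply]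
  refine ht_det fun k l => ?_
  simp only [Matrix.updateRow_apply]
  split_ifs
  · exact Ht.const T _
  · exact h k l

theorem ht_jac {T : ℝ} {X : Y → E} (hX : DifT M T X) (i j : Fin 3) : Ht T 0 fun z => jacT X z i j :=
  (((hX.ht i).da j).cast (by simp)).congr fun _ hz => pd_sl (hX.ht i) j hz

theorem ht_wv {T : ℝ} {X : Y → E} (hX : DifT M T X) {h : Fin 3 → Y → ℝ} (hh : ∀ i, Ht T 1 (h i))
    (i : Fin 3) : Ht T 1 fun z => wv (jacT X z) (fun j => h j z) i := by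
  have h1 := (ht_det (ht_jac hX)).inv fun z hz => ((hX.dif z.1 hz.1).pos z.2 hz.2).ne'
  have h2 : Ht T 1 fun z => ∑ j, (jacT X z).adjugate j i * h j z :=
    Ht.sum _ fun j _ => ((ht_adj (ht_jac hX) j i).mul (hh j)).cast (by simp)
  exact (h1.mul h2).cast (by simp)

theorem eqv_iff {V : Fin 3 → E → ℝ} : Eqv M V ↔ ∀ O ∈ M, ∀ x : E, x ≠ 0 →
    (fun i => V i (O x)) = om O *ᵥ fun i => V i x := by
  refine forall₂_congr fun O _ => forall₂_congr fun x _ => ?_
  constructor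
  · intro h
    ext i
    have := congrArg (fun v : E => v i) h
    simp only [om_apply] at this
    exact this
  · intro h
    ext i
    rw [om_apply]
    exact congrFun h i

end Sta

open Sta in
theorem static (hM : Sym M) {T : ℝ} {X : Y → E} (hX : DifT M T X) {h : Fin 3 → Y → ℝ}
    (hh : ∀ i, Ht T 1 (h i)) (he : ∀ t ∈ Ioo 0 T, Eqv M fun i => sl (h i) t) :
    ∃ q : Y → ℝ, Ht T 2 q ∧ ∀ t ∈ Ioo 0 T, IsInv M (sl q t) ∧
      Ell (fun i j a => ah (jacT X (t, a)) i j) (sl q t)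
        fun i a => ∑ j, ah (jacT X (t, a)) i j * h j (t, a) := by
  obtain ⟨Xi, hi1, hi2⟩ := hX.inv
  let W : Fin 3 → Y → ℝ := fun i z => wv (jacT X z) (fun j => h j z) i
  let V : Fin 3 → Y → ℝ := fun i z => W i (z.1, Xi z)
  have hV : ∀ i, Ht T 1 (V i) := fun i =>
    (ht_wv hX hh i).compT hi1 fun t ht a ha => (hi2 t ht a ha).1
  let G : Y → ℝ := fun z => (-1) * ∑ i, dd (some i) (V i) z
  have hG : Ht T 0 G := Ht.cmul _ (Ht.sum _ fun i _ => ((hV i).da i).cast (by simp))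
  have hP := hG.sop
  have hX0 : ∀ t ∈ Ioo 0 T, ∀ a : E, a ≠ 0 → X (t, a) ≠ 0 := fun t ht a ha =>
    (hX.dif t ht).bij.mapsTo ha
  refine ⟨_, hP.compT hX.ht hX0, fun t ht => ?_⟩
  have hD := hX.dif t ht
  have hVt : ∀ i, Hm 1 (sl (V i) t) := fun i => (hV i).sl ht
  have hGt : Hm 0 (sl G t) := hG.sl ht
  have hGe : ∀ x : E, x ≠ 0 → sl G t x = -∑ i, pd i (sl (V i) t) x := fun x hx => by
    have : ∀ i, pd i (sl (V i) t) x = dd (some i) (V i) (t, x) := fun i =>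
      pd_sl (hV i) i (z := (t, x)) ⟨ht, hx⟩
    simp only [this, sl, G, neg_mul, one_mul]
  have hWe : Eqv M fun i => sl (W i) t := by
    refine eqv_iff.2 fun O hO a ha => ?_
    have e1 := hD.jac_eqv hO ha
    have e2 := eqv_iff.1 (he t ht) O hO a ha
    have e3 := (hD.pos _ (InvMap.iso_ne O ha)).ne'
    show wv (jac (fun b => X (t, b)) (O a)) (fun j => sl (h j) t (O a)) =
      om O *ᵥ wv (jac (fun b => X (t, b)) a) fun j => sl (h j) t a
    rw [e1] at e3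
    rw [e1, e2]
    exact wv_conj (om_orth O) (hD.pos a ha).ne' e3 _
  have hVe : Eqv M fun i => sl (V i) t := fun O hO a ha => by
    have e1 := hWe O hO _ (hi2 t ht a ha).1
    rw [← (hi2 t ht a ha).2.2.2 O hO] at e1
    exact e1
  have hGi : IsInv M (sl G t) := fun O hO x hx => by
    rw [hGe x hx, hGe _ (InvMap.iso_ne O hx)]
    exact congrArg Neg.neg (Eqv.div hVt hVe O hO x hx)
  have hPt : Hm 2 (Sop (sl G t)) := hGt.sop
  refine ⟨fun O hO a ha => ?_, fun x hx => ?_⟩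
  · show Sop (sl G t) (X (t, O a)) = Sop (sl G t) (X (t, a))
    rw [hD.eqv O hO a ha]
    exact hGi.sop O hO _ (hX0 t ht a ha)
  · have hU : ∀ k, Hm 1 fun y => pd k (Sop (sl G t)) y + sl (V k) t y := fun k =>
      ((hPt.pd k).cast (by simp)).add (hVt k)
    have e1 := hD.piola hU hx
    have e2 : ∑ i, pd i (fun y => pd i (Sop (sl G t)) y + sl (V i) t y) (X (t, x)) = 0 := by
      have hy := hX0 t ht x hx
      simp only [pd_add (hPt.pd _) (hVt _) _ hy, Finset.sum_add_distrib]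
      have := lap_sop hM hGt hGi hy
      rw [hGe _ hy] at this
      unfold lap at this
      linarith
    rw [e2, mul_zero] at e1
    rw [← e1]
    refine Finset.sum_congr rfl fun i _ => pd_congr (fun y hy => ?_) i hx
    have c1 : ∀ j, pd j (sl (fun z : Y => Sop (sl G z.1) (X z)) t) y =
        ∑ k, pd k (Sop (sl G t)) (X (t, y)) * jac (fun b => X (t, b)) y k j := fun j =>
      hD.chain hPt j hy
    have c2 : ∀ k, sl (V k) t (X (t, y)) = wv (jac (fun b => X (t, b)) y) (fun j => h j (t, y)) k :=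
      fun k => by
        show W k (t, Xi (t, X (t, y))) = _
        rw [(hi2 t ht y hy).2.2.1]
        rfl
    simp only [c2]
    rw [← key (hD.pos y hy).ne' (fun k => pd k (Sop (sl G t)) (X (t, y))) (fun j => h j (t, y)) i]
    simp only [← c1]
    rfl

end Pool.Agent.Lib.MP_fbbbeb_an.B
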